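import Pool.Agent.H4.FC.IModDefs
import Pool.Agent.H4.FC.TopL

/-!
# Project FD: definitions

Coxeter groups of FC type (all cliques of the nerve graph are spherical).
-/

set_option autoImplicit false

open Finset

namespace Pool.Agent.H4.FD

open Pool.Agent.H85.Fold Pool.Agent.H4.FC

/-- the number `2 cos (π / m)`, `m` the label of `uv` -/
noncomputable def cc {V : Type} (m : V → V → ℕ) (u v : V) : ℝ :=
  2 * Real.cos (Real.pi / m u v)

/-- the restriction of a Coxeter matrix -/
def rs {V : Type} (M : CoxeterMatrix V) (σ : Finset V) : CoxeterMatrix σ where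
  M := Matrix.of fun u v => M u.1 v.1
  isSymm := by
    ext u v
    exact M.symmetric v.1 u.1
  diagonal u := M.diagonal u.1
  off_diagonal u v h := M.off_diagonal u.1 v.1 fun h' => h (Subtype.ext h')

/-- FC type: every clique of the nerve graph generates a finite parabolic subgroup -/
def IsFC {V : Type} (M : CoxeterMatrix V) : Prop := ∀ σ, Cl (gr M) σ → Sph M σ

/-! ### The subspaces `PP` -/

section PP

variable {V U : Type} [AddCommGroup U] [Module ℝ U]

/-- the relations of operators `J v`, `v ∈ S` -/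
structure JRel (m : V → V → ℕ) (J : V → Module.End ℝ U) (S : Finset V) : Prop where
  sq : ∀ v ∈ S, J v * J v = 1
  rel : ∀ u ∈ S, ∀ v ∈ S, u ≠ v → (J u * J v) ^ m u v = -1

/-- The largest subspace which is stable under the `J v`, `v ∈ T`, and on which
`J u J v + J v J u = 2 cos (π / m u v)` for different `u`, `v ∈ T`. -/
def PP (m : V → V → ℕ) (J : V → Module.End ℝ U) (T : Finset V) : Submodule ℝ U where
  carrier := {y | ∀ l : List V, (∀ w ∈ l, w ∈ T) → ∀ u ∈ T, ∀ v ∈ T, u ≠ v →
    J u (J v ((l.map J).prod y)) + J v (J u ((l.map J).prod y)) =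
      cc m u v • (l.map J).prod y}
  zero_mem' := by
    intro l _ u _ v _ _
    simp
  add_mem' := by
    intro x y hx hy l hl u hu v hv huv
    have h1 := hx l hl u hu v hv huv
    have h2 := hy l hl u hu v hv huv
    simp only [map_add, smul_add]
    rw [← h1, ← h2]
    abel
  smul_mem' := by
    intro r x hx l hl u hu v hv huv
    have h1 := hx l hl u hu v hv huv
    simp only [map_smul]
    rw [smul_comm (cc m u v) r, ← h1, smul_add]

end PP

/-! ### Natural homotopies -/

section LC

variable {V : Type} [DecidableEq V] {U : Type} [AddCommGroup U] [Module ℝ U]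

/-- the differential in the direction of the subsets of `S` -/
def bdS (ν : V → ℕ) (S : Finset V) : (Finset V → U) →ₗ[ℝ] (Finset V → U) where
  toFun z T := ∑ v ∈ S \ T, sgn ν v T • z (insert v T)
  map_add' c c' := by
    funext ρ
    simp [smul_add, Finset.sum_add_distrib]
  map_smul' r c := by
    funext ρ
    simp [Finset.smul_sum, smul_comm r]

/-- the operators of a matrix of noncommutative polynomials, applied to a family of vectors of
degree `b` -/
noncomputable def ap (J : V → Module.End ℝ U) (S : Finset V) (b : ℕ)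
    (h : Finset V → Finset V → FreeAlgebra ℝ V) (z : Finset V → U) (T' : Finset V) : U :=
  ∑ T ∈ S.powerset.filter (fun T => T.card = b), FreeAlgebra.lift ℝ J (h T' T) (z T)

/-- `h`, `φ` are natural homotopies for the complex of the `PP T`, `T ⊆ S`, in degree `b` -/
structure IsLC (m : V → V → ℕ) (ν : V → ℕ) (S : Finset V) (b : ℕ)
    (h φ : Finset V → Finset V → FreeAlgebra ℝ V) : Prop where
  h_mem : ∀ (U : Type) [AddCommGroup U] [Module ℝ U] (J : V → Module.End ℝ U), JRel m J S →
    ∀ T ⊆ S, ∀ T' ⊆ S, T.card = b → T'.card = b + 1 → ∀ y ∈ PP m J T,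
      FreeAlgebra.lift ℝ J (h T' T) y ∈ PP m J T'
  φ_mem : ∀ (U : Type) [AddCommGroup U] [Module ℝ U] (J : V → Module.End ℝ U), JRel m J S →
    ∀ T ⊆ S, ∀ T' ⊆ S, T.card + 1 = b → T'.card = b → ∀ y ∈ PP m J T,
      FreeAlgebra.lift ℝ J (φ T' T) y ∈ PP m J T'
  id : ∀ (U : Type) [AddCommGroup U] [Module ℝ U] (J : V → Module.End ℝ U), JRel m J S →
    ∀ z : Finset V → U, (∀ T, z T ≠ 0 → T ⊆ S ∧ T.card = b) → (∀ T, z T ∈ PP m J T) →
      ∀ T ⊆ S, T.card = b →
        z T = ∑ v ∈ S \ T, sgn ν v T • ap J S b h z (insert v T) +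
          ap J S (b - 1) φ (bdS ν S z) T

/-- There are natural homotopies for the complex of the `PP T`, `T ⊆ S`, in degree `b`. -/
def LC (m : V → V → ℕ) (ν : V → ℕ) (S : Finset V) (b : ℕ) : Prop :=
  ∃ h φ, IsLC m ν S b h φ

end LC

/-! ### The total complexes -/

section Tot

variable {V : Type} [DecidableEq V] [Fintype V]

/-- the total differential -/
def dE {Z : Type} [AddCommGroup Z] [Module ℝ Z] (ν : V → ℕ) (S : Finset V) :
    (Finset V → Finset V → Z) →ₗ[ℝ] (Finset V → Finset V → Z) where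
  toFun x σ T := if S ⊆ σ ∧ T ⊆ S then
    ∑ v ∈ σᶜ, sgn ν v σ • x (insert v σ) T +
      (-1 : ℝ) ^ σ.card • ∑ u ∈ S \ T, sgn ν u T • x σ (insert u T) else 0
  map_add' c c' := by
    funext σ T
    by_cases h : S ⊆ σ ∧ T ⊆ S
    · simp only [Pi.add_apply, if_pos h, smul_add, Finset.sum_add_distrib]
      abel
    · simp [h]
  map_smul' r c := by
    funext σ T
    by_cases h : S ⊆ σ ∧ T ⊆ S
    · simp only [Pi.smul_apply, if_pos h, RingHom.id_apply, smul_add, Finset.smul_sum]
      congr 1
      · exact Finset.sum_congr rfl fun v _ => smul_comm _ _ _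
      · refine Finset.sum_congr rfl fun v _ => ?_
        rw [smul_comm r, smul_comm r]
    · simp [h]

variable {N X : Type} [Fintype N] [DecidableEq N] [AddCommGroup X] [Module ℝ X]

omit [DecidableEq V] [Fintype V] [DecidableEq N] in
/-- the operators `J v` on functions with values in `X` -/
def actJ (X : Type) [AddCommGroup X] [Module ℝ X] (J : V → Matrix N N ℝ) (v : V) :
    Module.End ℝ (N → X) := actL (J v)

/-- Elements of degree `i` of the total complex of the simplices `σ ⊇ S` and the subsets `T ⊆ S`,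
with values in the kernels of the `e v`, `v ∈ σ`, and in `PP (T ∪ (σ ∩ A))`. -/
structure IsE (G : SimpleGraph V) (e : V → X →ₗ[ℝ] X) (m : V → V → ℕ) (J : V → Matrix N N ℝ)
    (A S : Finset V) (i : ℕ) (x : Finset V → Finset V → N → X) : Prop where
  supp : ∀ σ T, x σ T ≠ 0 → S ⊆ σ ∧ T ⊆ S ∧ Cl G σ ∧ σ.card + T.card = i + S.card
  ker : ∀ σ T, ∀ v ∈ σ, ∀ ω, e v (x σ T ω) = 0
  mem : ∀ σ T, x σ T ∈ PP m (actJ X J) (T ∪ (σ ∩ A))

end Tot

/-- Quantitative exactness of the total complexes in degree `i`. -/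
def QF {V X : Type} [DecidableEq V] [Fintype V] [NormedAddCommGroup X] [NormedSpace ℝ X]
    (ν : V → ℕ) (G : SimpleGraph V) (e : V → X →ₗ[ℝ] X) (m : V → V → ℕ) (κ : ℝ)
    (A S : Finset V) (i : ℕ) : Prop :=
  ∃ C : ℝ, 0 ≤ C ∧ ∀ (N : Type) [Fintype N] [DecidableEq N] (J : V → Matrix N N ℝ),
    IsRep G m κ J → ∀ x : Finset V → Finset V → N → X, IsE G e m J A S i x →
      ∃ y : Finset V → Finset V → N → X, IsE G e m J A S (i + 1) y ∧ ‖y‖ ≤ C * ‖x‖ ∧
        ‖x - dE ν S y‖ ≤ C * ‖dE ν S x‖

end Pool.Agent.H4.FD
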