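import Pool.Agent.H85.Fold3.ArrN
import Pool.Agent.H85.Fold3.SubSphere
import Pool.Agent.H85.Fold4.Base

/-!
# Project FD: the statement of the main theorem
-/

set_option autoImplicit false

open Finset

namespace Pool.Agent.H4.FD

open Pool.Agent.H85.Fold Pool.Agent.H85.Fold2 Pool.Agent.H85.Fold3 Pool.Agent.H85.Fold4

/-- The complexes of the real, essential simplicial hyperplane arrangements in `ℝⁿ`, and all
complexes obtained from them by edge subdivisions (as graphs; the complex is the flag complex). -/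
inductive SubArrangement : ∀ {W : Type}, SimpleGraph W → ℕ → Prop
  | arr {W : Type} [Finite W] (H : SimpleGraph W) (n m : ℕ) (h : Fin m → Fin n → ℝ)
      (r : W → Fin n → ℝ) (hH : Arrangement H n h r) : SubArrangement H n
  | subdiv {W : Type} (H : SimpleGraph W) (n : ℕ) (u w : W) (huw : H.Adj u w) :
      SubArrangement H n → SubArrangement (edgeSubdiv H u w) n

/-- Folded spheres: edge subdivisions of simplicial arrangements, and homology spheres of dimension
`n - 1` with vectors `(p v, a v)` in some `ℝ^{n,m}` which are isotropic, orthogonal for adjacent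
vertices, and have negative products for nonadjacent vertices. -/
def FoldedSphere {W : Type} [DecidableEq W] [Fintype W] (H : SimpleGraph W) (n : ℕ) : Prop :=
  SubArrangement H n ∨ (HomologySphere H n ∧
    ∃ (m : ℕ) (p : W → Fin n → ℝ) (a : W → Fin m → ℝ),
      (∀ u v, u = v ∨ H.Adj u v → p u ⬝ᵥ p v = a u ⬝ᵥ a v) ∧
        ∀ u v, u ≠ v → ¬ H.Adj u v → p u ⬝ᵥ p v < a u ⬝ᵥ a v)

section

variable {W : Type} {H : SimpleGraph W}

private theorem st_cl {σ : Finset W} : Cl H σ ↔ H.IsClique (σ : Set W) :=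
  ⟨fun h _ ha _ hb => h _ (Finset.mem_coe.1 ha) _ (Finset.mem_coe.1 hb),
    fun h _ ha _ hb => h (Finset.mem_coe.2 ha) (Finset.mem_coe.2 hb)⟩

private theorem st_link [DecidableEq W] {ρ : Finset W} {j : ℕ} {z : Finset W → ℝ} :
    LinkChain H ρ j z ↔ LinkCh H ρ j z := by
  unfold LinkChain LinkCh
  simp only [st_cl]

private theorem st_sphere [DecidableEq W] [Fintype W] {n : ℕ} (h : HomologySphere H n) :
    IsHomologySphere H n := by
  refine ⟨fun σ hσ => h.dim σ (st_cl.1 hσ), ?_, ?_⟩
  · intro ν hν ρ hρ j hj z hz hz0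
    obtain ⟨y, hy, hyz⟩ := h.low ν hν ρ (st_cl.1 hρ) j hj z (st_link.1 hz) hz0
    exact ⟨y, st_link.2 hy, hyz⟩
  · intro ν hν ρ hρ j hj
    obtain ⟨o, ho, ho0, hne, hu⟩ := h.top ν hν ρ (st_cl.1 hρ) j hj
    exact ⟨o, st_link.2 ho, ho0, hne, fun z hz hz0 => hu z (st_link.1 hz) hz0⟩

private theorem st_arr {n m : ℕ} {h : Fin m → Fin n → ℝ} {r : W → Fin n → ℝ}
    (A : Arrangement H n h r) : IsArrangementR H n h r := by
  refine ⟨A.adj, fun σ hσ => A.indep σ (st_cl.1 hσ), fun x => ?_⟩
  obtain ⟨σ, c, hσ, hc, hx⟩ := A.cover x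
  exact ⟨σ, c, st_cl.2 hσ, hc, hx⟩

private theorem st_subdiv (u w : W) : edgeSubdiv H u w = subdiv H u w := by
  ext x y
  rcases x with _ | a <;> rcases y with _ | b <;> exact Iff.rfl

theorem SubArrangement.isFoldSphereN {n : ℕ} (h : SubArrangement H n) :
    ∀ [DecidableEq W] [Fintype W], IsFoldSphereN H n := by
  induction h with
  | arr H n m h r hH =>
    intro _ _
    exact (st_arr hH).isFoldSphereN
  | @subdiv W H n u w huw _ ih =>
    intro d f
    classical
    have : Finite W := Finite.of_injective (Option.some (α := W)) (Option.some_injective W)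
    let _ : Fintype W := Fintype.ofFinite W
    obtain rfl : f = instFintypeOption := Subsingleton.elim _ _
    obtain rfl : d = Option.instDecidableEq := Subsingleton.elim _ _
    rw [st_subdiv]
    exact IsFoldSphereN.subdiv (H := H) (n := n) ih huw

theorem FoldedSphere.isFoldSphere [DecidableEq W] [Fintype W] {n : ℕ}
    (h : FoldedSphere H n) : IsFoldSphere H n := by
  rcases h with h | ⟨h, m, p, a, h0, h1⟩
  · exact h.isFoldSphereN.isFoldSphere
  · exact ⟨st_sphere h, m, p, a, h0, h1⟩

end

end Pool.Agent.H4.FD
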