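import Pool.Agent.H4.FC.FinalL
import Pool.Agent.H4.FD.IModExP

/-!
# Project FD: the main theorem
-/

set_option autoImplicit false

open Finset

namespace Pool.Agent.H4.FD

open Pool.Agent.H85.Fold Pool.Agent.H85.Fold2 Pool.Agent.H4.FC

variable {V : Type} [DecidableEq V] [Fintype V]

/-- **The main theorem.** -/
theorem mainP {W : Type} [DecidableEq W] [Fintype W] (M : CoxeterMatrix V) (hM : IsFC M)
    (n : ℕ) (H : SimpleGraph W) (hH : IsFoldSphere H n) (φ : V → W)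
    (hφ : Function.Injective φ) (hadj : ∀ u v, (gr M).Adj u v ↔ H.Adj (φ u) (φ v)) (i : ℕ)
    (hi : n < 2 * i ∨ (Function.Surjective φ ∧ 2 * i ≠ n)) : L2HomologyZero M i := by
  intro ν hν z hz hdz ε hε
  obtain ⟨ρ, hne, hex⟩ := exists_imodP M hM n H hH φ hφ hadj hν i hi
  have hS : ∀ σ, Sph M σ ↔ Cl (gr M) σ := fun σ => ⟨sph_cl M σ, hM σ⟩
  have h0 := harm_zeroL M hS hν i ρ (fun η hη => growL ρ ν i hex η hη)
  exact l2_hodgeL M ν hν i h0 z hz hdz ε hε

end Pool.Agent.H4.FD
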