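import Pool.Agent.H4.FD.Coch

/-!
# Project FD: averaging over the finite Coxeter group

Setting as in `Pool.Agent.H4.FD.Coch`; `W = M.Group` finite, `wd w` a word for `w`, `cw`, `ct` the choice for
cliques. For a linear map `X` on the chains `Finset C → F` let
`gX X z σ k = ∑ ρ, A (cw ρ) f_{z (ct ρ)} (X (Pi.single σ k) ρ)` and
`Gav X z T = (1/|W|) ∑ w, A w (gX X z (fc w⁻¹ T))`.

(a) `Gav_inv`: `A s (A w f) = A (s w) f`; reindex `w' = s w`, `fc w⁻¹ T = fc (w'⁻¹ s) T = fc w'⁻¹ T` by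
`mul_par` (`simple_mem_par`).
(b) `Gav_mem`: `f = Gav X z T` satisfies `J s (f (Θ s k)) = f k` for `s ∈ T` (`A_simple`), so (put `Θ s k` for
`k`, `fock.sq`) `f (Θ s k) = J s (f k)`; `PP_map` for `f` maps `PP Θ T` to `PP J T`, and `PP Θ T = ⊤`: the
relations of `IsFock` hold for all vectors (`rel`).
(c) `hpol_eq`: insert the formula `IsHR` for `w = wordProd (wd w)` and `cw σ = wordProd (wd (cw σ))`,
`lift J` is multiplicative, `lift_list`, `FreeAlgebra.lift` of sums and multiples; exchange sums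
(`∑ T, ∑ σ with ct σ = T = ∑ σ`).
(d) `key_id`. Let `T.card = b`, `b + j = card S`. For `w : W`, `σ = fc w⁻¹ T` is a clique with `j` elements.
For `k` with `E q k = 0`, `q ∈ σ`, the chain `Pi.single σ k` has degree `j`, so
`Pi.single σ k = bd νC (H (Pi.single σ k)) + Φ (bd νC (Pi.single σ k))`. Apply
`x ↦ ∑ ρ, A (cw ρ) f_{z (ct ρ)} (x ρ)`: the left hand side is `A (cw σ) f_{z (ct σ)} k = A w⁻¹ f_{z T} k` by
`coch_eq` (`ct σ = T` by `hX.eq`); the first term on the right is `gX H (bdC ν z) σ k` by `coch_bd`; and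
`bd νC (Pi.single σ k) = ∑ q ∈ σ, sgn νC q (σ.erase q) • Pi.single (σ.erase q) k`, which by `sgn_fc` (the
elements of `σ` are the `cr w⁻¹ v`, `v ∉ T`) gives
`∑ v ∈ Tᶜ, sgn ν v (insert v T)ᶜ • gX Φ z (fc w⁻¹ (insert v T)) k`. So the linear maps
`A w⁻¹ f_{z T}` and `gX H (bdC ν z) (fc w⁻¹ T) + ∑ v ∈ Tᶜ, sgn … • gX Φ z (fc w⁻¹ (insert v T))` agree
on the common kernel for `fc w⁻¹ T`. Apply `A w` (`A_congr`, `A w (A w⁻¹ f) = f`) and evaluate at `δ`, which
is in the common kernel for `fc 1 T = fc (w * w⁻¹) T` (`vac`, `Dδ`); `f_{z T} δ = z T` (`IsFk.one`).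
Average over `w`.
-/

set_option autoImplicit false

open Finset

namespace Pool.Agent.H4.FD

open Pool.Agent.H85.Fold Pool.Agent.H4.FC

section

variable {S : Type} [Fintype S] [DecidableEq S] {M : CoxeterMatrix S} {ν : S → ℕ}
  {C : Type} [DecidableEq C] [Fintype C] {G : SimpleGraph C} {νC : C → ℕ}
  {cr : M.Group → S → C} {fc : M.Group → Finset S → Finset C}
  {F : Type} [AddCommGroup F] [Module ℝ F] {E : C → F →ₗ[ℝ] F}
  {Θ D : S → Module.End ℝ F} {δ : F} {fk : F →ₗ[ℝ] FreeAlgebra ℝ S}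
  {U : Type} [AddCommGroup U] [Module ℝ U] {J : S → Module.End ℝ U}
  {A : M.Group →* Module.End ℝ (F →ₗ[ℝ] U)}

/-- the pairing of a cochain with `X (σ ⊗ k)` -/
noncomputable def gX (fk : F →ₗ[ℝ] FreeAlgebra ℝ S) (J : S → Module.End ℝ U)
    (A : M.Group →* Module.End ℝ (F →ₗ[ℝ] U)) (cw : Finset C → M.Group)
    (ct : Finset C → Finset S) (X : (Finset C → F) →ₗ[ℝ] (Finset C → F))
    (z : Finset S → U) (σ : Finset C) : F →ₗ[ℝ] U :=
  ∑ ρ, (A (cw ρ) (fyl fk J (z (ct ρ)))).comp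
    ((LinearMap.proj ρ).comp (X.comp (LinearMap.single ℝ (fun _ => F) σ)))

/-- the average -/
noncomputable def Gav (fk : F →ₗ[ℝ] FreeAlgebra ℝ S) (J : S → Module.End ℝ U)
    (A : M.Group →* Module.End ℝ (F →ₗ[ℝ] U)) (cw : Finset C → M.Group)
    (ct : Finset C → Finset S) (fc : M.Group → Finset S → Finset C) [Fintype M.Group]
    (X : (Finset C → F) →ₗ[ℝ] (Finset C → F)) (z : Finset S → U) (T : Finset S) : F →ₗ[ℝ] U :=
  (1 / (Fintype.card M.Group : ℝ)) • ∑ w : M.Group, A w (gX fk J A cw ct X z (fc w⁻¹ T))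

/-- the polynomials -/
noncomputable def hpol (fk : F →ₗ[ℝ] FreeAlgebra ℝ S) (Θ : S → Module.End ℝ F) (δ : F)
    (cw : Finset C → M.Group) (ct : Finset C → Finset S) (fc : M.Group → Finset S → Finset C)
    [Fintype M.Group] (wd : M.Group → List S) (X : (Finset C → F) →ₗ[ℝ] (Finset C → F))
    (T' T : Finset S) : FreeAlgebra ℝ S :=
  (1 / (Fintype.card M.Group : ℝ)) • ∑ w : M.Group, ∑ σ ∈ univ.filter (fun σ => ct σ = T),
    (((wd w).map (FreeAlgebra.ι ℝ)).prod * ((wd (cw σ)).map (FreeAlgebra.ι ℝ)).prod) *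
      fk (((wd (cw σ)).reverse.map Θ).prod
        (X (Pi.single (fc w⁻¹ T') (((wd w).reverse.map Θ).prod δ)) σ))

omit [Fintype S] [DecidableEq S] in
private theorem avg_gX_apply (fk : F →ₗ[ℝ] FreeAlgebra ℝ S) (J : S → Module.End ℝ U)
    (A : M.Group →* Module.End ℝ (F →ₗ[ℝ] U)) (cw : Finset C → M.Group)
    (ct : Finset C → Finset S) (X : (Finset C → F) →ₗ[ℝ] (Finset C → F))
    (z : Finset S → U) (σ : Finset C) (k : F) :
    gX fk J A cw ct X z σ k =
      ∑ ρ, A (cw ρ) (fyl fk J (z (ct ρ))) (X (Pi.single σ k) ρ) := by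
  unfold gX
  rw [LinearMap.sum_apply]
  rfl

theorem Gav_inv [Fintype M.Group] (hX : IsCox M ν G νC cr fc E Θ D δ) (cw : Finset C → M.Group)
    (ct : Finset C → Finset S) (X : (Finset C → F) →ₗ[ℝ] (Finset C → F)) (z : Finset S → U)
    (T : Finset S) (s : S) (hs : s ∈ T) :
    A (M.simple s) (Gav fk J A cw ct fc X z T) = Gav fk J A cw ct fc X z T := by
  unfold Gav
  rw [map_smul, map_sum]
  congr 1
  refine Fintype.sum_equiv (Equiv.mulLeft (M.simple s)) _ _ fun w => ?_
  rw [Equiv.coe_mulLeft, mul_inv_rev, simple_inv,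
    hX.mul_par w⁻¹ T (M.simple s) (simple_mem_par M hs), map_mul]
  rfl

theorem Gav_mem [Fintype M.Group] (hX : IsCox M ν G νC cr fc E Θ D δ) (hA : IsHR M Θ J A)
    (hJ : JRel (fun u v => M u v) J univ) (cw : Finset C → M.Group)
    (ct : Finset C → Finset S) (X : (Finset C → F) →ₗ[ℝ] (Finset C → F)) (z : Finset S → U)
    (T : Finset S) : Gav fk J A cw ct fc X z T δ ∈ PP (fun u v => M u v) J T := by
  have h1 : ∀ s ∈ T, ∀ k, Gav fk J A cw ct fc X z T (Θ s k) =
      J s (Gav fk J A cw ct fc X z T k) := by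
    intro s hs k
    have h2 := Gav_inv (fk := fk) (J := J) (A := A) hX cw ct X z T s hs
    have h3 := A_simple hA s (Gav fk J A cw ct fc X z T) (Θ s k)
    rw [h2] at h3
    rw [h3]
    have h4 : Θ s (Θ s k) = k := by
      have h5 := congrArg (fun L : Module.End ℝ F => L k) (hX.fock.sq s)
      exact h5
    rw [h4]
  have h2 : δ ∈ PP (fun u v => M u v) Θ T := by
    intro l _ u _ v _ huv
    have h5 := congrArg (fun L : Module.End ℝ F => L ((l.map Θ).prod δ))
      (hX.fock.rel u v huv)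
    exact h5
  exact PP_map (Gav fk J A cw ct fc X z T) h1 h2

theorem hpol_eq [Fintype M.Group] (hA : IsHR M Θ J A) (cw : Finset C → M.Group)
    (ct : Finset C → Finset S) {wd : M.Group → List S}
    (hwd : ∀ w, M.toCoxeterSystem.wordProd (wd w) = w)
    (X : (Finset C → F) →ₗ[ℝ] (Finset C → F)) (z : Finset S → U) (T' : Finset S) :
    ∑ T, FreeAlgebra.lift ℝ J (hpol fk Θ δ cw ct fc wd X T' T) (z T) =
      Gav fk J A cw ct fc X z T' δ := by
  classical
  have hw : ∀ (w : M.Group) (f : F →ₗ[ℝ] U) (k : F),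
      A w f k = ((wd w).map J).prod (f (((wd w).reverse.map Θ).prod k)) := by
    intro w f k
    have h1 := hA (wd w) f k
    rw [hwd w] at h1
    exact h1
  have hR : Gav fk J A cw ct fc X z T' δ = (1 / (Fintype.card M.Group : ℝ)) •
      ∑ w : M.Group, ∑ σ, ((wd w).map J).prod (((wd (cw σ)).map J).prod
        (FreeAlgebra.lift ℝ J (fk (((wd (cw σ)).reverse.map Θ).prod
          (X (Pi.single (fc w⁻¹ T') (((wd w).reverse.map Θ).prod δ)) σ))) (z (ct σ)))) := by
    unfold Gav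
    rw [LinearMap.smul_apply, LinearMap.sum_apply]
    congr 1
    refine Finset.sum_congr rfl fun w _ => ?_
    rw [hw w, avg_gX_apply, map_sum]
    refine Finset.sum_congr rfl fun σ _ => ?_
    rw [hw (cw σ)]
    rfl
  have hL : ∀ T, FreeAlgebra.lift ℝ J (hpol fk Θ δ cw ct fc wd X T' T) (z T) =
      (1 / (Fintype.card M.Group : ℝ)) • ∑ w : M.Group, ∑ σ ∈ univ.filter (fun σ => ct σ = T),
        ((wd w).map J).prod (((wd (cw σ)).map J).prod
        (FreeAlgebra.lift ℝ J (fk (((wd (cw σ)).reverse.map Θ).prod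
          (X (Pi.single (fc w⁻¹ T') (((wd w).reverse.map Θ).prod δ)) σ))) (z T))) := by
    intro T
    unfold hpol
    rw [map_smul, map_sum, LinearMap.smul_apply, LinearMap.sum_apply]
    congr 1
    refine Finset.sum_congr rfl fun w _ => ?_
    rw [map_sum, LinearMap.sum_apply]
    refine Finset.sum_congr rfl fun σ _ => ?_
    rw [map_mul, map_mul, lift_list, lift_list]
    rfl
  rw [hR]
  simp only [hL]
  rw [← Finset.smul_sum, Finset.sum_comm]
  congr 1
  refine Finset.sum_congr rfl fun w _ => ?_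
  rw [← Finset.sum_fiberwise (s := (univ : Finset (Finset C))) (g := ct)]
  refine Finset.sum_congr rfl fun T _ => ?_
  refine Finset.sum_congr rfl fun σ hσ => ?_
  rw [(Finset.mem_filter.mp hσ).2]

private theorem avg_bd_single (νC : C → ℕ) (σ : Finset C) (k : F) :
    bd νC (Pi.single σ k : Finset C → F) =
      ∑ q ∈ σ, sgn νC q (σ.erase q) • (Pi.single (σ.erase q) k : Finset C → F) := by
  funext ρ
  have h0 : bd νC (Pi.single σ k : Finset C → F) ρ =
      ∑ v ∈ ρᶜ, sgn νC v ρ • (Pi.single σ k : Finset C → F) (insert v ρ) := rfl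
  rw [h0, Finset.sum_apply]
  have h1 : ∑ v ∈ ρᶜ, sgn νC v ρ • (Pi.single σ k : Finset C → F) (insert v ρ) =
      ∑ v, if v ∉ ρ ∧ insert v ρ = σ then sgn νC v ρ • k else 0 := by
    rw [← Finset.sum_subset (Finset.subset_univ (ρᶜ))]
    · refine Finset.sum_congr rfl fun v hv => ?_
      have h2 : v ∉ ρ := Finset.mem_compl.mp hv
      rw [Pi.single_apply]
      by_cases h3 : insert v ρ = σ
      · rw [if_pos h3, if_pos ⟨h2, h3⟩]
      · rw [if_neg h3, if_neg (fun h => h3 h.2), smul_zero]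
    · intro v _ hv
      rw [if_neg]
      rintro ⟨h2, _⟩
      exact hv (Finset.mem_compl.mpr h2)
  have h2 : ∑ q ∈ σ, (sgn νC q (σ.erase q) • (Pi.single (σ.erase q) k : Finset C → F)) ρ =
      ∑ v, if v ∉ ρ ∧ insert v ρ = σ then sgn νC v ρ • k else 0 := by
    rw [← Finset.sum_subset (Finset.subset_univ σ)]
    · refine Finset.sum_congr rfl fun v hv => ?_
      rw [Pi.smul_apply, Pi.single_apply]
      by_cases h3 : ρ = σ.erase v
      · rw [if_pos h3, if_pos, ← h3]
        rw [h3]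
        exact ⟨Finset.notMem_erase v σ, Finset.insert_erase hv⟩
      · rw [if_neg h3, smul_zero, if_neg]
        rintro ⟨h4, h5⟩
        apply h3
        rw [← h5, Finset.erase_insert h4]
    · intro v _ hv
      rw [if_neg]
      rintro ⟨_, h3⟩
      apply hv
      rw [← h3]
      exact Finset.mem_insert_self v ρ
  rw [h1, h2]

private theorem avg_card (hX : IsCox M ν G νC cr fc E Θ D δ) (w : M.Group) (T : Finset S) :
    (fc w T).card + T.card = Fintype.card S := by
  rw [hX.fc_def, Finset.card_image_of_injective _ (hX.inj w), Finset.card_compl]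
  have := Finset.card_le_univ T
  omega

private theorem avg_key [Fintype M.Group] (hX : IsCox M ν G νC cr fc E Θ D δ)
    (hfk : IsFk (fun u v => M u v) Θ D δ fk) (hA : IsHR M Θ J A)
    (hJ : JRel (fun u v => M u v) J univ) (cw : Finset C → M.Group) (ct : Finset C → Finset S)
    (hct : ∀ σ, Cl G σ → σ = fc (cw σ) (ct σ)) {j b : ℕ} (hb : b + j = Fintype.card S)
    {H Φ : (Finset C → F) →ₗ[ℝ] (Finset C → F)} (hH : ∀ x, IsF G E ⊤ univ (j + 1) (H x))
    (hid : ∀ x : Finset C → F, IsF G E ⊤ univ j x → x = bd νC (H x) + Φ (bd νC x))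
    (z : Finset S → U) (hz : ∀ T, z T ∈ PP (fun u v => M u v) J T) (T : Finset S)
    (hT : T.card = b) (w : M.Group) (k : F) (hk : ∀ q ∈ fc w T, E q k = 0) :
    A w (fyl fk J (z T)) k = gX fk J A cw ct H (bdC ν z) (fc w T) k +
      ∑ v ∈ Tᶜ, sgn ν v (insert v T)ᶜ • gX fk J A cw ct Φ z (fc w (insert v T)) k := by
  classical
  have hcl : Cl G (fc w T) := (hX.cl _).mpr ⟨w, T, rfl⟩
  have hcard : (fc w T).card = j := by
    have := avg_card hX w T
    omega
  have hx : IsF G E ⊤ univ j (Pi.single (fc w T) k : Finset C → F) := by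
    refine ⟨fun _ => Submodule.mem_top, fun σ q hq => ?_, fun σ hσ => ?_⟩
    · by_cases h1 : σ = fc w T
      · subst h1
        rw [Pi.single_eq_same]
        exact hk q hq
      · rw [Pi.single_eq_of_ne h1, map_zero]
    · by_cases h1 : σ = fc w T
      · subst h1
        exact ⟨Finset.subset_univ _, hcl, hcard⟩
      · exact (hσ (by rw [Pi.single_eq_of_ne h1])).elim
  have h0 := hid _ hx
  have hL : ∑ ρ, A (cw ρ) (fyl fk J (z (ct ρ))) ((Pi.single (fc w T) k : Finset C → F) ρ) =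
      ∑ ρ, A (cw ρ) (fyl fk J (z (ct ρ))) (bd νC (H (Pi.single (fc w T) k)) ρ) +
      ∑ ρ, A (cw ρ) (fyl fk J (z (ct ρ))) (Φ (bd νC (Pi.single (fc w T) k)) ρ) := by
    rw [← Finset.sum_add_distrib]
    refine Finset.sum_congr rfl fun ρ _ => ?_
    rw [← map_add]
    congr 1
    exact congrFun h0 ρ
  have hL1 : ∑ ρ, A (cw ρ) (fyl fk J (z (ct ρ)))
      ((Pi.single (fc w T) k : Finset C → F) ρ) = A w (fyl fk J (z T)) k := by
    rw [Finset.sum_eq_single (fc w T)]
    · rw [Pi.single_eq_same]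
      have h1 : fc w T = fc (cw (fc w T)) (ct (fc w T)) := hct _ hcl
      have h2 : T = ct (fc w T) := (hX.eq _ _ _ _ h1).1
      have h3 := coch_eq hX hfk hA hJ h1 (z T) (hz T) k hk
      rw [← h2]
      exact h3
    · intro ρ _ hρ
      rw [Pi.single_eq_of_ne hρ, map_zero]
    · intro h
      exact absurd (Finset.mem_univ _) h
  have hL2 : ∑ ρ, A (cw ρ) (fyl fk J (z (ct ρ))) (bd νC (H (Pi.single (fc w T) k)) ρ) =
      gX fk J A cw ct H (bdC ν z) (fc w T) k := by
    rw [coch_bd hX hfk hA hJ cw ct hct z hz (j + 1) _ (hH _), avg_gX_apply]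
  have hL3 : ∑ ρ, A (cw ρ) (fyl fk J (z (ct ρ))) (Φ (bd νC (Pi.single (fc w T) k)) ρ) =
      ∑ v ∈ Tᶜ, sgn ν v (insert v T)ᶜ • gX fk J A cw ct Φ z (fc w (insert v T)) k := by
    have h1 : ∀ ρ, A (cw ρ) (fyl fk J (z (ct ρ))) (Φ (bd νC (Pi.single (fc w T) k)) ρ) =
        ∑ q ∈ fc w T, sgn νC q ((fc w T).erase q) •
          A (cw ρ) (fyl fk J (z (ct ρ))) (Φ (Pi.single ((fc w T).erase q) k) ρ) := by
      intro ρ
      rw [avg_bd_single, map_sum, Finset.sum_apply, map_sum]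
      refine Finset.sum_congr rfl fun q _ => ?_
      rw [map_smul, Pi.smul_apply, map_smul]
    simp only [h1]
    rw [Finset.sum_comm]
    have h2 : ∀ q, ∑ ρ, sgn νC q ((fc w T).erase q) •
        A (cw ρ) (fyl fk J (z (ct ρ))) (Φ (Pi.single ((fc w T).erase q) k) ρ) =
        sgn νC q ((fc w T).erase q) • gX fk J A cw ct Φ z ((fc w T).erase q) k := by
      intro q
      rw [avg_gX_apply, Finset.smul_sum]
    simp only [h2]
    have h3 : ∑ q ∈ fc w T, sgn νC q ((fc w T).erase q) •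
        gX fk J A cw ct Φ z ((fc w T).erase q) k =
        ∑ q ∈ Tᶜ.image (cr w), sgn νC q ((fc w T).erase q) •
        gX fk J A cw ct Φ z ((fc w T).erase q) k :=
      Finset.sum_congr (hX.fc_def w T) fun _ _ => rfl
    rw [h3, Finset.sum_image fun a _ b _ h => hX.inj w h]
    refine Finset.sum_congr rfl fun v hv => ?_
    obtain ⟨h4, h5⟩ := sgn_fc hX w T v (Finset.mem_compl.mp hv)
    rw [h4, h5]
  rw [← hL1, hL, hL2, hL3]

theorem key_id [Fintype M.Group] (hX : IsCox M ν G νC cr fc E Θ D δ)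
    (hfk : IsFk (fun u v => M u v) Θ D δ fk) (hA : IsHR M Θ J A)
    (hJ : JRel (fun u v => M u v) J univ) (cw : Finset C → M.Group) (ct : Finset C → Finset S)
    (hct : ∀ σ, Cl G σ → σ = fc (cw σ) (ct σ)) {j b : ℕ} (hb : b + j = Fintype.card S)
    {H Φ : (Finset C → F) →ₗ[ℝ] (Finset C → F)} (hH : ∀ x, IsF G E ⊤ univ (j + 1) (H x))
    (hid : ∀ x : Finset C → F, IsF G E ⊤ univ j x → x = bd νC (H x) + Φ (bd νC x))
    (z : Finset S → U) (hz : ∀ T, z T ∈ PP (fun u v => M u v) J T) (T : Finset S)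
    (hT : T.card = b) :
    z T = ∑ v ∈ Tᶜ, sgn ν v (insert v T)ᶜ • Gav fk J A cw ct fc Φ z (insert v T) δ +
      Gav fk J A cw ct fc H (bdC ν z) T δ := by
  classical
  have hw : ∀ w : M.Group, z T =
      ∑ v ∈ Tᶜ, sgn ν v (insert v T)ᶜ •
        (A w (gX fk J A cw ct Φ z (fc w⁻¹ (insert v T)))) δ +
      (A w (gX fk J A cw ct H (bdC ν z) (fc w⁻¹ T))) δ := by
    intro w
    have h1 := A_congr hX hA w w⁻¹ T (A w⁻¹ (fyl fk J (z T)))
      (gX fk J A cw ct H (bdC ν z) (fc w⁻¹ T) +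
        ∑ v ∈ Tᶜ, sgn ν v (insert v T)ᶜ • gX fk J A cw ct Φ z (fc w⁻¹ (insert v T)))
      (fun k hk => by
        rw [avg_key hX hfk hA hJ cw ct hct hb hH hid z hz T hT w⁻¹ k hk,
          LinearMap.add_apply, LinearMap.sum_apply]
        rfl)
      δ (by
        rw [mul_inv_cancel]
        exact (hX.vac T δ).mpr fun v _ => hX.fock.Dδ v)
    have h2 : A w (A w⁻¹ (fyl fk J (z T))) = fyl fk J (z T) := by
      have h3 : A w * A w⁻¹ = 1 := by rw [← map_mul, mul_inv_cancel, map_one]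
      exact congrArg (fun L : Module.End ℝ (F →ₗ[ℝ] U) => L (fyl fk J (z T))) h3
    have h3 : fyl fk J (z T) δ = z T := by
      show FreeAlgebra.lift ℝ J (fk δ) (z T) = z T
      rw [hfk.one, map_one]
      rfl
    rw [h2, h3, map_add, LinearMap.add_apply, map_sum, LinearMap.sum_apply] at h1
    rw [h1, add_comm]
    congr 1
    refine Finset.sum_congr rfl fun v _ => ?_
    rw [map_smul, LinearMap.smul_apply]
  have hcard : (Fintype.card M.Group : ℝ) ≠ 0 := by
    have : 0 < Fintype.card M.Group := Fintype.card_pos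
    positivity
  have hG : ∀ (X : (Finset C → F) →ₗ[ℝ] (Finset C → F)) (z : Finset S → U) (T : Finset S),
      Gav fk J A cw ct fc X z T δ = (1 / (Fintype.card M.Group : ℝ)) •
        ∑ w : M.Group, (A w (gX fk J A cw ct X z (fc w⁻¹ T))) δ := by
    intro X z T
    unfold Gav
    rw [LinearMap.smul_apply, LinearMap.sum_apply]
  have h1 : z T = (1 / (Fintype.card M.Group : ℝ)) • ∑ _w : M.Group, z T := by
    rw [Finset.sum_const, Finset.card_univ, ← Nat.cast_smul_eq_nsmul ℝ, smul_smul,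
      one_div_mul_cancel hcard, one_smul]
  rw [h1, Finset.sum_congr rfl fun w _ => hw w, Finset.sum_add_distrib, smul_add]
  rw [hG H]
  congr 1
  rw [Finset.sum_comm, Finset.smul_sum]
  refine Finset.sum_congr rfl fun v _ => ?_
  rw [hG Φ, ← Finset.smul_sum, smul_comm]

end

end Pool.Agent.H4.FD
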