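import Pool.Agent.H4.FD.PPlem

/-!
# Project FD: the total differential

`dE_dE`: at `(σ, T)` with `S ⊆ σ`, `T ⊆ S` no term is truncated (`S ⊆ insert v σ`, `insert u T ⊆ S`):
`d₁ d₁ = 0` and `d₂ d₂ = 0` by `sgn_swap'` below (`bd_bd` in `Pool.Agent.H85.Fold.Sgn` may be used
for the first: `∑ v ∈ σᶜ, sgn ν v σ • c (insert v σ) = bd ν c σ`), and
`d₁ (±) d₂ + (±) d₂ d₁ = 0` since the sign `(-1) ^ σ.card` changes. The sign rule
`sgn ν u (insert v T) * sgn ν v T = - (sgn ν v (insert u T) * sgn ν u T)` for `u ≠ v`, `u, v ∉ T`, is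
in `Pool.Agent.H85.Fold.Sgn` (or prove it: exactly one of `ν u < ν v`, `ν v < ν u`).

`IsE.dE`: supports: if `σ.card + T.card = i + S.card` does not hold then all terms vanish
(`card_insert_of_notMem`); `ker`: `v ∈ σ → v ∈ insert w σ`; `mem`: `PP_mono` for
`T ∪ (σ ∩ A) ⊆ T ∪ (insert w σ ∩ A)` and `⊆ insert u T ∪ (σ ∩ A)`, and submodule operations.

`norm_dE_le`: sup norms; every value is the sum of at most `|V|` terms of each kind.
-/

set_option autoImplicit false

open Finset

namespace Pool.Agent.H4.FD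

open Pool.Agent.H85.Fold Pool.Agent.H4.FC

variable {V : Type} [DecidableEq V] [Fintype V]

theorem sgn_swap' {ν : V → ℕ} (hν : Function.Injective ν) {u v : V} (huv : u ≠ v)
    {T : Finset V} (hu : u ∉ T) (hv : v ∉ T) :
    sgn ν u (insert v T) * sgn ν v T = -(sgn ν v (insert u T) * sgn ν u T) :=
  sgn_swap ν hν v u huv.symm T hv hu

private theorem DE_eq {Z : Type} [AddCommGroup Z] [Module ℝ Z] (ν : V → ℕ) (S : Finset V)
    (x : Finset V → Finset V → Z) (σ T : Finset V) :
    dE ν S x σ T = if S ⊆ σ ∧ T ⊆ S then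
      ∑ v ∈ σᶜ, sgn ν v σ • x (insert v σ) T +
        (-1 : ℝ) ^ σ.card • ∑ u ∈ S \ T, sgn ν u T • x σ (insert u T) else 0 := rfl

theorem dE_dE {Z : Type} [AddCommGroup Z] [Module ℝ Z] {ν : V → ℕ} (hν : Function.Injective ν)
    (S : Finset V) (x : Finset V → Finset V → Z) : dE ν S (dE ν S x) = 0 := by
  funext σ T
  rw [DE_eq]
  split_ifs with h
  · obtain ⟨h1, h2⟩ := h
    have e1 : ∑ v ∈ σᶜ, sgn ν v σ • dE ν S x (insert v σ) T =
        ∑ v ∈ σᶜ, sgn ν v σ • (∑ w ∈ (insert v σ)ᶜ,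
          sgn ν w (insert v σ) • x (insert w (insert v σ)) T) -
        (-1 : ℝ) ^ σ.card • ∑ v ∈ σᶜ, ∑ u ∈ S \ T,
          (sgn ν v σ * sgn ν u T) • x (insert v σ) (insert u T) := by
      rw [Finset.smul_sum, ← Finset.sum_sub_distrib]
      refine Finset.sum_congr rfl fun v hv => ?_
      rw [DE_eq, if_pos ⟨h1.trans (Finset.subset_insert v σ), h2⟩,
        Finset.card_insert_of_notMem (Finset.mem_compl.1 hv), pow_succ, smul_add, sub_eq_add_neg]
      congr 1
      rw [mul_neg_one, neg_smul, smul_neg, Finset.smul_sum, Finset.smul_sum, Finset.smul_sum]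
      congr 1
      refine Finset.sum_congr rfl fun u _ => ?_
      rw [smul_smul, smul_smul, smul_smul]
      congr 1
      ring
    have e2 : ∑ u ∈ S \ T, sgn ν u T • dE ν S x σ (insert u T) =
        (∑ v ∈ σᶜ, ∑ u ∈ S \ T, (sgn ν v σ * sgn ν u T) • x (insert v σ) (insert u T)) +
        (-1 : ℝ) ^ σ.card • ∑ u ∈ S \ T, sgn ν u T • (∑ w ∈ S \ insert u T,
          sgn ν w (insert u T) • x σ (insert w (insert u T))) := by
      rw [Finset.sum_comm, Finset.smul_sum, ← Finset.sum_add_distrib]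
      refine Finset.sum_congr rfl fun u hu => ?_
      rw [DE_eq, if_pos ⟨h1, Finset.insert_subset (Finset.mem_sdiff.1 hu).1 h2⟩, smul_add]
      congr 1
      · rw [Finset.smul_sum]
        refine Finset.sum_congr rfl fun v _ => ?_
        rw [smul_smul, mul_comm]
      · rw [smul_comm]
    have e3 : ∑ v ∈ σᶜ, sgn ν v σ • (∑ w ∈ (insert v σ)ᶜ,
          sgn ν w (insert v σ) • x (insert w (insert v σ)) T) = 0 :=
      congrFun (bd_bd ν hν (fun σ => x σ T)) σ
    have e4 : ∑ u ∈ S \ T, sgn ν u T • (∑ w ∈ S \ insert u T,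
          sgn ν w (insert u T) • x σ (insert w (insert u T))) = 0 :=
      congrFun (congrFun (d1_d1 ν hν (fun ρ _ => x σ ρ)) T) S
    rw [e1, e2, e3, e4, smul_zero, add_zero, zero_sub, neg_add_cancel]
    rfl
  · rfl

theorem IsE.dE {N X : Type} [Fintype N] [DecidableEq N] [AddCommGroup X] [Module ℝ X]
    (ν : V → ℕ) {G : SimpleGraph V} {e : V → X →ₗ[ℝ] X} {m : V → V → ℕ}
    {J : V → Matrix N N ℝ} {A S : Finset V} {i : ℕ} {x : Finset V → Finset V → N → X}
    (hx : IsE G e m J A S (i + 1) x) : IsE G e m J A S i (dE ν S x) := by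
  refine ⟨fun σ T h => ?_, fun σ T v hv ω => ?_, fun σ T => ?_⟩
  · rw [DE_eq] at h
    by_cases h1 : S ⊆ σ ∧ T ⊆ S
    · rw [if_pos h1] at h
      refine ⟨h1.1, h1.2, ?_⟩
      by_cases h2 : ∑ v ∈ σᶜ, sgn ν v σ • x (insert v σ) T = 0
      · rw [h2, zero_add] at h
        have h3 : ∑ u ∈ S \ T, sgn ν u T • x σ (insert u T) ≠ 0 := by
          intro h3
          rw [h3, smul_zero] at h
          exact h rfl
        obtain ⟨u, hu, h4⟩ := Finset.exists_ne_zero_of_sum_ne_zero h3
        have h5 : x σ (insert u T) ≠ 0 := by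
          intro h5
          rw [h5, smul_zero] at h4
          exact h4 rfl
        obtain ⟨_, _, h6, h7⟩ := hx.supp _ _ h5
        rw [Finset.card_insert_of_notMem (Finset.mem_sdiff.1 hu).2] at h7
        exact ⟨h6, by omega⟩
      · obtain ⟨v, hv, h4⟩ := Finset.exists_ne_zero_of_sum_ne_zero h2
        have h5 : x (insert v σ) T ≠ 0 := by
          intro h5
          rw [h5, smul_zero] at h4
          exact h4 rfl
        obtain ⟨_, _, h6, h7⟩ := hx.supp _ _ h5
        rw [Finset.card_insert_of_notMem (Finset.mem_compl.1 hv)] at h7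
        exact ⟨fun a ha b hb hab => h6 a (Finset.mem_insert_of_mem ha) b
          (Finset.mem_insert_of_mem hb) hab, by omega⟩
    · rw [if_neg h1] at h
      exact absurd rfl h
  · rw [DE_eq]
    split_ifs with h1
    · rw [Pi.add_apply, Pi.smul_apply, Finset.sum_apply, Finset.sum_apply, map_add, map_smul,
        map_sum, map_sum, Finset.sum_eq_zero, Finset.sum_eq_zero, smul_zero, add_zero]
      · intro u _
        rw [Pi.smul_apply, map_smul, hx.ker _ _ v hv, smul_zero]
      · intro w _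
        rw [Pi.smul_apply, map_smul, hx.ker _ _ v (Finset.mem_insert_of_mem hv), smul_zero]
    · exact map_zero _
  · rw [DE_eq]
    split_ifs with h1
    · refine Submodule.add_mem _ (Submodule.sum_mem _ fun v _ => Submodule.smul_mem _ _ ?_)
        (Submodule.smul_mem _ _ (Submodule.sum_mem _ fun u _ => Submodule.smul_mem _ _ ?_))
      · exact PP_mono (Finset.union_subset_union (Finset.Subset.refl T)
          (Finset.inter_subset_inter (Finset.subset_insert v σ) (Finset.Subset.refl A)))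
          (hx.mem _ _)
      · exact PP_mono (Finset.union_subset_union (Finset.subset_insert u T)
          (Finset.Subset.refl _)) (hx.mem _ _)
    · exact Submodule.zero_mem _

omit [Fintype V] in
theorem IsE.sub {N X : Type} [Fintype N] [DecidableEq N] [AddCommGroup X] [Module ℝ X]
    {G : SimpleGraph V} {e : V → X →ₗ[ℝ] X} {m : V → V → ℕ}
    {J : V → Matrix N N ℝ} {A S : Finset V} {i : ℕ} {x y : Finset V → Finset V → N → X}
    (hx : IsE G e m J A S i x) (hy : IsE G e m J A S i y) : IsE G e m J A S i (x - y) := by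
  refine ⟨fun σ T h => ?_, fun σ T v hv ω => ?_, fun σ T => ?_⟩
  · by_cases h1 : x σ T = 0
    · refine hy.supp σ T fun h2 => h ?_
      show x σ T - y σ T = 0
      rw [h1, h2, sub_zero]
    · exact hx.supp σ T h1
  · show e v (x σ T ω - y σ T ω) = 0
    rw [map_sub, hx.ker σ T v hv ω, hy.ker σ T v hv ω, sub_zero]
  · exact Submodule.sub_mem _ (hx.mem σ T) (hy.mem σ T)

theorem norm_dE_le {Z : Type} [NormedAddCommGroup Z] [NormedSpace ℝ Z] (ν : V → ℕ)
    (S : Finset V) (x : Finset V → Finset V → Z) :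
    ‖dE ν S x‖ ≤ (2 * (Fintype.card V : ℝ)) * ‖x‖ := by
  have h0 : (0 : ℝ) ≤ (2 * (Fintype.card V : ℝ)) * ‖x‖ := by positivity
  have hs : ∀ (v : V) (σ : Finset V) (z : Z), ‖sgn ν v σ • z‖ = ‖z‖ := by
    intro v σ z
    rw [norm_smul]
    rcases sgn_cases ν v σ with h | h <;> rw [h] <;> simp
  have hx : ∀ σ T, ‖x σ T‖ ≤ ‖x‖ := fun σ T =>
    (norm_le_pi_norm (x σ) T).trans (norm_le_pi_norm x σ)
  refine (pi_norm_le_iff_of_nonneg h0).2 fun σ => (pi_norm_le_iff_of_nonneg h0).2 fun T => ?_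
  rw [DE_eq]
  split_ifs
  · have h1 : ‖∑ v ∈ σᶜ, sgn ν v σ • x (insert v σ) T‖ ≤ (Fintype.card V : ℝ) * ‖x‖ := by
      refine (norm_sum_le _ _).trans ((Finset.sum_le_sum (g := fun _ => ‖x‖) fun v _ => ?_).trans ?_)
      · rw [hs]
        exact hx _ _
      · rw [Finset.sum_const, nsmul_eq_mul]
        refine mul_le_mul_of_nonneg_right ?_ (norm_nonneg _)
        exact_mod_cast Finset.card_le_univ _
    have h2 : ‖(-1 : ℝ) ^ σ.card • ∑ u ∈ S \ T, sgn ν u T • x σ (insert u T)‖ ≤
        (Fintype.card V : ℝ) * ‖x‖ := by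
      rw [norm_smul, norm_pow, norm_neg, norm_one, one_pow, one_mul]
      refine (norm_sum_le _ _).trans ((Finset.sum_le_sum (g := fun _ => ‖x‖) fun v _ => ?_).trans ?_)
      · rw [hs]
        exact hx _ _
      · rw [Finset.sum_const, nsmul_eq_mul]
        refine mul_le_mul_of_nonneg_right ?_ (norm_nonneg _)
        exact_mod_cast Finset.card_le_univ _
    refine (norm_add_le _ _).trans ((add_le_add h1 h2).trans (le_of_eq ?_))
    ring
  · rw [norm_zero]
    exact h0

end Pool.Agent.H4.FD
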