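import Pool.Agent.H4.FC.RelC
import Pool.Agent.H85.Fold.TwA

/-!
# Project FD: deformation retractions onto the homology

Let `C a` be the submodule of all `x` with `IsFs G e S a x` (the simplices with `a` elements which
contain `S`), `∂ = bdr ν S : C (a+1) → C a`, `∂ ∂ = 0` (`bdr_bdr` in `Pool.Agent.H4.FC.RelC`), `B a` the
image of `∂` in `C a`. Choose linear maps `u a` on `Finset V → X` with values in `C (a+1)` such that
`∂ (u a x) = β x` is a projection onto `B a`. For `x ∈ C a` let `h x = u a (x - u (a-1) (∂ x))`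
(`u (-1) = 0`), `π x = x - ∂ (h x) - h (∂ x)`.
For `x ∈ C a`: `h (∂ x) = u (a-1) (∂ x)`, and with `z = x - u (a-1) (∂ x)` (`∂ z = 0`): `π x = z - β z`. Hence
`∂ (π x) = 0` and `π x ∈ C a`. For `x ∈ C (a+1)`: `π (∂ x) = ∂ x - β (∂ x) = 0`. If `HVr` holds in degree `a`:
`∂ z = 0`, so `z ∈ B a`, `β z = z`, `π x = 0`.
-/

set_option autoImplicit false

open Finset

namespace Pool.Agent.H4.FD

open Pool.Agent.H85.Fold Pool.Agent.H4.FC

/-- chains of degree `a` on the simplices which contain `S` -/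
structure IsFs {V X : Type} [DecidableEq V] [Fintype V] [AddCommGroup X] [Module ℝ X]
    (G : SimpleGraph V) (e : V → X →ₗ[ℝ] X) (S : Finset V) (a : ℕ) (x : Finset V → X) :
    Prop where
  isF : IsF G e ⊤ univ a x
  sub : ∀ σ, x σ ≠ 0 → S ⊆ σ

section

variable {V X : Type} [DecidableEq V] [Fintype V] [AddCommGroup X] [Module ℝ X]

/-- the submodule of the chains of degree `a` -/
private def retC (G : SimpleGraph V) (e : V → X →ₗ[ℝ] X) (S : Finset V) (a : ℕ) :
    Submodule ℝ (Finset V → X) where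
  carrier := {x | IsFs G e S a x}
  zero_mem' := ⟨⟨fun _ => Submodule.mem_top, fun _ v _ => map_zero (e v),
    fun _ h => absurd rfl h⟩, fun _ h => absurd rfl h⟩
  add_mem' := by
    intro x y hx hy
    have h1 : ∀ σ, (x + y) σ ≠ 0 → x σ ≠ 0 ∨ y σ ≠ 0 := by
      intro σ h
      by_contra hc
      rw [not_or, not_not, not_not] at hc
      exact h (by rw [Pi.add_apply, hc.1, hc.2, add_zero])
    refine ⟨⟨fun _ => Submodule.mem_top, fun σ v hv => ?_, fun σ h => ?_⟩, fun σ h => ?_⟩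
    · rw [Pi.add_apply, map_add, hx.isF.ker σ v hv, hy.isF.ker σ v hv, add_zero]
    · rcases h1 σ h with h | h
      · exact hx.isF.supp σ h
      · exact hy.isF.supp σ h
    · rcases h1 σ h with h | h
      · exact hx.sub σ h
      · exact hy.sub σ h
  smul_mem' := by
    intro r x hx
    have h1 : ∀ σ, (r • x) σ ≠ 0 → x σ ≠ 0 := by
      intro σ h h0
      exact h (by rw [Pi.smul_apply, h0, smul_zero])
    refine ⟨⟨fun _ => Submodule.mem_top, fun σ v hv => ?_, fun σ h => hx.isF.supp σ (h1 σ h)⟩,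
      fun σ h => hx.sub σ (h1 σ h)⟩
    rw [Pi.smul_apply, map_smul, hx.isF.ker σ v hv, smul_zero]

private theorem ret_bd {ν : V → ℕ} {G : SimpleGraph V} {e : V → X →ₗ[ℝ] X} {S : Finset V}
    {a : ℕ} {x : Finset V → X} (hx : IsFs G e S (a + 1) x) : IsFs G e S a (bdr ν S x) := by
  have h1 : ∀ ρ, bdr ν S x ρ = if S ⊆ ρ then ∑ v ∈ ρᶜ, sgn ν v ρ • x (insert v ρ) else 0 :=
    fun ρ => rfl
  refine ⟨⟨fun _ => Submodule.mem_top, fun ρ v hv => ?_, fun ρ h => ?_⟩, fun ρ h => ?_⟩
  · rw [h1]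
    split_ifs
    · rw [map_sum]
      refine Finset.sum_eq_zero fun u _ => ?_
      rw [map_smul, hx.isF.ker _ v (Finset.mem_insert_of_mem hv), smul_zero]
    · exact map_zero _
  · rw [h1] at h
    split_ifs at h with hS
    · obtain ⟨v, hv, hv'⟩ := Finset.exists_ne_zero_of_sum_ne_zero h
      have h2 : x (insert v ρ) ≠ 0 := fun h0 => hv' (by rw [h0, smul_zero])
      obtain ⟨_, h3, h4⟩ := hx.isF.supp _ h2
      refine ⟨Finset.subset_univ _, fun a ha b hb hab => h3 a (Finset.mem_insert_of_mem ha) b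
        (Finset.mem_insert_of_mem hb) hab, ?_⟩
      rw [Finset.card_insert_of_notMem (Finset.mem_compl.1 hv)] at h4
      omega
    · exact absurd rfl h
  · rw [h1] at h
    split_ifs at h with hS
    · exact hS
    · exact absurd rfl h

private theorem ret_zero {ν : V → ℕ} {G : SimpleGraph V} {e : V → X →ₗ[ℝ] X} {S : Finset V}
    {x : Finset V → X} (hx : IsFs G e S 0 x) : bdr ν S x = 0 := by
  funext ρ
  show (if S ⊆ ρ then ∑ v ∈ ρᶜ, sgn ν v ρ • x (insert v ρ) else 0) = 0
  split_ifs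
  · refine Finset.sum_eq_zero fun v _ => ?_
    have h2 : x (insert v ρ) = 0 := by
      by_contra h
      have h3 := (hx.isF.supp _ h).2.2
      rw [Finset.card_eq_zero] at h3
      exact Finset.insert_ne_empty v ρ h3
    rw [h2, smul_zero]
  · rfl

private theorem exists_u {ν : V → ℕ} (G : SimpleGraph V) (e : V → X →ₗ[ℝ] X) (S : Finset V)
    (a : ℕ) : ∃ u : (Finset V → X) →ₗ[ℝ] (Finset V → X), (∀ x, IsFs G e S (a + 1) (u x)) ∧
      ∀ y, IsFs G e S (a + 1) y → bdr ν S (u (bdr ν S y)) = bdr ν S y := by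
  let f : retC G e S (a + 1) →ₗ[ℝ] (Finset V → X) := (bdr ν S).domRestrict (retC G e S (a + 1))
  obtain ⟨r, hr⟩ := f.rangeRestrict.exists_rightInverse_of_surjective
    (LinearMap.range_eq_top.2 f.surjective_rangeRestrict)
  obtain ⟨g, hg⟩ := (LinearMap.range f).subtype.exists_leftInverse_of_injective
    (Submodule.ker_subtype _)
  refine ⟨(retC G e S (a + 1)).subtype.comp (r.comp g), fun x => (r (g x)).2, fun y hy => ?_⟩
  have h1 : g (bdr ν S y) = f.rangeRestrict ⟨y, hy⟩ := by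
    have h2 := LinearMap.congr_fun hg (f.rangeRestrict ⟨y, hy⟩)
    exact h2
  have h3 := LinearMap.congr_fun hr (g (bdr ν S y))
  have h4 : f (r (g (bdr ν S y))) = ((g (bdr ν S y) : LinearMap.range f) : Finset V → X) :=
    congrArg Subtype.val h3
  rw [h1] at h4
  show bdr ν S ((r (g (bdr ν S y)) : retC G e S (a + 1)) : Finset V → X) = bdr ν S y
  rw [h1]
  exact h4

end

theorem exists_retr {V X : Type} [DecidableEq V] [Fintype V] [AddCommGroup X] [Module ℝ X]
    [FiniteDimensional ℝ X] {ν : V → ℕ} (hν : Function.Injective ν) (G : SimpleGraph V)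
    (e : V → X →ₗ[ℝ] X) (S : Finset V) :
    ∃ h π : (Finset V → X) →ₗ[ℝ] (Finset V → X),
      (∀ a x, IsFs G e S a x →
        IsFs G e S (a + 1) (h x) ∧ IsFs G e S a (π x) ∧ bdr ν S (π x) = 0) ∧
      (∀ a x, IsFs G e S a x → x = bdr ν S (h x) + h (bdr ν S x) + π x) ∧
      (∀ a x, IsFs G e S (a + 1) x → π (bdr ν S x) = 0) ∧
      (∀ a, HVr ν G e ⊤ univ S a → ∀ x, IsFs G e S a x → π x = 0) := by
  classical
  choose u hu1 hu2 using exists_u (ν := ν) G e S
  let q : ℕ → (Finset V → X) →ₗ[ℝ] (Finset V → X) := fun a =>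
    LinearMap.pi fun σ => if σ.card = a then LinearMap.proj σ else 0
  have hq : ∀ a x σ, q a x σ = if σ.card = a then x σ else 0 := by
    intro a x σ
    show (if σ.card = a then LinearMap.proj σ else 0 : (Finset V → X) →ₗ[ℝ] X) x = _
    split_ifs <;> rfl
  have hq1 : ∀ a x, IsFs G e S a x → q a x = x := by
    intro a x hx
    funext σ
    rw [hq]
    split_ifs with h
    · rfl
    · by_contra h0
      exact h (hx.isF.supp σ (Ne.symm h0)).2.2
  have hq2 : ∀ a b x, IsFs G e S a x → b ≠ a → q b x = 0 := by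
    intro a b x hx hab
    funext σ
    rw [hq]
    split_ifs with h
    · by_contra h0
      exact hab (h ▸ (hx.isF.supp σ h0).2.2)
    · rfl
  -- the map `u (a - 1)`
  let u' : ℕ → (Finset V → X) →ₗ[ℝ] (Finset V → X) := fun a => if a = 0 then 0 else u (a - 1)
  let W : ℕ → (Finset V → X) →ₗ[ℝ] (Finset V → X) := fun a =>
    (u a).comp ((LinearMap.id - (u' a).comp (bdr ν S)).comp (q a))
  let h : (Finset V → X) →ₗ[ℝ] (Finset V → X) :=
    LinearMap.pi fun σ => (LinearMap.proj σ).comp (W (σ.card - 1))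
  have hW : ∀ a x, IsFs G e S a x → W a x = u a (x - u' a (bdr ν S x)) := by
    intro a x hx
    show u a (q a x - u' a (bdr ν S (q a x))) = _
    rw [hq1 a x hx]
  have hh : ∀ a x, IsFs G e S a x → h x = u a (x - u' a (bdr ν S x)) := by
    intro a x hx
    rw [← hW a x hx]
    funext σ
    show W (σ.card - 1) x σ = W a x σ
    by_cases h1 : σ.card = a + 1
    · rw [h1, Nat.add_sub_cancel]
    · have h2 : W a x σ = 0 := by
        by_contra h3
        exact h1 ((hu1 a _).isF.supp σ h3).2.2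
      rw [h2]
      by_cases h4 : σ.card - 1 = a
      · rw [h4, h2]
      · show u (σ.card - 1) (q (σ.card - 1) x -
          u' (σ.card - 1) (bdr ν S (q (σ.card - 1) x))) σ = 0
        rw [hq2 a (σ.card - 1) x hx h4, map_zero, map_zero, sub_zero, map_zero]
        rfl
  have hu' : ∀ a x, IsFs G e S a (u' a (bdr ν S x)) := by
    intro a x
    show IsFs G e S a ((if a = 0 then 0 else u (a - 1) : (Finset V → X) →ₗ[ℝ] _) _)
    split_ifs with h0
    · exact (retC G e S a).zero_mem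
    · obtain ⟨b, rfl⟩ := Nat.exists_eq_succ_of_ne_zero h0
      exact hu1 b _
  have hbu' : ∀ a x, IsFs G e S a x → bdr ν S (u' a (bdr ν S x)) = bdr ν S x := by
    intro a x hx
    show bdr ν S ((if a = 0 then 0 else u (a - 1) : (Finset V → X) →ₗ[ℝ] _) _) = _
    split_ifs with h0
    · subst h0
      rw [ret_zero hx, map_zero, map_zero]
    · obtain ⟨b, rfl⟩ := Nat.exists_eq_succ_of_ne_zero h0
      exact hu2 b x hx
  -- the cycle `z`
  have hz1 : ∀ a x, IsFs G e S a x → IsFs G e S a (x - u' a (bdr ν S x)) := fun a x hx =>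
    (retC G e S a).sub_mem hx (hu' a x)
  have hz2 : ∀ a x, IsFs G e S a x → bdr ν S (x - u' a (bdr ν S x)) = 0 := fun a x hx => by
    rw [map_sub, hbu' a x hx, sub_self]
  have hhb : ∀ a x, IsFs G e S a x → h (bdr ν S x) = u' a (bdr ν S x) := by
    intro a x hx
    rcases Nat.eq_zero_or_pos a with h0 | h0
    · subst h0
      rw [ret_zero hx, map_zero, map_zero]
    · obtain ⟨b, rfl⟩ := Nat.exists_eq_succ_of_ne_zero h0.ne'
      rw [hh b _ (ret_bd hx), bdr_bdr hν, map_zero, sub_zero]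
      rfl
  have hπ : ∀ a x, IsFs G e S a x →
      (LinearMap.id - (bdr ν S).comp h - h.comp (bdr ν S) :
        (Finset V → X) →ₗ[ℝ] (Finset V → X)) x =
        (x - u' a (bdr ν S x)) - bdr ν S (u a (x - u' a (bdr ν S x))) := by
    intro a x hx
    show x - bdr ν S (h x) - h (bdr ν S x) = _
    rw [hhb a x hx, hh a x hx]
    abel
  refine ⟨h, LinearMap.id - (bdr ν S).comp h - h.comp (bdr ν S), ?_, ?_, ?_, ?_⟩
  · intro a x hx
    refine ⟨?_, ?_, ?_⟩
    · rw [hh a x hx]
      exact hu1 a _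
    · rw [hπ a x hx]
      exact (retC G e S a).sub_mem (hz1 a x hx) (ret_bd (hu1 a _))
    · rw [hπ a x hx, map_sub, hz2 a x hx, bdr_bdr hν, sub_zero]
  · intro a x _
    show x = bdr ν S (h x) + h (bdr ν S x) + (x - bdr ν S (h x) - h (bdr ν S x))
    abel
  · intro a x hx
    rw [hπ a _ (ret_bd hx), bdr_bdr hν, map_zero, sub_zero, hu2 a x hx, sub_self]
  · intro a hH x hx
    rw [hπ a x hx]
    obtain ⟨y, hy1, hy2, hy3⟩ := hH _ (hz1 a x hx).isF (hz1 a x hx).sub (hz2 a x hx)
    rw [← hy3, hu2 a y ⟨hy1, hy2⟩, sub_self]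

end Pool.Agent.H4.FD
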