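import Pool.Agent.H4.FD.FreeB
import Pool.Agent.H4.FD.DE
import Pool.Agent.H4.FD.Retr

/-!
# Project FD: quantitative exactness, base of the induction

If `S` is not a clique then `IsE G e m J ∅ S i x` gives `x = 0` (a clique `σ ⊇ S` makes `S` a clique);
take `y = 0`, `C = 0`.

Let `S` be a clique, `h`, `π` from `exists_retr`; for `b` with `S.card < 2 b` let `hb b`, `φb b` be the
natural homotopies of `LC` (choose `0` for the other `b`). For a linear map `L` on `Finset V → X` and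
`x : Finset V → Finset V → N → X` let `L^ x σ T ω = L (fun σ' => x σ' T ω) σ`. By `exists_bound`
(`Pool.Agent.H85.Fold.TwA`) `‖L^ x‖ ≤ C ‖x‖`. Let `x` satisfy `IsE ∅ S i x`; for fixed `T`, `ω` the chain
`x · T ω` satisfies `IsFs G e S a` with `a = i + S.card - T.card` (if `T ⊆ S`; otherwise it is zero).
Let `d₁ x σ T ω = bdr ν S (fun σ' => x σ' T ω) σ` and `d₂ x σ T = ∑ u ∈ S \ T, sgn ν u T • x σ (insert u T)`
(for `S ⊆ σ`, `T ⊆ S`, zero otherwise), so `dE ν S x = d₁ x + (-1)^{|σ|} d₂ x`.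

(1) `x - dE (h^ x) = h^ (dE x) + π^ x`: for fixed `T`: `x = d₁ h^ x + h^ d₁ x + π^ x` by `exists_retr`, and
`(-1)^{|σ|} d₂ (h^ x) = - h^ ((-1)^{|σ'|} d₂ x)`, because `h^` commutes with `d₂` and on the
homogeneous chain `(d₂ x) · T ω` (degree `a - 1`, `a = i + S.card - T.card`) the sign is `(-1)^{a-1}`, while
`d₂ (h^ x) σ T` is nonzero only for `|σ| = a`. (If `a = 0` there is nothing to show.)
(2) `d₁ (π^ x) = 0`, and `π^ (d₁ x) = 0` (`exists_retr`; for `a = 0` `d₁ x = 0`), so with the same sign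
rule (now `π` preserves the degree) `π^ (dE x) = (-1)^{|σ|} d₂ (π^ x)`.
(3) `π^ x σ T = 0` unless `S.card < 2 b` for `b = T.card = i + S.card - σ.card`: otherwise
`n + S.card < 2 a` for `a = i + S.card - T.card` (as `n < 2 i` and `2 T.card ≤ S.card`), so `HVr` holds in degree
`a` and `π = 0`.
(4) For fixed `σ` put `b = i + S.card - σ.card`, `z T = π^ x σ T : N → X`; `z T ≠ 0` only for `T ⊆ S`,
`T.card = b`, `S.card < 2 b`; `z T ∈ PP m (actJ X J) T` (see (5)). Put
`y₂ σ T' = (-1)^{|σ|} • ap (actJ X J) S b (hb b) z T'` for `S ⊆ σ`, `T' ⊆ S`, `T'.card = b + 1`, `S.card < 2 b`,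
and `0` otherwise. `U = N → X`, `JRel` by `jrel_of_isRep`.
`d₁ y₂ = 0`: `(d₁ y₂) σ T' = ∑ v, sgn ν v σ • y₂ (insert v σ) T'`; all `insert v σ` (`v ∉ σ`) have the same
`b' = i + S.card - σ.card - 1`, so this is `± ap (hb b') (fun T => ∑ v, sgn ν v σ • π^ x (insert v σ) T) T'`
(`ap` is additive in `z`), and `∑ v … = (d₁ π^ x) σ T = 0`.
So `dE y₂ = (-1)^{|σ|} d₂ y₂`, `(-1)^{|σ|} (-1)^{|σ|} = 1`, and `IsLC.id` gives (`insert v T ⊆ S` has
`b + 1` elements) `π^ x σ T - (dE y₂) σ T = ap S (b - 1) (φb b) (bdS ν S z) T`, where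
`bdS ν S z T₁ = (d₂ π^ x) σ T₁ = ± (π^ (dE x)) σ T₁` by (2), so the norm of this is
`≤ C ‖dE x‖` (`lift_bound`, finite sums over `T₁`; constants: maximum or sum over all `b ≤ |V|`).
(5) `IsE ∅ S (i + 1)` for `y = h^ x + y₂`: supports and degrees as above; `ker` for `h^ x`, `π^ x` from
`exists_retr`; for `y₂`: `e v` applied pointwise commutes with the polynomials (`lift_pw`);
`mem` (`T ∪ (σ ∩ ∅) = T`): `h^ x σ T = ∑ σ', (fun ω => L_{σ σ'} (x σ' T ω))` with the linear maps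
`L_{σ σ'} p = h (Pi.single σ' p) σ` (`LinearMap.sum_single_apply` or `Pi`-sums), so `PP_pw` and
`Submodule.sum_mem`; the same for `π^ x`; for `y₂`: `h_mem`.
(6) `x - dE y = h^ (dE x) + (π^ x - dE y₂)`, norm `≤ C ‖dE x‖`; `‖y‖ ≤ C ‖x‖`.
The case `X` with `FiniteDimensional`. All `N` (also empty) are allowed.
-/

set_option autoImplicit false

open Finset

namespace Pool.Agent.H4.FD

open Pool.Agent.H85.Fold Pool.Agent.H4.FC

section BaseQaux

variable {V X N : Type} [DecidableEq V] [Fintype V] [Fintype N] [DecidableEq N]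

omit [Fintype N] [DecidableEq N] in
private theorem dE_formula {Z : Type} [AddCommGroup Z] [Module ℝ Z] (ν : V → ℕ) (S : Finset V)
    (x : Finset V → Finset V → Z) (hx : ∀ σ T, x σ T ≠ 0 → S ⊆ σ ∧ T ⊆ S) (σ T : Finset V) :
    dE ν S x σ T = bdr ν S (fun σ' => x σ' T) σ + (-1 : ℝ) ^ σ.card • bdS ν S (x σ) T := by
  have e1 : dE ν S x σ T = if S ⊆ σ ∧ T ⊆ S then
    ∑ v ∈ σᶜ, sgn ν v σ • x (insert v σ) T +
      (-1 : ℝ) ^ σ.card • ∑ u ∈ S \ T, sgn ν u T • x σ (insert u T) else 0 := rfl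
  have e2 : bdr ν S (fun σ' => x σ' T) σ =
      if S ⊆ σ then ∑ v ∈ σᶜ, sgn ν v σ • x (insert v σ) T else 0 := rfl
  have e3 : bdS ν S (x σ) T = ∑ v ∈ S \ T, sgn ν v T • x σ (insert v T) := rfl
  have hz : ∀ σ T, ¬ (S ⊆ σ ∧ T ⊆ S) → x σ T = 0 := fun σ T h => by
    by_contra h'
    exact h (hx σ T h')
  rw [e1, e2, e3]
  by_cases h1 : S ⊆ σ
  · by_cases h2 : T ⊆ S
    · rw [if_pos ⟨h1, h2⟩, if_pos h1]
    · rw [if_neg fun h => h2 h.2, if_pos h1, Finset.sum_eq_zero, Finset.sum_eq_zero, smul_zero,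
        add_zero]
      · intro v _
        rw [hz _ _ fun h => h2 ((Finset.subset_insert v T).trans h.2), smul_zero]
      · intro v _
        rw [hz _ _ fun h => h2 h.2, smul_zero]
  · rw [if_neg fun h => h1 h.1, if_neg h1, Finset.sum_eq_zero, smul_zero, add_zero]
    intro v _
    rw [hz _ _ fun h => h1 h.1, smul_zero]

section alg

variable [AddCommGroup X] [Module ℝ X] {G : SimpleGraph V} {e : V → X →ₗ[ℝ] X}
  {m : V → V → ℕ} {J : V → Matrix N N ℝ} {S : Finset V} {i : ℕ}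
  {x : Finset V → Finset V → N → X}

/-- a linear map applied in the first variable -/
private def hat (L : (Finset V → X) →ₗ[ℝ] (Finset V → X)) (x : Finset V → Finset V → N → X) :
    Finset V → Finset V → N → X := fun σ T ω => L (fun σ' => x σ' T ω) σ

omit [DecidableEq N] in
private theorem slice (hx : IsE G e m J ∅ S i x) (T : Finset V) (ω : N) :
    IsFs G e S (i + S.card - T.card) (fun σ => x σ T ω) := by
  have h0 : ∀ σ, x σ T ω ≠ 0 → x σ T ≠ 0 := fun σ h h' => h (by rw [h']; rfl)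
  refine ⟨⟨fun _ => trivial, fun σ v hv => hx.ker σ T v hv ω, fun σ h => ?_⟩, fun σ h => ?_⟩
  · obtain ⟨_, _, h3, h4⟩ := hx.supp σ T (h0 σ h)
    exact ⟨Finset.subset_univ _, h3, by omega⟩
  · exact (hx.supp σ T (h0 σ h)).1

private theorem sgn_shift {L : (Finset V → X) →ₗ[ℝ] (Finset V → X)} {k : ℕ}
    (hL : ∀ a c, IsFs G e S a c → IsFs G e S (a + k) (L c)) {a : ℕ} {c : Finset V → X}
    (hc : IsFs G e S a c) (σ : Finset V) :
    L (fun σ' => (-1 : ℝ) ^ σ'.card • c σ') σ = (-1 : ℝ) ^ (σ.card + k) • L c σ := by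
  have h1 : (fun σ' => (-1 : ℝ) ^ σ'.card • c σ') = (-1 : ℝ) ^ a • c := by
    funext σ'
    show _ = (-1 : ℝ) ^ a • c σ'
    by_cases h : c σ' = 0
    · rw [h, smul_zero, smul_zero]
    · rw [(hc.isF.supp σ' h).2.2]
  rw [h1, map_smul]
  show (-1 : ℝ) ^ a • L c σ = _
  by_cases h : L c σ = 0
  · rw [h, smul_zero, smul_zero]
  · have h2 := ((hL a c hc).isF.supp σ h).2.2
    rw [h2, add_assoc, pow_add, ← two_mul, pow_mul]
    norm_num

omit [DecidableEq N] in
private theorem hat_dE (ν : V → ℕ) {L : (Finset V → X) →ₗ[ℝ] (Finset V → X)} {k : ℕ}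
    (hL : ∀ a c, IsFs G e S a c → IsFs G e S (a + k) (L c)) (hx : IsE G e m J ∅ S i x)
    (σ T : Finset V) (ω : N) :
    hat L (dE ν S x) σ T ω = L (bdr ν S (fun σ' => x σ' T ω)) σ +
      (-1 : ℝ) ^ (σ.card + k) • bdS ν S (hat L x σ) T ω := by
  have hs : ∀ σ T, x σ T ≠ 0 → S ⊆ σ ∧ T ⊆ S := fun σ T h =>
    ⟨(hx.supp σ T h).1, (hx.supp σ T h).2.1⟩
  have h1 : (fun σ' => dE ν S x σ' T ω) = bdr ν S (fun σ' => x σ' T ω) +
      ∑ u ∈ S \ T, sgn ν u T • fun σ' => (-1 : ℝ) ^ σ'.card • x σ' (insert u T) ω := by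
    funext σ'
    rw [dE_formula ν S x hs]
    show bdr ν S (fun σ' => x σ' T) σ' ω + ((-1 : ℝ) ^ σ'.card • bdS ν S (x σ') T) ω = 
      bdr ν S (fun σ' => x σ' T ω) σ' + _
    rw [bdr_ptw, Finset.sum_apply]
    congr 1
    show (-1 : ℝ) ^ σ'.card • (∑ v ∈ S \ T, sgn ν v T • x σ' (insert v T)) ω = _
    rw [Finset.sum_apply, Finset.smul_sum]
    refine Finset.sum_congr rfl fun u _ => ?_
    exact smul_comm _ _ _
  show L (fun σ' => dE ν S x σ' T ω) σ = _
  rw [h1, map_add, map_sum]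
  show L _ σ + (∑ u ∈ S \ T, L (sgn ν u T • fun σ' => (-1 : ℝ) ^ σ'.card • x σ' (insert u T) ω)) σ
    = _
  rw [Finset.sum_apply]
  congr 1
  show _ = (-1 : ℝ) ^ (σ.card + k) • (∑ v ∈ S \ T, sgn ν v T • hat L x σ (insert v T)) ω
  rw [Finset.sum_apply, Finset.smul_sum]
  refine Finset.sum_congr rfl fun u _ => ?_
  rw [map_smul]
  show sgn ν u T • L _ σ = _
  rw [sgn_shift hL (slice hx (insert u T) ω)]
  exact smul_comm _ _ _

private theorem hat_isE {L : (Finset V → X) →ₗ[ℝ] (Finset V → X)} {k : ℕ}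
    (hL : ∀ a c, IsFs G e S a c → IsFs G e S (a + k) (L c)) (hx : IsE G e m J ∅ S i x) :
    IsE G e m J ∅ S (i + k) (hat L x) where
  supp σ T h := by
    obtain ⟨ω, hω⟩ := Function.ne_iff.1 h
    have h1 := hL _ _ (slice hx T ω)
    have h2 : L (fun σ' => x σ' T ω) σ ≠ 0 := hω
    obtain ⟨_, h3, h4⟩ := h1.isF.supp σ h2
    have h5 : (fun σ' => x σ' T ω) ≠ 0 := by
      intro h6
      rw [h6, map_zero] at h2
      exact h2 rfl
    obtain ⟨σ', h6⟩ := Function.ne_iff.1 h5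
    have h7 : x σ' T ≠ 0 := fun h' => h6 (by rw [h']; rfl)
    obtain ⟨_, h8, _, h9⟩ := hx.supp σ' T h7
    exact ⟨h1.sub σ h2, h8, h3, by omega⟩
  ker σ T v hv ω := (hL _ _ (slice hx T ω)).isF.ker σ v hv
  mem σ T := by
    have h1 : hat L x σ T = ∑ σ' : Finset V, fun ω =>
        ((LinearMap.proj σ : (Finset V → X) →ₗ[ℝ] X) ∘ₗ L ∘ₗ
          (LinearMap.single ℝ (fun _ : Finset V => X) σ')) (x σ' T ω) := by
      funext ω
      rw [Finset.sum_apply]
      show L (fun σ' => x σ' T ω) σ = ∑ σ' : Finset V, L (Pi.single σ' (x σ' T ω)) σ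
      rw [← Finset.sum_apply, ← map_sum, Finset.univ_sum_single (fun σ' => x σ' T ω)]
    rw [h1]
    refine Submodule.sum_mem _ fun σ' _ => ?_
    refine PP_pw _ ?_
    have h2 := hx.mem σ' T
    rw [Finset.inter_empty] at h2 ⊢
    exact h2

omit [DecidableEq V] [Fintype V] in
private theorem ap_sum {U ι : Type} [AddCommGroup U] [Module ℝ U] (K : V → Module.End ℝ U)
    (S : Finset V) (b : ℕ) (h : Finset V → Finset V → FreeAlgebra ℝ V) (s : Finset ι) (r : ι → ℝ)
    (z : ι → Finset V → U) (T' : Finset V) :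
    ap K S b h (fun T => ∑ v ∈ s, r v • z v T) T' = ∑ v ∈ s, r v • ap K S b h (z v) T' := by
  unfold ap
  simp only [map_sum, map_smul, Finset.smul_sum]
  rw [Finset.sum_comm]

/-- the second part of the homotopy -/
private noncomputable def yy (J : V → Matrix N N ℝ) (S : Finset V) (i : ℕ)
    (hh : ℕ → Finset V → Finset V → FreeAlgebra ℝ V) (p : Finset V → Finset V → N → X) :
    Finset V → Finset V → N → X := fun σ T =>
  if T ⊆ S ∧ T.card = (i + S.card - σ.card) + 1 then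
    (-1 : ℝ) ^ σ.card • ap (actJ X J) S (i + S.card - σ.card) (hh (i + S.card - σ.card)) (p σ) T
  else 0

omit [DecidableEq V] [Fintype V] in
private theorem ap_zero' {U : Type} [AddCommGroup U] [Module ℝ U] (K : V → Module.End ℝ U)
    (S : Finset V) (b : ℕ) (h : Finset V → Finset V → FreeAlgebra ℝ V) (z : Finset V → U)
    (hz : ∀ T, z T = 0) (T' : Finset V) : ap K S b h z T' = 0 := by
  unfold ap
  refine Finset.sum_eq_zero fun T _ => ?_
  rw [hz, map_zero]

omit [Fintype V] in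
private theorem yy_isE {Q : ℕ → Prop} {hh φφ : ℕ → Finset V → Finset V → FreeAlgebra ℝ V} {ν : V → ℕ}
    {p : Finset V → Finset V → N → X} (hp : IsE G e m J ∅ S i p)
    (hLC : ∀ b, Q b → IsLC m ν S b (hh b) (φφ b))
    (hJ : JRel m (actJ X J) S) (hdeg : ∀ σ T, p σ T ≠ 0 → Q T.card) :
    IsE G e m J ∅ S (i + 1) (yy J S i hh p) := by
  have key : ∀ σ T, yy J S i hh p σ T ≠ 0 → (T ⊆ S ∧ T.card = (i + S.card - σ.card) + 1) ∧
      ∃ T0, p σ T0 ≠ 0 := by
    intro σ T h
    by_cases h1 : T ⊆ S ∧ T.card = (i + S.card - σ.card) + 1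
    · refine ⟨h1, ?_⟩
      by_contra h2
      push Not at h2
      refine h ?_
      unfold yy
      rw [if_pos h1, ap_zero' _ _ _ _ _ h2, smul_zero]
    · exact absurd (if_neg h1) h
  refine ⟨fun σ T h => ?_, fun σ T v hv ω => ?_, fun σ T => ?_⟩
  · obtain ⟨⟨h1, h2⟩, T0, h3⟩ := key σ T h
    obtain ⟨h4, _, h5, h6⟩ := hp.supp σ T0 h3
    exact ⟨h4, h1, h5, by omega⟩
  · unfold yy
    split_ifs with h1
    · show e v ((-1 : ℝ) ^ σ.card • ap (actJ X J) S _ _ (p σ) T ω) = 0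
      rw [map_smul]
      unfold ap
      rw [Finset.sum_apply, map_sum, Finset.sum_eq_zero, smul_zero]
      intro T0 _
      have h2 := lift_pw J (e v) (hh (i + S.card - σ.card) T T0) (p σ T0)
      have h3 := congrFun h2 ω
      have h4 : (fun ω => e v (p σ T0 ω)) = 0 := by
        funext ω
        exact hp.ker σ T0 v hv ω
      rw [h4, map_zero] at h3
      exact h3.symm
    · exact map_zero _
  · rw [Finset.inter_empty, Finset.union_empty]
    by_cases h0 : yy J S i hh p σ T = 0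
    · rw [h0]
      exact Submodule.zero_mem _
    · obtain ⟨⟨h1, h2⟩, T0, h3⟩ := key σ T h0
      obtain ⟨_, _, _, h6⟩ := hp.supp σ T0 h3
      have h7 : Q (i + S.card - σ.card) := by
        have := hdeg σ T0 h3
        rwa [show T0.card = i + S.card - σ.card by omega] at this
      unfold yy
      rw [if_pos ⟨h1, h2⟩]
      refine Submodule.smul_mem _ _ ?_
      unfold ap
      refine Submodule.sum_mem _ fun T1 hT1 => ?_
      rw [Finset.mem_filter, Finset.mem_powerset] at hT1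
      have h8 := hp.mem σ T1
      rw [Finset.inter_empty, Finset.union_empty] at h8
      exact (hLC _ h7).h_mem (N → X) (actJ X J) hJ T1 hT1.1 T h1 hT1.2 h2 _ h8

open Classical in
private theorem yy_dE {Q : ℕ → Prop} {hh φφ : ℕ → Finset V → Finset V → FreeAlgebra ℝ V} {ν : V → ℕ}
    {p : Finset V → Finset V → N → X} (hp : IsE G e m J ∅ S i p)
    (hLC : ∀ b, Q b → IsLC m ν S b (hh b) (φφ b))
    (hJ : JRel m (actJ X J) S) (hdeg : ∀ σ T, p σ T ≠ 0 → Q T.card)
    (hbd : ∀ T, bdr ν S (fun σ => p σ T) = 0) (σ T : Finset V) :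
    p σ T - dE ν S (yy J S i hh p) σ T = if S ⊆ σ ∧ T ⊆ S ∧ T.card = i + S.card - σ.card ∧
      Q (i + S.card - σ.card) then
      ap (actJ X J) S (i + S.card - σ.card - 1) (φφ (i + S.card - σ.card))
        (bdS ν S (p σ)) T else 0 := by
  have hy := yy_isE hp hLC hJ hdeg
  have hys : ∀ σ T, yy J S i hh p σ T ≠ 0 → S ⊆ σ ∧ T ⊆ S := fun σ T h =>
    ⟨(hy.supp σ T h).1, (hy.supp σ T h).2.1⟩
  rw [dE_formula ν S _ hys]
  -- the first part vanishes
  have h1 : bdr ν S (fun σ' => yy J S i hh p σ' T) σ = 0 := by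
    have e2 : bdr ν S (fun σ' => yy J S i hh p σ' T) σ =
      if S ⊆ σ then ∑ v ∈ σᶜ, sgn ν v σ • yy J S i hh p (insert v σ) T else 0 := rfl
    rw [e2]
    split_ifs with hS
    · by_cases hT : T ⊆ S ∧ T.card = (i + S.card - (σ.card + 1)) + 1
      · have h2 : ∀ v ∈ σᶜ, sgn ν v σ • yy J S i hh p (insert v σ) T =
            (-1 : ℝ) ^ (σ.card + 1) • (sgn ν v σ • ap (actJ X J) S (i + S.card - (σ.card + 1))
              (hh (i + S.card - (σ.card + 1))) (p (insert v σ)) T) := by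
          intro v hv
          rw [Finset.mem_compl] at hv
          unfold yy
          rw [Finset.card_insert_of_notMem hv, if_pos hT]
          exact smul_comm _ _ _
        rw [Finset.sum_congr rfl h2, ← Finset.smul_sum, ← ap_sum, ap_zero', smul_zero]
        intro T1
        have h3 : (∑ v ∈ σᶜ, sgn ν v σ • p (insert v σ) T1) = bdr ν S (fun σ => p σ T1) σ :=
          (if_pos hS).symm
        rw [h3, hbd]
        rfl
      · refine Finset.sum_eq_zero fun v hv => ?_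
        rw [Finset.mem_compl] at hv
        unfold yy
        rw [Finset.card_insert_of_notMem hv, if_neg hT, smul_zero]
    · rfl
  rw [h1, zero_add]
  have e3 : bdS ν S (yy J S i hh p σ) T =
    ∑ v ∈ S \ T, sgn ν v T • yy J S i hh p σ (insert v T) := rfl
  split_ifs with hc
  · obtain ⟨c1, c2, c3, c4⟩ := hc
    have hz1 : ∀ T, p σ T ≠ 0 → T ⊆ S ∧ T.card = i + S.card - σ.card := by
      intro T h
      obtain ⟨_, h2, _, h4⟩ := hp.supp σ T h
      exact ⟨h2, by omega⟩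
    have hz2 : ∀ T, p σ T ∈ PP m (actJ X J) T := by
      intro T
      have h := hp.mem σ T
      rwa [Finset.inter_empty, Finset.union_empty] at h
    have hid := (hLC _ c4).id (N → X) (actJ X J) hJ (p σ) hz1 hz2 T c2 c3
    have h4 : (-1 : ℝ) ^ σ.card • bdS ν S (yy J S i hh p σ) T =
        ∑ v ∈ S \ T, sgn ν v T • ap (actJ X J) S (i + S.card - σ.card)
          (hh (i + S.card - σ.card)) (p σ) (insert v T) := by
      rw [e3, Finset.smul_sum]
      refine Finset.sum_congr rfl fun v hv => ?_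
      rw [Finset.mem_sdiff] at hv
      unfold yy
      rw [if_pos ⟨Finset.insert_subset hv.1 c2, by rw [Finset.card_insert_of_notMem hv.2, c3]⟩,
        smul_smul, smul_smul]
      congr 1
      rw [mul_comm ((-1 : ℝ) ^ σ.card), mul_assoc, ← pow_add, ← two_mul, pow_mul]
      norm_num
    rw [h4]
    nth_rw 1 [hid]
    rw [add_sub_cancel_left]
  · have h5 : p σ T = 0 := by
      by_contra h
      obtain ⟨h2, h3, _, h4⟩ := hp.supp σ T h
      have := hdeg σ T h
      rw [show T.card = i + S.card - σ.card by omega] at this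
      exact hc ⟨h2, h3, by omega, this⟩
    have h6 : bdS ν S (yy J S i hh p σ) T = 0 := by
      rw [e3]
      refine Finset.sum_eq_zero fun v hv => ?_
      rw [Finset.mem_sdiff] at hv
      by_contra h
      have h7 : yy J S i hh p σ (insert v T) ≠ 0 := fun h' => h (by rw [h', smul_zero])
      have h8 := hy.supp _ _ h7
      rw [Finset.card_insert_of_notMem hv.2] at h8
      -- some value of `p σ` is not zero
      have h9 : ∃ T0, p σ T0 ≠ 0 := by
        by_contra h2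
        push Not at h2
        refine h7 ?_
        unfold yy
        split_ifs
        · rw [ap_zero' _ _ _ _ _ h2, smul_zero]
        · rfl
      obtain ⟨T0, h10⟩ := h9
      obtain ⟨_, _, _, h11⟩ := hp.supp σ T0 h10
      have := hdeg σ T0 h10
      rw [show T0.card = i + S.card - σ.card by omega] at this
      exact hc ⟨h8.1, (Finset.subset_insert v T).trans h8.2.1, by omega, this⟩
    rw [h5, h6, smul_zero, sub_zero]

end alg

section norm

variable [NormedAddCommGroup X] [NormedSpace ℝ X]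

omit [DecidableEq V] [DecidableEq N] in
private theorem hat_norm {L : (Finset V → X) →ₗ[ℝ] (Finset V → X)} {C : ℝ} (hC : 0 ≤ C)
    (hL : ∀ z, ‖L z‖ ≤ C * ‖z‖) (x : Finset V → Finset V → N → X) :
    ‖hat L x‖ ≤ C * ‖x‖ := by
  have h0 : 0 ≤ C * ‖x‖ := mul_nonneg hC (norm_nonneg _)
  refine (pi_norm_le_iff_of_nonneg h0).2 fun σ => (pi_norm_le_iff_of_nonneg h0).2 fun T =>
    (pi_norm_le_iff_of_nonneg h0).2 fun ω => ?_
  show ‖L (fun σ' => x σ' T ω) σ‖ ≤ _
  refine (norm_le_pi_norm _ σ).trans ((hL _).trans (mul_le_mul_of_nonneg_left ?_ hC))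
  refine (pi_norm_le_iff_of_nonneg (norm_nonneg _)).2 fun σ' => ?_
  exact (norm_le_pi_norm (x σ' T) ω).trans ((norm_le_pi_norm (x σ') T).trans
    (norm_le_pi_norm x σ'))

omit [DecidableEq V] [DecidableEq N] in
private theorem ap_norm {Cb : FreeAlgebra ℝ V → ℝ} (hCb0 : ∀ q, 0 ≤ Cb q)
    {J : V → Matrix N N ℝ}
    (hCb : ∀ q (x : N → X), ‖FreeAlgebra.lift ℝ (actJ X J) q x‖ ≤ Cb q * ‖x‖) (S : Finset V)
    (b : ℕ) (h : Finset V → Finset V → FreeAlgebra ℝ V) (z : Finset V → N → X)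
    (T' : Finset V) :
    ‖ap (actJ X J) S b h z T'‖ ≤ (∑ T' : Finset V, ∑ T : Finset V, Cb (h T' T)) * ‖z‖ := by
  unfold ap
  refine (norm_sum_le _ _).trans ?_
  have h1 : ∑ T ∈ S.powerset.filter (fun T => T.card = b),
      ‖FreeAlgebra.lift ℝ (actJ X J) (h T' T) (z T)‖ ≤ ∑ T : Finset V, Cb (h T' T) * ‖z‖ := by
    refine (Finset.sum_le_sum fun T _ => ?_).trans
      (Finset.sum_le_sum_of_subset_of_nonneg (Finset.subset_univ _) fun T _ _ =>
        mul_nonneg (hCb0 _) (norm_nonneg _))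
    exact (hCb _ _).trans (mul_le_mul_of_nonneg_left (norm_le_pi_norm z T) (hCb0 _))
  refine h1.trans ?_
  rw [← Finset.sum_mul]
  refine mul_le_mul_of_nonneg_right ?_ (norm_nonneg _)
  exact Finset.single_le_sum (f := fun T' => ∑ T : Finset V, Cb (h T' T))
    (fun T' _ => Finset.sum_nonneg fun T _ => hCb0 _) (Finset.mem_univ T')

end norm

end BaseQaux

theorem qf_baseG {V X : Type} [DecidableEq V] [Fintype V] [NormedAddCommGroup X]
    [NormedSpace ℝ X] [FiniteDimensional ℝ X] {ν : V → ℕ} (hν : Function.Injective ν)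
    {G : SimpleGraph V} {e : V → X →ₗ[ℝ] X} {m : V → V → ℕ} {κ : ℝ} (hκ : 0 ≤ κ)
    (S : Finset V) (i : ℕ) (Q : ℕ → Prop)
    (hHV : ∀ a b, Cl G S → b ≤ S.card → a + b = i + S.card → ¬ Q b → HVr ν G e ⊤ univ S a)
    (hLC : ∀ b, Cl G S → Q b → LC m ν S b) :
    QF ν G e m κ ∅ S i := by
  classical
  by_cases hS : Cl G S
  swap
  · -- no simplices
    refine ⟨0, le_rfl, fun N _ _ J hJ x hx => ?_⟩
    have h0 : x = 0 := by
      funext σ T
      by_contra h
      obtain ⟨h1, _, h3, _⟩ := hx.supp σ T h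
      exact hS fun u hu v hv huv => h3 u (h1 hu) v (h1 hv) huv
    subst h0
    refine ⟨0, ⟨fun _ _ h => absurd rfl h, fun _ _ v _ _ => map_zero (e v), fun _ _ =>
      Submodule.zero_mem _⟩, by simp, by simp⟩
  obtain ⟨h, π, H1, H2, H3, H4⟩ := exists_retr hν G e S
  have hh1 : ∀ a c, IsFs G e S a c → IsFs G e S (a + 1) (h c) := fun a c hc => (H1 a c hc).1
  have hπ0 : ∀ a c, IsFs G e S a c → IsFs G e S (a + 0) (π c) := fun a c hc => (H1 a c hc).2.1
  have hπb : ∀ a c, IsFs G e S a c → π (bdr ν S c) = 0 := by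
    intro a c hc
    rcases Nat.eq_zero_or_pos a with ha | ha
    · subst ha
      have h0 : bdr ν S c = 0 := by
        funext ρ
        show (if S ⊆ ρ then ∑ v ∈ ρᶜ, sgn ν v ρ • c (insert v ρ) else 0) = 0
        split_ifs
        · refine Finset.sum_eq_zero fun v _ => ?_
          have h1 : c (insert v ρ) = 0 := by
            by_contra h1
            have h2 := (hc.isF.supp _ h1).2.2
            rw [Finset.card_eq_zero] at h2
            exact Finset.insert_ne_empty _ _ h2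
          rw [h1, smul_zero]
        · rfl
      rw [h0, map_zero]
    · obtain ⟨a', rfl⟩ : ∃ a', a = a' + 1 := ⟨a - 1, by omega⟩
      exact H3 a' c hc
  obtain ⟨Ch, hCh0, hCh⟩ := exists_bound h
  obtain ⟨Cp, hCp0, hCp⟩ := exists_bound π
  -- natural homotopies
  have hnat : ∀ b, ∃ hφ : (Finset V → Finset V → FreeAlgebra ℝ V) ×
      (Finset V → Finset V → FreeAlgebra ℝ V), Q b → IsLC m ν S b hφ.1 hφ.2 := by
    intro b
    by_cases hb : Q b
    · obtain ⟨h', φ', hLC'⟩ := hLC b hS hb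
      exact ⟨(h', φ'), fun _ => hLC'⟩
    · exact ⟨(0, 0), fun hb' => absurd hb' hb⟩
  choose hφ hhφ using hnat
  set hh : ℕ → Finset V → Finset V → FreeAlgebra ℝ V := fun b => (hφ b).1 with hhdef
  set φφ : ℕ → Finset V → Finset V → FreeAlgebra ℝ V := fun b => (hφ b).2 with hφdef
  have hLC' : ∀ b, Q b → IsLC m ν S b (hh b) (φφ b) := hhφ
  choose Cb hCb0 hCb using fun q : FreeAlgebra ℝ V => lift_bound (X := X) hκ q
  set K : ℝ := ∑ b ∈ Finset.range (i + S.card + 1),
    ((∑ T' : Finset V, ∑ T : Finset V, Cb (hh b T' T)) +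
      ∑ T' : Finset V, ∑ T : Finset V, Cb (φφ b T' T)) with hK
  have hn1 : ∀ b, 0 ≤ ∑ T' : Finset V, ∑ T : Finset V, Cb (hh b T' T) := fun b =>
    Finset.sum_nonneg fun _ _ => Finset.sum_nonneg fun _ _ => hCb0 _
  have hn2 : ∀ b, 0 ≤ ∑ T' : Finset V, ∑ T : Finset V, Cb (φφ b T' T) := fun b =>
    Finset.sum_nonneg fun _ _ => Finset.sum_nonneg fun _ _ => hCb0 _
  have hK0 : 0 ≤ K := Finset.sum_nonneg fun b _ => add_nonneg (hn1 b) (hn2 b)
  have hKb : ∀ b, b ≤ i + S.card → (∑ T' : Finset V, ∑ T : Finset V, Cb (hh b T' T)) +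
      ∑ T' : Finset V, ∑ T : Finset V, Cb (φφ b T' T) ≤ K := by
    intro b hb
    exact Finset.single_le_sum (f := fun b => (∑ T' : Finset V, ∑ T : Finset V, Cb (hh b T' T)) +
      ∑ T' : Finset V, ∑ T : Finset V, Cb (φφ b T' T))
      (fun b _ => add_nonneg (hn1 b) (hn2 b)) (Finset.mem_range.2 (by omega))
  refine ⟨Ch + K * Cp, by positivity, fun N _ _ J hJ x hx => ?_⟩
  have hCb' : ∀ q (x : N → X), ‖FreeAlgebra.lift ℝ (actJ X J) q x‖ ≤ Cb q * ‖x‖ := fun q x =>
    hCb q N J hJ.bound x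
  have hJr : JRel m (actJ X J) S := jrel_of_isRep hJ hS
  set p : Finset V → Finset V → N → X := hat π x with hpdef
  have hp : IsE G e m J ∅ S i p := hat_isE hπ0 hx
  have hq : IsE G e m J ∅ S (i + 1) (hat h x) := hat_isE hh1 hx
  have hbd : ∀ T, bdr ν S (fun σ => p σ T) = 0 := by
    intro T
    funext σ ω
    rw [bdr_ptw]
    exact congrFun (H1 _ _ (slice hx T ω)).2.2 σ
  have hdeg : ∀ σ T, p σ T ≠ 0 → Q T.card := by
    intro σ T hpT
    obtain ⟨ω, hω⟩ := Function.ne_iff.1 hpT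
    obtain ⟨_, h2, _, h4⟩ := hp.supp σ T hpT
    by_contra hcon
    have h5 := Finset.card_le_card h2
    have h7 := H4 _ (hHV (i + S.card - T.card) T.card hS h5 (by omega) hcon) _ (slice hx T ω)
    exact hω (congrFun h7 σ)
  have hy2 := yy_isE hp hLC' hJr hdeg
  have hyd := yy_dE hp hLC' hJr hdeg hbd
  -- the first part of the homotopy
  have hfirst : x - dE ν S (hat h x) = hat h (dE ν S x) + p := by
    funext σ T ω
    have hs : ∀ σ T, hat h x σ T ≠ 0 → S ⊆ σ ∧ T ⊆ S := fun σ T h' =>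
      ⟨(hq.supp σ T h').1, (hq.supp σ T h').2.1⟩
    have e1 : dE ν S (hat h x) σ T ω = bdr ν S (h (fun σ' => x σ' T ω)) σ +
        (-1 : ℝ) ^ σ.card • bdS ν S (hat h x σ) T ω := by
      rw [dE_formula ν S _ hs]
      show bdr ν S (fun σ' => hat h x σ' T) σ ω + _ = _
      rw [bdr_ptw]
      rfl
    have e2 := hat_dE ν hh1 hx σ T ω
    have e3 := congrFun (H2 _ _ (slice hx T ω)) σ
    show x σ T ω - dE ν S (hat h x) σ T ω = hat h (dE ν S x) σ T ω + π (fun σ' => x σ' T ω) σ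
    rw [e1, e2, pow_succ, mul_neg_one, neg_smul]
    have e4 : x σ T ω = bdr ν S (h fun σ' => x σ' T ω) σ + h (bdr ν S fun σ' => x σ' T ω) σ +
      π (fun σ' => x σ' T ω) σ := e3
    nth_rw 1 [e4]
    abel
  have hsecond : ∀ σ, ‖bdS ν S (p σ)‖ ≤ Cp * ‖dE ν S x‖ := by
    intro σ
    have h0 : 0 ≤ Cp * ‖dE ν S x‖ := by positivity
    refine (pi_norm_le_iff_of_nonneg h0).2 fun T => (pi_norm_le_iff_of_nonneg h0).2 fun ω => ?_
    have e2 := hat_dE ν hπ0 hx σ T ω
    rw [hπb _ _ (slice hx T ω)] at e2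
    have e3 : hat π (dE ν S x) σ T ω = (-1 : ℝ) ^ σ.card • bdS ν S (p σ) T ω := by
      rw [e2, add_zero]
      exact zero_add _
    have e4 : ‖bdS ν S (p σ) T ω‖ = ‖hat π (dE ν S x) σ T ω‖ := by
      rw [e3, norm_smul]
      simp
    rw [e4]
    exact (norm_le_pi_norm (hat π (dE ν S x) σ T) ω).trans
      ((norm_le_pi_norm (hat π (dE ν S x) σ) T).trans
        ((norm_le_pi_norm (hat π (dE ν S x)) σ).trans (hat_norm hCp0 hCp _)))
  refine ⟨hat h x + yy J S i hh p, ?_, ?_, ?_⟩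
  · refine ⟨fun σ T hne => ?_, fun σ T v hv ω => ?_, fun σ T => ?_⟩
    · by_cases h2 : hat h x σ T = 0
      · refine hy2.supp σ T fun h3 => hne ?_
        show hat h x σ T + yy J S i hh p σ T = 0
        rw [h2, h3, add_zero]
      · exact hq.supp σ T h2
    · show e v (hat h x σ T ω + yy J S i hh p σ T ω) = 0
      rw [map_add, hq.ker σ T v hv ω, hy2.ker σ T v hv ω, add_zero]
    · exact Submodule.add_mem _ (hq.mem σ T) (hy2.mem σ T)
  · have h1 : ‖yy J S i hh p‖ ≤ K * ‖p‖ := by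
      have h0 : 0 ≤ K * ‖p‖ := by positivity
      refine (pi_norm_le_iff_of_nonneg h0).2 fun σ => (pi_norm_le_iff_of_nonneg h0).2 fun T => ?_
      unfold yy
      split_ifs
      · have e1 : ‖(-1 : ℝ) ^ σ.card • ap (actJ X J) S (i + S.card - σ.card)
            (hh (i + S.card - σ.card)) (p σ) T‖ = ‖ap (actJ X J) S (i + S.card - σ.card)
            (hh (i + S.card - σ.card)) (p σ) T‖ := by
          rw [norm_smul]
          simp
        rw [e1]
        refine (ap_norm hCb0 hCb' S _ _ (p σ) T).trans ?_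
        have e2 := hKb (i + S.card - σ.card) (by omega)
        have e3 := hn2 (i + S.card - σ.card)
        exact mul_le_mul (by linarith) (norm_le_pi_norm p σ) (norm_nonneg _) hK0
      · rw [norm_zero]
        exact h0
    calc ‖hat h x + yy J S i hh p‖ ≤ ‖hat h x‖ + ‖yy J S i hh p‖ := norm_add_le _ _
      _ ≤ Ch * ‖x‖ + K * (Cp * ‖x‖) :=
          add_le_add (hat_norm hCh0 hCh x)
            (h1.trans (mul_le_mul_of_nonneg_left (hat_norm hCp0 hCp x) hK0))
      _ = (Ch + K * Cp) * ‖x‖ := by ring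
  · have h1 : x - dE ν S (hat h x + yy J S i hh p) =
        hat h (dE ν S x) + (p - dE ν S (yy J S i hh p)) := by
      rw [map_add, ← sub_sub, hfirst]
      abel
    have h2 : ‖p - dE ν S (yy J S i hh p)‖ ≤ K * (Cp * ‖dE ν S x‖) := by
      have h0 : 0 ≤ K * (Cp * ‖dE ν S x‖) := by positivity
      refine (pi_norm_le_iff_of_nonneg h0).2 fun σ => (pi_norm_le_iff_of_nonneg h0).2 fun T => ?_
      show ‖p σ T - dE ν S (yy J S i hh p) σ T‖ ≤ _
      rw [hyd]
      split_ifs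
      · refine (ap_norm hCb0 hCb' S _ _ (bdS ν S (p σ)) T).trans ?_
        have e2 := hKb (i + S.card - σ.card) (by omega)
        have e3 := hn1 (i + S.card - σ.card)
        exact mul_le_mul (by linarith) (hsecond σ) (norm_nonneg _) hK0
      · rw [norm_zero]
        exact h0
    rw [h1]
    calc ‖hat h (dE ν S x) + (p - dE ν S (yy J S i hh p))‖
        ≤ ‖hat h (dE ν S x)‖ + ‖p - dE ν S (yy J S i hh p)‖ := norm_add_le _ _
      _ ≤ Ch * ‖dE ν S x‖ + K * (Cp * ‖dE ν S x‖) :=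
          add_le_add (hat_norm hCh0 hCh _) h2
      _ = (Ch + K * Cp) * ‖dE ν S x‖ := by ring

theorem qf_base {V X : Type} [DecidableEq V] [Fintype V] [NormedAddCommGroup X]
    [NormedSpace ℝ X] [FiniteDimensional ℝ X] {ν : V → ℕ} (hν : Function.Injective ν)
    {G : SimpleGraph V} {e : V → X →ₗ[ℝ] X} {m : V → V → ℕ} {κ : ℝ} (hκ : 0 ≤ κ) {n : ℕ}
    (S : Finset V) (hHV : ∀ i, Cl G S → n + S.card < 2 * i → HVr ν G e ⊤ univ S i)
    (hLC : ∀ b, Cl G S → S.card < 2 * b → LC m ν S b) (i : ℕ) (hi : n < 2 * i) :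
    QF ν G e m κ ∅ S i :=
  qf_baseG hν hκ S i (fun b => S.card < 2 * b)
    (fun a b hS hb hab hQ => hHV a hS (by omega)) hLC

end Pool.Agent.H4.FD
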