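import Pool.Agent.H4.FC.TitsPos
import Pool.Agent.H85.Fold.ClMod
import Pool.Agent.H4.FD.Defs

/-!
# Project FD: finite Coxeter groups, definitions
-/

set_option autoImplicit false

open Finset

namespace Pool.Agent.H4.FD

open Pool.Agent.H85.Fold Pool.Agent.H4.FC

section Geo

variable {S : Type} [Fintype S] [DecidableEq S] {n : ℕ}

/-- simple roots `α v` (unit vectors) and fundamental weights `ω v` in Euclidean space -/
structure IsRoots (M : CoxeterMatrix S) (α ω : S → Fin n → ℝ) : Prop where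
  card : Fintype.card S = n
  dot : ∀ u v, 2 * (α u ⬝ᵥ α v) = kR M u v
  dual : ∀ u v, ω u ⬝ᵥ α v = if u = v then 1 else 0

/-- the action of the Coxeter group on Euclidean space -/
noncomputable def ga (M : CoxeterMatrix S) (α ω : S → Fin n → ℝ) (w : M.Group) :
    (Fin n → ℝ) →ₗ[ℝ] (Fin n → ℝ) where
  toFun x := ∑ v, ((titsHom M w).mulVec fun u => x ⬝ᵥ ω u) v • α v
  map_add' x y := by
    have h : (fun u => (x + y) ⬝ᵥ ω u) = (fun u => x ⬝ᵥ ω u) + fun u => y ⬝ᵥ ω u := by
      funext u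
      simp [add_dotProduct]
    rw [h, Matrix.mulVec_add]
    simp only [Pi.add_apply, add_smul, Finset.sum_add_distrib]
  map_smul' r x := by
    have h : (fun u => (r • x) ⬝ᵥ ω u) = r • fun u => x ⬝ᵥ ω u := by
      funext u
      simp [smul_dotProduct]
    rw [h, Matrix.mulVec_smul]
    simp only [Pi.smul_apply, smul_assoc, RingHom.id_apply, Finset.smul_sum]

/-- dominant vectors -/
def Dm (α : S → Fin n → ℝ) (x : Fin n → ℝ) : Prop := ∀ v, 0 ≤ x ⬝ᵥ α v

/-- the rays of the Coxeter complex: a type `v` and a vector `w ω_v` -/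
def CV (M : CoxeterMatrix S) (α ω : S → Fin n → ℝ) : Type :=
  {q : S × (Fin n → ℝ) // ∃ w : M.Group, q.2 = ga M α ω w (ω q.1)}

/-- the ray `w ω_v` -/
noncomputable def cv {M : CoxeterMatrix S} {α ω : S → Fin n → ℝ} (w : M.Group) (v : S) :
    CV M α ω := ⟨(v, ga M α ω w (ω v)), w, rfl⟩

noncomputable instance {M : CoxeterMatrix S} {α ω : S → Fin n → ℝ} [Finite M.Group] :
    Fintype (CV M α ω) := by
  have : Finite (CV M α ω) := Finite.of_surjective
    (fun p : M.Group × S => (cv p.1 p.2 : CV M α ω)) (by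
      rintro ⟨⟨v, x⟩, w, hw⟩
      refine ⟨(w, v), Subtype.ext ?_⟩
      simp only at hw
      simp [cv, hw])
  exact Fintype.ofFinite _

noncomputable instance {M : CoxeterMatrix S} {α ω : S → Fin n → ℝ} :
    DecidableEq (CV M α ω) := Classical.decEq _

/-- the type of a ray -/
def ty {M : CoxeterMatrix S} {α ω : S → Fin n → ℝ} (q : CV M α ω) : S := q.1.1

/-- the graph of the Coxeter complex: rays of a common chamber -/
def CG (M : CoxeterMatrix S) (α ω : S → Fin n → ℝ) : SimpleGraph (CV M α ω) where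
  Adj q q' := q ≠ q' ∧ ∃ w : M.Group, q = cv w (ty q) ∧ q' = cv w (ty q')
  symm := ⟨fun _ _ h => ⟨h.1.symm, h.2.choose, h.2.choose_spec.2, h.2.choose_spec.1⟩⟩
  loopless := ⟨fun _ h => h.1 rfl⟩

/-- the face of type `T` of the chamber `w`: the rays `w ω_v`, `v ∉ T` -/
noncomputable def cfc {M : CoxeterMatrix S} {α ω : S → Fin n → ℝ} (w : M.Group)
    (T : Finset S) : Finset (CV M α ω) := Tᶜ.image (cv w)

end Geo

/-! ### Fock spaces -/

section Fock

variable {S : Type} [Fintype S] [DecidableEq S]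

/-- a fixed ordering of the elements of `A` -/
noncomputable def sl (A : Finset S) : List S := (univ : Finset S).toList.filter (· ∈ A)

/-- a Fock space with operators `Θ v` (with the relations of the spin representation),
annihilation operators `D v` and vacuum `δ` -/
structure IsFock {F : Type} [AddCommGroup F] [Module ℝ F] (m : S → S → ℕ)
    (Θ D : S → Module.End ℝ F) (δ : F) : Prop where
  sq : ∀ v, Θ v * Θ v = 1
  rel : ∀ u v, u ≠ v → Θ u * Θ v + Θ v * Θ u = cc m u v • (1 : Module.End ℝ F)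
  D_sq : ∀ v, D v * D v = 0
  DD : ∀ u v, D u * D v = -(D v * D u)
  DΘ : ∀ u v, u ≠ v → D u * Θ v = -(Θ v * D u)
  DΘ1 : ∀ v, D v * Θ v + Θ v * D v = 1
  Dδ : ∀ v, D v δ = 0
  ne : δ ≠ 0
  vac : ∀ k, (∀ v, D v k = 0) → ∃ r : ℝ, k = r • δ

end Fock

end Pool.Agent.H4.FD
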