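import Pool.Agent.H4.FD.Dom

/-!
# Project FD: the faces of the Coxeter complex

`M` with finite group, `h : IsRoots M α ω`.
* `cv_eq_iff`: `Subtype.ext_iff`, `Prod.ext_iff`. `exists_cv`: definition of `CV`.
* `cl_iff`. (←) two different elements `cv w u`, `cv w v` of `cfc w T` are adjacent (`ty (cv w u) = u`).
(→) Let `σ` be a clique. Different elements of `σ` have different types (if `q = cv w (ty q)`,
`q' = cv w (ty q')` and `ty q = ty q'` then `q = q'`). Let `I = σ.image ty` and for `i ∈ I` let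
`x i = q.1.2` for the `q ∈ σ` of type `i`. `flag`: for `q ≠ q'` in `σ` with common `w`:
`q.1.2 ⬝ᵥ q'.1.2 = ga w (ω u) ⬝ᵥ ga w (ω v) = ω u ⬝ᵥ ω v` (`ga_dot`), and the same for `q = q'`. So there is
`z` with `q.1.2 = ga z (ω (ty q))` for all `q ∈ σ`, i.e. `q = cv z (ty q)`, and `σ = cfc z Iᶜ`.
* `card_cfc`: `cv w` is injective (types).
* `erase_cfc`: `(insert v T)ᶜ = Tᶜ.erase v`, `Finset.image_erase` or direct.
* `cfc_eq`: types give `T = T'` (`cfc w T` has the types `Tᶜ`); then `cv w v = cv w' v` for `v ∉ T`,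
`ga (w⁻¹ w') (ω v) = ω v`, `stab_par`.
* `cfc_mul_par`: for `u ∈ par M T` and `v ∉ T`: `ga u (ω v) = ω v` by `par_induction` (`ga_simple`,
`ω v ⬝ᵥ α s = 0` for `s ≠ v`), so `cv (w u) v = cv w v`.
* `exists_nuC`: number the rays by `νC q = ν (ty q) * N + (index of q)` with indices `< N`
(`Fintype.equivFin`).
-/

set_option autoImplicit false

open Finset

namespace Pool.Agent.H4.FD

open Pool.Agent.H85.Fold Pool.Agent.H4.FC

variable {S : Type} [Fintype S] [DecidableEq S] {M : CoxeterMatrix S} {n : ℕ}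
  {α ω : S → Fin n → ℝ}

theorem cv_eq_iff {w w' : M.Group} {v v' : S} :
    (cv w v : CV M α ω) = cv w' v' ↔ v = v' ∧ ga M α ω w (ω v) = ga M α ω w' (ω v') := by
  constructor
  · intro h
    have h1 := Prod.ext_iff.mp (congrArg Subtype.val h)
    exact ⟨h1.1, h1.2⟩
  · rintro ⟨h1, h2⟩
    exact Subtype.ext (Prod.ext h1 h2)

theorem exists_cv (q : CV M α ω) : ∃ w : M.Group, q = cv w (ty q) := by
  obtain ⟨⟨v, x⟩, w, hw⟩ := q
  exact ⟨w, Subtype.ext (Prod.ext rfl hw)⟩

private theorem clique_common {σ : Finset (CV M α ω)} (hσ : Cl (CG M α ω) σ)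
    {q q' : CV M α ω} (hq : q ∈ σ) (hq' : q' ∈ σ) :
    ∃ w : M.Group, q = cv w (ty q) ∧ q' = cv w (ty q') := by
  by_cases h : q = q'
  · subst h
    obtain ⟨w, hw⟩ := exists_cv q
    exact ⟨w, hw, hw⟩
  · exact (hσ q hq q' hq' h).2

private theorem clique_type {σ : Finset (CV M α ω)} (hσ : Cl (CG M α ω) σ)
    {q q' : CV M α ω} (hq : q ∈ σ) (hq' : q' ∈ σ) (ht : ty q = ty q') : q = q' := by
  obtain ⟨w, h1, h2⟩ := clique_common hσ hq hq'
  rw [h1, h2, ht]

private theorem vec_cv {q : CV M α ω} {w : M.Group} (h : q = cv w (ty q)) :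
    q.1.2 = ga M α ω w (ω (ty q)) := (Prod.ext_iff.mp (congrArg Subtype.val h)).2

private theorem cv_inj (w : M.Group) : Function.Injective (cv w : S → CV M α ω) :=
  fun _ _ h => (cv_eq_iff.mp h).1

theorem cl_iff (h : IsRoots M α ω) [Finite M.Group] (σ : Finset (CV M α ω)) :
    Cl (CG M α ω) σ ↔ ∃ (w : M.Group) (T : Finset S), σ = cfc w T := by
  classical
  constructor
  · intro hσ
    obtain ⟨x, hx⟩ : ∃ x : S → Fin n → ℝ, ∀ q ∈ σ, x (ty q) = q.1.2 := by
      refine ⟨fun i => if h : ∃ q ∈ σ, ty q = i then h.choose.1.2 else 0, fun q hq => ?_⟩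
      have h1 : ∃ q' ∈ σ, ty q' = ty q := ⟨q, hq, rfl⟩
      have h2 : (if h : ∃ q' ∈ σ, ty q' = ty q then h.choose.1.2 else 0) = h1.choose.1.2 :=
        dif_pos h1
      refine h2.trans ?_
      rw [clique_type hσ h1.choose_spec.1 hq h1.choose_spec.2]
    obtain ⟨z, hz⟩ := flag h (σ.image ty) x (by
      intro i hi
      obtain ⟨q, hq, rfl⟩ := Finset.mem_image.mp hi
      rw [hx q hq]
      obtain ⟨w, hw⟩ := exists_cv q
      exact ⟨w, vec_cv hw⟩) (by
      intro i hi j hj
      obtain ⟨q, hq, rfl⟩ := Finset.mem_image.mp hi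
      obtain ⟨q', hq', rfl⟩ := Finset.mem_image.mp hj
      rw [hx q hq, hx q' hq']
      obtain ⟨w, h1, h2⟩ := clique_common hσ hq hq'
      rw [vec_cv h1, vec_cv h2, ga_dot h])
    have hcv : ∀ q ∈ σ, cv z (ty q) = q := by
      intro q hq
      refine Subtype.ext (Prod.ext rfl ?_)
      show ga M α ω z (ω (ty q)) = q.1.2
      rw [← hz (ty q) (Finset.mem_image_of_mem ty hq), hx q hq]
    refine ⟨z, (σ.image ty)ᶜ, ?_⟩
    ext q
    unfold cfc
    rw [compl_compl, Finset.mem_image]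
    constructor
    · intro hq
      exact ⟨ty q, Finset.mem_image_of_mem ty hq, hcv q hq⟩
    · rintro ⟨i, hi, rfl⟩
      obtain ⟨q, hq, rfl⟩ := Finset.mem_image.mp hi
      rw [hcv q hq]
      exact hq
  · rintro ⟨w, T, rfl⟩ u hu v hv huv
    unfold cfc at hu hv
    obtain ⟨a, -, rfl⟩ := Finset.mem_image.mp hu
    obtain ⟨b, -, rfl⟩ := Finset.mem_image.mp hv
    exact ⟨huv, w, rfl, rfl⟩

theorem card_cfc (w : M.Group) (T : Finset S) :
    (cfc w T : Finset (CV M α ω)).card + T.card = Fintype.card S := by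
  unfold cfc
  rw [Finset.card_image_of_injective _ (cv_inj w), Finset.card_compl_add_card]

theorem erase_cfc (w : M.Group) {T : Finset S} {v : S} (hv : v ∉ T) :
    (cfc w T : Finset (CV M α ω)).erase (cv w v) = cfc w (insert v T) := by
  unfold cfc
  rw [Finset.compl_insert, Finset.image_erase (cv_inj w)]

theorem cfc_eq (h : IsRoots M α ω) {w w' : M.Group} {T T' : Finset S}
    (hc : (cfc w T : Finset (CV M α ω)) = cfc w' T') : T = T' ∧ w⁻¹ * w' ∈ par M T := by
  have key : ∀ v, v ∉ T → v ∉ T' ∧ (cv w v : CV M α ω) = cv w' v := by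
    intro v hv
    have h1 : (cv w v : CV M α ω) ∈ (cfc w T : Finset (CV M α ω)) := by
      unfold cfc
      exact Finset.mem_image_of_mem _ (Finset.mem_compl.mpr hv)
    rw [hc] at h1
    unfold cfc at h1
    obtain ⟨v', hv', h2⟩ := Finset.mem_image.mp h1
    have h3 : v' = v := (cv_eq_iff.mp h2).1
    rw [h3] at hv' h2
    exact ⟨Finset.mem_compl.mp hv', h2.symm⟩
  have key' : ∀ v, v ∉ T' → v ∉ T := by
    intro v hv
    have h1 : (cv w' v : CV M α ω) ∈ (cfc w' T' : Finset (CV M α ω)) := by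
      unfold cfc
      exact Finset.mem_image_of_mem _ (Finset.mem_compl.mpr hv)
    rw [← hc] at h1
    unfold cfc at h1
    obtain ⟨v', hv', h2⟩ := Finset.mem_image.mp h1
    have h3 : v' = v := (cv_eq_iff.mp h2).1
    rw [h3] at hv'
    exact Finset.mem_compl.mp hv'
  refine ⟨?_, stab_par h T _ fun v hv => ?_⟩
  · ext v
    constructor
    · intro hv
      by_contra hcon
      exact key' v hcon hv
    · intro hv
      by_contra hcon
      exact (key v hcon).1 hv
  · rw [ga_mul h, ← (cv_eq_iff.mp (key v hv).2).2, ga_inv h]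

theorem cfc_mul_par (h : IsRoots M α ω) (w : M.Group) {u : M.Group} {T : Finset S}
    (hu : u ∈ par M T) : (cfc (w * u) T : Finset (CV M α ω)) = cfc w T := by
  have h1 : ∀ v, v ∉ T → ga M α ω u (ω v) = ω v := by
    intro v hv
    refine par_induction M T (p := fun u => ga M α ω u (ω v) = ω v) (ga_one h _) ?_ u hu
    intro s hs w' hw'
    have h2 : v ≠ s := fun h3 => hv (h3 ▸ hs)
    rw [ga_mul h, hw', ga_simple h, h.dual, if_neg h2, mul_zero, zero_smul, sub_zero]
  unfold cfc
  refine Finset.image_congr ?_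
  intro v hv
  have hv' : v ∉ T := Finset.mem_compl.mp hv
  rw [cv_eq_iff]
  exact ⟨rfl, by rw [ga_mul h, h1 v hv']⟩

theorem exists_nuC [Finite M.Group] (α ω : S → Fin n → ℝ) (ν : S → ℕ)
    (hν : Function.Injective ν) :
    ∃ νC : CV M α ω → ℕ, Function.Injective νC ∧
      ∀ q q', ty q ≠ ty q' → (νC q < νC q' ↔ ν (ty q) < ν (ty q')) := by
  have hlt : ∀ q : CV M α ω, ((Fintype.equivFin (CV M α ω)) q : ℕ) < Fintype.card (CV M α ω) :=
    fun q => (Fintype.equivFin (CV M α ω) q).2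
  have hmono : ∀ a b i j N : ℕ, i < N → j < N → a < b → a * N + i < b * N + j := by
    intro a b i j N hi hj hab
    have h1 : (a + 1) * N ≤ b * N := Nat.mul_le_mul_right N hab
    have h2 : (a + 1) * N = a * N + N := by ring
    omega
  refine ⟨fun q => ν (ty q) * Fintype.card (CV M α ω) + (Fintype.equivFin (CV M α ω) q : ℕ),
    ?_, ?_⟩
  · intro q q' hqq
    simp only at hqq
    have h1 : ν (ty q) = ν (ty q') := by
      rcases lt_trichotomy (ν (ty q)) (ν (ty q')) with h2 | h2 | h2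
      · have := hmono _ _ _ _ _ (hlt q) (hlt q') h2
        omega
      · exact h2
      · have := hmono _ _ _ _ _ (hlt q') (hlt q) h2
        omega
    rw [h1] at hqq
    have h2 : ((Fintype.equivFin (CV M α ω)) q : ℕ) = (Fintype.equivFin (CV M α ω)) q' := by
      omega
    exact (Fintype.equivFin (CV M α ω)).injective (Fin.ext h2)
  · intro q q' hne
    have hne' : ν (ty q) ≠ ν (ty q') := fun h2 => hne (hν h2)
    simp only
    constructor
    · intro h2
      by_contra h3
      have h4 : ν (ty q') < ν (ty q) := by omega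
      have := hmono _ _ _ _ _ (hlt q') (hlt q) h4
      omega
    · intro h2
      exact hmono _ _ _ _ _ (hlt q) (hlt q') h2

end Pool.Agent.H4.FD
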