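import Pool.Agent.H85.Fold2.ArrR
import Pool.Agent.H4.FD.CGr

/-!
# Project FD: the Coxeter complex is a folded sphere

Write `w x` for `ga M α ω w x`.
`isFoldR_CG`: `zero`: for `q = q'` or adjacent `q`, `q'` there is a common `w`
(`exists_cv` or the definition), `ga_dot`. `neg`: let `q = cv w u`, `q' = cv w' v` (`exists_cv`), different,
not adjacent. `q.1.2 ⬝ᵥ q'.1.2 = ω u ⬝ᵥ (w⁻¹ w') (ω v) ≤ ω u ⬝ᵥ ω v` by `dom_dot_le`. If equality holds,
`stab_orbit` gives `z` with `z (ω u) = ω u`, `(w⁻¹ w') (ω v) = z (ω v)`; then `q = cv (w z) u`,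
`q' = cv (w z) v`, so they are adjacent, a contradiction.

`isSphere_CG`: `IsArrangementR.isHomologySphere` for `r q = q.1.2` and hyperplanes `h i` which
enumerate the finite set of all roots `w (α s)` (a surjection `Fin m → …`; `Set.Finite`, or take
`m = Fintype.card (M.Group × S)` and the equivalence with `Fin m`).
* `adj` (→): `q = cv w u`, `q' = cv w v`, root `β = w' (α s)`: `β ⬝ᵥ w (ω u) = (w⁻¹ w') (α s) ⬝ᵥ ω u`, and
  the same for `v`; by `ga_root` both are `≥ 0` or both `≤ 0`.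
* `adj` (←): `q ≠ q'`, `x = q.1.2 = w₁ (ω u)`, `x' = q'.1.2 = w₂ (ω v)`. By `exists_dom` there is `w` with
  `w (x + x')` dominant. For `s : S`: `a = w x ⬝ᵥ α s = x ⬝ᵥ w⁻¹ (α s)` and `a' = w x' ⬝ᵥ α s` satisfy
  `a + a' ≥ 0`, `a a' ≥ 0` (`w⁻¹ (α s)` is a root), so `a, a' ≥ 0`. So `w x`, `w x'` are dominant;
  `w x = (w w₁) (ω u)`, so `w x = ω u` by `dom_unique` (and `dm_weight`), `x = w⁻¹ (ω u)`,
  `x' = w⁻¹ (ω v)`, a common chamber.
* `indep`: `σ = cfc w T` by `cl_iff`; apply `ga w⁻¹` to the relation: a relation of the `ω v`, `v ∉ T`;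
  take products with `α v` (`dual`). (`Finset.sum_image` with the injective `cv w`.)
* `cover`: `exists_dom`: `w x` dominant, `w x = ∑ v, (w x ⬝ᵥ α v) • ω v` (`expand'`), so
  `x = ∑ v, (w x ⬝ᵥ α v) • w⁻¹ (ω v)`; `σ = cfc w⁻¹ ∅`.
-/

set_option autoImplicit false

open Finset

namespace Pool.Agent.H4.FD

open Pool.Agent.H85.Fold Pool.Agent.H85.Fold2 Pool.Agent.H4.FC

variable {S : Type} [Fintype S] [DecidableEq S] {M : CoxeterMatrix S} {n : ℕ}
  {α ω : S → Fin n → ℝ}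

private theorem vec_cv {q : CV M α ω} {w : M.Group} (h : q = cv w (ty q)) :
    q.1.2 = ga M α ω w (ω (ty q)) := (Prod.ext_iff.mp (congrArg Subtype.val h)).2

private theorem eq_cv {q : CV M α ω} {w : M.Group} (h : q.1.2 = ga M α ω w (ω (ty q))) :
    q = cv w (ty q) := Subtype.ext (Prod.ext rfl h)

private theorem dot_ga (h : IsRoots M α ω) (w : M.Group) (x y : Fin n → ℝ) :
    x ⬝ᵥ ga M α ω w y = ga M α ω w⁻¹ x ⬝ᵥ y := by
  rw [← ga_dot h w (ga M α ω w⁻¹ x) y, ga_inv' h]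

theorem isFoldR_CG (h : IsRoots M α ω) [Finite M.Group] :
    IsFoldR (CG M α ω) (fun q => q.1.2) (fun q => ω (ty q)) := by
  constructor
  · intro u v huv
    obtain ⟨w, h1, h2⟩ : ∃ w : M.Group, u = cv w (ty u) ∧ v = cv w (ty v) := by
      rcases huv with rfl | huv
      · obtain ⟨w, hw⟩ := exists_cv u
        exact ⟨w, hw, hw⟩
      · exact huv.2
    show u.1.2 ⬝ᵥ v.1.2 = ω (ty u) ⬝ᵥ ω (ty v)
    rw [vec_cv h1, vec_cv h2, ga_dot h]
  · intro u v huv hadj
    obtain ⟨w, h1⟩ := exists_cv u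
    obtain ⟨w', h2⟩ := exists_cv v
    show u.1.2 ⬝ᵥ v.1.2 < ω (ty u) ⬝ᵥ ω (ty v)
    have h3 : u.1.2 ⬝ᵥ v.1.2 = ω (ty u) ⬝ᵥ ga M α ω (w⁻¹ * w') (ω (ty v)) := by
      rw [vec_cv h1, vec_cv h2, dotProduct_comm, dot_ga h, ← ga_mul h, dotProduct_comm]
    have h4 := dom_dot_le h (dm_weight h (ty u)) (dm_weight h (ty v)) (w⁻¹ * w')
    rw [h3]
    refine lt_of_le_of_ne h4 fun h5 => hadj ?_
    obtain ⟨z, h6, h7⟩ := stab_orbit h (dm_weight h (ty u)) (dm_weight h (ty v)) (w⁻¹ * w') h5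
    refine ⟨huv, w * z, eq_cv ?_, eq_cv ?_⟩
    · rw [ga_mul h, h6, ← vec_cv h1]
    · rw [ga_mul h, ← h7, ga_mul h, ga_inv' h, ← vec_cv h2]

private theorem pos_of_mul_add {a b : ℝ} (h1 : 0 ≤ a * b) (h2 : 0 ≤ a + b) : 0 ≤ a ∧ 0 ≤ b := by
  constructor
  · by_contra hcon
    push Not at hcon
    have h3 : 0 < b := by linarith
    have h4 := mul_neg_of_neg_of_pos hcon h3
    linarith
  · by_contra hcon
    push Not at hcon
    have h3 : 0 < a := by linarith
    have h4 := mul_neg_of_pos_of_neg h3 hcon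
    linarith

private theorem isArr_CG (h : IsRoots M α ω) [Finite M.Group] {m : ℕ} (e : M.Group × S ≃ Fin m) :
    IsArrangementR (CG M α ω) n (fun i => ga M α ω (e.symm i).1 (α (e.symm i).2))
      (fun q => q.1.2) := by
  have hroot : ∀ (w w' : M.Group) (s : S) (x : Fin n → ℝ),
      ga M α ω w' (α s) ⬝ᵥ ga M α ω w x = ga M α ω (w⁻¹ * w') (α s) ⬝ᵥ x := by
    intro w w' s x
    rw [dot_ga h, ← ga_mul h]
  constructor
  · intro u v
    constructor
    · rintro ⟨hne, w, h1, h2⟩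
      refine ⟨hne, fun i => ?_⟩
      show 0 ≤ (ga M α ω (e.symm i).1 (α (e.symm i).2) ⬝ᵥ u.1.2) *
        (ga M α ω (e.symm i).1 (α (e.symm i).2) ⬝ᵥ v.1.2)
      rw [vec_cv h1, vec_cv h2, hroot, hroot]
      rcases ga_root h (w⁻¹ * (e.symm i).1) (e.symm i).2 with h3 | h3
      · exact mul_nonneg (h3 _) (h3 _)
      · exact mul_nonneg_of_nonpos_of_nonpos (h3 _) (h3 _)
    · rintro ⟨hne, hpos⟩
      obtain ⟨w₁, h1⟩ := exists_cv u
      obtain ⟨w₂, h2⟩ := exists_cv v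
      obtain ⟨w, hw⟩ := exists_dom h (u.1.2 + v.1.2)
      have hs : ∀ s, 0 ≤ ga M α ω w u.1.2 ⬝ᵥ α s ∧ 0 ≤ ga M α ω w v.1.2 ⬝ᵥ α s := by
        intro s
        have h3 := hw s
        rw [map_add, add_dotProduct] at h3
        have h4 := hpos (e (w⁻¹, s))
        simp only [Equiv.symm_apply_apply] at h4
        have h5 : ∀ x : Fin n → ℝ, ga M α ω w⁻¹ (α s) ⬝ᵥ x = ga M α ω w x ⬝ᵥ α s := by
          intro x
          rw [dotProduct_comm (ga M α ω w x), dot_ga h]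
        rw [h5, h5] at h4
        exact pos_of_mul_add h4 h3
      have hu : ga M α ω w u.1.2 = ω (ty u) := by
        have h3 : ga M α ω w u.1.2 = ga M α ω (w * w₁) (ω (ty u)) := by
          rw [ga_mul h, ← vec_cv h1]
        have h4 : Dm α (ga M α ω (w * w₁) (ω (ty u))) := by
          rw [← h3]
          exact fun s => (hs s).1
        rw [h3]
        exact dom_unique h (dm_weight h (ty u)) _ h4
      have hv : ga M α ω w v.1.2 = ω (ty v) := by
        have h3 : ga M α ω w v.1.2 = ga M α ω (w * w₂) (ω (ty v)) := by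
          rw [ga_mul h, ← vec_cv h2]
        have h4 : Dm α (ga M α ω (w * w₂) (ω (ty v))) := by
          rw [← h3]
          exact fun s => (hs s).2
        rw [h3]
        exact dom_unique h (dm_weight h (ty v)) _ h4
      refine ⟨hne, w⁻¹, eq_cv ?_, eq_cv ?_⟩
      · rw [← hu, ga_inv h]
      · rw [← hv, ga_inv h]
  · intro σ hσ c hc q hq
    obtain ⟨w, T, rfl⟩ := (cl_iff h σ).mp hσ
    have hinj : Function.Injective (cv w : S → CV M α ω) := fun _ _ h1 => (cv_eq_iff.mp h1).1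
    unfold cfc at hc hq
    obtain ⟨v₀, hv₀, rfl⟩ := Finset.mem_image.mp hq
    rw [Finset.sum_image fun a _ b _ hab => hinj hab] at hc
    have h1 := congrArg (fun x => x ⬝ᵥ ga M α ω w (α v₀)) hc
    simp only [zero_dotProduct, sum_dotProduct, smul_dotProduct, smul_eq_mul] at h1
    have h2 : ∀ v, (cv w v : CV M α ω).1.2 ⬝ᵥ ga M α ω w (α v₀) = if v = v₀ then 1 else 0 := by
      intro v
      show ga M α ω w (ω v) ⬝ᵥ ga M α ω w (α v₀) = _
      rw [ga_dot h, h.dual]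
    rw [Finset.sum_congr rfl fun v _ => by rw [h2 v, mul_ite, mul_one, mul_zero],
      Finset.sum_ite_eq', if_pos hv₀] at h1
    exact h1
  · intro x
    obtain ⟨w, hw⟩ := exists_dom h x
    have hinj : Function.Injective (cv w⁻¹ : S → CV M α ω) := fun _ _ h1 => (cv_eq_iff.mp h1).1
    refine ⟨cfc w⁻¹ ∅, fun q => ga M α ω w x ⬝ᵥ α (ty q), (cl_iff h _).mpr ⟨w⁻¹, ∅, rfl⟩,
      fun q _ => hw (ty q), ?_⟩
    unfold cfc
    rw [Finset.sum_image fun a _ b _ hab => hinj hab, Finset.compl_empty]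
    have h1 : ga M α ω w⁻¹ (ga M α ω w x) =
        ∑ v, (ga M α ω w x ⬝ᵥ α v) • ga M α ω w⁻¹ (ω v) := by
      conv_lhs => rw [h.expand' (ga M α ω w x)]
      rw [map_sum]
      exact Finset.sum_congr rfl fun v _ => map_smul _ _ _
    rw [ga_inv h] at h1
    exact h1

theorem isSphere_CG (h : IsRoots M α ω) [Finite M.Group] :
    IsHomologySphere (CG M α ω) n := by
  have : Fintype M.Group := Fintype.ofFinite _
  exact (isArr_CG h (Fintype.equivFin (M.Group × S))).isHomologySphere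

end Pool.Agent.H4.FD
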