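import Pool.Agent.H4.FD.CDefs

/-!
# Project FD: the data of the Coxeter complex

Everything that is used of the Coxeter complex of a finite Coxeter group: rays `cr w v`, faces
`fc w T` (of type `T`, the rays `cr w v`, `v ∉ T`), the graph `G`, a numbering `νC`, operators `E q` on
a Fock space `F`.
-/

set_option autoImplicit false

open Finset

namespace Pool.Agent.H4.FD

open Pool.Agent.H85.Fold Pool.Agent.H4.FC

structure IsCox {S : Type} [Fintype S] [DecidableEq S] (M : CoxeterMatrix S) (ν : S → ℕ)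
    {C : Type} [DecidableEq C] [Fintype C] (G : SimpleGraph C) (νC : C → ℕ)
    (cr : M.Group → S → C) (fc : M.Group → Finset S → Finset C)
    {F : Type} [AddCommGroup F] [Module ℝ F] (E : C → F →ₗ[ℝ] F)
    (Θ D : S → Module.End ℝ F) (δ : F) : Prop where
  fock : IsFock (fun u v => M u v) Θ D δ
  fin : FiniteDimensional ℝ F
  cl : ∀ σ, Cl G σ ↔ ∃ w T, σ = fc w T
  fc_def : ∀ w T, fc w T = Tᶜ.image (cr w)
  inj : ∀ w, Function.Injective (cr w)
  eq : ∀ w w' T T', fc w T = fc w' T' → T = T' ∧ w⁻¹ * w' ∈ par M T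
  mul_par : ∀ w T, ∀ u ∈ par M T, fc (w * u) T = fc w T
  νinj : Function.Injective νC
  num : ∀ w u v, u ≠ v → (νC (cr w u) < νC (cr w v) ↔ ν u < ν v)
  act : ∀ s w T k, (∀ q ∈ fc w T, E q k = 0) → ∀ q ∈ fc (M.simple s * w) T, E q (Θ s k) = 0
  vac : ∀ T k, (∀ q ∈ fc 1 T, E q k = 0) ↔ ∀ v, v ∉ T → D v k = 0
  low : ∀ j, 2 * j ≠ Fintype.card S → HV νC G E ⊤ univ j

/-- the linear map `k ↦ fk k (J) y` -/
noncomputable def fyl {S F U : Type} [AddCommGroup F] [Module ℝ F] [AddCommGroup U] [Module ℝ U]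
    (fk : F →ₗ[ℝ] FreeAlgebra ℝ S) (J : S → Module.End ℝ U) (y : U) : F →ₗ[ℝ] U where
  toFun k := FreeAlgebra.lift ℝ J (fk k) y
  map_add' k k' := by simp
  map_smul' r k := by simp

/-- the differential with the signs of the faces of the Coxeter complex -/
def bdC {S U : Type} [Fintype S] [DecidableEq S] [AddCommGroup U] [Module ℝ U] (ν : S → ℕ)
    (z : Finset S → U) (T : Finset S) : U :=
  ∑ v ∈ Tᶜ, sgn ν v (insert v T)ᶜ • z (insert v T)

/-- the polynomial map `fk` of a Fock space -/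
structure IsFk {S : Type} [Fintype S] [DecidableEq S] {F : Type} [AddCommGroup F] [Module ℝ F]
    (m : S → S → ℕ) (Θ D : S → Module.End ℝ F) (δ : F) (fk : F →ₗ[ℝ] FreeAlgebra ℝ S) :
    Prop where
  one : fk δ = 1
  eqv : ∀ (U : Type) [AddCommGroup U] [Module ℝ U] (J : S → Module.End ℝ U) (T : Finset S),
    (∀ u ∈ T, J u * J u = 1) → ∀ y ∈ PP m J T, ∀ k, (∀ u, u ∉ T → D u k = 0) → ∀ v ∈ T,
      FreeAlgebra.lift ℝ J (fk (Θ v k)) y = J v (FreeAlgebra.lift ℝ J (fk k) y)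

/-- the action on linear maps -/
def IsHR {S : Type} (M : CoxeterMatrix S) {F U : Type} [AddCommGroup F] [Module ℝ F]
    [AddCommGroup U] [Module ℝ U] (Θ : S → Module.End ℝ F) (J : S → Module.End ℝ U)
    (A : M.Group →* Module.End ℝ (F →ₗ[ℝ] U)) : Prop :=
  ∀ (l : List S) (f : F →ₗ[ℝ] U) (k : F),
    A (M.toCoxeterSystem.wordProd l) f k = (l.map J).prod (f ((l.reverse.map Θ).prod k))

end Pool.Agent.H4.FD
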