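import Pool.Agent.H4.FD.PPlem

/-!
# Project FD: noncommutative polynomials of operators

All by `FreeAlgebra.induction` (or by the universal property).
* `lift_comm`: `F (lift J q x) = lift J' q (F x)` if this holds for the generators.
* `lift_pw`: `lift_comm` for pointwise maps (`actL_comp`).
* `lift_bound`: scalars: `|r| ‖x‖`; generators: `norm_actL_le`; sums and products: `C + C'`, `C C'`.
* `lift_congr`: the operators `J v` for `v ∉ S` do not matter if `q` is in the image of the map
  induced by the inclusion of `S` (used to pass to subsets); stated as a composition: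
  `lift J (lift (fun s => ι (i s)) q) = lift (J ∘ i) q` (`FreeAlgebra.lift_comp_ι`,
  `FreeAlgebra.hom_ext`).
* `lift_list`: `lift J ((l.map ι).prod) = (l.map J).prod` (`map_list_prod`).
-/

set_option autoImplicit false

open Finset

namespace Pool.Agent.H4.FD

open Pool.Agent.H85.Fold Pool.Agent.H4.FC

theorem lift_comm {V U U' : Type} [AddCommGroup U] [Module ℝ U] [AddCommGroup U'] [Module ℝ U']
    {J : V → Module.End ℝ U} {J' : V → Module.End ℝ U'} (F : U →ₗ[ℝ] U')
    (hF : ∀ v x, F (J v x) = J' v (F x)) (q : FreeAlgebra ℝ V) (x : U) :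
    F (FreeAlgebra.lift ℝ J q x) = FreeAlgebra.lift ℝ J' q (F x) := by
  revert x
  induction q using FreeAlgebra.induction with
  | grade0 r =>
    intro x
    rw [AlgHom.commutes, AlgHom.commutes, Module.algebraMap_end_apply,
      Module.algebraMap_end_apply, map_smul]
  | grade1 v =>
    intro x
    rw [FreeAlgebra.lift_ι_apply, FreeAlgebra.lift_ι_apply, hF]
  | mul a b ha hb =>
    intro x
    rw [map_mul, map_mul, Module.End.mul_apply, Module.End.mul_apply, ha, hb]
  | add a b ha hb =>
    intro x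
    rw [map_add, map_add, LinearMap.add_apply, LinearMap.add_apply, map_add, ha, hb]

theorem lift_pw {V N X Y : Type} [Fintype N] [DecidableEq N] [AddCommGroup X] [Module ℝ X]
    [AddCommGroup Y] [Module ℝ Y] (J : V → Matrix N N ℝ) (L : X →ₗ[ℝ] Y)
    (q : FreeAlgebra ℝ V) (x : N → X) :
    FreeAlgebra.lift ℝ (actJ Y J) q (fun ω => L (x ω)) =
      fun ω => L (FreeAlgebra.lift ℝ (actJ X J) q x ω) :=
  (lift_comm (L.compLeft N) (fun v x => (actL_comp L (J v) x).symm) q x).symm

theorem lift_bound {V X : Type} [NormedAddCommGroup X] [NormedSpace ℝ X] {κ : ℝ} (hκ : 0 ≤ κ)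
    (q : FreeAlgebra ℝ V) :
    ∃ C : ℝ, 0 ≤ C ∧ ∀ (N : Type) [Fintype N] [DecidableEq N] (J : V → Matrix N N ℝ),
      (∀ v, RB κ (J v)) → ∀ x : N → X,
        ‖FreeAlgebra.lift ℝ (actJ X J) q x‖ ≤ C * ‖x‖ := by
  induction q using FreeAlgebra.induction with
  | grade0 r =>
    refine ⟨|r|, abs_nonneg r, fun N _ _ J _ x => ?_⟩
    rw [AlgHom.commutes, Module.algebraMap_end_apply, norm_smul, Real.norm_eq_abs]
  | grade1 v =>
    refine ⟨κ, hκ, fun N _ _ J hJ x => ?_⟩
    rw [FreeAlgebra.lift_ι_apply]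
    exact norm_actL_le hκ (hJ v) x
  | mul a b ha hb =>
    obtain ⟨C, hC, h1⟩ := ha
    obtain ⟨C', hC', h2⟩ := hb
    refine ⟨C * C', mul_nonneg hC hC', fun N _ _ J hJ x => ?_⟩
    rw [map_mul, Module.End.mul_apply]
    refine (h1 N J hJ _).trans ?_
    rw [mul_assoc]
    exact mul_le_mul_of_nonneg_left (h2 N J hJ x) hC
  | add a b ha hb =>
    obtain ⟨C, hC, h1⟩ := ha
    obtain ⟨C', hC', h2⟩ := hb
    refine ⟨C + C', add_nonneg hC hC', fun N _ _ J hJ x => ?_⟩
    rw [map_add, LinearMap.add_apply, add_mul]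
    exact (norm_add_le _ _).trans (add_le_add (h1 N J hJ x) (h2 N J hJ x))

theorem lift_comp {V V' U : Type} [AddCommGroup U] [Module ℝ U] (J : V → Module.End ℝ U)
    (i : V' → V) (q : FreeAlgebra ℝ V') :
    FreeAlgebra.lift ℝ J (FreeAlgebra.lift ℝ (fun s => FreeAlgebra.ι ℝ (i s)) q) =
      FreeAlgebra.lift ℝ (fun s => J (i s)) q := by
  induction q using FreeAlgebra.induction with
  | grade0 r => simp only [AlgHom.commutes]
  | grade1 v => simp only [FreeAlgebra.lift_ι_apply]
  | mul a b ha hb => simp only [map_mul, ha, hb]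
  | add a b ha hb => simp only [map_add, ha, hb]

theorem lift_list {V U : Type} [AddCommGroup U] [Module ℝ U] (J : V → Module.End ℝ U)
    (l : List V) :
    FreeAlgebra.lift ℝ J ((l.map (FreeAlgebra.ι ℝ)).prod) = (l.map J).prod := by
  rw [map_list_prod, List.map_map]
  congr 1
  refine List.map_congr_left fun v _ => ?_
  exact FreeAlgebra.lift_ι_apply J v

end Pool.Agent.H4.FD
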