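import Pool.Agent.H4.FC.RotPow
import Pool.Agent.H4.FC.SphIff
import Pool.Agent.H4.FD.CDefs

/-!
# Project FD: the group acts on the linear maps between two twisted modules

`two_le`: `u ≠ v`, so `M u v ≠ 1` (`off_diagonal`); if `M u v = 0` then `k ↦ (s_u s_v)^k` is injective
(`alt_infinite`; compare the proof of `sph_cl`), impossible in a finite group.
`fock_jrel`: `rot_pow` with `X = Θ u * Θ v`, `Y = Θ v * Θ u`.
`exists_homrep`: for `s : S` let `B s f = J s ∘ f ∘ Θ s`. `B s (B s f) = f`, and
`(B s B t)^m f = (J s J t)^m ∘ f ∘ (Θ t Θ s)^m = (-1) f (-1) = f` for `s ≠ t`, `m = M s t` (`M t s = M s t`),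
`(B s B s)^1 = 1` for `s = t` (`M s s = 1`). So `B` lifts to the Coxeter group
(`M.toCoxeterSystem.lift`). The formula for words by induction on `l`
(`wordProd_cons`, `List.reverse_cons`, `List.map_append`, `List.prod_append`).
-/

set_option autoImplicit false

open Finset

namespace Pool.Agent.H4.FD

open Pool.Agent.H85.Fold Pool.Agent.H4.FC

variable {S : Type} [Fintype S] [DecidableEq S]

theorem two_le (M : CoxeterMatrix S) [Finite M.Group] {u v : S} (huv : u ≠ v) : 2 ≤ M u v := by
  have h1 : M u v ≠ 1 := M.off_diagonal u v huv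
  have h0 : M u v ≠ 0 := by
    intro h0
    obtain ⟨k, hk, hk1⟩ := (isOfFinOrder_of_finite
      (M.toCoxeterSystem.simple u * M.toCoxeterSystem.simple v)).exists_pow_eq_one
    exact alt_infinite M u v huv h0 k hk hk1
  omega

theorem fock_jrel {M : CoxeterMatrix S} [Finite M.Group] {F : Type} [AddCommGroup F]
    [Module ℝ F] {Θ D : S → Module.End ℝ F} {δ : F} (h : IsFock (fun u v => M u v) Θ D δ) :
    JRel (fun u v => M u v) Θ univ := by
  refine ⟨fun v _ => h.sq v, fun u _ v _ huv => ?_⟩
  refine rot_pow (X := Θ u * Θ v) (Y := Θ v * Θ u) ?_ ?_ (two_le M huv) ?_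
  · rw [mul_assoc, ← mul_assoc (Θ v) (Θ v), h.sq, one_mul, h.sq]
  · rw [mul_assoc, ← mul_assoc (Θ u) (Θ u), h.sq, one_mul, h.sq]
  · exact h.rel u v huv

/-- the operator of a generator on the linear maps -/
private def HomRep_B {F U : Type} [AddCommGroup F] [Module ℝ F]
    [AddCommGroup U] [Module ℝ U] (Θ : Module.End ℝ F) (J : Module.End ℝ U) :
    Module.End ℝ (F →ₗ[ℝ] U) where
  toFun f := J.comp (f.comp Θ)
  map_add' f g := by
    ext k
    simp
  map_smul' r f := by
    ext k
    simp

private theorem HomRep_pow {F U : Type} [AddCommGroup F] [Module ℝ F]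
    [AddCommGroup U] [Module ℝ U] (Θ Θ' : Module.End ℝ F) (J J' : Module.End ℝ U) (m : ℕ)
    (f : F →ₗ[ℝ] U) (k : F) :
    ((HomRep_B Θ J * HomRep_B Θ' J') ^ m) f k = ((J * J') ^ m) (f (((Θ' * Θ) ^ m) k)) := by
  induction m generalizing f k with
  | zero => simp
  | succ m ih =>
    rw [pow_succ, Module.End.mul_apply, ih, pow_succ (J * J'), pow_succ' (Θ' * Θ)]
    rfl

theorem exists_homrep (M : CoxeterMatrix S) {F U : Type} [AddCommGroup F] [Module ℝ F]
    [AddCommGroup U] [Module ℝ U] {Θ : S → Module.End ℝ F} {J : S → Module.End ℝ U}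
    (hΘ : JRel (fun u v => M u v) Θ univ) (hJ : JRel (fun u v => M u v) J univ) :
    ∃ A : M.Group →* Module.End ℝ (F →ₗ[ℝ] U), ∀ (l : List S) (f : F →ₗ[ℝ] U) (k : F),
      A (M.toCoxeterSystem.wordProd l) f k =
        (l.map J).prod (f ((l.reverse.map Θ).prod k)) := by
  have hlift : M.IsLiftable (fun s => HomRep_B (Θ s) (J s)) := by
    intro s t
    refine LinearMap.ext fun f => LinearMap.ext fun k => ?_
    rw [HomRep_pow]
    by_cases hst : s = t
    · subst hst
      have h1 : M s s = 1 := M.diagonal s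
      rw [h1, pow_one, pow_one, hJ.sq s (mem_univ _), hΘ.sq s (mem_univ _)]
      rfl
    · have h1 : (J s * J t) ^ M s t = -1 := hJ.rel s (mem_univ _) t (mem_univ _) hst
      have h2 : (Θ t * Θ s) ^ M s t = -1 := by
        have h3 : M s t = M t s := M.symmetric s t
        rw [h3]
        exact hΘ.rel t (mem_univ _) s (mem_univ _) (Ne.symm hst)
      rw [h1, h2]
      simp
  refine ⟨M.toCoxeterSystem.lift ⟨_, hlift⟩, fun l => ?_⟩
  induction l with
  | nil =>
    intro f k
    rw [CoxeterSystem.wordProd_nil, map_one]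
    simp
  | cons s l ih =>
    intro f k
    rw [CoxeterSystem.wordProd_cons, map_mul, Module.End.mul_apply,
      CoxeterSystem.lift_apply_simple]
    have h1 : (HomRep_B (Θ s) (J s)) ((M.toCoxeterSystem.lift ⟨_, hlift⟩)
        (M.toCoxeterSystem.wordProd l) f) k =
        J s (((M.toCoxeterSystem.lift ⟨_, hlift⟩) (M.toCoxeterSystem.wordProd l) f) (Θ s k)) := rfl
    rw [h1, ih f (Θ s k), List.map_cons, List.prod_cons, List.reverse_cons, List.map_append,
      List.prod_append, List.map_singleton, List.prod_singleton]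
    rfl

end Pool.Agent.H4.FD
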