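import Pool.Agent.H4.FC.Par
import Pool.Agent.H4.FD.CoxS
import Pool.Agent.H4.FD.FreeB
import Pool.Agent.H4.FD.HomRep

/-!
# Project FD: equivariant cochains

Setting: `hX : IsCox …`, `hfk : IsFk …`, `hA : IsHR M Θ J A`, `hJ : JRel M J univ`. `K w T` is the space of
the `k` with `E q k = 0` for all `q ∈ fc w T`. Write `f_y = fyl fk J y`.

(1) `K_list`: `k ∈ K w T → (l.map Θ).prod k ∈ K (wordProd l * w) T`: induction on `l`, `act`
(`wordProd_cons`; `M.toCoxeterSystem_simple : M.toCoxeterSystem.simple = M.simple`).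
`A_congr`: write `u = wordProd l` (`CoxeterSystem.wordProd_surjective`); for `k ∈ K (u w) T` the vector
`(l.reverse.map Θ).prod k` is in `K (wordProd l.reverse * (u * w)) T = K w T` (`wordProd_reverse`).
(2) `fy_par`: for `y ∈ PP T`, `u ∈ par M T`, `k ∈ K 1 T`: `A u f_y k = f_y k`. `par_induction`: for
`u = s u'`, `s ∈ T`: `A (s u') f_y k = J s (A u' f_y (Θ s k))` (`A_simple`: the formula for the word `[s]`,
`map_mul`), `Θ s k ∈ K s T = K 1 T` (`act`, `mul_par` for `1 * s`), so this is `J s (f_y (Θ s k))`, and by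
`eqv` for `Θ s k` (killed by the `D u`, `u ∉ T`, by `vac`): `J s (f_y (Θ s k)) = f_y (Θ s (Θ s k)) = f_y k`
(`fock.sq`).
(3) `coch_eq`: if `fc w T = fc w' T'` then `T = T'`, `w' = w u`, `u ∈ par M T`, `A w' f_y k = A w (A u f_y) k`,
and `A u f_y`, `f_y` agree on `K 1 T`, so `A_congr`.
(4) `coch_delta`: `K w T ⊆ K w (insert v T)` (`fc w (insert v T) ⊆ fc w T`), `f_y` and `A w` are linear in
`y`.
(5) `sgn_fc`: count `{q ∈ fc w (insert v T) | νC q < νC (cr w v)}`: by `fc_def` it is the image of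
`{u ∉ insert v T | ν u < ν v}` under the injective `cr w`.
(6) `coch_bd`: let `cwt : Finset C → M.Group × Finset S` be a choice with `σ = fc (cwt σ).1 (cwt σ).2` for
cliques `σ`, and `c z σ = A (cwt σ).1 (f_{z (cwt σ).2})`. For a chain `x` with `IsF G E ⊤ univ (j + 1) x`:
`∑ ρ, c z ρ (bd νC x ρ) = ∑ σ, c (bdC ν z) σ (x σ)`. Exchange sums: the left hand side is
`∑ σ, ∑ q ∈ σ, sgn νC q (σ.erase q) • c z (σ.erase q) (x σ)` (pairs `q ∉ ρ` correspond to pairs
`q ∈ σ`, `σ = insert q ρ`). For `x σ ≠ 0` `σ = fc w T` is a clique, its elements are the `cr w v`, `v ∉ T`, and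
`(fc w T).erase (cr w v) = fc w (insert v T)`; by (3) `c z (fc w (insert v T))` is
`A w f_{z (insert v T)}` on `K w (insert v T)`; then (4), (5), and (3) again for `c (bdC ν z) (fc w T)`
(`bdC ν z T ∈ PP T`: `PP_mono`).
-/

set_option autoImplicit false

open Finset

namespace Pool.Agent.H4.FD

open Pool.Agent.H85.Fold Pool.Agent.H4.FC

section

variable {S : Type} [Fintype S] [DecidableEq S] {M : CoxeterMatrix S} {ν : S → ℕ}
  {C : Type} [DecidableEq C] [Fintype C] {G : SimpleGraph C} {νC : C → ℕ}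
  {cr : M.Group → S → C} {fc : M.Group → Finset S → Finset C}
  {F : Type} [AddCommGroup F] [Module ℝ F] {E : C → F →ₗ[ℝ] F}
  {Θ D : S → Module.End ℝ F} {δ : F} {fk : F →ₗ[ℝ] FreeAlgebra ℝ S}
  {U : Type} [AddCommGroup U] [Module ℝ U] {J : S → Module.End ℝ U}
  {A : M.Group →* Module.End ℝ (F →ₗ[ℝ] U)}

theorem A_simple (hA : IsHR M Θ J A) (s : S) (f : F →ₗ[ℝ] U) (k : F) :
    A (M.simple s) f k = J s (f (Θ s k)) := by
  have h := hA [s] f k
  rw [CoxeterSystem.wordProd_singleton, M.toCoxeterSystem_simple] at h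
  simpa using h

private theorem coch_K_list (hX : IsCox M ν G νC cr fc E Θ D δ) (l : List S) (w : M.Group)
    (T : Finset S) (k : F) (hk : ∀ q ∈ fc w T, E q k = 0) :
    ∀ q ∈ fc (M.toCoxeterSystem.wordProd l * w) T, E q ((l.map Θ).prod k) = 0 := by
  induction l with
  | nil => simpa using hk
  | cons s l ih =>
    rw [CoxeterSystem.wordProd_cons, mul_assoc, M.toCoxeterSystem_simple, List.map_cons,
      List.prod_cons]
    exact hX.act s _ T _ ih

theorem A_congr (hX : IsCox M ν G νC cr fc E Θ D δ) (hA : IsHR M Θ J A) (u w : M.Group)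
    (T : Finset S) (f g : F →ₗ[ℝ] U) (hfg : ∀ k, (∀ q ∈ fc w T, E q k = 0) → f k = g k) (k : F)
    (hk : ∀ q ∈ fc (u * w) T, E q k = 0) : A u f k = A u g k := by
  obtain ⟨l, rfl⟩ := M.toCoxeterSystem.wordProd_surjective u
  rw [hA, hA]
  congr 1
  apply hfg
  have h := coch_K_list hX l.reverse _ T k hk
  rwa [CoxeterSystem.wordProd_reverse, inv_mul_cancel_left] at h

private theorem coch_fy_par (hX : IsCox M ν G νC cr fc E Θ D δ)
    (hfk : IsFk (fun u v => M u v) Θ D δ fk) (hA : IsHR M Θ J A)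
    (hJ : JRel (fun u v => M u v) J univ) {T : Finset S} (y : U)
    (hy : y ∈ PP (fun u v => M u v) J T) :
    ∀ u ∈ par M T, ∀ k, (∀ q ∈ fc 1 T, E q k = 0) → A u (fyl fk J y) k = fyl fk J y k := by
  refine par_induction M T ?_ ?_
  · intro k _
    rw [map_one]
    rfl
  · intro v hv w ih k hk
    have h1 : ∀ q ∈ fc 1 T, E q (Θ v k) = 0 := by
      have h2 := hX.act v 1 T k hk
      rw [mul_one, ← one_mul (M.simple v), hX.mul_par 1 T _ (simple_mem_par M hv)] at h2
      exact h2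
    rw [map_mul]
    show A (M.simple v) (A w (fyl fk J y)) k = _
    rw [A_simple hA, ih _ h1]
    have h3 : fyl fk J y (Θ v (Θ v k)) = J v (fyl fk J y (Θ v k)) :=
      hfk.eqv U J T (fun u _ => hJ.sq u (mem_univ u)) y hy (Θ v k) ((hX.vac T _).1 h1) v hv
    have h4 : Θ v (Θ v k) = k := by
      have h5 := congrArg (fun L : Module.End ℝ F => L k) (hX.fock.sq v)
      exact h5
    rw [← h3, h4]

theorem coch_eq (hX : IsCox M ν G νC cr fc E Θ D δ) (hfk : IsFk (fun u v => M u v) Θ D δ fk)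
    (hA : IsHR M Θ J A) (hJ : JRel (fun u v => M u v) J univ) {w w' : M.Group}
    {T T' : Finset S} (hfc : fc w T = fc w' T') (y : U) (hy : y ∈ PP (fun u v => M u v) J T)
    (k : F) (hk : ∀ q ∈ fc w T, E q k = 0) :
    A w' (fyl fk J y) k = A w (fyl fk J y) k := by
  obtain ⟨rfl, hu⟩ := hX.eq w w' T T' hfc
  have h1 : w' = w * (w⁻¹ * w') := (mul_inv_cancel_left w w').symm
  rw [h1, map_mul]
  show A w (A (w⁻¹ * w') (fyl fk J y)) k = _
  refine A_congr hX hA w 1 T _ _ (fun k' hk' => coch_fy_par hX hfk hA hJ y hy _ hu k' hk') k ?_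
  rwa [mul_one]

theorem sgn_fc (hX : IsCox M ν G νC cr fc E Θ D δ) (w : M.Group) (T : Finset S) (v : S)
    (hv : v ∉ T) :
    (fc w T).erase (cr w v) = fc w (insert v T) ∧
      sgn νC (cr w v) (fc w (insert v T)) = sgn ν v (insert v T)ᶜ := by
  constructor
  · rw [hX.fc_def, hX.fc_def, compl_insert, image_erase (hX.inj w)]
  · unfold sgn
    congr 1
    rw [hX.fc_def, filter_image, card_image_of_injective _ (hX.inj w)]
    congr 1
    refine filter_congr fun u hu => ?_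
    rw [mem_compl, mem_insert, not_or] at hu
    exact hX.num w u v hu.1

theorem bdC_mem (z : Finset S → U) (hz : ∀ T, z T ∈ PP (fun u v => M u v) J T) (T : Finset S) :
    bdC ν z T ∈ PP (fun u v => M u v) J T := by
  unfold bdC
  refine Submodule.sum_mem _ fun v _ => Submodule.smul_mem _ _ ?_
  exact PP_mono (subset_insert v T) (hz (insert v T))

private theorem coch_fyl_bdC (z : Finset S → U) (T : Finset S) :
    fyl fk J (bdC ν z T) = ∑ v ∈ Tᶜ, sgn ν v (insert v T)ᶜ • fyl fk J (z (insert v T)) := by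
  ext k
  rw [LinearMap.sum_apply]
  show FreeAlgebra.lift ℝ J (fk k) (∑ v ∈ Tᶜ, sgn ν v (insert v T)ᶜ • z (insert v T)) = _
  rw [map_sum]
  refine sum_congr rfl fun v _ => ?_
  rw [map_smul, LinearMap.smul_apply]
  rfl

/-- exchange of the sums over pairs -/
private theorem coch_pairs (c : Finset C → F →ₗ[ℝ] U) (x : Finset C → F) :
    ∑ ρ, c ρ (bd νC x ρ) = ∑ σ, ∑ q ∈ σ, sgn νC q (σ.erase q) • c (σ.erase q) (x σ) := by
  have h1 : ∀ ρ, c ρ (bd νC x ρ) = ∑ q ∈ ρᶜ, sgn νC q ρ • c ρ (x (insert q ρ)) := by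
    intro ρ
    show c ρ (∑ q ∈ ρᶜ, sgn νC q ρ • x (insert q ρ)) = _
    rw [map_sum]
    exact sum_congr rfl fun q _ => map_smul _ _ _
  rw [sum_congr rfl fun ρ _ => h1 ρ, sum_sigma', sum_sigma']
  refine sum_bij' (fun z _ => ⟨insert z.2 z.1, z.2⟩) (fun z _ => ⟨z.1.erase z.2, z.2⟩)
    ?_ ?_ ?_ ?_ ?_
  · rintro ⟨ρ, v⟩ h
    simp only [mem_sigma, mem_univ, true_and, mem_insert_self]
  · rintro ⟨σ, v⟩ h
    simp only [mem_sigma, mem_univ, true_and, mem_compl, mem_erase, ne_eq, not_true_eq_false,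
      false_and, not_false_eq_true]
  · rintro ⟨ρ, v⟩ h
    simp only [mem_sigma, mem_univ, true_and, mem_compl] at h
    simp only [erase_insert h]
  · rintro ⟨σ, v⟩ h
    simp only [mem_sigma, mem_univ, true_and] at h
    simp only [insert_erase h]
  · rintro ⟨ρ, v⟩ h
    simp only [mem_sigma, mem_univ, true_and, mem_compl] at h
    simp only [erase_insert h]

theorem coch_bd (hX : IsCox M ν G νC cr fc E Θ D δ) (hfk : IsFk (fun u v => M u v) Θ D δ fk)
    (hA : IsHR M Θ J A) (hJ : JRel (fun u v => M u v) J univ)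
    (cw : Finset C → M.Group) (ct : Finset C → Finset S)
    (hct : ∀ σ, Cl G σ → σ = fc (cw σ) (ct σ)) (z : Finset S → U)
    (hz : ∀ T, z T ∈ PP (fun u v => M u v) J T) (j : ℕ) (x : Finset C → F)
    (hx : IsF G E ⊤ univ j x) :
    ∑ ρ, A (cw ρ) (fyl fk J (z (ct ρ))) (bd νC x ρ) =
      ∑ σ, A (cw σ) (fyl fk J (bdC ν z (ct σ))) (x σ) := by
  rw [coch_pairs (fun ρ => A (cw ρ) (fyl fk J (z (ct ρ)))) x]
  refine sum_congr rfl fun σ _ => ?_
  by_cases h0 : x σ = 0
  · rw [h0, map_zero]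
    exact sum_eq_zero fun q _ => by rw [map_zero, smul_zero]
  obtain ⟨-, hcl, -⟩ := hx.supp σ h0
  have hσ := hct σ hcl
  rw [coch_fyl_bdC, map_sum, LinearMap.sum_apply]
  generalize hw : cw σ = w at hσ
  generalize hT : ct σ = T at hσ
  have hfd : fc w T = Tᶜ.image (cr w) := hX.fc_def w T
  have h1 : ∑ q ∈ σ, sgn νC q (σ.erase q) • A (cw (σ.erase q)) (fyl fk J (z (ct (σ.erase q)))) (x σ) =
      ∑ v ∈ Tᶜ, sgn νC (cr w v) (σ.erase (cr w v)) •
        A (cw (σ.erase (cr w v))) (fyl fk J (z (ct (σ.erase (cr w v))))) (x σ) := by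
    have h2 : ∑ q ∈ σ, sgn νC q (σ.erase q) •
        A (cw (σ.erase q)) (fyl fk J (z (ct (σ.erase q)))) (x σ) =
        ∑ q ∈ Tᶜ.image (cr w), sgn νC q (σ.erase q) •
          A (cw (σ.erase q)) (fyl fk J (z (ct (σ.erase q)))) (x σ) := by
      rw [← hfd, ← hσ]
    rw [h2, sum_image fun a _ b _ hab => hX.inj w hab]
  rw [h1]
  refine sum_congr rfl fun v hv => ?_
  rw [mem_compl] at hv
  obtain ⟨h2, h3⟩ := sgn_fc hX w T v hv
  have h4 : σ.erase (cr w v) = fc w (insert v T) := by rw [hσ, h2]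
  rw [h4, h3, map_smul, LinearMap.smul_apply]
  congr 1
  have h5 : fc w (insert v T) = fc (cw (fc w (insert v T))) (ct (fc w (insert v T))) :=
    hct _ ((hX.cl _).2 ⟨w, insert v T, rfl⟩)
  have h6 := (hX.eq _ _ _ _ h5).1
  rw [← h6]
  rw [← h6] at h5
  refine coch_eq hX hfk hA hJ h5 _ (hz _) _ fun q hq => hx.ker σ q ?_
  rw [← h4] at hq
  exact mem_of_mem_erase hq

end

end Pool.Agent.H4.FD
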