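import Pool.Agent.H4.Loop.Final

set_option autoImplicit false

/-!
Conjugates of the inversion of an automorphic loop: `D L J q = L q J (L q)⁻¹`.
-/

namespace ALoop

open Equiv

variable {Q : Type*} {G : Subgroup (Perm Q)} {L : Q → Perm Q} {J : Perm Q} {e : Q}

/-- the inversion at the point `q` -/
def D (L : Q → Perm Q) (J : Perm Q) (q : Q) : Perm Q := L q * J * (L q)⁻¹

/-- products of two different commuting conjugates of `J` -/
def Z (L : Q → Perm Q) (J : Perm Q) : Set (Perm Q) :=
  {w | ∃ p q, p ≠ q ∧ D L J p * D L J q = D L J q * D L J p ∧ w = D L J p * D L J q}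

namespace AL

theorem D_conj (h : AL G L J e) {g : Perm Q} (hg : g ∈ G) (q : Q) :
    g * D L J q * g⁻¹ = D L J (g q) := by
  have h1 := h.conjJ (G.mul_mem hg (h.memL q))
  rw [Perm.mul_apply, h.Le] at h1
  unfold D
  rw [← h1]; group

theorem D_e (h : AL G L J e) : D L J e = J := by
  unfold D; rw [h.Le1]; group

theorem D_inj (h : AL G L J e) {p q : Q} (hpq : D L J p = D L J q) : p = q := h.conjJ_inj hpq

theorem D_sq (h : AL G L J e) (q : Q) : D L J q * D L J q = 1 := by
  unfold D
  calc L q * J * (L q)⁻¹ * (L q * J * (L q)⁻¹) = L q * (J * J) * (L q)⁻¹ := by group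
    _ = 1 := by rw [h.JJ1]; group

theorem D_self (h : AL G L J e) (q : Q) : D L J q q = q := by
  unfold D
  have h1 : (L q)⁻¹ q = e := by rw [Perm.inv_eq_iff_eq, h.Le]
  rw [Perm.mul_apply, Perm.mul_apply, h1, h.Je, h.Le]

theorem D_cent (h : AL G L J e) {g : Perm Q} (hg : g ∈ G) (q : Q) :
    g * D L J q = D L J q * g ↔ g q = q := by
  constructor
  · intro h1
    apply h.D_inj
    rw [← h.D_conj hg, h1]; group
  · intro h1
    have h2 := h.D_conj hg q
    rw [h1] at h2
    calc g * D L J q = (g * D L J q * g⁻¹) * g := by group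
      _ = D L J q * g := by rw [h2]

theorem D_J (h : AL G L J e) (q : Q) : J * D L J q * J = D L J (J q) := by
  have hg := h.JG _ (h.memL q)
  have h1 := h.D_conj hg e
  rw [h.D_e] at h1
  have h2 : (J * L q * J) e = J q := by
    rw [Perm.mul_apply, Perm.mul_apply, h.Je, h.Le]
  rw [h2] at h1
  rw [← h1]
  unfold D
  have h3 : J * J * J = J := by rw [h.JJ1, one_mul]
  rw [h.Jmul, h.Jmul, h.Jmulinv, h3]

/-- `D p * D q` is in `G` -/
theorem D_mul_mem (h : AL G L J e) (p q : Q) : D L J p * D L J q ∈ G := by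
  have h1 : D L J p * D L J q = L p * (J * ((L p)⁻¹ * L q) * J) * (L q)⁻¹ := by
    unfold D; group
  rw [h1]
  exact G.mul_mem (G.mul_mem (h.memL p)
    (h.JG _ (G.mul_mem (G.inv_mem (h.memL p)) (h.memL q)))) (G.inv_mem (h.memL q))

/-- an element of `G` moving `p` to `q` and commuting with everything that fixes `p` and `q` -/
theorem exists_com (h : AL G L J e) (p q : Q) : ∃ c ∈ G, c p = q ∧
    ∀ g ∈ G, g p = p → g q = q → g * c = c * g := by
  set r := (L p)⁻¹ q with hr
  have hLpr : L p r = q := by rw [hr, apply_inv']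
  refine ⟨L p * L r * (L p)⁻¹, G.mul_mem (G.mul_mem (h.memL p) (h.memL r))
    (G.inv_mem (h.memL p)), ?_, ?_⟩
  · have h1 : (L p)⁻¹ p = e := by rw [Perm.inv_eq_iff_eq, h.Le]
    rw [Perm.mul_apply, Perm.mul_apply, h1, h.Le, hLpr]
  · intro g hg hgp hgq
    have hg' : (L p)⁻¹ * g * L p ∈ G :=
      G.mul_mem (G.mul_mem (G.inv_mem (h.memL p)) hg) (h.memL p)
    have h1 : ((L p)⁻¹ * g * L p) e = e := by
      rw [Perm.mul_apply, Perm.mul_apply, h.Le, hgp, Perm.inv_eq_iff_eq, h.Le]
    have h2 : ((L p)⁻¹ * g * L p) r = r := by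
      rw [Perm.mul_apply, Perm.mul_apply, hLpr, hgq, ← hr]
    have h3 := h.comL hg' h1 h2
    calc g * (L p * L r * (L p)⁻¹) = L p * (((L p)⁻¹ * g * L p) * L r) * (L p)⁻¹ := by group
      _ = L p * (L r * ((L p)⁻¹ * g * L p)) * (L p)⁻¹ := by rw [h3]
      _ = L p * L r * (L p)⁻¹ * g := by group

/-- `G` is transitive -/
theorem exists_map (h : AL G L J e) (p q : Q) : ∃ c ∈ G, c p = q := by
  obtain ⟨c, hc, hcp, -⟩ := h.exists_com p q
  exact ⟨c, hc, hcp⟩

theorem Z_mem (h : AL G L J e) {w : Perm Q} (hw : w ∈ Z L J) : w ∈ G := by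
  obtain ⟨p, q, -, -, rfl⟩ := hw
  exact h.D_mul_mem p q

theorem Z_sq (h : AL G L J e) {w : Perm Q} (hw : w ∈ Z L J) : w * w = 1 := by
  obtain ⟨p, q, -, hc, rfl⟩ := hw
  calc D L J p * D L J q * (D L J p * D L J q)
      = D L J p * (D L J q * D L J p) * D L J q := by group
    _ = (D L J p * D L J p) * (D L J q * D L J q) := by rw [← hc]; group
    _ = 1 := by rw [h.D_sq, h.D_sq, one_mul]

theorem Z_ne (h : AL G L J e) {w : Perm Q} (hw : w ∈ Z L J) : w ≠ 1 := by
  obtain ⟨p, q, hne, hc, rfl⟩ := hw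
  intro h1
  apply hne
  apply h.D_inj
  calc D L J p = D L J p * (D L J q * D L J q) := by rw [h.D_sq, mul_one]
    _ = (D L J p * D L J q) * D L J q := by group
    _ = D L J q := by rw [h1, one_mul]

theorem Z_conj (h : AL G L J e) {w : Perm Q} (hw : w ∈ Z L J) {g : Perm Q} (hg : g ∈ G) :
    g * w * g⁻¹ ∈ Z L J := by
  obtain ⟨p, q, hne, hc, rfl⟩ := hw
  refine ⟨g p, g q, fun hh => hne (g.injective hh), ?_, ?_⟩
  · rw [← h.D_conj hg, ← h.D_conj hg]
    calc g * D L J p * g⁻¹ * (g * D L J q * g⁻¹) = g * (D L J p * D L J q) * g⁻¹ := by group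
      _ = g * (D L J q * D L J p) * g⁻¹ := by rw [hc]
      _ = g * D L J q * g⁻¹ * (g * D L J p * g⁻¹) := by group
  · rw [← h.D_conj hg, ← h.D_conj hg]; group

/-- the partner of a fixed point -/
theorem Z_part (h : AL G L J e) {w : Perm Q} (hw : w ∈ Z L J) {r : Q} (hr : w r = r) :
    ∃ s, s ≠ r ∧ D L J s = D L J r * w := by
  have hwG := h.Z_mem hw
  obtain ⟨p, q, hne, hc, rfl⟩ := hw
  have hp : (D L J p * D L J q) p = p := by
    rw [← h.D_cent hwG]
    calc D L J p * D L J q * D L J p = D L J p * (D L J q * D L J p) := by group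
      _ = D L J p * (D L J p * D L J q) := by rw [hc]
  obtain ⟨c, hcG, hcp, hcom⟩ := h.exists_com p r
  have h1 := hcom _ hwG hp hr
  refine ⟨c q, fun hh => hne ?_, ?_⟩
  · rw [← hcp] at hh
    exact (c.injective hh).symm
  · have h2 := h.D_conj hcG p
    rw [hcp] at h2
    rw [← h.D_conj hcG, ← h2]
    have h3 : D L J q = D L J p * (D L J p * D L J q) := by
      calc D L J q = (D L J p * D L J p) * D L J q := by rw [h.D_sq, one_mul]
        _ = _ := by group
    calc c * D L J q * c⁻¹ = c * D L J p * (D L J p * D L J q) * c⁻¹ := by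
          conv_lhs => rw [h3]
          group
      _ = c * D L J p * c⁻¹ * (c * (D L J p * D L J q)) * c⁻¹ := by group
      _ = c * D L J p * c⁻¹ * ((D L J p * D L J q) * c) * c⁻¹ := by rw [h1]
      _ = c * D L J p * c⁻¹ * (D L J p * D L J q) := by group

/-- left translations by an involution move every point to a commuting one -/
theorem adjL (h : AL G L J e) {x : Q} (hx : J x = x) (hxe : x ≠ e) (q : Q) :
    L x q ≠ q ∧ D L J (L x q) * D L J q = D L J q * D L J (L x q) := by
  refine ⟨fun h1 => hxe (h.fpf h1), ?_⟩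
  have hR := h.memR q
  have h1 : (J * L (J q) * J) x = L x q := h.R_apply x q
  have h2 : (J * L (J q) * J) e = q := by rw [h.R_apply, h.Le1, Perm.one_apply]
  have h3 := h.D_conj hR x
  have h4 := h.D_conj hR e
  rw [h1] at h3
  rw [h2, h.D_e] at h4
  rw [← h3, ← h4]
  have h5 : D L J x * J = J * D L J x := by
    have := h.D_J x
    rw [hx] at this
    calc D L J x * J = (J * J) * D L J x * J := by rw [h.JJ1, one_mul]
      _ = J * (J * D L J x * J) := by group
      _ = J * D L J x := by rw [this]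
  set R := J * L (J q) * J
  calc R * D L J x * R⁻¹ * (R * J * R⁻¹) = R * (D L J x * J) * R⁻¹ := by group
    _ = R * (J * D L J x) * R⁻¹ := by rw [h5]
    _ = R * J * R⁻¹ * (R * D L J x * R⁻¹) := by group

/-- right translations by an involution move every point to a commuting one -/
theorem adjR (h : AL G L J e) {x : Q} (hx : J x = x) (hxe : x ≠ e) (q : Q) :
    (J * L x * J) q ≠ q ∧
      D L J ((J * L x * J) q) * D L J q = D L J q * D L J ((J * L x * J) q) := by
  have h0 : (J * L x * J) q = L q x := by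
    have := h.R_apply q x
    rwa [hx] at this
  rw [h0]
  have h1 : L q e = q := h.Le q
  refine ⟨fun h2 => hxe ?_, ?_⟩
  · apply (L q).injective; rw [h2, h1]
  · have h3 := h.D_conj (h.memL q) x
    have h4 := h.D_conj (h.memL q) e
    rw [h1, h.D_e] at h4
    rw [← h3, ← h4]
    have h5 : D L J x * J = J * D L J x := by
      have := h.D_J x
      rw [hx] at this
      calc D L J x * J = (J * J) * D L J x * J := by rw [h.JJ1, one_mul]
        _ = J * (J * D L J x * J) := by group
        _ = J * D L J x := by rw [this]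
    calc L q * D L J x * (L q)⁻¹ * (L q * J * (L q)⁻¹) = L q * (D L J x * J) * (L q)⁻¹ := by
          group
      _ = L q * (J * D L J x) * (L q)⁻¹ := by rw [h5]
      _ = L q * J * (L q)⁻¹ * (L q * D L J x * (L q)⁻¹) := by group

end AL

end ALoop
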