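import Mathlib

set_option autoImplicit false

/-!
Two counting lemmas modulo four.
-/

namespace ALoop

open Equiv

section

variable {X : Type*}

/-- the pairs `{x, k x}` -/
def pairSetoid (k : X → X) (hk : ∀ x, k (k x) = x) : Setoid X where
  r a b := b = a ∨ b = k a
  iseqv :=
    { refl := fun a => Or.inl rfl
      symm := by
        rintro a b (rfl | rfl)
        · exact Or.inl rfl
        · right; rw [hk]
      trans := by
        rintro a b c (rfl | rfl) (rfl | rfl)
        · exact Or.inl rfl
        · exact Or.inr rfl
        · exact Or.inr rfl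
        · left; rw [hk] }

theorem count_mod4 [Finite X] (k : X → X) (hk : ∀ x, k (k x) = x) (hk' : ∀ x, k x ≠ x)
    (s : Perm X) (hs : ∀ x, s (k x) = k (s x)) {n : ℕ} (hn : s ^ 2 ^ n = 1) :
    Nat.card X ≡ Nat.card {x // s x = x ∨ s x = k x} [MOD 4] := by
  classical
  have := Fintype.ofFinite X
  let r : Setoid X := pairSetoid k hk
  let Y := Quotient r
  have : Fintype Y := Fintype.ofFinite Y
  have hmk : ∀ a b : X, (Quotient.mk r a = Quotient.mk r b) ↔ (b = a ∨ b = k a) := by
    intro a b
    rw [Quotient.eq]
    exact Iff.rfl
  -- a set closed under `k` has twice as many elements as pairs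
  have key : ∀ T : Finset X, (∀ x ∈ T, k x ∈ T) →
      T.card = 2 * (T.image (fun x => Quotient.mk r x)).card := by
    intro T hT
    rw [Finset.card_eq_sum_card_image (fun x => Quotient.mk r x) T,
      Finset.sum_const_nat (m := 2), mul_comm]
    intro y hy
    obtain ⟨x, hx, rfl⟩ := Finset.mem_image.1 hy
    have h1 : T.filter (fun x' => Quotient.mk r x' = Quotient.mk r x) = {x, k x} := by
      ext x'
      simp only [Finset.mem_filter, Finset.mem_insert, Finset.mem_singleton]
      constructor
      · rintro ⟨-, h2⟩
        exact (hmk x x').1 h2.symm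
      · rintro (rfl | rfl)
        · exact ⟨hx, rfl⟩
        · exact ⟨hT _ hx, ((hmk x (k x)).2 (Or.inr rfl)).symm⟩
    rw [h1, Finset.card_pair (hk' x).symm]
  -- the induced permutation of the pairs
  let sb : Perm Y := Quotient.congr s (by
    intro a b
    change (b = a ∨ b = k a) ↔ (s b = s a ∨ s b = k (s a))
    rw [← hs, s.injective.eq_iff, s.injective.eq_iff])
  have hsb : ∀ (m : ℕ) (x : X), (sb ^ m) (Quotient.mk r x) = Quotient.mk r ((s ^ m) x) := by
    intro m
    induction m with
    | zero => intro x; rfl
    | succ m ih =>
      intro x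
      rw [pow_succ, pow_succ, Perm.mul_apply, Perm.mul_apply]
      exact ih (s x)
  have hsn : sb ^ 2 ^ n = 1 := by
    ext y
    induction y using Quotient.inductionOn with
    | h x => rw [hsb, hn]; rfl
  have : Fact (Nat.Prime 2) := ⟨Nat.prime_two⟩
  have h2 := Equiv.Perm.card_compl_support_modEq (p := 2) hsn
  -- fixed pairs
  let T : Finset X := Finset.univ.filter (fun x => s x = x ∨ s x = k x)
  have hT : ∀ x ∈ T, k x ∈ T := by
    intro x hx
    simp only [T, Finset.mem_filter, Finset.mem_univ, true_and] at hx ⊢
    rw [hs]
    rcases hx with h3 | h3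
    · left; rw [h3]
    · right; rw [h3]
  have hTi : T.image (fun x => Quotient.mk r x) = sb.supportᶜ := by
    ext y
    induction y using Quotient.inductionOn with
    | h x =>
      rw [Finset.mem_compl, Perm.mem_support, not_not, Finset.mem_image]
      constructor
      · rintro ⟨x', hx', h3⟩
        rw [← h3]
        simp only [T, Finset.mem_filter, Finset.mem_univ, true_and] at hx'
        change Quotient.mk r (s x') = Quotient.mk r x'
        rw [eq_comm]
        exact (hmk x' (s x')).2 hx'
      · intro h3
        refine ⟨x, ?_, rfl⟩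
        simp only [T, Finset.mem_filter, Finset.mem_univ, true_and]
        have h4 : Quotient.mk r (s x) = Quotient.mk r x := h3
        exact (hmk x (s x)).1 h4.symm
  have h3 := key T hT
  have h4 := key Finset.univ (fun x _ => Finset.mem_univ _)
  have h5 : (Finset.univ.image (fun x => Quotient.mk r x)) = (Finset.univ : Finset Y) := by
    ext y
    induction y using Quotient.inductionOn with
    | h x => simp
  rw [hTi] at h3
  rw [h5] at h4
  have h6 : Nat.card X = (Finset.univ : Finset X).card := by
    rw [Nat.card_eq_fintype_card]; rfl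
  have h7 : Nat.card {x // s x = x ∨ s x = k x} = T.card := by
    rw [Nat.card_eq_fintype_card, Fintype.card_subtype]
  rw [h6, h7, h4, h3]
  have h8 : (Finset.univ : Finset Y).card = Fintype.card Y := Finset.card_univ
  rw [h8]
  unfold Nat.ModEq at h2 ⊢
  omega

/-- an even involution has as many fixed points as there are points, modulo four -/
theorem even_invol [Finite X] [DecidableEq X] [Fintype X] (w : Perm X) (hw : w * w = 1)
    (hs : Perm.sign w = 1) : Nat.card X ≡ Nat.card {x // w x = x} [MOD 4] := by
  classical
  by_cases h1 : w = 1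
  · subst h1
    have : Nat.card {x : X // (1 : Perm X) x = x} = Nat.card X := by
      apply Nat.card_congr
      exact Equiv.subtypeUnivEquiv (fun x => rfl)
    rw [this]
  have ho : orderOf w = 2 := by
    apply orderOf_eq_prime
    · rw [pow_two, hw]
    · exact h1
  obtain ⟨n, hn⟩ := Perm.cycleType_prime_order (by rw [ho]; exact Nat.prime_two)
  rw [ho] at hn
  have h2 : w.support.card = 2 * (n + 1) := by
    rw [← Perm.sum_cycleType, hn, Multiset.sum_replicate, smul_eq_mul, mul_comm]
  have h3 : Even (n + 1) := by
    rw [Perm.sign_of_cycleType, hn, Multiset.sum_replicate, Multiset.card_replicate,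
      smul_eq_mul] at hs
    by_contra hodd
    rw [Nat.not_even_iff_odd] at hodd
    have h4 : Odd ((n + 1) * 2 + (n + 1)) := by
      rw [Nat.odd_add]
      constructor
      · intro h5
        exact absurd h5 (by rw [Nat.not_odd_iff_even]; exact even_two.mul_left _)
      · intro h5
        exact absurd h5 (by rw [Nat.not_even_iff_odd]; exact hodd)
    rw [h4.neg_one_pow] at hs
    exact absurd hs (by decide)
  have h5 : Nat.card {x // w x = x} = w.supportᶜ.card := by
    rw [Nat.card_eq_fintype_card, Fintype.card_subtype]
    congr 1
    ext x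
    simp
  have h6 := Finset.card_compl w.support
  have h7 := Finset.card_le_univ w.support
  rw [h5, Nat.card_eq_fintype_card]
  obtain ⟨m, hm⟩ := h3
  unfold Nat.ModEq
  omega

end

end ALoop
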