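import Pool.Agent.H4.FD.Eps

/-!
# Project FD: existence of the Fock space

`exists_vac`: a Clifford module of `ℝ^{n,n}` with invariant scalar product whose vacuum
`{k | (γ i + η i) k = 0 for all i}` is one-dimensional. Construction by induction on `n`: `n = 0`: `F = ℝ`
(or `Unit → ℝ`), `δ = 1`. Step: `F' = F × F` (or functions on `D × Bool`), elements `(x, y) = x + c y` with a
new creation operator `c`; for `i < n`: `γ' i (x, y) = (γ i x, - γ i y)`, the same for `η`; new:
`γ' (x, y) = (y, x)`, `η' (x, y) = (y, - x)` (so `γ' + η' : (x, y) ↦ (2 y, 0)`, squares `1`, `-1`,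
anticommuting, `γ'` symmetric, `η'` antisymmetric: `dot' ((x,y),(x',y')) = dot x x' + dot y y'`;
`dot' (η' (x,y)) (x',y') = dot y x' - dot x y' = - dot' (x,y) (η' (x',y'))`). Vacuum: `y = 0` and `x` in the
vacuum of `F`; `δ' = (δ, 0)`. Use `Fin.cons`/`Fin.snoc` for the index set. (Alternatively take the
matrices of `exists_fermi` for `I = Fin n`, where `D = I → Bool`, and prove this for them.)

`fock_of`: `Θ v = ε v • lc γ (α v)`, `D v = (ε v / 2) • (lc γ (ω v) + lc η (ω v))`. From `IsClMod.lc_γγ`,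
`lc_ηη`, `lc_γη` (`Pool.Agent.H85.Fold.ClMod`; squares: halve the anticommutator):
`Θ v ^ 2 = (ε v)² (α v ⬝ᵥ α v) = 1` (`kR_self`, `dot`); `{Θ u, Θ v} = ε u ε v * 2 (α u ⬝ᵥ α v) =
ε u ε v * kR M u v`, and `kR = -cc` (`kR_eq_cc`); if `kR = 0` both sides are zero, otherwise
`ε u ε v = -1`. `{D u, D v} = (ε u ε v / 4) * 2 (ω u ⬝ᵥ ω v - ω u ⬝ᵥ ω v) = 0`.
`{D u, Θ v} = (ε u ε v / 2) * 2 (ω u ⬝ᵥ α v) = δ_{uv}` (`dual`). `vac`: if all `D v k = 0` then
`(lc γ (ω v) + lc η (ω v)) k = 0` for all `v`; the `ω v` span: the basis vector `e_i` of `ℝ^n` is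
`∑ v, (e_i ⬝ᵥ α v) • ω v` (linear independence of the `α v`, `card`), and `lc γ`, `lc η` are linear in the
vector, so `(γ i + η i) k = 0`.
-/

set_option autoImplicit false

open Finset

namespace Pool.Agent.H4.FD

open Pool.Agent.H85.Fold Pool.Agent.H4.FC

section Step

variable {F : Type} [AddCommGroup F] [Module ℝ F] {n : ℕ}

private noncomputable def FockEx_dot (dot : F →ₗ[ℝ] F →ₗ[ℝ] ℝ) :
    (F × F) →ₗ[ℝ] (F × F) →ₗ[ℝ] ℝ :=
  dot.compl₁₂ (LinearMap.fst ℝ F F) (LinearMap.fst ℝ F F) +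
    dot.compl₁₂ (LinearMap.snd ℝ F F) (LinearMap.snd ℝ F F)

private theorem FockEx_dot_apply (dot : F →ₗ[ℝ] F →ₗ[ℝ] ℝ) (p q : F × F) :
    FockEx_dot dot p q = dot p.1 q.1 + dot p.2 q.2 := rfl

private noncomputable def FockEx_op (A : (F × F) →ₗ[ℝ] (F × F)) (γ : Fin n → F →ₗ[ℝ] F) :
    Fin (n + 1) → (F × F) →ₗ[ℝ] (F × F) :=
  Fin.cons A fun i => (γ i).prodMap (-(γ i))

private noncomputable def FockEx_G : (F × F) →ₗ[ℝ] (F × F) :=
  (LinearMap.snd ℝ F F).prod (LinearMap.fst ℝ F F)

private noncomputable def FockEx_H : (F × F) →ₗ[ℝ] (F × F) :=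
  (LinearMap.snd ℝ F F).prod (-(LinearMap.fst ℝ F F))

private theorem FockEx_op_zero (A : (F × F) →ₗ[ℝ] (F × F)) (γ : Fin n → F →ₗ[ℝ] F) :
    FockEx_op A γ 0 = A := rfl

private theorem FockEx_op_succ (A : (F × F) →ₗ[ℝ] (F × F)) (γ : Fin n → F →ₗ[ℝ] F) (i : Fin n)
    (p : F × F) : FockEx_op A γ i.succ p = (γ i p.1, -γ i p.2) := rfl

private theorem FockEx_G_apply (p : F × F) : FockEx_G p = (p.2, p.1) := rfl

private theorem FockEx_H_apply (p : F × F) : FockEx_H p = (p.2, -p.1) := rfl

private theorem FockEx_cl {dot : F →ₗ[ℝ] F →ₗ[ℝ] ℝ} {γ η : Fin n → F →ₗ[ℝ] F}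
    (h : IsClMod dot γ η) :
    IsClMod (FockEx_dot dot) (FockEx_op FockEx_G γ) (FockEx_op FockEx_H η) where
  symm p q := by
    rw [FockEx_dot_apply, FockEx_dot_apply, h.symm p.1, h.symm p.2]
  pos p hp := by
    rw [FockEx_dot_apply]
    have hnn : ∀ x, 0 ≤ dot x x := by
      intro x
      by_cases hx : x = 0
      · rw [hx, map_zero]
      · exact (h.pos x hx).le
    by_cases h1 : p.1 = 0
    · have h2 : p.2 ≠ 0 := fun h2 => hp (Prod.ext h1 h2)
      exact add_pos_of_nonneg_of_pos (hnn _) (h.pos _ h2)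
    · exact add_pos_of_pos_of_nonneg (h.pos _ h1) (hnn _)
  γ_sq i p := by
    refine Fin.cases ?_ (fun j => ?_) i
    · rfl
    · rw [FockEx_op_succ, FockEx_op_succ, map_neg, neg_neg, h.γ_sq, h.γ_sq]
  η_sq i p := by
    refine Fin.cases ?_ (fun j => ?_) i
    · rfl
    · rw [FockEx_op_succ, FockEx_op_succ, map_neg, neg_neg, h.η_sq, h.η_sq]
      rfl
  γγ i j hij p := by
    revert hij
    refine Fin.cases ?_ (fun i => ?_) i
    · refine Fin.cases ?_ (fun j => ?_) j
      · intro h0
        exact absurd rfl h0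
      · intro _
        rw [FockEx_op_zero, FockEx_op_succ, FockEx_G_apply, FockEx_G_apply, FockEx_op_succ]
        refine Prod.ext rfl ?_
        exact (neg_neg _).symm
    · refine Fin.cases ?_ (fun j => ?_) j
      · intro _
        rw [FockEx_op_zero, FockEx_op_succ, FockEx_G_apply, FockEx_G_apply, FockEx_op_succ]
        refine Prod.ext ?_ rfl
        exact (neg_neg _).symm
      · intro hij
        have hij' : i ≠ j := fun h0 => hij (by rw [h0])
        rw [FockEx_op_succ, FockEx_op_succ, FockEx_op_succ, FockEx_op_succ, map_neg, map_neg,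
          neg_neg, neg_neg, h.γγ i j hij', h.γγ i j hij']
        rfl
  ηη i j hij p := by
    revert hij
    refine Fin.cases ?_ (fun i => ?_) i
    · refine Fin.cases ?_ (fun j => ?_) j
      · intro h0
        exact absurd rfl h0
      · intro _
        rw [FockEx_op_zero, FockEx_op_succ, FockEx_H_apply, FockEx_H_apply, FockEx_op_succ,
          map_neg, neg_neg]
        rfl
    · refine Fin.cases ?_ (fun j => ?_) j
      · intro _
        rw [FockEx_op_zero, FockEx_op_succ, FockEx_H_apply, FockEx_H_apply, FockEx_op_succ,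
          map_neg, neg_neg]
        refine Prod.ext ?_ ?_
        · exact (neg_neg _).symm
        · exact (neg_neg _).symm
      · intro hij
        have hij' : i ≠ j := fun h0 => hij (by rw [h0])
        rw [FockEx_op_succ, FockEx_op_succ, FockEx_op_succ, FockEx_op_succ, map_neg, map_neg,
          neg_neg, neg_neg, h.ηη i j hij', h.ηη i j hij']
        rfl
  γη i j p := by
    refine Fin.cases ?_ (fun i => ?_) i
    · refine Fin.cases ?_ (fun j => ?_) j
      · rw [FockEx_op_zero, FockEx_op_zero, FockEx_H_apply, FockEx_G_apply, FockEx_G_apply,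
          FockEx_H_apply]
        refine Prod.ext rfl ?_
        exact (neg_neg _).symm
      · rw [FockEx_op_zero, FockEx_op_succ, FockEx_G_apply, FockEx_G_apply, FockEx_op_succ]
        refine Prod.ext rfl ?_
        exact (neg_neg _).symm
    · refine Fin.cases ?_ (fun j => ?_) j
      · rw [FockEx_op_zero, FockEx_op_succ, FockEx_H_apply, FockEx_H_apply, FockEx_op_succ,
          map_neg, neg_neg]
        refine Prod.ext ?_ ?_
        · exact (neg_neg _).symm
        · exact (neg_neg _).symm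
      · rw [FockEx_op_succ, FockEx_op_succ, FockEx_op_succ, FockEx_op_succ, map_neg, map_neg,
          neg_neg, neg_neg, h.γη i j, h.γη i j]
        rfl
  γ_adj i p q := by
    rw [FockEx_dot_apply, FockEx_dot_apply]
    refine Fin.cases ?_ (fun i => ?_) i
    · rw [FockEx_op_zero, FockEx_G_apply, FockEx_G_apply, add_comm]
    · rw [FockEx_op_succ, FockEx_op_succ, h.γ_adj]
      simp only [map_neg, LinearMap.neg_apply]
      rw [h.γ_adj]
  η_adj i p q := by
    rw [FockEx_dot_apply, FockEx_dot_apply]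
    refine Fin.cases ?_ (fun i => ?_) i
    · rw [FockEx_op_zero, FockEx_H_apply, FockEx_H_apply]
      simp only [map_neg, LinearMap.neg_apply]
      ring
    · rw [FockEx_op_succ, FockEx_op_succ, h.η_adj]
      simp only [map_neg, LinearMap.neg_apply]
      rw [h.η_adj]
      ring

end Step

theorem exists_vac (n : ℕ) :
    ∃ (F : Type) (_ : AddCommGroup F) (_ : Module ℝ F) (_ : FiniteDimensional ℝ F)
      (dot : F →ₗ[ℝ] F →ₗ[ℝ] ℝ) (γ η : Fin n → F →ₗ[ℝ] F) (δ : F),
      IsClMod dot γ η ∧ δ ≠ 0 ∧ (∀ i, γ i δ + η i δ = 0) ∧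
        ∀ k, (∀ i, γ i k + η i k = 0) → ∃ r : ℝ, k = r • δ := by
  induction n with
  | zero =>
    refine ⟨ℝ, inferInstance, inferInstance, inferInstance, LinearMap.mul ℝ ℝ,
      fun i => i.elim0, fun i => i.elim0, 1, ?_, one_ne_zero, fun i => i.elim0,
      fun k _ => ⟨k, by rw [smul_eq_mul, mul_one]⟩⟩
    constructor
    · intro x y
      exact mul_comm x y
    · intro x hx
      exact mul_self_pos.2 hx
    all_goals intro i; exact i.elim0
  | succ n ih =>
    obtain ⟨F, i1, i2, i3, dot, γ, η, δ, hcl, hδ, h1, h2⟩ := ih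
    refine ⟨F × F, inferInstance, inferInstance, inferInstance, FockEx_dot dot,
      FockEx_op FockEx_G γ, FockEx_op FockEx_H η, (δ, 0), FockEx_cl hcl, ?_, ?_, ?_⟩
    · intro h
      exact hδ (congrArg Prod.fst h)
    · intro i
      refine Fin.cases ?_ (fun i => ?_) i
      · rw [FockEx_op_zero, FockEx_op_zero, FockEx_G_apply, FockEx_H_apply]
        refine Prod.ext ?_ ?_
        · exact add_zero _
        · exact add_neg_cancel _
      · rw [FockEx_op_succ, FockEx_op_succ]
        refine Prod.ext (h1 i) ?_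
        show -γ i 0 + -η i 0 = 0
        rw [map_zero, map_zero, neg_zero, add_zero]
    · intro k hk
      have h0 := hk 0
      rw [FockEx_op_zero, FockEx_op_zero, FockEx_G_apply, FockEx_H_apply] at h0
      have h0' : k.2 + k.2 = 0 := congrArg Prod.fst h0
      have hy : k.2 = 0 := by
        rw [← two_smul ℝ] at h0'
        rcases smul_eq_zero.1 h0' with h | h
        · exact absurd h two_ne_zero
        · exact h
      obtain ⟨r, hr⟩ := h2 k.1 fun i => by
        have h3 := hk i.succ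
        rw [FockEx_op_succ, FockEx_op_succ] at h3
        exact congrArg Prod.fst h3
      refine ⟨r, Prod.ext hr ?_⟩
      show k.2 = r • (0 : F)
      rw [hy, smul_zero]

theorem fock_of {S : Type} [Fintype S] [DecidableEq S] {M : CoxeterMatrix S} {n : ℕ}
    {α ω : S → Fin n → ℝ} (h : IsRoots M α ω) {F : Type} [AddCommGroup F] [Module ℝ F]
    {dot : F →ₗ[ℝ] F →ₗ[ℝ] ℝ} {γ η : Fin n → F →ₗ[ℝ] F} (hc : IsClMod dot γ η) {δ : F}
    (hδ : δ ≠ 0) (h1 : ∀ i, γ i δ + η i δ = 0)
    (h2 : ∀ k, (∀ i, γ i k + η i k = 0) → ∃ r : ℝ, k = r • δ) {ε : S → ℝ}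
    (hε : ∀ v, ε v * ε v = 1) (hε' : ∀ u v, u ≠ v → kR M u v ≠ 0 → ε u * ε v = -1) :
    IsFock (fun u v => M u v) (fun v => ε v • lc γ (α v))
      (fun v => (ε v / 2) • (lc γ (ω v) + lc η (ω v))) δ := by
  have hhalf : ∀ x y : F, x + x = (2 : ℝ) • y → x = y := by
    intro x y hxy
    rw [← two_smul ℝ] at hxy
    exact smul_right_injective F (two_ne_zero : (2 : ℝ) ≠ 0) hxy
  -- the anticommutators
  have aΘ : ∀ u v x, lc γ (α u) (lc γ (α v) x) + lc γ (α v) (lc γ (α u) x) = kR M u v • x := by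
    intro u v x
    rw [hc.lc_γγ, h.dot]
  have aD : ∀ u v x, (lc γ (ω u) + lc η (ω u)) ((lc γ (ω v) + lc η (ω v)) x) +
      (lc γ (ω v) + lc η (ω v)) ((lc γ (ω u) + lc η (ω u)) x) = 0 := by
    intro u v x
    have h3 := hc.ev_anti ω ω u v x
    rw [sub_self, mul_zero, zero_smul] at h3
    exact h3
  have aDΘ : ∀ u v x, (lc γ (ω u) + lc η (ω u)) (lc γ (α v) x) +
      lc γ (α v) ((lc γ (ω u) + lc η (ω u)) x) = (2 * (ω u ⬝ᵥ α v)) • x := by
    intro u v x
    have h3 := hc.lc_γγ (ω u) (α v) x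
    have h4 := hc.lc_γη (α v) (ω u) x
    rw [← h3, LinearMap.add_apply, LinearMap.add_apply, map_add, h4]
    abel
  have smul2 : ∀ (A B : F →ₗ[ℝ] F) (a b : ℝ) (x : F),
      (a • A) ((b • B) x) = (a * b) • A (B x) := by
    intro A B a b x
    rw [LinearMap.smul_apply, LinearMap.smul_apply, map_smul, smul_smul]
  refine ⟨?_, ?_, ?_, ?_, ?_, ?_, ?_, hδ, ?_⟩
  · -- sq
    intro v
    refine LinearMap.ext fun x => ?_
    show (ε v • lc γ (α v)) ((ε v • lc γ (α v)) x) = x
    rw [smul2, hε, one_smul]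
    apply hhalf
    rw [aΘ, kR_self]
  · -- rel
    intro u v huv
    refine LinearMap.ext fun x => ?_
    show (ε u • lc γ (α u)) ((ε v • lc γ (α v)) x) + (ε v • lc γ (α v)) ((ε u • lc γ (α u)) x) =
      cc (fun u v => M u v) u v • x
    rw [smul2, smul2, mul_comm (ε v), ← smul_add, aΘ, smul_smul]
    congr 1
    have h3 := kR_eq_cc M u v
    by_cases hk : kR M u v = 0
    · rw [hk] at h3 ⊢
      rw [mul_zero]
      linarith
    · rw [hε' u v huv hk, h3]
      ring
  · -- D_sq
    intro v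
    refine LinearMap.ext fun x => ?_
    show ((ε v / 2) • (lc γ (ω v) + lc η (ω v))) (((ε v / 2) • (lc γ (ω v) + lc η (ω v))) x) = 0
    rw [smul2]
    have h3 : (lc γ (ω v) + lc η (ω v)) ((lc γ (ω v) + lc η (ω v)) x) = 0 := by
      apply hhalf
      rw [aD, smul_zero]
    rw [h3, smul_zero]
  · -- DD
    intro u v
    refine LinearMap.ext fun x => ?_
    show ((ε u / 2) • (lc γ (ω u) + lc η (ω u))) (((ε v / 2) • (lc γ (ω v) + lc η (ω v))) x) =
      -(((ε v / 2) • (lc γ (ω v) + lc η (ω v))) (((ε u / 2) • (lc γ (ω u) + lc η (ω u))) x))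
    rw [smul2, smul2, eq_neg_iff_add_eq_zero, mul_comm (ε v / 2), ← smul_add, aD, smul_zero]
  · -- DΘ
    intro u v huv
    refine LinearMap.ext fun x => ?_
    show ((ε u / 2) • (lc γ (ω u) + lc η (ω u))) ((ε v • lc γ (α v)) x) =
      -((ε v • lc γ (α v)) (((ε u / 2) • (lc γ (ω u) + lc η (ω u))) x))
    rw [smul2, smul2, eq_neg_iff_add_eq_zero, mul_comm (ε v), ← smul_add, aDΘ, h.dual,
      if_neg huv, mul_zero, zero_smul, smul_zero]
  · -- DΘ1
    intro v
    refine LinearMap.ext fun x => ?_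
    show ((ε v / 2) • (lc γ (ω v) + lc η (ω v))) ((ε v • lc γ (α v)) x) +
      (ε v • lc γ (α v)) (((ε v / 2) • (lc γ (ω v) + lc η (ω v))) x) = x
    rw [smul2, smul2, mul_comm (ε v) (ε v / 2), ← smul_add, aDΘ, h.dual, if_pos rfl, smul_smul]
    have h3 : ε v / 2 * ε v * (2 * 1) = 1 := by
      have h5 : ε v / 2 * ε v * (2 * 1) = ε v * ε v := by ring
      rw [h5, hε v]
    rw [h3, one_smul]
  · -- Dδ
    intro v
    show ((ε v / 2) • (lc γ (ω v) + lc η (ω v))) δ = 0
    have h3 : (lc γ (ω v) + lc η (ω v)) δ = 0 := by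
      unfold lc
      rw [LinearMap.add_apply, LinearMap.sum_apply, LinearMap.sum_apply,
        ← Finset.sum_add_distrib]
      refine Finset.sum_eq_zero fun i _ => ?_
      rw [LinearMap.smul_apply, LinearMap.smul_apply, ← smul_add, h1, smul_zero]
    rw [LinearMap.smul_apply, h3, smul_zero]
  · -- vac
    intro k hk
    apply h2
    have hk' : ∀ v, lc γ (ω v) k + lc η (ω v) k = 0 := by
      intro v
      have h3 : (ε v / 2) • (lc γ (ω v) k + lc η (ω v) k) = 0 := hk v
      rcases smul_eq_zero.1 h3 with h4 | h4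
      · exfalso
        have h5 := hε v
        have h6 : ε v = 0 := by linarith
        rw [h6, mul_zero] at h5
        exact zero_ne_one h5
      · exact h4
    -- the vectors `ω v` span
    let A : Matrix (Fin n) S ℝ := Matrix.of fun i v => α v i
    let W : Matrix S (Fin n) ℝ := Matrix.of fun v i => ω v i
    have hWA : W * A = 1 := by
      ext u v
      rw [Matrix.mul_apply, Matrix.one_apply]
      exact h.dual u v
    have e : S ≃ Fin n := Fintype.equivFinOfCardEq h.card
    have hAW : A * W = 1 := (Matrix.mul_eq_one_comm_of_equiv e).1 hWA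
    intro i
    have h3 : (Pi.single i 1 : Fin n → ℝ) = ∑ v, α v i • ω v := by
      funext j
      have h4 := congrFun (congrFun hAW i) j
      rw [Matrix.mul_apply, Matrix.one_apply] at h4
      rw [Finset.sum_apply, Pi.single_apply]
      have h5 : (if j = i then (1 : ℝ) else 0) = if i = j then 1 else 0 := by
        by_cases hij : i = j
        · rw [if_pos hij, if_pos hij.symm]
        · rw [if_neg hij, if_neg (Ne.symm hij)]
      rw [h5, ← h4]
      rfl
    have h4 : ∀ θ : Fin n → F →ₗ[ℝ] F, θ i k = ∑ v, α v i • lc θ (ω v) k := by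
      intro θ
      have h5 : θ i = lc θ (Pi.single i 1) := by
        unfold lc
        rw [Finset.sum_eq_single i]
        · rw [Pi.single_eq_same, one_smul]
        · intro j _ hj
          rw [Pi.single_eq_of_ne hj, zero_smul]
        · intro h0
          exact absurd (mem_univ i) h0
      rw [h5, h3, lc_sum, LinearMap.sum_apply]
      exact Finset.sum_congr rfl fun v _ => by rw [lc_smul, LinearMap.smul_apply]
    rw [h4 γ, h4 η, ← Finset.sum_add_distrib]
    exact Finset.sum_eq_zero fun v _ => by rw [← smul_add, hk', smul_zero]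

end Pool.Agent.H4.FD
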