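import Pool.Agent.H4.FC.HVSys
import Pool.Agent.H4.FC.BaseQE

/-!
# Project FD: homotopies outside the middle degree

`hv_ne`: as in the proof of `hvr_fold` (`Pool.Agent.H4.FC.HVSys`), with the second part of `pk_all`.
`exists_low`: `exists_homotopyR` (`Pool.Agent.H4.FC.BaseQE`) for `τ = ∅` (`HVr` is `HV`, `bdr_empty`) gives
`H`, `Φ` with `x = bd ν (H x) + Φ (bd ν x)` for chains `x` of degree `i`, and `H` has values in the
chains of degree `i + 1`. Let `P` be a linear projection of `Finset V → S` onto the submodule of the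
chains of degree `i`; replace `Φ` by `P ∘ Φ`: for a chain `x` of degree `i`,
`Φ (bd ν x) = x - bd ν (H x)` is a chain of degree `i` (`bd ν` of a chain of degree `i + 1` is a chain of
degree `i`), so it does not change.
-/

set_option autoImplicit false

open Finset

namespace Pool.Agent.H4.FD

open Pool.Agent.H85.Fold Pool.Agent.H4.FC

variable {V : Type} [DecidableEq V] [Fintype V] {S : Type} [AddCommGroup S] [Module ℝ S]

theorem hv_ne [FiniteDimensional ℝ S] {ν : V → ℕ} (hν : Function.Injective ν)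
    {G : SimpleGraph V} {n m₁ m₂ : ℕ} (hG : IsHomologySphere G n) {p : V → Fin m₁ → ℝ}
    {a : V → Fin m₂ → ℝ} (hf : IsFold G n p a) {dot : S →ₗ[ℝ] S →ₗ[ℝ] ℝ}
    {γ : Fin m₁ → S →ₗ[ℝ] S} {η : Fin m₂ → S →ₗ[ℝ] S} (hc : IsClMod dot γ η) (i : ℕ)
    (hi : 2 * i ≠ n) : HV ν G (ev γ η p a) ⊤ univ i := by
  obtain ⟨o, ho⟩ := hG.isSphere ν hν
  obtain ⟨ep, β, ε, κ, hs⟩ := exists_sys hν ho hf hc
  exact (pk_all ν G _ ep _ n univ ⊤ β ε κ o hs).2.1 i hi

theorem exists_low [FiniteDimensional ℝ S] (ν : V → ℕ) (G : SimpleGraph V)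
    (e : V → S →ₗ[ℝ] S) (i : ℕ) (h : HV ν G e ⊤ univ i) :
    ∃ H Φ : (Finset V → S) →ₗ[ℝ] (Finset V → S),
      (∀ x, IsF G e ⊤ univ (i + 1) (H x)) ∧ (∀ x, IsF G e ⊤ univ i (Φ x)) ∧
      ∀ x : Finset V → S, IsF G e ⊤ univ i x → x = bd ν (H x) + Φ (bd ν x) := by
  have h0 : HVr ν G e ⊤ univ ∅ i := by
    intro c hc _ hbd
    rw [bdr_empty] at hbd
    obtain ⟨y, hy, hyc⟩ := h c hc hbd
    exact ⟨y, hy, fun σ _ => empty_subset σ, by rw [bdr_empty]; exact hyc⟩
  obtain ⟨H, Φ, hH, hx⟩ := exists_homotopyR ν G e ∅ i h0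
  let K : Submodule ℝ (Finset V → S) :=
    { carrier := {y | IsF G e ⊤ univ i y}
      add_mem' := fun ha hb => IsF.add ha hb
      zero_mem' := IsF.zero
      smul_mem' := fun r _ ha => IsF.smul ha r }
  obtain ⟨g, hg⟩ := LinearMap.exists_leftInverse_of_injective K.subtype
    (LinearMap.ker_eq_bot.2 K.injective_subtype)
  have hgK : ∀ x : Finset V → S, IsF G e ⊤ univ i x → ((g x : K) : Finset V → S) = x := by
    intro x hxK
    have h1 : g x = ⟨x, hxK⟩ := by
      have h2 := congrArg (fun k => k (⟨x, hxK⟩ : K)) hg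
      exact h2
    rw [h1]
  refine ⟨H, (K.subtype.comp g).comp Φ, fun x => (hH x).1, fun x => (g (Φ x)).2, ?_⟩
  intro x hxF
  have h1 := hx x hxF (fun σ _ => empty_subset σ)
  rw [bdr_empty, bdr_empty] at h1
  have h2 : Φ (bd ν x) = x - bd ν (H x) := by
    rw [eq_sub_iff_add_eq, add_comm]
    exact h1.symm
  have h3 : IsF G e ⊤ univ i (Φ (bd ν x)) := by
    rw [h2]
    exact hxF.sub (isF_bd ν (hH x).1)
  show x = bd ν (H x) + ((g (Φ (bd ν x)) : K) : Finset V → S)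
  rw [hgK _ h3]
  exact h1

end Pool.Agent.H4.FD
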