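import Pool.Agent.H4.FD.CoxS
import Pool.Agent.H4.FD.CSph
import Pool.Agent.H4.FD.FockEx
import Pool.Agent.H4.FD.LowH
import Pool.Agent.H4.FD.HomRep

/-!
# Project FD: the data of the Coxeter complex exist

`exists_roots`: `n`, `α`, `ω`, `IsRoots M α ω`; `Fintype.card S = n` (`subst` is not possible, rewrite with
`card`). `exists_vac n`: `F`, `dot`, `γ`, `η`, `δ`. `exists_eps`: `ε`. `C = CV M α ω`, `G = CG M α ω`,
`cr = cv`, `fc = cfc`, `νC` from `exists_nuC`, `p q = q.1.2`, `a q = ω (ty q)`, `E = ev γ η p a`,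
`Θ v = ε v • lc γ (α v)`, `D v = (ε v / 2) • (lc γ (ω v) + lc η (ω v))`, `fock_of`.
* `cl`, `eq`, `mul_par`: `cl_iff`, `cfc_eq`, `cfc_mul_par`. `inj`: the types (`cv_eq_iff`). `num`: `exists_nuC`,
  `ty (cv w u) = u`.
* `act`: let `q = cv (s w) v`, `v ∉ T`: `p q = x'` with `x' = ga s x`, `x = ga w (ω v)` (`ga_mul`),
  `x' = x - 2 (x ⬝ᵥ α s) • α s` (`ga_simple`). With `a = α s`, `a ⬝ᵥ a = 1`:
  `(lc γ x' + lc η (ω v)) (lc γ a k) = - lc γ a ((lc γ x + lc η (ω v)) k)`: by `lc_γγ`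
  `lc γ x (lc γ a k) = 2 (x ⬝ᵥ a) k - lc γ a (lc γ x k)` and `lc γ a (lc γ a k) = k`, `lc_γη`. And
  `(lc γ x + lc η (ω v)) k = 0` as `cv w v ∈ cfc w T`.
* `vac`: `cfc 1 T` consists of the `cv 1 v`, `v ∉ T`, `ga 1 (ω v) = ω v` (`ga_one`), `ε v / 2 ≠ 0`.
* `low`: `hv_ne` for `isSphere_CG` and `isFoldR_CG` (`IsFold`: `zero`, `neg` the same; `dim`: a submodule of
  `Fin n → ℝ`).
-/

set_option autoImplicit false

open Finset

namespace Pool.Agent.H4.FD

open Pool.Agent.H85.Fold Pool.Agent.H4.FC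

theorem exists_cox {S : Type} [Fintype S] [DecidableEq S] (M : CoxeterMatrix S)
    [Finite M.Group] {ν : S → ℕ} (hν : Function.Injective ν) :
    ∃ (C : Type) (_ : DecidableEq C) (_ : Fintype C) (G : SimpleGraph C) (νC : C → ℕ)
      (cr : M.Group → S → C) (fc : M.Group → Finset S → Finset C)
      (F : Type) (_ : AddCommGroup F) (_ : Module ℝ F) (E : C → F →ₗ[ℝ] F)
      (Θ D : S → Module.End ℝ F) (δ : F), IsCox M ν G νC cr fc E Θ D δ := by
  obtain ⟨n, α, ω, h⟩ := exists_roots M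
  obtain ⟨F, i1, i2, i3, dot, γ, η, δ, hc, hδ, h1, h2⟩ := exists_vac n
  obtain ⟨ε, hε, hε'⟩ := exists_eps M
  obtain ⟨νC, hνC, hnum⟩ := exists_nuC (M := M) α ω ν hν
  have hE : ∀ (w : M.Group) (v : S) (k : F),
      ev γ η (fun q : CV M α ω => q.1.2) (fun q => ω (ty q)) (cv w v) k =
        lc γ (ga M α ω w (ω v)) k + lc η (ω v) k := fun w v k => rfl
  refine ⟨CV M α ω, inferInstance, inferInstance, CG M α ω, νC, cv, cfc, F, i1, i2,
    ev γ η (fun q => q.1.2) (fun q => ω (ty q)), fun v => ε v • lc γ (α v),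
    fun v => (ε v / 2) • (lc γ (ω v) + lc η (ω v)), δ, ?_⟩
  constructor
  · exact fock_of h hc hδ h1 h2 hε hε'
  · exact i3
  · exact cl_iff h
  · exact fun w T => rfl
  · exact fun w u v huv => (cv_eq_iff.1 huv).1
  · exact fun w w' T T' => cfc_eq h
  · exact fun w T u hu => cfc_mul_par h w hu
  · exact hνC
  · exact fun w u v huv => hnum (cv w u) (cv w v) huv
  · intro s w T k hk q hq
    obtain ⟨v, hv, rfl⟩ := Finset.mem_image.1 hq
    have h3 := hk (cv w v) (Finset.mem_image.2 ⟨v, hv, rfl⟩)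
    rw [hE] at h3
    have e1 : ga M α ω (M.simple s * w) (ω v) = ga M α ω w (ω v) -
        (2 * (ga M α ω w (ω v) ⬝ᵥ α s)) • α s := by
      rw [ga_mul h, ga_simple h]
    show ev γ η (fun q : CV M α ω => q.1.2) (fun q => ω (ty q)) (cv (M.simple s * w) v)
      (ε s • lc γ (α s) k) = 0
    rw [map_smul, hE, e1]
    generalize ga M α ω w (ω v) = x at h3
    have e2 : lc γ (x - (2 * (x ⬝ᵥ α s)) • α s) (lc γ (α s) k) =
        lc γ x (lc γ (α s) k) - (2 * (x ⬝ᵥ α s)) • lc γ (α s) (lc γ (α s) k) := by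
      rw [sub_eq_add_neg, lc_add, ← neg_smul, lc_smul, LinearMap.add_apply, LinearMap.smul_apply,
        neg_smul, ← sub_eq_add_neg]
    have e3 := hc.lc_γγ x (α s) k
    have e4 := hc.lc_γγ (α s) (α s) k
    have e5 := hc.lc_γη (α s) (ω v) k
    have e6 : lc γ (α s) (lc γ (α s) k) = k := by
      rw [h.self s, mul_one, ← two_smul ℝ (lc γ (α s) (lc γ (α s) k))] at e4
      exact smul_right_injective F (two_ne_zero : (2 : ℝ) ≠ 0) e4
    have e7 : lc γ (α s) (lc γ x k) = -lc γ (α s) (lc η (ω v) k) := by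
      rw [← map_neg, eq_neg_of_add_eq_zero_left h3]
    rw [e2, e6, ← e3, e7, e5]
    rw [neg_neg]
    have e8 : lc γ x (lc γ (α s) k) - (lc γ x (lc γ (α s) k) + lc η (ω v) (lc γ (α s) k)) +
        lc η (ω v) (lc γ (α s) k) = 0 := by abel
    rw [e8, smul_zero]
  · intro T k
    have e1 : ∀ v, ev γ η (fun q : CV M α ω => q.1.2) (fun q => ω (ty q)) (cv 1 v) k =
        (lc γ (ω v) + lc η (ω v)) k := by
      intro v
      rw [hE, ga_one h]
      rfl
    have e2 : ∀ v, ε v / 2 ≠ 0 := by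
      intro v h0
      have h3 := hε v
      have h4 : ε v = 0 := by linarith
      rw [h4, mul_zero] at h3
      exact zero_ne_one h3
    constructor
    · intro hk v hv
      have h3 := hk (cv 1 v) (Finset.mem_image.2 ⟨v, Finset.mem_compl.2 hv, rfl⟩)
      rw [e1] at h3
      show (ε v / 2) • (lc γ (ω v) + lc η (ω v)) k = 0
      rw [h3, smul_zero]
    · intro hk q hq
      obtain ⟨v, hv, rfl⟩ := Finset.mem_image.1 hq
      have h3 : (ε v / 2) • (lc γ (ω v) + lc η (ω v)) k = 0 := hk v (Finset.mem_compl.1 hv)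
      rw [e1]
      exact (smul_eq_zero.1 h3).resolve_left (e2 v)
  · intro j hj
    have hf := isFoldR_CG h
    refine hv_ne hνC (isSphere_CG h) (n := n) ⟨?_, hf.zero, hf.neg⟩ hc j ?_
    · refine (Submodule.finrank_le _).trans ?_
      rw [Module.finrank_fin_fun]
    · rw [← h.card]
      exact hj

end Pool.Agent.H4.FD
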