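import Pool.Agent.H4.FC.XopL
import Pool.Agent.H4.FD.Defs

/-!
# Project FD: the subspaces `PP`

* `PP_mono`: fewer conditions.
* `PP_J`: the word `w₁ … w_k v` (`List.map_append`, `List.prod_append`): apply the condition for `y` to
  `l ++ [v]`.
* `PP_list`: induction with `PP_J` (`List.map_cons`, `List.prod_cons`; note that the rightmost
  letter acts first; do the induction on the list: `J w ((l.map J).prod y)` with the induction hypothesis
  for `(l.map J).prod y` and `PP_J`).
* `PP_rel`: the empty list.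
* `PP_map`: `F ((l.map J).prod y) = (l.map J').prod (F y)` by induction on `l`; apply `F`.
* `PP_pw`: `PP_map` for `F x = fun ω => L (x ω)`, which commutes with `actL` (`actL_comp` in
  `Pool.Agent.H4.FC.Act`).
* `PP_sum`: closed under sums, `Submodule.sum_mem`.
* `PP_eq_top`: no two different elements.
* `jrel_of_isRep`: `actL_mul`, `actL_one`, `actL_neg` (for the powers: induction;
  `(actL (J u) ∘ actL (J v)) ^ k = actL ((J u * J v) ^ k)`).
-/

set_option autoImplicit false

open Finset

namespace Pool.Agent.H4.FD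

open Pool.Agent.H85.Fold Pool.Agent.H4.FC

section

variable {V U U' : Type} [AddCommGroup U] [Module ℝ U] [AddCommGroup U'] [Module ℝ U']
  {m : V → V → ℕ} {J : V → Module.End ℝ U} {J' : V → Module.End ℝ U'} {T T' : Finset V}

theorem PP_mono (h : T ⊆ T') : PP m J T' ≤ PP m J T := by
  intro y hy l hl u hu v hv huv
  exact hy l (fun w hw => h (hl w hw)) u (h hu) v (h hv) huv

theorem PP_J {y : U} (hy : y ∈ PP m J T) {v : V} (hv : v ∈ T) : J v y ∈ PP m J T := by
  intro l hl a ha b hb hab
  have h1 := hy (l ++ [v]) (by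
    intro w hw
    rcases List.mem_append.1 hw with h | h
    · exact hl w h
    · rw [List.mem_singleton.1 h]
      exact hv) a ha b hb hab
  have h2 : ((l ++ [v]).map J).prod y = (l.map J).prod (J v y) := by
    rw [List.map_append, List.prod_append, Module.End.mul_apply, List.map_singleton,
      List.prod_singleton]
  rw [h2] at h1
  exact h1

theorem PP_list {y : U} (hy : y ∈ PP m J T) (l : List V) (hl : ∀ w ∈ l, w ∈ T) :
    (l.map J).prod y ∈ PP m J T := by
  induction l with
  | nil => exact hy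
  | cons w l ih =>
    rw [List.map_cons, List.prod_cons, Module.End.mul_apply]
    exact PP_J (ih fun x hx => hl x (List.mem_cons_of_mem _ hx)) (hl w List.mem_cons_self)

theorem PP_rel {y : U} (hy : y ∈ PP m J T) {u v : V} (hu : u ∈ T) (hv : v ∈ T) (huv : u ≠ v) :
    J u (J v y) + J v (J u y) = cc m u v • y :=
  hy [] (fun _ h => absurd h List.not_mem_nil) u hu v hv huv

theorem PP_map (F : U →ₗ[ℝ] U') (hF : ∀ v ∈ T, ∀ x, F (J v x) = J' v (F x)) {y : U}
    (hy : y ∈ PP m J T) : F y ∈ PP m J' T := by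
  have key : ∀ (l : List V), (∀ w ∈ l, w ∈ T) → ∀ x, (l.map J').prod (F x) = F ((l.map J).prod x) := by
    intro l
    induction l with
    | nil => intro _ x; rfl
    | cons w l ih =>
      intro hl x
      rw [List.map_cons, List.prod_cons, Module.End.mul_apply, List.map_cons, List.prod_cons,
        Module.End.mul_apply, ih (fun y hy => hl y (List.mem_cons_of_mem _ hy)) x,
        hF w (hl w List.mem_cons_self)]
  intro l hl u hu v hv huv
  rw [key l hl y, ← hF v hv, ← hF u hu, ← hF u hu, ← hF v hv, ← map_add,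
    hy l hl u hu v hv huv, map_smul]

theorem PP_eq_top (h : T.card ≤ 1) : PP m J T = ⊤ := by
  rw [eq_top_iff]
  intro y _ l hl u hu v hv huv
  exact absurd (Finset.card_le_one.1 h u hu v hv) huv

end

section

variable {V N X Y : Type} [Fintype N] [DecidableEq N] [AddCommGroup X] [Module ℝ X]
  [AddCommGroup Y] [Module ℝ Y] {m : V → V → ℕ} {J : V → Matrix N N ℝ} {T : Finset V}

/-- pointwise linear maps preserve the subspaces -/
theorem PP_pw (L : X →ₗ[ℝ] Y) {x : N → X} (hx : x ∈ PP m (actJ X J) T) :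
    (fun ω => L (x ω)) ∈ PP m (actJ Y J) T := by
  have h := PP_map (J' := actJ Y J) (L.compLeft N) (fun v _ x => (actL_comp L (J v) x).symm) hx
  exact h

theorem jrel_of_isRep {G : SimpleGraph V} {κ : ℝ} (hJ : IsRep G m κ J) (hT : Cl G T) :
    JRel m (actJ X J) T := by
  have hpow : ∀ (u v : V) (k : ℕ) (x : N → X),
      ((actJ X J u * actJ X J v) ^ k) x = actL ((J u * J v) ^ k) x := by
    intro u v k
    induction k with
    | zero =>
      intro x
      rw [pow_zero, pow_zero, actL_one]
      rfl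
    | succ k ih =>
      intro x
      rw [pow_succ, pow_succ, Module.End.mul_apply, ih, actL_mul, actL_mul]
      rfl
  refine ⟨fun v _ => ?_, fun u hu v hv huv => ?_⟩
  · refine LinearMap.ext fun x => ?_
    have h1 : (actJ X J v * actJ X J v) x = actL (J v * J v) x := (actL_mul _ _ _).symm
    rw [h1, hJ.sq, actL_one]
    rfl
  · refine LinearMap.ext fun x => ?_
    rw [hpow, hJ.rel u v (hT u hu v hv huv), actL_neg, actL_one]
    rfl

end

/-! ### The operators `X v` -/

section

variable {V N X : Type} [Fintype N] [DecidableEq N] [AddCommGroup X] [Module ℝ X]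
  {G : SimpleGraph V} {m : V → V → ℕ} {κ : ℝ} {J : V → Matrix N N ℝ}
  {e g : V → X →ₗ[ℝ] X} {γ : X →ₗ[ℝ] X} {T : Finset V}

/-- `X v z` is the sum of a pointwise linear map of `z` and one of `actL (J v) z`: `PP_pw`, `PP_J`. -/
theorem Xop_PP (t : ℝ) {v : V} (hv : v ∈ T) {z : N → X} (hz : z ∈ PP m (actJ X J) T) :
    Xop e g γ J t v z ∈ PP m (actJ X J) T := by
  have h0 : Xop e g γ J t v z =
      (fun ω => (t • e v + g v) (z ω)) + (fun ω => γ (actJ X J v z ω)) := by
    funext ω
    rfl
  rw [h0]
  exact Submodule.add_mem _ (PP_pw _ hz) (PP_pw γ (PP_J hz hv))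

/-- `Xop_anti` of `Pool.Agent.H4.FC.XopL` and `PP_rel` (`actL_mul`, `actL_add`). -/
theorem Xop_antiP (h : IsPertL G m e g γ) (hJ : IsRep G m κ J) (t : ℝ) {u v : V}
    (huv : G.Adj u v) (hu : u ∈ T) (hv : v ∈ T) {z : N → X} (hz : z ∈ PP m (actJ X J) T) :
    Xop e g γ J t u (Xop e g γ J t v z) = -Xop e g γ J t v (Xop e g γ J t u z) := by
  have h1 := Xop_anti h hJ t huv z
  have h2 : actL (J u * J v + J v * J u) z = (2 * Real.cos (Real.pi / m u v)) • z := by
    rw [actL_add, actL_mul, actL_mul]
    exact PP_rel hz hu hv huv.ne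
  rw [h2, sub_self] at h1
  exact eq_neg_of_add_eq_zero_left h1

/-- Common solutions of the equations `X v z = 0`, `v ∈ T`. Proof: `X v z = 0` says
`t e v (z ω) + g v (z ω) + γ (J v z ω) = 0`; apply `γ`, `γ² = -1`:
`J v z ω = γ (t e v (z ω) + g v (z ω)) = L v (z ω)` with the linear map `L v = γ ∘ (t e v + g v)`. As
pointwise maps commute with the `J`, for a word `l = w₁ … w_k` in `T` one gets
`(l.map J).prod z = fun ω => L w_k (… (L w₁ (z ω)))`, a pointwise linear map `F` of `z`. And
`J u J v z + J v J u z = cc m u v • z` from `Xop_anti` with `X u z = X v z = 0`; apply `F`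
(`J u (J v (F z)) = F (J u (J v z))`). -/
theorem Xop_mem (h : IsPertL G m e g γ) (hJ : IsRep G m κ J) (t : ℝ) (hT : Cl G T) {z : N → X}
    (hz : ∀ v ∈ T, Xop e g γ J t v z = 0) : z ∈ PP m (actJ X J) T := by
  have hL : ∀ v ∈ T, actL (J v) z = fun ω => (γ ∘ₗ (t • e v + g v)) (z ω) := by
    intro v hv
    funext ω
    have h1 := congrFun (hz v hv) ω
    rw [Xop_apply, Pi.zero_apply] at h1
    have h2 : γ (t • e v (z ω) + g v (z ω) + γ (actL (J v) z ω)) = 0 := by
      rw [h1, map_zero]
    rw [map_add, h.γ_sq] at h2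
    have h3 := add_neg_eq_zero.1 h2
    rw [← h3]
    rfl
  have hrel : ∀ u ∈ T, ∀ v ∈ T, u ≠ v →
      actL (J u) (actL (J v) z) + actL (J v) (actL (J u) z) = cc m u v • z := by
    intro u hu v hv huv
    have h1 := Xop_anti h hJ t (hT u hu v hv huv) z
    rw [hz u hu, hz v hv, map_zero, map_zero, add_zero] at h1
    have h2 := (sub_eq_zero.1 h1.symm).symm
    rw [actL_add, actL_mul, actL_mul] at h2
    exact h2
  have key : ∀ l : List V, (∀ w ∈ l, w ∈ T) →
      ∃ F : X →ₗ[ℝ] X, (l.map (actJ X J)).prod z = fun ω => F (z ω) := by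
    intro l
    induction l with
    | nil => intro _; exact ⟨LinearMap.id, rfl⟩
    | cons w l ih =>
      intro hl
      obtain ⟨F, hF⟩ := ih fun x hx => hl x (List.mem_cons_of_mem _ hx)
      refine ⟨F ∘ₗ (γ ∘ₗ (t • e w + g w)), ?_⟩
      rw [List.map_cons, List.prod_cons, Module.End.mul_apply, hF]
      have h1 : actJ X J w (fun ω => F (z ω)) = fun ω => F (actL (J w) z ω) :=
        actL_comp F (J w) z
      rw [h1, hL w (hl w List.mem_cons_self)]
      rfl
  intro l hl u hu v hv huv
  obtain ⟨F, hF⟩ := key l hl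
  rw [hF]
  have h1 : ∀ a b : V, actJ X J a (actJ X J b (fun ω => F (z ω))) =
      fun ω => F (actL (J a) (actL (J b) z) ω) := by
    intro a b
    have h2 : actJ X J b (fun ω => F (z ω)) = fun ω => F (actL (J b) z ω) :=
      actL_comp F (J b) z
    rw [h2]
    exact actL_comp F (J a) (actL (J b) z)
  rw [h1, h1]
  funext ω
  have h3 := congrFun (hrel u hu v hv huv) ω
  rw [Pi.add_apply, ← map_add, ← Pi.add_apply, h3, Pi.smul_apply, map_smul]
  rfl

end

end Pool.Agent.H4.FD
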