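import Pool.Agent.H4.FD.CDefs

/-!
# Project FD: the action on Euclidean space

`li`: if `∑ c v • α v = 0` then `c u = (∑ c v • α v) ⬝ᵥ ω u = 0`. So the `α v` are a basis (`card`,
`linearIndependent … card_eq_finrank`) and `expand` holds: both sides have the same products with
all `ω u` (`x ↦ (x ⬝ᵥ ω u)_u` is injective: it is the coordinate map of the basis `α`); likewise
`expand'` (the `ω v` are a basis, coordinates `x ⬝ᵥ α v`).
`ga_simple`: `refl_mulVec`: the `v`-coordinate changes by `∑ u, kR M v u * (x ⬝ᵥ ω u) =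
2 * (α v ⬝ᵥ x)` (`dot`, `expand`). `ga_mul`: the coordinates of `ga w x` are
`titsHom M w` applied to those of `x` (`ga_coord`, from `dual`), `Matrix.mulVec_mulVec`, `map_mul`.
`ga_dot`: for a generator from `ga_simple` and `α v ⬝ᵥ α v = 1` (`kR_self`), then induction on the
group element (`M.toCoxeterSystem.simple_induction_left` or similar; note
`M.toCoxeterSystem_simple : M.toCoxeterSystem.simple v = M.simple v`).
`ga_pos`: coordinates of `ga w (α s)`: `α s ⬝ᵥ ω u = Pi.single s 1 u`, `tits_pos`. `ga_root`: if `s` is a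
right descent of `w` then it is not one of `w * s` (`isRightDescent_iff_not_isRightDescent_mul`), and
`ga (w s) (α s) = ga w (-α s)`.
-/

set_option autoImplicit false

open Finset

namespace Pool.Agent.H4.FD

open Pool.Agent.H85.Fold Pool.Agent.H4.FC

variable {S : Type} [Fintype S] [DecidableEq S] {M : CoxeterMatrix S} {n : ℕ}
  {α ω : S → Fin n → ℝ}

/-- expansion with respect to a family with a dual family -/
private theorem geo_expand {p q : S → Fin n → ℝ} (hc : Fintype.card S = n)
    (h : ∀ u v, q u ⬝ᵥ p v = if u = v then 1 else 0) (x : Fin n → ℝ) :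
    x = ∑ v, (x ⬝ᵥ q v) • p v := by
  have hco : ∀ (g : S → ℝ) (u : S), (∑ v, g v • p v) ⬝ᵥ q u = g u := by
    intro g u
    rw [sum_dotProduct, Finset.sum_eq_single u]
    · rw [smul_dotProduct, dotProduct_comm, h u u, if_pos rfl, smul_eq_mul, mul_one]
    · intro v _ hv
      rw [smul_dotProduct, dotProduct_comm, h u v, if_neg (Ne.symm hv), smul_eq_mul, mul_zero]
    · intro hu
      exact absurd (Finset.mem_univ u) hu
  have hli : LinearIndependent ℝ p := by
    rw [Fintype.linearIndependent_iff]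
    intro g hg u
    rw [← hco g u, hg, zero_dotProduct]
  have hcard : Fintype.card S = Module.finrank ℝ (Fin n → ℝ) := by
    rw [Module.finrank_fin_fun, hc]
  have hspan := hli.span_eq_top_of_card_eq_finrank' hcard
  have hx : x ∈ Submodule.span ℝ (Set.range p) := by
    rw [hspan]
    exact Submodule.mem_top
  obtain ⟨g, hg⟩ := (Submodule.mem_span_range_iff_exists_fun ℝ).1 hx
  rw [← hg]
  refine Finset.sum_congr rfl fun v _ => ?_
  rw [hco]

theorem IsRoots.self (h : IsRoots M α ω) (v : S) : α v ⬝ᵥ α v = 1 := by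
  have h1 := h.dot v v
  rw [kR_self] at h1
  linarith

theorem IsRoots.expand (h : IsRoots M α ω) (x : Fin n → ℝ) : x = ∑ v, (x ⬝ᵥ ω v) • α v := by
  exact geo_expand h.card h.dual x

theorem IsRoots.expand' (h : IsRoots M α ω) (x : Fin n → ℝ) : x = ∑ v, (x ⬝ᵥ α v) • ω v := by
  refine geo_expand h.card (fun u v => ?_) x
  rw [dotProduct_comm, h.dual v u]
  by_cases huv : u = v
  · rw [if_pos huv, if_pos huv.symm]
  · rw [if_neg huv, if_neg (Ne.symm huv)]

/-- a vector is determined by its products with the roots, or the weights -/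
theorem IsRoots.ext (h : IsRoots M α ω) {x y : Fin n → ℝ} (hxy : ∀ v, x ⬝ᵥ α v = y ⬝ᵥ α v) :
    x = y := by
  rw [h.expand' x, h.expand' y]
  exact Finset.sum_congr rfl fun v _ => by rw [hxy v]

theorem IsRoots.ext' (h : IsRoots M α ω) {x y : Fin n → ℝ} (hxy : ∀ v, x ⬝ᵥ ω v = y ⬝ᵥ ω v) :
    x = y := by
  rw [h.expand x, h.expand y]
  exact Finset.sum_congr rfl fun v _ => by rw [hxy v]

theorem ga_coord (h : IsRoots M α ω) (w : M.Group) (x : Fin n → ℝ) (v : S) :
    ga M α ω w x ⬝ᵥ ω v = ((titsHom M w).mulVec fun u => x ⬝ᵥ ω u) v := by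
  show (∑ u, ((titsHom M w).mulVec fun u => x ⬝ᵥ ω u) u • α u) ⬝ᵥ ω v = _
  rw [sum_dotProduct, Finset.sum_eq_single v]
  · rw [smul_dotProduct, dotProduct_comm, h.dual v v, if_pos rfl, smul_eq_mul, mul_one]
  · intro u _ hu
    rw [smul_dotProduct, dotProduct_comm, h.dual v u, if_neg (Ne.symm hu), smul_eq_mul, mul_zero]
  · intro hu
    exact absurd (Finset.mem_univ v) hu

theorem ga_one (h : IsRoots M α ω) (x : Fin n → ℝ) : ga M α ω 1 x = x := by
  refine h.ext' fun v => ?_
  rw [ga_coord h, map_one, Matrix.one_mulVec]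

theorem ga_mul (h : IsRoots M α ω) (w w' : M.Group) (x : Fin n → ℝ) :
    ga M α ω (w * w') x = ga M α ω w (ga M α ω w' x) := by
  refine h.ext' fun v => ?_
  rw [ga_coord h, ga_coord h, map_mul, ← Matrix.mulVec_mulVec]
  congr 2
  funext u
  rw [ga_coord h]

theorem ga_simple (h : IsRoots M α ω) (v : S) (x : Fin n → ℝ) :
    ga M α ω (M.simple v) x = x - (2 * (x ⬝ᵥ α v)) • α v := by
  refine h.ext' fun u => ?_
  have h0 : titsHom M (M.simple v) = refl (kR M) v := by
    rw [← CoxeterMatrix.toCoxeterSystem_simple]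
    exact titsHom_simple M v
  have h1 : ∑ w, kR M v w * (x ⬝ᵥ ω w) = 2 * (x ⬝ᵥ α v) := by
    have h2 : x ⬝ᵥ α v = ∑ w, (x ⬝ᵥ ω w) * (α w ⬝ᵥ α v) := by
      conv_lhs => rw [h.expand x, sum_dotProduct]
      exact Finset.sum_congr rfl fun w _ => by rw [smul_dotProduct, smul_eq_mul]
    rw [h2, Finset.mul_sum]
    refine Finset.sum_congr rfl fun w _ => ?_
    rw [← h.dot v w, dotProduct_comm (α v) (α w)]
    ring
  rw [ga_coord h, h0, refl_mulVec, h1, sub_dotProduct, smul_dotProduct, dotProduct_comm (α v),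
    h.dual u v, Pi.sub_apply, Pi.smul_apply, smul_eq_mul, smul_eq_mul, Pi.single_apply]

theorem ga_dot (h : IsRoots M α ω) (w : M.Group) (x y : Fin n → ℝ) :
    ga M α ω w x ⬝ᵥ ga M α ω w y = x ⬝ᵥ y := by
  induction w using M.toCoxeterSystem.simple_induction_left with
  | one => rw [ga_one h, ga_one h]
  | mul_simple_left w i ih =>
    rw [ga_mul h, ga_mul h, ← ih]
    generalize ga M α ω w x = a
    generalize ga M α ω w y = b
    rw [CoxeterMatrix.toCoxeterSystem_simple, ga_simple h, ga_simple h]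
    simp only [sub_dotProduct, dotProduct_sub, smul_dotProduct, dotProduct_smul, smul_eq_mul,
      h.self i]
    rw [dotProduct_comm (α i) b]
    ring

theorem ga_inv (h : IsRoots M α ω) (w : M.Group) (x : Fin n → ℝ) :
    ga M α ω w⁻¹ (ga M α ω w x) = x := by
  rw [← ga_mul h, inv_mul_cancel, ga_one h]

theorem ga_inv' (h : IsRoots M α ω) (w : M.Group) (x : Fin n → ℝ) :
    ga M α ω w (ga M α ω w⁻¹ x) = x := by
  rw [← ga_mul h, mul_inv_cancel, ga_one h]

theorem ga_pos (h : IsRoots M α ω) (w : M.Group) (s : S)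
    (hs : ¬ M.toCoxeterSystem.IsRightDescent w s) (u : S) : 0 ≤ ga M α ω w (α s) ⬝ᵥ ω u := by
  rw [ga_coord h]
  have h1 : (fun u => α s ⬝ᵥ ω u) = Pi.single s 1 := by
    funext v
    rw [dotProduct_comm, h.dual v s, Pi.single_apply]
  rw [h1]
  exact tits_pos M w s hs u

theorem ga_root (h : IsRoots M α ω) (w : M.Group) (s : S) :
    (∀ u, 0 ≤ ga M α ω w (α s) ⬝ᵥ ω u) ∨ (∀ u, ga M α ω w (α s) ⬝ᵥ ω u ≤ 0) := by
  by_cases hs : M.toCoxeterSystem.IsRightDescent w s
  · right
    intro u
    have h1 : ¬ M.toCoxeterSystem.IsRightDescent (w * M.toCoxeterSystem.simple s) s :=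
      M.toCoxeterSystem.isRightDescent_iff_not_isRightDescent_mul.mp hs
    have h2 := ga_pos h (w * M.toCoxeterSystem.simple s) s h1 u
    rw [ga_mul h, CoxeterMatrix.toCoxeterSystem_simple, ga_simple h, h.self s] at h2
    have h3 : α s - (2 * (1 : ℝ)) • α s = -α s := by
      rw [mul_one, two_smul]
      abel
    rw [h3, map_neg, neg_dotProduct] at h2
    linarith
  · left
    exact fun u => ga_pos h w s hs u

end Pool.Agent.H4.FD
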