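import Pool.Agent.H4.FC.Par
import Pool.Agent.H4.FD.Geo

/-!
# Project FD: dominant vectors

Write `w x` for `ga M α ω w x`, `x ≥ 0` for `∀ u, 0 ≤ x ⬝ᵥ ω u` (nonnegative combination of the `α v`, by
`expand`).
* `dom_le`: `μ - w μ ≥ 0` for dominant `μ`, by strong induction on the length of `w`: `w = 1` clear;
  otherwise `w` has a right descent `s` (`exists_rightDescent_of_ne_one`), `w' = w * simple s` has smaller
  length, `s` is not a right descent of `w'`, so `w' (α s) ≥ 0` (`ga_pos`), and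
  `w μ = w' (s μ) = w' μ - 2 (μ ⬝ᵥ α s) • w' (α s)`.
* `dm_dot`: if `λ` is dominant and `x ≥ 0` then `0 ≤ λ ⬝ᵥ x` (`expand`). `dom_dot_le`: `λ ⬝ᵥ w μ ≤ λ ⬝ᵥ μ`.
* `dom_unique`: `λ - w λ ≥ 0` and (`λ = w⁻¹ (w λ)`) `w λ - λ ≥ 0`; so all products with the `ω u` vanish.
* `exists_dom`: let `ρ = ∑ ω v`, `ρ ⬝ᵥ α v = 1`. Choose `w` in the finite group with `ρ ⬝ᵥ w x` maximal.
  If `(w x) ⬝ᵥ α v < 0` then `ρ ⬝ᵥ (s_v w) x = ρ ⬝ᵥ w x - 2 ((w x) ⬝ᵥ α v)` is larger.
* `stab_orbit`: among all `z` in the group with `z λ = λ` choose one with `ρ ⬝ᵥ z⁻¹ (w μ)` maximal; put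
  `y = z⁻¹ (w μ)`; `λ ⬝ᵥ y = z λ ⬝ᵥ w μ = λ ⬝ᵥ μ`. Claim: `y` is dominant. Let `y ⬝ᵥ α s < 0`. If
  `λ ⬝ᵥ α s = 0` then `s λ = λ`, `(z s) λ = λ` and `ρ ⬝ᵥ s y > ρ ⬝ᵥ y`, contradiction to maximality. If
  `λ ⬝ᵥ α s > 0` then `λ ⬝ᵥ s y = λ ⬝ᵥ y - 2 (y ⬝ᵥ α s) (λ ⬝ᵥ α s) > λ ⬝ᵥ μ`, contradiction to
  `dom_dot_le`. So `y = μ` by `dom_unique` (`y = (z⁻¹ w) μ`), `w μ = z μ`.
* `flag`: let `λ = ∑ i ∈ I, ω i`, `x' = ∑ i ∈ I, x i`; `x' ⬝ᵥ x' = λ ⬝ᵥ λ`. `exists_dom`: `z⁻¹ x'` dominant for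
  some `z`; `d = z⁻¹ x'`, `d ⬝ᵥ d = λ ⬝ᵥ λ`. `λ - d = ∑ i ∈ I, (ω i - z⁻¹ (x i)) ≥ 0` by `dom_le`
  (`x i = w (ω i)`). `0 = λ ⬝ᵥ λ - d ⬝ᵥ d = (λ - d) ⬝ᵥ (λ + d)`, and with `c v = (λ - d) ⬝ᵥ ω v ≥ 0`:
  `∑ v, c v * ((λ + d) ⬝ᵥ α v) = 0`, all terms `≥ 0`, so `c v * (λ ⬝ᵥ α v) = c v * (d ⬝ᵥ α v) = 0`, hence
  `(λ - d) ⬝ᵥ (λ - d) = ∑ v, c v * ((λ - d) ⬝ᵥ α v) = 0` and `λ = d`. A sum of vectors `≥ 0` is zero only
  if all are zero (products with `ω u`), so `ω i = z⁻¹ (x i)` for `i ∈ I`.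
* `stab_par`: induction on the length of `w`; `λ = ∑ v ∈ Tᶜ, ω v`, `w λ = λ`; `λ ⬝ᵥ α s = 0` iff `s ∈ T`.
  `w ≠ 1`: right descent `s`, `w = w' s`, `w' (α s) ≥ 0`; `λ = w λ = w' λ - 2 (λ ⬝ᵥ α s) • w' (α s)`, and
  `λ - w' λ ≥ 0` (`dom_le`), so `λ - w' λ = 0` and `(λ ⬝ᵥ α s) • w' (α s) = 0`, hence `λ ⬝ᵥ α s = 0`
  (`w' (α s) ≠ 0`), `s ∈ T`. From `w' λ = λ`: `∑ v ∈ Tᶜ, (ω v - w' (ω v)) = 0` with all terms `≥ 0`, so
  `w' (ω v) = ω v` for `v ∉ T`; by induction `w' ∈ par M T`. (Or do the induction with the hypothesis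
  `w λ = λ`.)
* `orbit_type`: `ω v = (w'⁻¹ w) (ω u)`, both dominant: `ω v = ω u`, so `u = v` (`dual`).
-/

set_option autoImplicit false

open Finset

namespace Pool.Agent.H4.FD

open Pool.Agent.H85.Fold Pool.Agent.H4.FC

variable {S : Type} [Fintype S] [DecidableEq S] {M : CoxeterMatrix S} {n : ℕ}
  {α ω : S → Fin n → ℝ}

theorem dm_weight (h : IsRoots M α ω) (v : S) : Dm α (ω v) := by
  intro u
  rw [h.dual]
  split_ifs
  · exact zero_le_one
  · exact le_rfl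

omit [Fintype S] [DecidableEq S] in
private theorem descent (w : M.Group) (hw : w ≠ 1) : ∃ (w' : M.Group) (s : S),
    w = w' * M.simple s ∧ M.toCoxeterSystem.length w' < M.toCoxeterSystem.length w ∧
      ¬ M.toCoxeterSystem.IsRightDescent w' s := by
  obtain ⟨s, hs⟩ := M.toCoxeterSystem.exists_rightDescent_of_ne_one hw
  have h1 : M.toCoxeterSystem.simple s = M.simple s := by
    rw [M.toCoxeterSystem_simple]
  have h2 : ¬ M.toCoxeterSystem.IsRightDescent (w * M.toCoxeterSystem.simple s) s :=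
    M.toCoxeterSystem.isRightDescent_iff_not_isRightDescent_mul.mp hs
  rw [h1] at h2
  refine ⟨w * M.simple s, s, ?_, ?_, h2⟩
  · rw [mul_assoc, simple_sq, mul_one]
  · have h3 : M.toCoxeterSystem.length (w * M.toCoxeterSystem.simple s) <
        M.toCoxeterSystem.length w := hs
    rwa [h1] at h3

private theorem step (h : IsRoots M α ω) (w' : M.Group) (s : S) (x : Fin n → ℝ) :
    ga M α ω (w' * M.simple s) x = ga M α ω w' x - (2 * (x ⬝ᵥ α s)) • ga M α ω w' (α s) := by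
  rw [ga_mul h, ga_simple h, map_sub, map_smul]

theorem dom_le (h : IsRoots M α ω) {μ : Fin n → ℝ} (hμ : Dm α μ) (w : M.Group) (u : S) :
    0 ≤ (μ - ga M α ω w μ) ⬝ᵥ ω u := by
  have key : ∀ k : ℕ, ∀ w : M.Group, M.toCoxeterSystem.length w < k → ∀ u,
      0 ≤ (μ - ga M α ω w μ) ⬝ᵥ ω u := by
    intro k
    induction k with
    | zero => intro w hw; exact absurd hw (Nat.not_lt_zero _)
    | succ k ih =>
      intro w hw u
      by_cases h1 : w = 1
      · rw [h1, ga_one h, sub_self, zero_dotProduct]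
      · obtain ⟨w', s, h2, h3, h4⟩ := descent w h1
        have h5 := ih w' (by omega) u
        have h6 := ga_pos h w' s h4 u
        rw [h2, step h]
        have h7 : μ - (ga M α ω w' μ - (2 * (μ ⬝ᵥ α s)) • ga M α ω w' (α s)) =
            (μ - ga M α ω w' μ) + (2 * (μ ⬝ᵥ α s)) • ga M α ω w' (α s) := by abel
        rw [h7, add_dotProduct, smul_dotProduct, smul_eq_mul]
        have h8 := mul_nonneg (mul_nonneg zero_le_two (hμ s)) h6
        linarith
  exact key _ w (Nat.lt_succ_self _) u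

private theorem dm_dot (h : IsRoots M α ω) {l x : Fin n → ℝ} (hl : Dm α l)
    (hx : ∀ u, 0 ≤ x ⬝ᵥ ω u) : 0 ≤ l ⬝ᵥ x := by
  rw [h.expand x, dotProduct_sum]
  refine Finset.sum_nonneg fun v _ => ?_
  rw [dotProduct_smul, smul_eq_mul]
  exact mul_nonneg (hx v) (hl v)

theorem dom_dot_le (h : IsRoots M α ω) {l μ : Fin n → ℝ} (hl : Dm α l) (hμ : Dm α μ)
    (w : M.Group) : l ⬝ᵥ ga M α ω w μ ≤ l ⬝ᵥ μ := by
  have h1 := dm_dot h hl (dom_le h hμ w)
  rw [dotProduct_sub] at h1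
  linarith

theorem dom_unique (h : IsRoots M α ω) {l : Fin n → ℝ} (hl : Dm α l) (w : M.Group)
    (hw : Dm α (ga M α ω w l)) : ga M α ω w l = l := by
  apply h.ext'
  intro u
  have h1 := dom_le h hl w u
  have h2 := dom_le h hw w⁻¹ u
  rw [ga_inv h] at h2
  rw [sub_dotProduct] at h1 h2
  linarith

/-- the sum of the weights -/
private noncomputable def rho (ω : S → Fin n → ℝ) : Fin n → ℝ := ∑ v, ω v

private theorem rho_dot (h : IsRoots M α ω) (v : S) : rho ω ⬝ᵥ α v = 1 := by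
  unfold rho
  rw [sum_dotProduct, Finset.sum_congr rfl fun u _ => h.dual u v, Finset.sum_ite_eq',
    if_pos (Finset.mem_univ v)]

private theorem rho_simple (h : IsRoots M α ω) (s : S) (y : Fin n → ℝ) :
    rho ω ⬝ᵥ ga M α ω (M.simple s) y = rho ω ⬝ᵥ y - 2 * (y ⬝ᵥ α s) := by
  rw [ga_simple h, dotProduct_sub, dotProduct_smul, smul_eq_mul, rho_dot h, mul_one]

theorem exists_dom (h : IsRoots M α ω) [Finite M.Group] (x : Fin n → ℝ) :
    ∃ w : M.Group, Dm α (ga M α ω w x) := by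
  obtain ⟨w, hw⟩ := Finite.exists_max fun w : M.Group => rho ω ⬝ᵥ ga M α ω w x
  refine ⟨w, fun s => ?_⟩
  by_contra hcon
  push Not at hcon
  have h1 := hw (M.simple s * w)
  rw [ga_mul h, rho_simple h] at h1
  linarith

theorem stab_orbit (h : IsRoots M α ω) [Finite M.Group] {l μ : Fin n → ℝ} (hl : Dm α l)
    (hμ : Dm α μ) (w : M.Group) (hd : l ⬝ᵥ ga M α ω w μ = l ⬝ᵥ μ) :
    ∃ z : M.Group, ga M α ω z l = l ∧ ga M α ω w μ = ga M α ω z μ := by
  have hne : Nonempty {z : M.Group // ga M α ω z l = l} := ⟨⟨1, ga_one h l⟩⟩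
  obtain ⟨⟨z, hz⟩, hmax⟩ := Finite.exists_max
    fun z : {z : M.Group // ga M α ω z l = l} => rho ω ⬝ᵥ ga M α ω z.1⁻¹ (ga M α ω w μ)
  simp only at hmax
  obtain ⟨y, hy⟩ : ∃ y, y = ga M α ω z⁻¹ (ga M α ω w μ) := ⟨_, rfl⟩
  have hy' : y = ga M α ω (z⁻¹ * w) μ := by rw [hy, ga_mul h]
  have hly : l ⬝ᵥ y = l ⬝ᵥ μ := by
    rw [← hd, hy, ← ga_dot h z, hz, ga_inv' h]
  have hdom : Dm α y := by
    intro s
    by_contra hcon
    push Not at hcon
    rcases (hl s).eq_or_lt with h0 | h0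
    · have h1 : ga M α ω (z * M.simple s) l = l := by
        rw [ga_mul h, ga_simple h, ← h0, mul_zero, zero_smul, sub_zero, hz]
      have h2 := hmax ⟨z * M.simple s, h1⟩
      rw [mul_inv_rev, simple_inv, ga_mul h, rho_simple h, ← hy] at h2
      linarith
    · have h1 := dom_dot_le h hl hμ (M.simple s * (z⁻¹ * w))
      rw [ga_mul h, ← hy', ga_simple h, dotProduct_sub, dotProduct_smul, smul_eq_mul, hly] at h1
      have h2 := mul_pos_of_neg_of_neg hcon (neg_neg_of_pos h0)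
      nlinarith
  have h1 : y = μ := by
    rw [hy'] at hdom ⊢
    exact dom_unique h hμ _ hdom
  refine ⟨z, hz, ?_⟩
  have h2 := congrArg (ga M α ω z) (hy.symm.trans h1)
  rwa [ga_inv' h] at h2

/-- vectors with non-negative coordinates whose sum is zero -/
private theorem all_zero (h : IsRoots M α ω) (I : Finset S) (x : S → Fin n → ℝ)
    (hx : ∀ i ∈ I, ∀ u, 0 ≤ x i ⬝ᵥ ω u) (hs : ∑ i ∈ I, x i = 0) : ∀ i ∈ I, x i = 0 := by
  intro i hi
  apply h.ext'
  intro u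
  have h1 : ∑ i ∈ I, x i ⬝ᵥ ω u = 0 := by rw [← sum_dotProduct, hs, zero_dotProduct]
  rw [zero_dotProduct]
  exact (Finset.sum_eq_zero_iff_of_nonneg fun i hi => hx i hi u).mp h1 i hi

private theorem dm_sum (h : IsRoots M α ω) (I : Finset S) : Dm α (∑ i ∈ I, ω i) := by
  intro v
  rw [sum_dotProduct]
  exact Finset.sum_nonneg fun i _ => dm_weight h i v

theorem flag (h : IsRoots M α ω) [Finite M.Group] (I : Finset S) (x : S → Fin n → ℝ)
    (hx : ∀ i ∈ I, ∃ w : M.Group, x i = ga M α ω w (ω i))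
    (hd : ∀ i ∈ I, ∀ j ∈ I, x i ⬝ᵥ x j = ω i ⬝ᵥ ω j) :
    ∃ z : M.Group, ∀ i ∈ I, x i = ga M α ω z (ω i) := by
  obtain ⟨l, hl⟩ : ∃ l, l = ∑ i ∈ I, ω i := ⟨_, rfl⟩
  obtain ⟨x', hx'⟩ : ∃ x', x' = ∑ i ∈ I, x i := ⟨_, rfl⟩
  have hll : x' ⬝ᵥ x' = l ⬝ᵥ l := by
    rw [hx', hl, sum_dotProduct, sum_dotProduct]
    refine Finset.sum_congr rfl fun i hi => ?_
    rw [dotProduct_sum, dotProduct_sum]
    exact Finset.sum_congr rfl fun j hj => hd i hi j hj
  have hdl : Dm α l := by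
    rw [hl]
    exact dm_sum h I
  obtain ⟨z, hz⟩ := exists_dom h x'
  obtain ⟨d, hd'⟩ : ∃ d, d = ga M α ω z x' := ⟨_, rfl⟩
  rw [← hd'] at hz
  have hdd : d ⬝ᵥ d = l ⬝ᵥ l := by rw [hd', ga_dot h, hll]
  have hterm : ∀ i ∈ I, ∀ u, 0 ≤ (ω i - ga M α ω z (x i)) ⬝ᵥ ω u := by
    intro i hi u
    obtain ⟨w, hw⟩ := hx i hi
    rw [hw, ← ga_mul h]
    exact dom_le h (dm_weight h i) (z * w) u
  have hsum : l - d = ∑ i ∈ I, (ω i - ga M α ω z (x i)) := by
    rw [Finset.sum_sub_distrib, hl, hd', hx', map_sum]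
  have hpos : ∀ u, 0 ≤ (l - d) ⬝ᵥ ω u := by
    intro u
    rw [hsum, sum_dotProduct]
    exact Finset.sum_nonneg fun i hi => hterm i hi u
  have h1 := dm_dot h hdl hpos
  have h2 := dm_dot h hz hpos
  have h3 : l ⬝ᵥ d = d ⬝ᵥ l := dotProduct_comm l d
  rw [dotProduct_sub] at h1 h2
  have h4 : (l - d) ⬝ᵥ (l - d) = 0 := by
    rw [sub_dotProduct, dotProduct_sub, dotProduct_sub]
    linarith
  have h5 : l - d = 0 := dotProduct_self_eq_zero.mp h4
  rw [hsum] at h5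
  refine ⟨z⁻¹, fun i hi => ?_⟩
  have h6 := sub_eq_zero.mp (all_zero h I _ hterm h5 i hi)
  rw [h6, ga_inv h]

theorem stab_par (h : IsRoots M α ω) (T : Finset S) (w : M.Group)
    (hw : ∀ v, v ∉ T → ga M α ω w (ω v) = ω v) : w ∈ par M T := by
  have key : ∀ k : ℕ, ∀ w : M.Group, M.toCoxeterSystem.length w < k →
      (∀ v, v ∉ T → ga M α ω w (ω v) = ω v) → w ∈ par M T := by
    intro k
    induction k with
    | zero => intro w hw; exact absurd hw (Nat.not_lt_zero _)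
    | succ k ih =>
      intro w hw hfix
      by_cases h1 : w = 1
      · rw [h1]
        exact one_mem _
      · obtain ⟨w', s, h2, h3, h4⟩ := descent w h1
        obtain ⟨l, hl⟩ : ∃ l, l = ∑ v ∈ Tᶜ, ω v := ⟨_, rfl⟩
        have hdl : Dm α l := by
          rw [hl]
          exact dm_sum h _
        have hwl : ga M α ω w l = l := by
          rw [hl, map_sum]
          refine Finset.sum_congr rfl fun v hv => hfix v ?_
          rwa [Finset.mem_compl] at hv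
        have h5 : l = ga M α ω w' l - (2 * (l ⬝ᵥ α s)) • ga M α ω w' (α s) := by
          rw [← step h, ← h2, hwl]
        have h6 : (l - ga M α ω w' l) + (2 * (l ⬝ᵥ α s)) • ga M α ω w' (α s) = 0 := by
          have gen : ∀ a b c : Fin n → ℝ, a = b - c → (a - b) + c = 0 := by
            intro a b c habc
            rw [habc]
            abel
          exact gen _ _ _ h5
        have hA : ∀ u, 0 ≤ (l - ga M α ω w' l) ⬝ᵥ ω u := dom_le h hdl w'
        have hB : ∀ u, 0 ≤ ((2 * (l ⬝ᵥ α s)) • ga M α ω w' (α s)) ⬝ᵥ ω u := by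
          intro u
          rw [smul_dotProduct, smul_eq_mul]
          exact mul_nonneg (mul_nonneg zero_le_two (hdl s)) (ga_pos h w' s h4 u)
        have hAB : ∀ u, (l - ga M α ω w' l) ⬝ᵥ ω u = 0 ∧
            ((2 * (l ⬝ᵥ α s)) • ga M α ω w' (α s)) ⬝ᵥ ω u = 0 := by
          intro u
          have h7 : ((l - ga M α ω w' l) + (2 * (l ⬝ᵥ α s)) • ga M α ω w' (α s)) ⬝ᵥ ω u = 0 := by
            rw [h6, zero_dotProduct]
          rw [add_dotProduct] at h7
          constructor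
          · linarith [hA u, hB u]
          · linarith [hA u, hB u]
        have hA0 : l - ga M α ω w' l = 0 := by
          apply h.ext'
          intro u
          rw [zero_dotProduct]
          exact (hAB u).1
        have hB0 : (2 * (l ⬝ᵥ α s)) • ga M α ω w' (α s) = 0 := by
          apply h.ext'
          intro u
          rw [zero_dotProduct]
          exact (hAB u).2
        have hsT : s ∈ T := by
          by_contra hsT
          have h7 : l ⬝ᵥ α s = 1 := by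
            rw [hl, sum_dotProduct, Finset.sum_congr rfl fun u _ => h.dual u s,
              Finset.sum_ite_eq', if_pos (Finset.mem_compl.mpr hsT)]
          rw [h7, mul_one] at hB0
          rcases smul_eq_zero.mp hB0 with h8 | h8
          · norm_num at h8
          · have h9 := ga_dot h w' (α s) (α s)
            rw [h8, zero_dotProduct, h.self] at h9
            exact zero_ne_one h9
        have hw' : ∀ v, v ∉ T → ga M α ω w' (ω v) = ω v := by
          have h7 : ∑ v ∈ Tᶜ, (ω v - ga M α ω w' (ω v)) = 0 := by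
            rw [Finset.sum_sub_distrib, ← map_sum, ← hl, hA0]
          intro v hv
          have h8 := all_zero h Tᶜ (fun v => ω v - ga M α ω w' (ω v))
            (fun i _ u => dom_le h (dm_weight h i) w' u) h7 v (Finset.mem_compl.mpr hv)
          exact (sub_eq_zero.mp h8).symm
        rw [h2]
        exact mul_mem (ih w' (by omega) hw') (simple_mem_par M hsT)
  exact key _ w (Nat.lt_succ_self _) hw

theorem orbit_type (h : IsRoots M α ω) {w w' : M.Group} {u v : S}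
    (huv : ga M α ω w (ω u) = ga M α ω w' (ω v)) : u = v := by
  have h1 : ga M α ω (w'⁻¹ * w) (ω u) = ω v := by
    rw [ga_mul h, huv, ga_inv h]
  have h2 : ga M α ω (w'⁻¹ * w) (ω u) = ω u := by
    refine dom_unique h (dm_weight h u) _ ?_
    rw [h1]
    exact dm_weight h v
  have h3 : ω v = ω u := h1.symm.trans h2
  have h4 := h.dual v v
  rw [h3, h.dual, if_pos rfl] at h4
  by_contra hne
  rw [if_neg hne] at h4
  exact zero_ne_one h4

end Pool.Agent.H4.FD
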