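import Pool.Agent.H4.FD.RootsEx

/-!
# Project FD: the diagram of a finite Coxeter group is a forest

`kR_le`: for `u ≠ v`: `M u v ≠ 1`; `M u v = 0`: `kR = -2`; `M u v = 2`: `kR = -2 cos (π/2) = 0`; `M u v ≥ 3`:
`cos (π / m) ≥ cos (π / 3) = 1/2`. So `kR M u v = 0` or `kR M u v ≤ -1`.

`exists_leaf`: every nonempty `T` contains a `v` with at most one `u ∈ T`, `u ≠ v`, `kR M u v ≠ 0`. Otherwise
let `x` be the indicator function of `T`; `∑ u v, kR M u v * x u * x v = ∑ v ∈ T, (2 + ∑ u ∈ T \ v, kR M u v)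
≤ ∑ v ∈ T, (2 - 2) = 0` (each `v` has at least two neighbours, each contributes `≤ -1`, the others
`≤ 0`), contradicting `pos_kR`.

`exists_eps`: for all `T` by induction on the cardinality of `T` there is `ε : S → ℝ` with values `±1` and
`ε u * ε v = -1` for `u ≠ v` in `T` with `kR M u v ≠ 0`: remove a leaf `v`, and put `ε v = -ε u` for its
neighbour `u` (`ε v = 1` if there is none), `kR_symm`. Take `T = univ`.
-/

set_option autoImplicit false

open Finset

namespace Pool.Agent.H4.FD

open Pool.Agent.H85.Fold Pool.Agent.H4.FC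

variable {S : Type} [Fintype S] [DecidableEq S]

omit [Fintype S] [DecidableEq S] in
theorem kR_eq_cc (M : CoxeterMatrix S) (u v : S) :
    kR M u v = -cc (fun u v => M u v) u v := by
  unfold kR cc
  by_cases h : M u v = 0
  · simp [h]
  · rw [if_neg h]; ring

omit [Fintype S] [DecidableEq S] in
private theorem eps_kR_le (M : CoxeterMatrix S) {u v : S} (huv : u ≠ v) :
    kR M u v = 0 ∨ kR M u v ≤ -1 := by
  have h1 : M u v ≠ 1 := M.off_diagonal u v huv
  unfold kR
  by_cases h0 : M u v = 0
  · right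
    rw [if_pos h0]; norm_num
  · rw [if_neg h0]
    by_cases h2 : M u v = 2
    · left
      rw [h2]
      norm_num
    · right
      have h3 : 3 ≤ M u v := by omega
      have h3' : (3 : ℝ) ≤ (M u v : ℝ) := by exact_mod_cast h3
      have h4 : Real.pi / (M u v : ℝ) ≤ Real.pi / 3 :=
        div_le_div_of_nonneg_left Real.pi_pos.le (by norm_num) h3'
      have h5 : Real.cos (Real.pi / 3) ≤ Real.cos (Real.pi / (M u v : ℝ)) := by
        apply Real.cos_le_cos_of_nonneg_of_le_pi
        · positivity
        · linarith [Real.pi_pos]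
        · exact h4
      rw [Real.cos_pi_div_three] at h5
      linarith

private theorem eps_leaf (M : CoxeterMatrix S) [Finite M.Group] (T : Finset S)
    (hT : T.Nonempty) :
    ∃ v ∈ T, ((T.erase v).filter fun u => kR M u v ≠ 0).card ≤ 1 := by
  by_contra hcon
  push Not at hcon
  set x : S → ℝ := fun u => if u ∈ T then 1 else 0 with hx
  have hx0 : x ≠ 0 := by
    obtain ⟨v, hv⟩ := hT
    intro h0
    have h1 : x v = 0 := congrFun h0 v
    rw [hx] at h1
    simp only [if_pos hv] at h1
    exact one_ne_zero h1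
  have hpos := pos_kR M x hx0
  have h1 : ∀ v ∈ T, ∑ u ∈ T, kR M u v ≤ 0 := by
    intro v hv
    rw [← Finset.add_sum_erase T (fun u => kR M u v) hv, kR_self]
    have h2 : ∑ u ∈ T.erase v, kR M u v ≤
        ∑ u ∈ T.erase v, (if kR M u v ≠ 0 then (-1 : ℝ) else 0) := by
      refine Finset.sum_le_sum fun u hu => ?_
      have hne : u ≠ v := Finset.ne_of_mem_erase hu
      by_cases hk : kR M u v = 0
      · rw [if_neg (not_not.mpr hk), hk]
      · rw [if_pos hk]
        exact (eps_kR_le M hne).resolve_left hk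
    have h3 : ∑ u ∈ T.erase v, (if kR M u v ≠ 0 then (-1 : ℝ) else 0) =
        -(((T.erase v).filter fun u => kR M u v ≠ 0).card : ℝ) := by
      rw [← Finset.sum_filter, Finset.sum_const, nsmul_eq_mul]
      ring
    have h4 : (2 : ℝ) ≤ (((T.erase v).filter fun u => kR M u v ≠ 0).card : ℝ) := by
      exact_mod_cast hcon v hv
    linarith
  have h2 : ∑ u, ∑ v, kR M u v * x u * x v = ∑ v ∈ T, ∑ u ∈ T, kR M u v := by
    have h3 : ∀ u v, kR M u v * x u * x v =
        if v ∈ T then (if u ∈ T then kR M u v else 0) else 0 := by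
      intro u v
      rw [hx]
      by_cases h3 : u ∈ T <;> by_cases h4 : v ∈ T <;> simp [h3, h4]
    rw [Finset.sum_comm]
    simp only [h3]
    rw [← Finset.sum_filter_add_sum_filter_not univ (fun v => v ∈ T)]
    have h5 : ∑ v ∈ univ.filter (fun v => ¬ v ∈ T),
        ∑ u, (if v ∈ T then (if u ∈ T then kR M u v else 0) else 0) = 0 := by
      refine Finset.sum_eq_zero fun v hv => ?_
      have h6 : v ∉ T := (Finset.mem_filter.1 hv).2
      refine Finset.sum_eq_zero fun u _ => ?_
      rw [if_neg h6]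
    rw [h5, add_zero]
    have h6 : univ.filter (fun v => v ∈ T) = T := by
      ext v; simp
    rw [h6]
    refine Finset.sum_congr rfl fun v hv => ?_
    simp only [if_pos hv]
    rw [← Finset.sum_filter, h6]
  rw [h2] at hpos
  exact absurd (Finset.sum_nonpos h1) (not_le.mpr hpos)

private theorem eps_ind (M : CoxeterMatrix S) [Finite M.Group] (n : ℕ) :
    ∀ T : Finset S, T.card = n → ∃ ε : S → ℝ, (∀ v, ε v * ε v = 1) ∧
      ∀ u ∈ T, ∀ v ∈ T, u ≠ v → kR M u v ≠ 0 → ε u * ε v = -1 := by
  induction n with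
  | zero =>
    intro T hT
    have hT0 : T = ∅ := Finset.card_eq_zero.mp hT
    subst hT0
    exact ⟨fun _ => 1, fun _ => by norm_num,
      fun u hu => absurd hu (Finset.notMem_empty u)⟩
  | succ n ih =>
    intro T hT
    have hne : T.Nonempty := Finset.card_pos.mp (by omega)
    obtain ⟨v, hv, hle⟩ := eps_leaf M T hne
    obtain ⟨ε, hε1, hε2⟩ := ih (T.erase v) (by rw [Finset.card_erase_of_mem hv, hT]; rfl)
    obtain ⟨a, ha1, ha2⟩ : ∃ a : ℝ, a * a = 1 ∧
        ∀ u ∈ T.erase v, kR M u v ≠ 0 → ε u * a = -1 := by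
      rcases ((T.erase v).filter fun u => kR M u v ≠ 0).eq_empty_or_nonempty with h0 | ⟨w, hw⟩
      · refine ⟨1, by norm_num, fun u hu hk => ?_⟩
        have h1 : u ∈ (T.erase v).filter fun u => kR M u v ≠ 0 :=
          Finset.mem_filter.mpr ⟨hu, hk⟩
        rw [h0] at h1
        exact absurd h1 (Finset.notMem_empty u)
      · refine ⟨-ε w, by rw [neg_mul_neg]; exact hε1 w, fun u hu hk => ?_⟩
        have h1 : u = w := Finset.card_le_one.mp hle u (Finset.mem_filter.mpr ⟨hu, hk⟩) w hw
        rw [h1, mul_neg, hε1]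
    refine ⟨Function.update ε v a, fun u => ?_, fun u hu w hw huw hk => ?_⟩
    · by_cases h1 : u = v
      · subst h1
        rw [Function.update_self]; exact ha1
      · rw [Function.update_of_ne h1]; exact hε1 u
    · by_cases h1 : u = v
      · subst h1
        have h2 : w ≠ u := fun h => huw h.symm
        rw [Function.update_self, Function.update_of_ne h2, mul_comm]
        exact ha2 w (Finset.mem_erase.mpr ⟨h2, hw⟩) (by rw [kR_symm]; exact hk)
      · rw [Function.update_of_ne h1]
        by_cases h2 : w = v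
        · subst h2
          rw [Function.update_self]
          exact ha2 u (Finset.mem_erase.mpr ⟨h1, hu⟩) hk
        · rw [Function.update_of_ne h2]
          exact hε2 u (Finset.mem_erase.mpr ⟨h1, hu⟩) w (Finset.mem_erase.mpr ⟨h2, hw⟩) huw hk

theorem exists_eps (M : CoxeterMatrix S) [Finite M.Group] :
    ∃ ε : S → ℝ, (∀ v, ε v * ε v = 1) ∧ ∀ u v, u ≠ v → kR M u v ≠ 0 → ε u * ε v = -1 := by
  obtain ⟨ε, h1, h2⟩ := eps_ind M _ (univ : Finset S) rfl
  exact ⟨ε, h1, fun u v huv hk => h2 u (Finset.mem_univ _) v (Finset.mem_univ _) huv hk⟩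

end Pool.Agent.H4.FD
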