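import Pool.Agent.H4.FD.Freeze

/-!
# Project FD: quantitative exactness in one degree
-/

set_option autoImplicit false

open Finset

namespace Pool.Agent.H4.FD

open Pool.Agent.H85.Fold Pool.Agent.H4.FC

theorem qf_all_i {V X : Type} [DecidableEq V] [Fintype V] [NormedAddCommGroup X]
    [NormedSpace ℝ X] {ν : V → ℕ} {G : SimpleGraph V} {e : V → X →ₗ[ℝ] X} {m : V → V → ℕ}
    {κ : ℝ} (hν : Function.Injective ν) {i : ℕ} (h0 : ∀ S, QF ν G e m κ ∅ S i)
    (A : Finset V) : ∀ S, Disjoint A S → QF ν G e m κ A S i := by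
  induction A using Finset.induction_on with
  | empty => exact fun S _ => h0 S
  | insert v A hv ih =>
    intro S hS
    rw [Finset.disjoint_insert_left] at hS
    refine qf_step hν hv hS.1 (ih S hS.2) (ih (insert v S) ?_)
    rw [Finset.disjoint_insert_right]
    exact ⟨hv, hS.2⟩

end Pool.Agent.H4.FD
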