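import Pool.Agent.H4.FC.ExactL
import Pool.Agent.H4.FD.DeformP
import Pool.Agent.H4.FD.FreezeI

/-!
# Project FD: exactness of the twisted complexes

Copy the proof of `tw_exactL` in `Pool.Agent.H4.FC.ExactL` (private lemmas too; the file in the pack is
complete) with these changes. `qf_all_i` for `A = univ`, `S = ∅` (`Disjoint univ ∅`) gives the
constant `C₁` of `QF ν G e m κ univ ∅ i`. A chain `k : Finset V → N → X` with supports in the cliques with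
`i` elements, `k σ` killed by the `e v`, `v ∈ σ`, and `k σ ∈ PP m (actJ X J) σ` corresponds to
`x σ T = if T = ∅ then k σ else 0`, which satisfies `IsE G e m J univ ∅ i x` (`∅ ∪ (σ ∩ univ) = σ`), and
`dE ν ∅ x σ T = if T = ∅ then bd ν k σ else 0` (`∅ ⊆ σ`; `T ⊆ ∅` iff `T = ∅`; `∅ \ T = ∅`), norms agree.
From `y` with `IsE … (i + 1) y` one gets the chain `y σ ∅`. `deformP` instead of `deformL`. The projected
chain `k σ ω = pr σ (f σ ω)` is in `PP` by `Xop_mem` (for `f σ`, `f σ ≠ 0`, `σ` a clique; otherwise `0`) and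
`PP_pw`.
-/

set_option autoImplicit false

open Finset

namespace Pool.Agent.H4.FD

open Pool.Agent.H85.Fold Pool.Agent.H4.FC

variable {V X : Type} [DecidableEq V] [Fintype V] [NormedAddCommGroup X] [NormedSpace ℝ X]
  [FiniteDimensional ℝ X]

/-- the submodule of twisted chains -/
private def twSubP {N : Type} [Fintype N] [DecidableEq N] (G : SimpleGraph V)
    (e g : V → X →ₗ[ℝ] X) (γ : X →ₗ[ℝ] X) (J : V → Matrix N N ℝ) (t : ℝ) (i : ℕ) :
    Submodule ℝ (Finset V → N → X) where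
  carrier := {f | IsTwL G e g γ J t i f}
  zero_mem' := by
    refine ⟨fun σ h => absurd rfl h, fun σ v _ => ?_⟩
    rw [Pi.zero_apply, map_zero]
  add_mem' := by
    intro f f' hf hf'
    refine ⟨fun σ h => ?_, fun σ v hv => ?_⟩
    · by_cases h1 : f σ = 0
      · apply hf'.supp σ
        intro h2
        apply h
        show f σ + f' σ = 0
        rw [h1, h2, add_zero]
      · exact hf.supp σ h1
    · rw [Pi.add_apply, map_add, hf.eq σ v hv, hf'.eq σ v hv, add_zero]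
  smul_mem' := by
    intro r f hf
    refine ⟨fun σ h => ?_, fun σ v hv => ?_⟩
    · apply hf.supp σ
      intro h2
      apply h
      show r • f σ = 0
      rw [h2, smul_zero]
    · rw [Pi.smul_apply, map_smul, hf.eq σ v hv, smul_zero]

omit [FiniteDimensional ℝ X] in
private theorem isTwP_bd (ν : V → ℕ) {N : Type} [Fintype N] [DecidableEq N] {G : SimpleGraph V}
    {e g : V → X →ₗ[ℝ] X} {γ : X →ₗ[ℝ] X} {J : V → Matrix N N ℝ} {t : ℝ} {i : ℕ}
    {y : Finset V → N → X} (hy : IsTwL G e g γ J t (i + 1) y) :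
    IsTwL G e g γ J t i (bd ν y) := by
  refine ⟨fun ρ h => ?_, fun ρ v hv => ?_⟩
  · have h' : ∑ v ∈ ρᶜ, sgn ν v ρ • y (insert v ρ) ≠ 0 := h
    obtain ⟨w, hw, hw'⟩ := Finset.exists_ne_zero_of_sum_ne_zero h'
    have hne : y (insert w ρ) ≠ 0 := by
      intro h0
      exact hw' (by rw [h0, smul_zero])
    obtain ⟨h1, h2⟩ := hy.supp _ hne
    refine ⟨fun a ha b hb hab => h1 a (Finset.mem_insert_of_mem ha) b
      (Finset.mem_insert_of_mem hb) hab, ?_⟩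
    rw [Finset.card_insert_of_notMem (Finset.mem_compl.mp hw)] at h2
    omega
  · have h' : bd ν y ρ = ∑ v ∈ ρᶜ, sgn ν v ρ • y (insert v ρ) := rfl
    rw [h', map_sum]
    apply Finset.sum_eq_zero
    intro w _
    rw [map_smul, hy.eq _ v (Finset.mem_insert_of_mem hv), smul_zero]

omit [Fintype V] [FiniteDimensional ℝ X] [NormedSpace ℝ X] [DecidableEq V] in
private theorem exP_norm {N : Type} [Fintype N] [DecidableEq V] [Fintype V]
    (k : Finset V → N → X) (x : Finset V → Finset V → N → X)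
    (hx : ∀ σ T, x σ T = if T = ∅ then k σ else 0) {C : ℝ} (hC : 0 ≤ C) (hk : ‖k‖ ≤ C) :
    ‖x‖ ≤ C := by
  rw [pi_norm_le_iff_of_nonneg hC]
  intro σ
  rw [pi_norm_le_iff_of_nonneg hC]
  intro T
  rw [hx]
  split_ifs
  · exact (norm_le_pi_norm k σ).trans hk
  · rw [norm_zero]; exact hC

omit [FiniteDimensional ℝ X] in
private theorem exP_dE (ν : V → ℕ) {N : Type} [Fintype N]
    (k : Finset V → N → X) (x : Finset V → Finset V → N → X)
    (hx : ∀ σ T, x σ T = if T = ∅ then k σ else 0) (σ T : Finset V) :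
    dE ν ∅ x σ T = if T = ∅ then bd ν k σ else 0 := by
  have h0 : dE ν ∅ x σ T = if (∅ : Finset V) ⊆ σ ∧ T ⊆ ∅ then
    ∑ v ∈ σᶜ, sgn ν v σ • x (insert v σ) T +
      (-1 : ℝ) ^ σ.card • ∑ u ∈ ∅ \ T, sgn ν u T • x σ (insert u T) else 0 := rfl
  rw [h0]
  by_cases hT : T = ∅
  · subst hT
    rw [if_pos ⟨Finset.empty_subset _, Finset.empty_subset _⟩, if_pos rfl]
    rw [Finset.empty_sdiff, Finset.sum_empty, smul_zero, add_zero]
    show _ = ∑ v ∈ σᶜ, sgn ν v σ • k (insert v σ)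
    refine Finset.sum_congr rfl fun v _ => ?_
    rw [hx, if_pos rfl]
  · rw [if_neg hT, if_neg]
    rintro ⟨_, h2⟩
    exact hT (Finset.subset_empty.mp h2)

/-- **Exactness of the twisted complexes.** -/
theorem tw_exactP {ν : V → ℕ} (hν : Function.Injective ν) {G : SimpleGraph V}
    {m : V → V → ℕ} {e g : V → X →ₗ[ℝ] X} {γ : X →ₗ[ℝ] X}
    (h : IsPertL G m e g γ) (hl : Lift G e) {κ : ℝ} (hκ : 0 ≤ κ) (i : ℕ)
    (hB : ∀ S, QF ν G e m κ ∅ S i) :
    ∃ t₀ : ℝ, ∀ t : ℝ, t₀ ≤ t → ∀ (N : Type) [Fintype N] [DecidableEq N]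
      (J : V → Matrix N N ℝ), IsRep G m κ J → ∀ f : Finset V → N → X,
        IsTwL G e g γ J t i f → bd ν f = 0 →
        ∃ y : Finset V → N → X, IsTwL G e g γ J t (i + 1) y ∧ bd ν y = f := by
  classical
  have hQF : QF ν G e m κ (univ : Finset V) ∅ i :=
    qf_all_i hν hB univ ∅ (Finset.disjoint_empty_right _)
  obtain ⟨C₁, hC₁0, hC₁⟩ := hQF
  obtain ⟨C₂, hC₂0, hC₂⟩ := deformP h hl hκ (i + 1)
  choose pr Cp hCp0 hpr1 hpr2 using fun σ : Finset V => exists_pr e σ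
  choose Cq hCq0 hCq using fun σ : Finset V => exists_bound (pr σ)
  obtain ⟨Cg, hCg0, hCg⟩ := exists_bound (LinearMap.pi g : X →ₗ[ℝ] (V → X))
  obtain ⟨Cγ, hCγ0, hCγ⟩ := exists_bound γ
  have hg : ∀ v x, ‖g v x‖ ≤ Cg * ‖x‖ := fun v x =>
    (norm_le_pi_norm (LinearMap.pi g x) v).trans (hCg x)
  set C₃ : ℝ := ∑ σ, Cp σ with hC₃
  set C₄ : ℝ := ∑ σ, Cq σ with hC₄
  have hC₃0 : 0 ≤ C₃ := Finset.sum_nonneg fun σ _ => hCp0 σ
  have hC₄0 : 0 ≤ C₄ := Finset.sum_nonneg fun σ _ => hCq0 σ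
  have hCp : ∀ σ, Cp σ ≤ C₃ := fun σ =>
    Finset.single_le_sum (fun τ _ => hCp0 τ) (Finset.mem_univ σ)
  have hCq' : ∀ σ, Cq σ ≤ C₄ := fun σ =>
    Finset.single_le_sum (fun τ _ => hCq0 τ) (Finset.mem_univ σ)
  set nV : ℝ := (Fintype.card V : ℝ) with hnV
  have hnV0 : 0 ≤ nV := Nat.cast_nonneg _
  set K₀ : ℝ := C₃ * (Cg + Cγ * κ) with hK₀
  have hK₀0 : 0 ≤ K₀ := by positivity
  set K : ℝ := K₀ + C₁ * (nV * K₀) + nV * (C₂ * (C₁ * C₄)) with hK
  have hK0 : 0 ≤ K := by positivity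
  refine ⟨2 * K + 1, ?_⟩
  intro t ht N _ _ J hJ f hf hbd
  have ht1 : 1 ≤ t := by linarith
  have ht0 : 0 < t := by linarith
  have hδ1 : t⁻¹ ≤ 1 := inv_le_one_of_one_le₀ ht1
  have hδK : t⁻¹ * K ≤ 1 / 2 := by
    rw [inv_mul_le_iff₀ ht0]
    linarith
  -- the estimate
  have key : ∀ f : Finset V → N → X, IsTwL G e g γ J t i f → bd ν f = 0 →
      ∃ z', IsTwL G e g γ J t (i + 1) z' ∧ ‖f - bd ν z'‖ ≤ ‖f‖ / 2 := by
    intro f hf hbd
    have hfn : ∀ σ ω, ‖f σ ω‖ ≤ ‖f‖ := fun σ ω =>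
      (norm_le_pi_norm (f σ) ω).trans (norm_le_pi_norm f σ)
    have hev : ∀ σ ω, ∀ v ∈ σ, ‖e v (f σ ω)‖ ≤ t⁻¹ * ((Cg + Cγ * κ) * ‖f‖) := by
      intro σ ω v hv
      have h1 : t • e v (f σ ω) + g v (f σ ω) + γ (actL (J v) (f σ) ω) = 0 :=
        congrFun (hf.eq σ v hv) ω
      have h2 : t • e v (f σ ω) = -(g v (f σ ω) + γ (actL (J v) (f σ) ω)) := by
        rw [eq_neg_iff_add_eq_zero, ← add_assoc]
        exact h1
      have h5 : e v (f σ ω) = t⁻¹ • -(g v (f σ ω) + γ (actL (J v) (f σ) ω)) := by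
        rw [← h2, smul_smul, inv_mul_cancel₀ ht0.ne', one_smul]
      rw [h5, norm_smul, norm_neg, Real.norm_of_nonneg (inv_nonneg.mpr ht0.le)]
      apply mul_le_mul_of_nonneg_left _ (inv_nonneg.mpr ht0.le)
      have h6 : ‖actL (J v) (f σ) ω‖ ≤ κ * ‖f‖ :=
        (norm_le_pi_norm (actL (J v) (f σ)) ω).trans ((norm_actL_le hκ (hJ.bound v) (f σ)).trans
          (mul_le_mul_of_nonneg_left (norm_le_pi_norm f σ) hκ))
      calc ‖g v (f σ ω) + γ (actL (J v) (f σ) ω)‖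
          ≤ ‖g v (f σ ω)‖ + ‖γ (actL (J v) (f σ) ω)‖ := norm_add_le _ _
        _ ≤ Cg * ‖f σ ω‖ + Cγ * ‖actL (J v) (f σ) ω‖ := add_le_add (hg _ _) (hCγ _)
        _ ≤ Cg * ‖f‖ + Cγ * (κ * ‖f‖) := add_le_add (mul_le_mul_of_nonneg_left (hfn _ _) hCg0)
            (mul_le_mul_of_nonneg_left h6 hCγ0)
        _ = (Cg + Cγ * κ) * ‖f‖ := by ring
    set k : Finset V → N → X := fun σ ω => pr σ (f σ ω) with hk
    have hkn : ‖k‖ ≤ C₄ * ‖f‖ := by
      rw [pi_norm_le_iff_of_nonneg (by positivity)]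
      intro σ
      rw [pi_norm_le_iff_of_nonneg (by positivity)]
      intro ω
      calc ‖k σ ω‖ ≤ Cq σ * ‖f σ ω‖ := hCq σ _
        _ ≤ C₄ * ‖f‖ := mul_le_mul (hCq' σ) (hfn σ ω) (norm_nonneg _) hC₄0
    have hfk : ‖f - k‖ ≤ t⁻¹ * (K₀ * ‖f‖) := by
      rw [pi_norm_le_iff_of_nonneg (by positivity)]
      intro σ
      rw [pi_norm_le_iff_of_nonneg (by positivity)]
      intro ω
      have h1 := hpr2 σ (f σ ω) (t⁻¹ * ((Cg + Cγ * κ) * ‖f‖)) (by positivity)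
        (fun v hv => hev σ ω v hv)
      calc ‖(f - k) σ ω‖ = ‖f σ ω - pr σ (f σ ω)‖ := rfl
        _ ≤ Cp σ * (t⁻¹ * ((Cg + Cγ * κ) * ‖f‖)) := h1
        _ ≤ C₃ * (t⁻¹ * ((Cg + Cγ * κ) * ‖f‖)) :=
          mul_le_mul_of_nonneg_right (hCp σ) (by positivity)
        _ = t⁻¹ * (K₀ * ‖f‖) := by rw [hK₀]; ring
    have hkPP : ∀ σ, k σ ∈ PP m (actJ X J) σ := by
      intro σ
      by_cases h0 : f σ = 0
      · have h1 : k σ = 0 := by
          funext ω
          show pr σ (f σ ω) = 0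
          rw [h0, Pi.zero_apply, map_zero]
        rw [h1]
        exact Submodule.zero_mem _
      · have h1 : f σ ∈ PP m (actJ X J) σ := Xop_mem h hJ t (hf.supp σ h0).1 (hf.eq σ)
        exact PP_pw (pr σ) h1
    have hksupp : ∀ σ, k σ ≠ 0 → Cl G σ ∧ σ.card = i := by
      intro σ hσ
      have h1 : f σ ≠ 0 := by
        intro h0
        apply hσ
        funext ω
        show pr σ (f σ ω) = 0
        rw [h0, Pi.zero_apply, map_zero]
      exact hf.supp σ h1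
    set x : Finset V → Finset V → N → X := fun σ T => if T = ∅ then k σ else 0 with hx
    have hx' : ∀ σ T, x σ T = if T = ∅ then k σ else 0 := fun σ T => rfl
    have hxE : IsE G e m J univ ∅ i x := by
      refine ⟨fun σ T hσ => ?_, fun σ T v hv ω => ?_, fun σ T => ?_⟩
      · by_cases hT : T = ∅
        · rw [hx', if_pos hT] at hσ
          obtain ⟨h1, h2⟩ := hksupp σ hσ
          refine ⟨Finset.empty_subset _, ?_, h1, ?_⟩
          · rw [hT]
          · rw [hT, Finset.card_empty, h2]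
        · exact absurd (by rw [hx', if_neg hT]) hσ
      · by_cases hT : T = ∅
        · rw [hx', if_pos hT]
          exact hpr1 σ _ v hv
        · rw [hx', if_neg hT, Pi.zero_apply, map_zero]
      · by_cases hT : T = ∅
        · rw [hx', if_pos hT, hT, Finset.empty_union, Finset.inter_univ]
          exact hkPP σ
        · rw [hx', if_neg hT]
          exact Submodule.zero_mem _
    obtain ⟨Y, hYE, hYn, hYb⟩ := hC₁ N J hJ x hxE
    set y : Finset V → N → X := fun σ => Y σ ∅ with hy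
    have hysupp : ∀ σ, y σ ≠ 0 → Cl G σ ∧ σ.card = i + 1 := by
      intro σ hσ
      obtain ⟨_, _, h1, h2⟩ := hYE.supp σ ∅ hσ
      refine ⟨h1, ?_⟩
      rw [Finset.card_empty] at h2
      omega
    have hyker : ∀ σ, ∀ v ∈ σ, ∀ ω, e v (y σ ω) = 0 := fun σ v hv ω => hYE.ker σ ∅ v hv ω
    have hyPP : ∀ σ, y σ ∈ PP m (actJ X J) σ := by
      intro σ
      have h1 := hYE.mem σ ∅
      rw [Finset.empty_union, Finset.inter_univ] at h1
      exact h1
    have hxk : ‖x‖ ≤ ‖k‖ := exP_norm k x hx' (norm_nonneg _) le_rfl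
    have hyY : ‖y‖ ≤ ‖Y‖ := by
      rw [pi_norm_le_iff_of_nonneg (norm_nonneg _)]
      intro σ
      exact (norm_le_pi_norm (Y σ) ∅).trans (norm_le_pi_norm Y σ)
    have hyn : ‖y‖ ≤ C₁ * ‖k‖ :=
      hyY.trans (hYn.trans (mul_le_mul_of_nonneg_left hxk hC₁0))
    have hdx : ‖dE ν ∅ x‖ ≤ ‖bd ν k‖ :=
      exP_norm (bd ν k) (dE ν ∅ x) (exP_dE ν k x hx') (norm_nonneg _) le_rfl
    have hdY : ∀ σ, dE ν ∅ Y σ ∅ = bd ν y σ := by
      intro σ
      have h0 : dE ν ∅ Y σ ∅ = if (∅ : Finset V) ⊆ σ ∧ (∅ : Finset V) ⊆ ∅ then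
        ∑ v ∈ σᶜ, sgn ν v σ • Y (insert v σ) ∅ +
          (-1 : ℝ) ^ σ.card • ∑ u ∈ ∅ \ ∅, sgn ν u ∅ • Y σ (insert u ∅) else 0 := rfl
      rw [h0, if_pos ⟨Finset.empty_subset _, Finset.empty_subset _⟩, Finset.empty_sdiff,
        Finset.sum_empty, smul_zero, add_zero]
      rfl
    have hyb : ‖k - bd ν y‖ ≤ C₁ * ‖bd ν k‖ := by
      have h1 : ‖k - bd ν y‖ ≤ ‖x - dE ν ∅ Y‖ := by
        rw [pi_norm_le_iff_of_nonneg (norm_nonneg _)]
        intro σ
        have h2 : (k - bd ν y) σ = (x - dE ν ∅ Y) σ ∅ := by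
          show k σ - bd ν y σ = x σ ∅ - dE ν ∅ Y σ ∅
          rw [hdY, hx', if_pos rfl]
        rw [h2]
        exact (norm_le_pi_norm ((x - dE ν ∅ Y) σ) ∅).trans (norm_le_pi_norm _ σ)
      exact h1.trans (hYb.trans (mul_le_mul_of_nonneg_left hdx hC₁0))
    have hbw : ∀ w : Finset V → N → X, ‖bd ν w‖ ≤ nV * ‖w‖ := by
      intro w
      rw [← bdr_empty]
      exact norm_bdr_le ν ∅ w
    have hbk : ‖bd ν k‖ ≤ nV * (t⁻¹ * (K₀ * ‖f‖)) := by
      have h1 : bd ν k = -bd ν (f - k) := by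
        rw [map_sub, hbd, zero_sub, neg_neg]
      rw [h1, norm_neg]
      exact (hbw _).trans (mul_le_mul_of_nonneg_left hfk hnV0)
    obtain ⟨z', hz', hzz⟩ := hC₂ N J hJ t⁻¹ (inv_pos.mpr ht0) hδ1 y hysupp hyker hyPP
    rw [inv_inv] at hz'
    refine ⟨z', hz', ?_⟩
    have e1 : f - bd ν z' = ((f - k) + (k - bd ν y)) - bd ν (z' - y) := by
      rw [map_sub]; abel
    rw [e1]
    calc ‖((f - k) + (k - bd ν y)) - bd ν (z' - y)‖
        ≤ ‖(f - k) + (k - bd ν y)‖ + ‖bd ν (z' - y)‖ := norm_sub_le _ _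
      _ ≤ (‖f - k‖ + ‖k - bd ν y‖) + ‖bd ν (z' - y)‖ :=
          add_le_add_left (norm_add_le _ _) _
      _ ≤ (t⁻¹ * (K₀ * ‖f‖) + C₁ * (nV * (t⁻¹ * (K₀ * ‖f‖)))) +
          nV * (C₂ * t⁻¹ * (C₁ * (C₄ * ‖f‖))) := by
          refine add_le_add (add_le_add hfk (hyb.trans (mul_le_mul_of_nonneg_left hbk hC₁0))) ?_
          refine (hbw _).trans (mul_le_mul_of_nonneg_left ?_ hnV0)
          exact hzz.trans (mul_le_mul_of_nonneg_left
            (hyn.trans (mul_le_mul_of_nonneg_left hkn hC₁0)) (by positivity))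
      _ = (t⁻¹ * K) * ‖f‖ := by rw [hK]; ring
      _ ≤ 1 / 2 * ‖f‖ := mul_le_mul_of_nonneg_right hδK (norm_nonneg _)
      _ = ‖f‖ / 2 := by ring
  -- the subspaces
  set Z : Submodule ℝ (Finset V → N → X) :=
    twSubP G e g γ J t i ⊓ LinearMap.ker (bd ν) with hZ
  set B : Submodule ℝ (Finset V → N → X) :=
    (twSubP G e g γ J t (i + 1)).map (bd ν) with hB
  have hBZ : B ≤ Z := by
    rintro _ ⟨y, hy, rfl⟩
    exact ⟨isTwP_bd ν hy, LinearMap.mem_ker.mpr (bd_bd ν hν y)⟩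
  have hZB : Z ≤ B := by
    apply le_of_half Z B hBZ
    rintro f ⟨hf1, hf2⟩
    obtain ⟨z', hz', hn⟩ := key f hf1 hf2
    exact ⟨bd ν z', ⟨z', hz', rfl⟩, hn⟩
  obtain ⟨y, hy, hyf⟩ := hZB (show f ∈ Z from ⟨hf, hbd⟩)
  exact ⟨y, hy, hyf⟩

end Pool.Agent.H4.FD
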