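import Pool.Agent.H4.FC.TitsPos
import Pool.Agent.H4.FC.Par
import Pool.Agent.H4.FD.Defs

/-!
# Project FD: the Coxeter group of a spherical subset is finite

Let `f : (rs M σ).Group →* M.Group` be the homomorphism with `f (simple u) = M.simple u.1`
(`(rs M σ).toCoxeterSystem.lift`, relations from `M.toCoxeterSystem.simple_mul_simple_pow`,
`(rs M σ) u v = M u.1 v.1`). Its values are in `par M σ` (`simple_mem_par`,
`CoxeterSystem.simple_induction_left` or an induction on words). It is injective: let
`E : (σ → ℝ) → (V → ℝ)` be the extension by zero. Then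
`(titsHom M (f w)).mulVec (E z) = E ((titsHom (rs M σ) w).mulVec z)`: for `w` a generator by
`refl_mulVec` (`∑ u, kR M v u * E z u = ∑ u : σ, kR (rs M σ) v u * z u`), then by induction on `w`. So
`f w = 1` gives `titsHom (rs M σ) w = 1` and `w = 1` (`tits_injective`). `par M σ` is finite, so
the group is finite (`Finite.of_injective` into the subtype of `par M σ`).
-/

set_option autoImplicit false

open Finset

namespace Pool.Agent.H4.FD

open Pool.Agent.H85.Fold Pool.Agent.H4.FC

/-- extension by zero -/
private def FinRs_E {V : Type} [DecidableEq V] (σ : Finset V) (z : σ → ℝ) : V → ℝ :=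
  fun v => if h : v ∈ σ then z ⟨v, h⟩ else 0

private theorem FinRs_E_mem {V : Type} [DecidableEq V] {σ : Finset V} (z : σ → ℝ) (u : σ) :
    FinRs_E σ z u.1 = z u := by
  unfold FinRs_E
  rw [dif_pos u.2]

private theorem FinRs_E_inj {V : Type} [DecidableEq V] {σ : Finset V} {z z' : σ → ℝ}
    (h : FinRs_E σ z = FinRs_E σ z') : z = z' := by
  funext u
  rw [← FinRs_E_mem z u, h, FinRs_E_mem]

private theorem FinRs_refl {V : Type} [Fintype V] [DecidableEq V] (M : CoxeterMatrix V)
    (σ : Finset V) (i : σ) (y : σ → ℝ) :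
    (refl (kR M) i.1).mulVec (FinRs_E σ y) = FinRs_E σ ((refl (kR (rs M σ)) i).mulVec y) := by
  have hs : ∑ u, kR M i.1 u * FinRs_E σ y u = ∑ u : σ, kR (rs M σ) i u * y u := by
    rw [← Finset.sum_subset (Finset.subset_univ σ) (fun u _ hu => by
      unfold FinRs_E
      rw [dif_neg hu, mul_zero]), ← Finset.sum_attach]
    refine Finset.sum_congr rfl fun u _ => ?_
    rw [FinRs_E_mem]
    rfl
  rw [refl_mulVec, refl_mulVec, hs]
  funext v
  by_cases hv : v ∈ σ
  · have e := FinRs_E_mem (y - (∑ u : σ, kR (rs M σ) i u * y u) • (Pi.single i 1 : σ → ℝ)) ⟨v, hv⟩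
    rw [e, Pi.sub_apply, Pi.sub_apply, Pi.smul_apply, Pi.smul_apply,
      ← FinRs_E_mem y ⟨v, hv⟩]
    congr 2
    by_cases hvi : v = i.1
    · subst hvi
      rw [Pi.single_eq_same]
      exact (Pi.single_eq_same (M := fun _ : σ => ℝ) i (1 : ℝ)).symm
    · rw [Pi.single_eq_of_ne hvi, Pi.single_eq_of_ne]
      intro h
      exact hvi (congrArg Subtype.val h)
  · have hvi : v ≠ i.1 := by
      rintro rfl
      exact hv i.2
    rw [Pi.sub_apply, Pi.smul_apply, Pi.single_eq_of_ne hvi, smul_zero, sub_zero]
    unfold FinRs_E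
    rw [dif_neg hv, dif_neg hv]

theorem finite_rs {V : Type} [Fintype V] [DecidableEq V] (M : CoxeterMatrix V) (σ : Finset V)
    (h : Sph M σ) : Finite (rs M σ).Group := by
  have hrel : (rs M σ).IsLiftable (fun u : σ => M.toCoxeterSystem.simple u.1) :=
    fun u v => M.toCoxeterSystem.simple_mul_simple_pow u.1 v.1
  let f : (rs M σ).Group →* M.Group :=
    (rs M σ).toCoxeterSystem.lift ⟨fun u : σ => M.toCoxeterSystem.simple u.1, hrel⟩
  have hfs : ∀ u : σ, f ((rs M σ).toCoxeterSystem.simple u) = M.toCoxeterSystem.simple u.1 :=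
    fun u => (rs M σ).toCoxeterSystem.lift_apply_simple hrel u
  have hE : ∀ (w : (rs M σ).Group) (z : σ → ℝ),
      (titsHom M (f w)).mulVec (FinRs_E σ z) =
        FinRs_E σ ((titsHom (rs M σ) w).mulVec z) := by
    intro w z
    induction w using (rs M σ).toCoxeterSystem.simple_induction_left with
    | one => rw [map_one, map_one, map_one, Matrix.one_mulVec, Matrix.one_mulVec]
    | mul_simple_left w i ih =>
      rw [map_mul, map_mul, map_mul, hfs, titsHom_simple, titsHom_simple, ← Matrix.mulVec_mulVec,
        ih, FinRs_refl, Matrix.mulVec_mulVec]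
  have hinj : Function.Injective f := by
    intro w w' hw
    apply tits_injective (rs M σ)
    have h1 : ∀ z : σ → ℝ, (titsHom (rs M σ) w).mulVec z = (titsHom (rs M σ) w').mulVec z := by
      intro z
      apply FinRs_E_inj
      rw [← hE, ← hE, hw]
    exact Matrix.ext_of_mulVec_single fun u => h1 _
  have hmem : ∀ w, f w ∈ par M σ := by
    intro w
    induction w using (rs M σ).toCoxeterSystem.simple_induction_left with
    | one =>
      rw [map_one]
      exact one_mem _
    | mul_simple_left w i ih =>
      rw [map_mul, hfs]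
      exact mul_mem (simple_mem_par M i.2) ih
  have hfin : Finite (par M σ) := h
  exact Finite.of_injective (fun w => (⟨f w, hmem w⟩ : par M σ))
    fun w w' hw => hinj (congrArg Subtype.val hw)

end Pool.Agent.H4.FD
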