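import Pool.Agent.H4.FD.NF
import Pool.Agent.H4.FD.FreeB

/-!
# Project FD: Fock spaces

`h : IsFock m Θ D δ`. Put `b A = ((sl A).map Θ).prod δ`.

(1) `PP m Θ T = ⊤` (`fock_PP`): the relations hold for all vectors.
(2) `fock_D`: `D u (((l.map Θ).prod) δ) = 0` if `u ∉ l` (move `D u` to the right: `DΘ`, `Dδ`). For `A ∋ u`:
`D u (b A) = ± b (A.erase u)`: `sl A = l₁ ++ u :: l₂`, `u ∉ l₁, l₂`; `D u Θ_{l₁} = ± Θ_{l₁} D u`,
`D u Θ u = 1 - Θ u D u`, and `D u (Θ_{l₂} δ) = 0`; `l₁ ++ l₂ = sl (A.erase u)`.
(3) `fock_li`: let `∑ A, c A • b A = 0`, `c ≠ 0`, choose `A` with `c A ≠ 0` and `A.card` maximal. Apply the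
operators `D u`, `u ∈ A`, one after the other (in any order): `b B` is mapped to `0` unless `A ⊆ B`, i.e.
`B = A` (if `c B ≠ 0`), and `b A` to `± δ`. So `± c A • δ = 0`, a contradiction to `ne`.
(4) `fock_span`: for `T` and `k` with `D v k = 0` for all `v ∉ T`: `k` is a combination of the `b A`,
`A ⊆ T`. Induction on `T`: `T = ∅`: `vac`, `b ∅ = δ`. `insert v T`: `k' = D v k` is killed by all `D u`,
`u ∉ T` (`D_sq`, `DD`); `k'' = k - Θ v k'`: `D v k'' = D v k - (1 - Θ v D v) (D v k) = 0`, and `D u k'' = 0` for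
`u ∉ insert v T` (`DΘ`). So `k'`, `k''` are combinations of the `b A`, `A ⊆ T`, and `Θ v (b A)` is a
combination of `b B`, `B ⊆ insert v A` by `nf_insert` (for `U = F`, `J = Θ`, `T = univ`, `y = δ`).
(5) `exists_fk`: by (3), (4) (for `T = univ`) the `b A` are a basis; let `𝓕` be the linear map with
`𝓕 (b A) = ((sl A).map ι).prod`. `𝓕 δ = 1`. Let `y ∈ PP m J T`, `v ∈ T`, `k` killed by the `D u`, `u ∉ T`.
By (4) it is enough to take `k = b A`, `A ⊆ T`. With the coefficients `c` of `nf_insert`:
`Θ v (b A) = ∑ B, c B • b B` and `J v (((sl A).map J).prod y) = ∑ B, c B • ((sl B).map J).prod y`; and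
`lift J (𝓕 (b B)) y = ((sl B).map J).prod y` (`lift_list`).
-/

set_option autoImplicit false

open Finset

namespace Pool.Agent.H4.FD

open Pool.Agent.H85.Fold Pool.Agent.H4.FC

variable {S : Type} [Fintype S] [DecidableEq S] {F : Type} [AddCommGroup F] [Module ℝ F]
  {m : S → S → ℕ} {Θ D : S → Module.End ℝ F} {δ : F}

theorem fock_PP (h : IsFock m Θ D δ) (T : Finset S) : PP m Θ T = ⊤ := by
  refine eq_top_iff.2 fun y _ => ?_
  intro l _ u _ v _ huv
  have h1 := congrArg (fun f : Module.End ℝ F => f ((l.map Θ).prod y)) (h.rel u v huv)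
  simpa using h1

omit [Fintype S] [DecidableEq S] in
private theorem FockL_zero (h : IsFock m Θ D δ) (u : S) (l : List S) (hu : u ∉ l) :
    D u ((l.map Θ).prod δ) = 0 := by
  induction l with
  | nil => simpa using h.Dδ u
  | cons w l ih =>
    rw [List.mem_cons, not_or] at hu
    rw [List.map_cons, List.prod_cons, Module.End.mul_apply]
    have h1 := congrArg (fun f : Module.End ℝ F => f ((l.map Θ).prod δ)) (h.DΘ u w hu.1)
    simp only [Module.End.mul_apply, LinearMap.neg_apply] at h1
    rw [h1, ih hu.2, map_zero, neg_zero]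

omit [Fintype S] in
private theorem FockL_word (h : IsFock m Θ D δ) (u : S) (l : List S) (hl : l.Nodup)
    (hu : u ∈ l) : ∃ s : ℝ, s ≠ 0 ∧
      D u ((l.map Θ).prod δ) = s • (((l.filter (· ≠ u)).map Θ).prod δ) := by
  induction l with
  | nil => exact absurd hu List.not_mem_nil
  | cons w l ih =>
    rw [List.nodup_cons] at hl
    by_cases hw : w = u
    · subst hw
      refine ⟨1, one_ne_zero, ?_⟩
      have e1 : (w :: l).filter (· ≠ w) = l := by
        rw [List.filter_cons_of_neg (by simp)]
        refine List.filter_eq_self.2 fun a ha => ?_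
        have : a ≠ w := fun h => hl.1 (h ▸ ha)
        simpa using this
      rw [e1, List.map_cons, List.prod_cons, Module.End.mul_apply, one_smul]
      have h1 := congrArg (fun f : Module.End ℝ F => f ((l.map Θ).prod δ)) (h.DΘ1 w)
      simp only [Module.End.mul_apply, LinearMap.add_apply, Module.End.one_apply] at h1
      rw [FockL_zero h w l hl.1, map_zero, add_zero] at h1
      exact h1
    · have hul : u ∈ l := by
        rcases List.mem_cons.1 hu with h1 | h1
        · exact absurd h1.symm hw
        · exact h1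
      obtain ⟨s, hs, h2⟩ := ih hl.2 hul
      refine ⟨-s, neg_ne_zero.2 hs, ?_⟩
      have e1 : (w :: l).filter (· ≠ u) = w :: l.filter (· ≠ u) :=
        List.filter_cons_of_pos (by simpa using hw)
      rw [e1, List.map_cons, List.prod_cons, Module.End.mul_apply, List.map_cons, List.prod_cons,
        Module.End.mul_apply]
      have h1 := congrArg (fun f : Module.End ℝ F => f ((l.map Θ).prod δ))
        (h.DΘ u w (Ne.symm hw))
      simp only [Module.End.mul_apply, LinearMap.neg_apply] at h1
      rw [h1, h2, map_smul, neg_smul]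

private theorem FockL_mem_sl (A : Finset S) (u : S) : u ∈ sl A ↔ u ∈ A := by
  simp [sl]

private theorem FockL_nodup_sl (A : Finset S) : (sl A).Nodup :=
  (Finset.nodup_toList _).filter _

private theorem FockL_sl_erase (A : Finset S) (u : S) :
    (sl A).filter (· ≠ u) = sl (A.erase u) := by
  unfold sl
  rw [List.filter_filter]
  refine List.filter_congr fun a _ => ?_
  simp [Finset.mem_erase]

private theorem FockL_sl_empty : sl (∅ : Finset S) = [] := by
  simp [sl]

private theorem FockL_D0 (h : IsFock m Θ D δ) (u : S) (A : Finset S) (hu : u ∉ A) :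
    D u (((sl A).map Θ).prod δ) = 0 :=
  FockL_zero h u _ fun h' => hu ((FockL_mem_sl A u).1 h')

private theorem FockL_D1 (h : IsFock m Θ D δ) (u : S) (A : Finset S) (hu : u ∈ A) :
    ∃ s : ℝ, s ≠ 0 ∧ D u (((sl A).map Θ).prod δ) = s • (((sl (A.erase u)).map Θ).prod δ) := by
  obtain ⟨s, hs, h1⟩ := FockL_word h u (sl A) (FockL_nodup_sl A) ((FockL_mem_sl A u).2 hu)
  exact ⟨s, hs, by rw [h1, FockL_sl_erase]⟩

/-- Products of annihilation operators. -/
private theorem FockL_DD (h : IsFock m Θ D δ) (l : List S) (hl : l.Nodup) (B : Finset S) :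
    (¬ l.toFinset ⊆ B → (l.map D).prod (((sl B).map Θ).prod δ) = 0) ∧
      (l.toFinset ⊆ B → ∃ s : ℝ, s ≠ 0 ∧ (l.map D).prod (((sl B).map Θ).prod δ) =
        s • (((sl (B \ l.toFinset)).map Θ).prod δ)) := by
  induction l with
  | nil =>
    constructor
    · intro h'
      exact absurd (by simp) h'
    · intro _
      exact ⟨1, one_ne_zero, by simp⟩
  | cons w l ih =>
    rw [List.nodup_cons] at hl
    obtain ⟨ih1, ih2⟩ := ih hl.2
    constructor
    · intro h'
      rw [List.map_cons, List.prod_cons, Module.End.mul_apply]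
      by_cases hlB : l.toFinset ⊆ B
      · obtain ⟨s, -, h2⟩ := ih2 hlB
        rw [h2, map_smul, FockL_D0 h w, smul_zero]
        intro hw
        refine h' ?_
        rw [List.toFinset_cons]
        exact Finset.insert_subset (Finset.mem_sdiff.1 hw).1 hlB
      · rw [ih1 hlB, map_zero]
    · intro h'
      rw [List.toFinset_cons, Finset.insert_subset_iff] at h'
      obtain ⟨s, hs, h2⟩ := ih2 h'.2
      have hw : w ∈ B \ l.toFinset := by
        rw [Finset.mem_sdiff, List.mem_toFinset]
        exact ⟨h'.1, hl.1⟩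
      obtain ⟨s', hs', h3⟩ := FockL_D1 h w _ hw
      refine ⟨s * s', mul_ne_zero hs hs', ?_⟩
      rw [List.map_cons, List.prod_cons, Module.End.mul_apply, h2, map_smul, h3, smul_smul]
      congr 5
      ext a
      simp only [Finset.mem_erase, Finset.mem_sdiff, List.mem_toFinset, List.mem_cons, ne_eq]
      tauto

theorem fock_li (h : IsFock m Θ D δ) :
    LinearIndependent ℝ fun A : Finset S => ((sl A).map Θ).prod δ := by
  rw [Fintype.linearIndependent_iff]
  intro c hc
  by_contra hcon
  push Not at hcon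
  obtain ⟨A₀, hA₀⟩ := hcon
  obtain ⟨A, hA, hmax⟩ := Finset.exists_max_image (Finset.univ.filter fun A => c A ≠ 0)
    Finset.card ⟨A₀, by simpa using hA₀⟩
  have hcA : c A ≠ 0 := (Finset.mem_filter.1 hA).2
  have h1 := congrArg ((A.toList.map D).prod) hc
  rw [map_zero, map_sum] at h1
  simp only [map_smul] at h1
  rw [Finset.sum_eq_single A] at h1
  · obtain ⟨s, hs, h2⟩ := (FockL_DD h A.toList (Finset.nodup_toList A) A).2 (by simp)
    rw [h2, Finset.toList_toFinset, Finset.sdiff_self, FockL_sl_empty] at h1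
    simp only [List.map_nil, List.prod_nil, Module.End.one_apply] at h1
    exact smul_ne_zero hcA (smul_ne_zero hs h.ne) h1
  · intro B _ hB
    by_cases hcB : c B = 0
    · rw [hcB, zero_smul]
    · have h2 : B.card ≤ A.card := hmax B (by simpa using hcB)
      rw [(FockL_DD h A.toList (Finset.nodup_toList A) B).1, smul_zero]
      rw [Finset.toList_toFinset]
      intro h3
      exact hB (Finset.eq_of_subset_of_card_le h3 h2).symm
  · intro h2
    exact absurd (Finset.mem_univ _) h2

private theorem FockL_insert (h : IsFock m Θ D δ) (v : S) (A : Finset S) :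
    ∃ c : Finset S → ℝ, (∀ B, c B ≠ 0 → B ⊆ insert v A) ∧
      Θ v (((sl A).map Θ).prod δ) = ∑ B, c B • ((sl B).map Θ).prod δ := by
  obtain ⟨c, h1, h2⟩ := nf_insert m v A
  refine ⟨c, h1, h2 F Θ Finset.univ δ (fun u _ => h.sq u) (Finset.mem_univ v)
    (Finset.subset_univ A) ?_⟩
  rw [fock_PP h]
  exact Submodule.mem_top

theorem fock_span (h : IsFock m Θ D δ) (T : Finset S) (k : F) (hk : ∀ v, v ∉ T → D v k = 0) :
    ∃ c : Finset S → ℝ, (∀ A, c A ≠ 0 → A ⊆ T) ∧
      k = ∑ A, c A • ((sl A).map Θ).prod δ := by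
  induction T using Finset.induction_on generalizing k with
  | empty =>
    obtain ⟨r, hr⟩ := h.vac k fun v => hk v (Finset.notMem_empty v)
    refine ⟨fun A => if A = ∅ then r else 0, fun A hA => ?_, ?_⟩
    · by_cases h1 : A = ∅
      · rw [h1]
      · simp only [if_neg h1, ne_eq, not_true_eq_false] at hA
    · rw [Finset.sum_eq_single ∅]
      · beta_reduce
        rw [if_pos rfl, FockL_sl_empty, hr]
        simp
      · intro B _ hB
        beta_reduce
        rw [if_neg hB, zero_smul]
      · intro h1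
        exact absurd (Finset.mem_univ _) h1
  | insert v T hv ih =>
    have a1 : ∀ u w x, D u (D w x) = -(D w (D u x)) := fun u w x => by
      have h1 := congrArg (fun f : Module.End ℝ F => f x) (h.DD u w)
      simpa using h1
    have a2 : ∀ u x, D u (D u x) = 0 := fun u x => by
      have h1 := congrArg (fun f : Module.End ℝ F => f x) (h.D_sq u)
      simpa using h1
    have a3 : ∀ u w x, u ≠ w → D u (Θ w x) = -(Θ w (D u x)) := fun u w x huw => by
      have h1 := congrArg (fun f : Module.End ℝ F => f x) (h.DΘ u w huw)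
      simpa using h1
    have a4 : ∀ u x, D u (Θ u x) + Θ u (D u x) = x := fun u x => by
      have h1 := congrArg (fun f : Module.End ℝ F => f x) (h.DΘ1 u)
      simpa using h1
    have hk' : ∀ u, u ∉ T → D u (D v k) = 0 := by
      intro u hu
      by_cases huv : u = v
      · rw [huv, a2]
      · rw [a1, hk u (by rw [Finset.mem_insert]; tauto), map_zero, neg_zero]
    have hk'' : ∀ u, u ∉ T → D u (k - Θ v (D v k)) = 0 := by
      intro u hu
      rw [map_sub]
      by_cases huv : u = v
      · subst huv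
        have := a4 u (D u k)
        rw [a2, map_zero, add_zero] at this
        rw [this, sub_self]
      · rw [a3 u v _ huv, hk' u hu, hk u (by rw [Finset.mem_insert]; tauto), map_zero, neg_zero,
          sub_zero]
    obtain ⟨c1, hc1, e1⟩ := ih (D v k) hk'
    obtain ⟨c2, hc2, e2⟩ := ih (k - Θ v (D v k)) hk''
    have hin := fun A => FockL_insert h v A
    choose d hd1 hd2 using hin
    refine ⟨fun B => c2 B + ∑ A, c1 A * d A B, fun B hB => ?_, ?_⟩
    · beta_reduce at hB
      by_cases h1 : c2 B = 0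
      · rw [h1, zero_add] at hB
        obtain ⟨A, -, hA⟩ := Finset.exists_ne_zero_of_sum_ne_zero hB
        exact (hd1 A B (right_ne_zero_of_mul hA)).trans
          (Finset.insert_subset_insert v (hc1 A (left_ne_zero_of_mul hA)))
      · exact (hc2 B h1).trans (Finset.subset_insert v T)
    · have e3 : Θ v (D v k) = ∑ B, (∑ A, c1 A * d A B) • ((sl B).map Θ).prod δ := by
        rw [e1, map_sum]
        simp only [map_smul, hd2, Finset.smul_sum, smul_smul, Finset.sum_smul]
        exact Finset.sum_comm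
      simp only [add_smul, Finset.sum_add_distrib]
      rw [← e2, ← e3, sub_add_cancel]

/-- The map `fk` from the Fock space to the noncommutative polynomials. -/
theorem exists_fk (h : IsFock m Θ D δ) :
    ∃ fk : F →ₗ[ℝ] FreeAlgebra ℝ S, fk δ = 1 ∧
      ∀ (U : Type) [AddCommGroup U] [Module ℝ U] (J : S → Module.End ℝ U) (T : Finset S),
        (∀ u ∈ T, J u * J u = 1) → ∀ y ∈ PP m J T, ∀ k, (∀ u, u ∉ T → D u k = 0) → ∀ v ∈ T,
          FreeAlgebra.lift ℝ J (fk (Θ v k)) y = J v (FreeAlgebra.lift ℝ J (fk k) y) := by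
  have hsp : (⊤ : Submodule ℝ F) ≤
      Submodule.span ℝ (Set.range fun A : Finset S => ((sl A).map Θ).prod δ) := by
    intro k _
    obtain ⟨c, -, hc⟩ := fock_span h Finset.univ k fun v hv => absurd (Finset.mem_univ v) hv
    rw [hc]
    exact Submodule.sum_mem _ fun A _ => Submodule.smul_mem _ _ (Submodule.subset_span ⟨A, rfl⟩)
  set b := Module.Basis.mk (fock_li h) hsp with hb
  have hbA : ∀ A, b A = ((sl A).map Θ).prod δ := fun A => by rw [hb, Module.Basis.mk_apply]
  set fk : F →ₗ[ℝ] FreeAlgebra ℝ S := b.constr ℝ fun A => ((sl A).map (FreeAlgebra.ι ℝ)).prod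
    with hfk
  have hfkA : ∀ A : Finset S, fk (((sl A).map Θ).prod δ) =
      ((sl A).map (FreeAlgebra.ι ℝ)).prod := fun A => by
    rw [← hbA, hfk, Module.Basis.constr_basis]
  refine ⟨fk, ?_, ?_⟩
  · have := hfkA ∅
    rw [FockL_sl_empty] at this
    simpa using this
  · intro U _ _ J T hJ y hy k hk v hv
    obtain ⟨c, hc, e⟩ := fock_span h T k hk
    have hnf := fun A => nf_insert m v A
    choose d hd1 hd2 using hnf
    have hΘ : ∀ A, Θ v (((sl A).map Θ).prod δ) = ∑ B, d A B • ((sl B).map Θ).prod δ := fun A =>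
      hd2 A F Θ Finset.univ δ (fun u _ => h.sq u) (Finset.mem_univ v) (Finset.subset_univ A)
        (by rw [fock_PP h]; exact Submodule.mem_top)
    have e1 : FreeAlgebra.lift ℝ J (fk (Θ v k)) y =
        ∑ A, c A • ∑ B, d A B • ((sl B).map J).prod y := by
      rw [e]
      simp only [map_sum, map_smul, hΘ, hfkA, LinearMap.sum_apply, LinearMap.smul_apply,
        lift_list]
    have e2 : J v (FreeAlgebra.lift ℝ J (fk k) y) =
        ∑ A, c A • J v (((sl A).map J).prod y) := by
      rw [e]
      simp only [map_sum, map_smul, hfkA, LinearMap.sum_apply, LinearMap.smul_apply, lift_list]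
    rw [e1, e2]
    refine Finset.sum_congr rfl fun A _ => ?_
    by_cases hcA : c A = 0
    · rw [hcA, zero_smul, zero_smul]
    · rw [hd2 A U J T y hJ hv (hc A hcA) hy]

end Pool.Agent.H4.FD
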