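import Mathlib

/-!
# A sign character from the transfer into `P / S`, `|P : S| = 2`.
-/

namespace ALoop

open Subgroup MulAction

theorem exists_sign {M : Type*} [Group M] [Finite M] (G P S : Subgroup M) (hPG : P ≤ G)
    (hSP : S ≤ P) (hP : IsPGroup 2 P) (hodd : ¬ 2 ∣ P.relIndex G)
    (hc : Nat.card P = 2 * Nat.card S)
    (hcl : ∀ g ∈ G, ∀ s ∈ S, g * s * g⁻¹ ∈ P → g * s * g⁻¹ ∈ S) :
    ∃ V : G →* ℤˣ, (∀ s (hs : s ∈ S), V ⟨s, hPG (hSP hs)⟩ = 1) ∧
      ∀ y (hy : y ∈ P), y ∉ S → V ⟨y, hPG hy⟩ = -1 := by
  classical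
  -- index two
  have hidx : (S.subgroupOf P).index = 2 := by
    have h1 := Subgroup.card_mul_index (S.subgroupOf P)
    have h2 : Nat.card (S.subgroupOf P) = Nat.card S :=
      Nat.card_congr (Subgroup.subgroupOfEquivOfLe hSP).toEquiv
    rw [h2, hc, mul_comm 2] at h1
    exact Nat.eq_of_mul_eq_mul_left Nat.card_pos h1
  have hmul : ∀ a ∈ P, ∀ b ∈ P, (a * b ∈ S ↔ (a ∈ S ↔ b ∈ S)) := by
    intro a ha b hb
    have := Subgroup.mul_mem_iff_of_index_two hidx (a := ⟨a, ha⟩) (b := ⟨b, hb⟩)
    simpa [Subgroup.mem_subgroupOf] using this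
  -- the sign on P
  let φ : P.subgroupOf G →* ℤˣ :=
    { toFun := fun x => if ((x : G) : M) ∈ S then 1 else -1
      map_one' := by simp [S.one_mem]
      map_mul' := by
        intro x y
        have := hmul _ (Subgroup.mem_subgroupOf.1 x.2) _ (Subgroup.mem_subgroupOf.1 y.2)
        by_cases hx : ((x : G) : M) ∈ S <;> by_cases hy : ((y : G) : M) ∈ S <;>
          simp [this, hx, hy] }
  have hφ : ∀ x : P.subgroupOf G, φ x = if ((x : G) : M) ∈ S then 1 else -1 := fun _ => rfl
  refine ⟨MonoidHom.transfer φ, ?_, ?_⟩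
  · intro s hs
    have : Fintype (Quotient (orbitRel (zpowers (⟨s, hPG (hSP hs)⟩ : G)) (G ⧸ P.subgroupOf G))) :=
      Fintype.ofFinite _
    rw [MonoidHom.transfer_eq_prod_quotient_orbitRel_zpowers_quot]
    refine Finset.prod_eq_one fun q _ => ?_
    rw [hφ, if_pos]
    have hmem := QuotientGroup.out_conj_pow_minimalPeriod_mem (P.subgroupOf G)
      (⟨s, hPG (hSP hs)⟩ : G) q.out
    rw [Subgroup.mem_subgroupOf] at hmem
    push_cast at hmem ⊢
    have := hcl ((q.out.out : G) : M)⁻¹ (G.inv_mem (q.out.out : G).2) _ (S.pow_mem hs _)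
      (by rw [inv_inv]; exact hmem)
    rwa [inv_inv] at this
  · intro y hy hyS
    set Y : G := ⟨y, hPG hy⟩ with hY
    have hfin : Fintype (Quotient (orbitRel (zpowers Y) (G ⧸ P.subgroupOf G))) :=
      Fintype.ofFinite _
    rw [MonoidHom.transfer_eq_prod_quotient_orbitRel_zpowers_quot]
    -- each factor
    have hfac : ∀ q : Quotient (orbitRel (zpowers Y) (G ⧸ P.subgroupOf G)),
        φ ⟨q.out.out⁻¹ * Y ^ Function.minimalPeriod (Y • ·) q.out * q.out.out,
          QuotientGroup.out_conj_pow_minimalPeriod_mem (P.subgroupOf G) Y q.out⟩ =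
        if Y • q.out = q.out then -1 else 1 := by
      intro q
      have hmem := QuotientGroup.out_conj_pow_minimalPeriod_mem (P.subgroupOf G) Y q.out
      rw [Subgroup.mem_subgroupOf] at hmem
      rw [hφ]
      push_cast at hmem ⊢
      by_cases hq : Y • q.out = q.out
      · rw [if_pos hq, if_neg]
        have h1 : Function.minimalPeriod (Y • ·) q.out = 1 :=
          Function.minimalPeriod_eq_one_iff_isFixedPt.2 hq
        rw [h1, pow_one]
        rw [h1, pow_one] at hmem
        intro hcon
        have := hcl ((q.out.out : G) : M) (q.out.out : G).2 _ hcon (by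
          have : ((q.out.out : G) : M) * (((q.out.out : G) : M)⁻¹ * (Y : M) *
            ((q.out.out : G) : M)) * ((q.out.out : G) : M)⁻¹ = y := by
              simp [hY, mul_assoc]
          rw [this]; exact hy)
        apply hyS
        simpa [hY, mul_assoc] using this
      · rw [if_neg hq, if_pos]
        -- the minimal period is an even number
        have hper : 2 ∣ Function.minimalPeriod (Y • ·) q.out := by
          have hdvd : Function.minimalPeriod (Y • ·) q.out ∣ orderOf Y := by
            apply Function.IsPeriodicPt.minimalPeriod_dvd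
            show (Y • ·)^[orderOf Y] q.out = q.out
            rw [smul_iterate, pow_orderOf_eq_one]
            exact one_smul _ _
          obtain ⟨k, hk⟩ := (IsPGroup.iff_orderOf.1 hP) ⟨y, hy⟩
          have hoY : orderOf Y = 2 ^ k := by
            rw [← hk, ← Subgroup.orderOf_coe Y, ← Subgroup.orderOf_coe (⟨y, hy⟩ : P)]
          rw [hoY] at hdvd
          obtain ⟨j, -, hj⟩ := (Nat.dvd_prime_pow Nat.prime_two).1 hdvd
          rcases j with _ | j
          · exfalso
            apply hq
            have : Function.minimalPeriod (Y • ·) q.out = 1 := by rw [hj]; rfl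
            exact Function.minimalPeriod_eq_one_iff_isFixedPt.1 this
          · rw [hj, pow_succ]; exact Dvd.intro_left _ rfl
        obtain ⟨l, hl⟩ := hper
        rw [hl, pow_mul] at hmem ⊢
        have hy2 : y ^ 2 ∈ S := by
          rw [pow_two]; exact (hmul y hy y hy).2 Iff.rfl
        have := hcl ((q.out.out : G) : M)⁻¹ (G.inv_mem (q.out.out : G).2) _ (S.pow_mem hy2 l)
          (by rw [inv_inv]; exact hmem)
        rwa [inv_inv] at this
    rw [Finset.prod_congr rfl fun q _ => hfac q]
    -- the number of fixed orbits is odd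
    rw [Finset.prod_ite, Finset.prod_const, Finset.prod_const_one, mul_one]
    apply Odd.neg_one_pow
    have hcard : (Finset.univ.filter fun q : Quotient (orbitRel (zpowers Y)
        (G ⧸ P.subgroupOf G)) => Y • q.out = q.out).card =
        Nat.card (fixedPoints (zpowers Y) (G ⧸ P.subgroupOf G)) := by
      have hfix : ∀ x : G ⧸ P.subgroupOf G, Y • x = x →
          ∀ g : zpowers Y, g • x = x := by
        rintro x hx ⟨g, k, rfl⟩
        have : Y ∈ stabilizer G x := hx
        exact (stabilizer G x).zpow_mem this k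
      rw [← Fintype.card_subtype, ← Nat.card_eq_fintype_card]
      refine Nat.card_congr ⟨fun q => ⟨q.1.out, hfix _ q.2⟩,
        fun x => ⟨Quotient.mk'' x.1, ?_⟩, ?_, ?_⟩
      · have h1 : (Quotient.mk'' x.1 : Quotient (orbitRel (zpowers Y)
            (G ⧸ P.subgroupOf G))).out = x.1 := by
          have h2 := Quotient.exact (Quotient.out_eq (Quotient.mk'' x.1 : Quotient
            (orbitRel (zpowers Y) (G ⧸ P.subgroupOf G))))
          obtain ⟨g, hg⟩ := h2
          rw [← hg]
          exact x.2 g
        rw [h1]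
        exact x.2 ⟨Y, mem_zpowers Y⟩
      · intro q
        apply Subtype.ext
        exact Quotient.out_eq _
      · intro x
        apply Subtype.ext
        have h2 := Quotient.exact (Quotient.out_eq (Quotient.mk'' x.1 : Quotient
            (orbitRel (zpowers Y) (G ⧸ P.subgroupOf G))))
        obtain ⟨g, hg⟩ := h2
        show (Quotient.mk'' x.1 : Quotient (orbitRel (zpowers Y)
            (G ⧸ P.subgroupOf G))).out = x.1
        rw [← hg]
        exact x.2 g
    rw [hcard, ← Nat.not_even_iff_odd, even_iff_two_dvd]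
    intro hev
    have hpY : IsPGroup 2 (zpowers Y) := by
      rw [IsPGroup.iff_orderOf]
      rintro ⟨g, k, rfl⟩
      obtain ⟨j, hj⟩ := (IsPGroup.iff_orderOf.1 hP) (⟨y, hy⟩ ^ k)
      refine ⟨j, ?_⟩
      rw [← hj, ← Subgroup.orderOf_coe, ← Subgroup.orderOf_coe, ← Subgroup.orderOf_coe]
      simp [hY]
    have hmod := hpY.card_modEq_card_fixedPoints (G ⧸ P.subgroupOf G)
    apply hodd
    have h3 : Nat.card (G ⧸ P.subgroupOf G) = P.relIndex G := rfl
    rw [← h3]
    exact (hmod.dvd_iff dvd_rfl).2 hev

end ALoop
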