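import Pool.Agent.H4.FD.Seven
import Pool.Agent.H4.FD.Trans

set_option autoImplicit false

/-!
A finite simple automorphic loop that is not of exponent two does not have order `2` modulo `4`.
-/

namespace ALoop

open Equiv

variable {Q : Type*} {G : Subgroup (Perm Q)} {L : Q → Perm Q} {J : Perm Q} {e : Q}

theorem AL.not_two_mod_four [Finite Q] (h : AL G L J e) : Nat.card Q % 4 ≠ 2 := by
  intro hcard
  obtain ⟨S, P, z, x, m, d⟩ := h.exists_PD hcard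
  have hcl : ∀ g ∈ G, ∀ s ∈ S, g * s * g⁻¹ ∈ P → g * s * g⁻¹ ∈ S := by
    intro g hg s hs hp
    by_contra hS
    refine d.eight h hcard hp hS (g e) ?_
    have h1 : g⁻¹ (g e) = e := by rw [Perm.inv_eq_iff_eq]
    have h2 : s e = e := (d.hS.1 hs).2
    rw [Perm.mul_apply, Perm.mul_apply, h1, h2]
  obtain ⟨V, hV1, hV2⟩ := exists_sign G P S d.hP.1 d.SP d.hP.2.1 d.hP.2.2 d.cardP hcl
  -- `V` is trivial on the inner mapping group
  have hVH : ∀ (g : Perm Q) (hg : g ∈ G), g e = e → V ⟨g, hg⟩ = 1 := by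
    intro g hg hge
    obtain ⟨k, hk, n, hn⟩ := exists_odd_pow g
    have hgk : g ^ k ∈ Inn G e :=
      (Inn G e).pow_mem (mem_Inn.2 ⟨hg, hge⟩) k
    obtain ⟨c, hc, hcS⟩ := d.hS.conj_mem (zpowers_isPGroup hn) 1 (by
      rintro _ ⟨j, rfl⟩
      rw [inv_one, one_mul, mul_one]
      exact (Inn G e).zpow_mem hgk j)
    have h1 := hcS _ (Subgroup.mem_zpowers (g ^ k))
    rw [inv_one, one_mul, mul_one] at h1
    have hcG := (mem_Inn.1 hc).1
    have h2 := hV1 _ h1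
    have h3 : (⟨c * g ^ k * c⁻¹, d.hP.1 (d.SP h1)⟩ : G) =
        ⟨c, hcG⟩ * ⟨g, hg⟩ ^ k * ⟨c, hcG⟩⁻¹ := rfl
    rw [h3, map_mul, map_mul, map_inv, map_pow, mul_comm, ← mul_assoc, inv_mul_cancel,
      one_mul] at h2
    rcases Int.units_eq_one_or (V ⟨g, hg⟩) with h4 | h4
    · exact h4
    · rw [h4, hk.neg_one_pow] at h2
      exact absurd h2 (by decide)
  -- the kernel of `V`
  let K : Subgroup (Perm Q) := V.ker.map G.subtype
  have hKmem : ∀ g : Perm Q, g ∈ K → ∃ hg : g ∈ G, V ⟨g, hg⟩ = 1 := by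
    rintro _ ⟨g, hg, rfl⟩
    exact ⟨g.2, hg⟩
  have hKnm : Nm G K := by
    rintro g hg k ⟨k', hk', rfl⟩
    exact ⟨⟨g, hg⟩ * k' * ⟨g, hg⟩⁻¹, (MonoidHom.normal_ker V).conj_mem k' hk' ⟨g, hg⟩, rfl⟩
  have hzK : z ∈ K := ⟨⟨z, d.zG⟩, hVH z d.zG d.ze, rfl⟩
  have hKne : K ≠ ⊥ := by
    intro hK
    rw [hK, Subgroup.mem_bot] at hzK
    exact h.Z_ne d.zZ hzK
  obtain ⟨k, hk, hke⟩ := h.trans hKnm hKne e x
  obtain ⟨hkG, hVk⟩ := hKmem k hk
  have huG : L x ^ m ∈ G := d.hP.1 d.tP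
  have huS : L x ^ m ∉ S := by
    intro hS
    have h1 : (L x ^ m) e = e := (d.hS.1 hS).2
    rw [d.te] at h1
    exact d.xe h1
  have h1 := hV2 _ d.tP huS
  have h2 := hVH (k⁻¹ * L x ^ m) (G.mul_mem (G.inv_mem hkG) huG) (by
    rw [Perm.mul_apply, d.te, Perm.inv_eq_iff_eq, hke])
  have h3 : (⟨k⁻¹ * L x ^ m, G.mul_mem (G.inv_mem hkG) huG⟩ : G) =
      ⟨k, hkG⟩⁻¹ * ⟨L x ^ m, huG⟩ := rfl
  rw [h3, map_mul, map_inv, hVk, h1, inv_one, one_mul] at h2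
  exact absurd h2 (by decide)

end ALoop
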