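import Pool.Agent.H4.FD.DE

/-!
# Project FD: freezing one vertex

`qf_step`: `v ∉ A`, `v ∉ S`. Let `C₁`, `C₂` be the constants of `h1`, `h2`, `S' = insert v S`. Let
`x` satisfy `IsE (insert v A) S i`; then `IsE A S i x` (`PP_mono`). By `h1` there is `y`, `IsE A S (i+1) y`,
`‖y‖ ≤ C₁ ‖x‖`, `‖x - dE S y‖ ≤ C₁ ‖dE S x‖`. Define for `T ⊆ S` and cliques `σ` with `S' ⊆ σ`:
`q σ T = y σ T`, `q σ (insert v T) = -((-1) ^ σ.card * sgn ν v T) • x σ T`
(and `q σ T' = 0` otherwise). So as a formula: `q σ T' = if S' ⊆ σ then (if v ∈ T' then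
-((-1) ^ σ.card * sgn ν v (T'.erase v)) • x σ (T'.erase v) else y σ T') else 0`.
(1) `IsE A S' i q`: degrees: for `y`: `σ.card + T.card = (i + 1) + S.card = i + S'.card`; for `x`:
`σ.card + (T.card + 1) = i + S.card + 1`. `mem`: `y σ T ∈ PP (T ∪ (σ ∩ A))`;
`x σ T ∈ PP (T ∪ (σ ∩ insert v A)) = PP (insert v T ∪ (σ ∩ A))` for `v ∈ σ`.
(2) for `S' ⊆ σ`, `T ⊆ S`: `(dE S' q) σ T = (dE S y) σ T - x σ T` (the terms `u ∈ S' \ T` are
`u ∈ S \ T` and `u = v`; `(-1)^c * (-1)^c = 1`, `sgn * sgn = 1`), and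
`(dE S' q) σ (insert v T) = ((-1) ^ σ.card * sgn ν v T) • (dE S x) σ T`, using
`sgn ν u (insert v T) * sgn ν v (insert u T) = -(sgn ν u T * sgn ν v T)` (from `sgn_swap'`, squares of
signs are `1`). Hence `‖dE S' q‖ ≤ ‖x - dE S y‖ + ‖dE S x‖ ≤ (C₁ + 1) ‖dE S x‖`, `‖q‖ ≤ ‖y‖ + ‖x‖`.
(3) by `h2` there is `r`, `IsE A S' (i + 1) r`, `‖r‖ ≤ C₂ ‖q‖`, `‖q - dE S' r‖ ≤ C₂ ‖dE S' q‖`. Let
`r⁰ σ T = r σ T` if `S' ⊆ σ` and `v ∉ T`, `0` otherwise. It satisfies `IsE A S (i + 2)`. For `v ∈ σ`, `S ⊆ σ`,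
`T ⊆ S`: `(dE S' r) σ T = (dE S r⁰) σ T + (-1) ^ σ.card * sgn ν v T • r σ (insert v T)`.
(4) put `y' σ T = (-1) ^ σ.card * sgn ν v T • r σ (insert v T)` if `v ∈ σ`, `T ⊆ S`, and
`y' σ T = y σ T - (dE S r⁰) σ T` otherwise. So
`y' = y - dE S r⁰ - w` with `w σ T = (q - dE S' r) σ T` for `v ∈ σ`, `S ⊆ σ`, `T ⊆ S` and `0` otherwise.
`IsE (insert v A) S (i + 1) y'`: for `v ∈ σ`: `r σ (insert v T) ∈ PP (insert v T ∪ (σ ∩ A))`; for `v ∉ σ`
`σ ∩ insert v A = σ ∩ A` and `IsE A S (i + 1)` for `y` and `dE S r⁰`.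
(5) `x - dE S y' = (x - dE S y) + dE S w` (`dE_dE`), `‖dE S w‖ ≤ 2 |V| ‖w‖` (`norm_dE_le`),
`‖w‖ ≤ ‖q - dE S' r‖`. `‖y'‖ ≤ ‖y‖ + 2 |V| ‖r‖ + ‖w‖` and `‖w‖ ≤ ‖q‖ + 2 |V| ‖r‖`, or directly from the
formula in (4).

`qf_all`: induction on `A` (`Finset.induction_on`), for all `S` disjoint from `A` and all `i`.
-/

set_option autoImplicit false

open Finset

namespace Pool.Agent.H4.FD

open Pool.Agent.H85.Fold Pool.Agent.H4.FC

section

variable {V : Type} [DecidableEq V] [Fintype V]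

private theorem Fz_eq {Z : Type} [AddCommGroup Z] [Module ℝ Z] (ν : V → ℕ) (S : Finset V)
    (x : Finset V → Finset V → Z) (σ T : Finset V) :
    dE ν S x σ T = if S ⊆ σ ∧ T ⊆ S then
      ∑ v ∈ σᶜ, sgn ν v σ • x (insert v σ) T +
        (-1 : ℝ) ^ σ.card • ∑ u ∈ S \ T, sgn ν u T • x σ (insert u T) else 0 := rfl

omit [DecidableEq V] in
private theorem Fz_le {Z : Type} [NormedAddCommGroup Z] (x : Finset V → Finset V → Z)
    (σ T : Finset V) : ‖x σ T‖ ≤ ‖x‖ :=
  (norm_le_pi_norm (x σ) T).trans (norm_le_pi_norm x σ)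

omit [DecidableEq V] in
private theorem Fz_norm_le {Z : Type} [NormedAddCommGroup Z] {x : Finset V → Finset V → Z}
    {C : ℝ} (hC : 0 ≤ C) (h : ∀ σ T, ‖x σ T‖ ≤ C) : ‖x‖ ≤ C :=
  (pi_norm_le_iff_of_nonneg hC).2 fun σ => (pi_norm_le_iff_of_nonneg hC).2 fun T => h σ T

omit [DecidableEq V] [Fintype V] in
private theorem Fz_sgn (ν : V → ℕ) (v : V) (T : Finset V) : |sgn ν v T| = 1 := by
  unfold sgn
  rw [abs_pow, abs_neg, abs_one, one_pow]

omit [DecidableEq V] [Fintype V] in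
private theorem Fz_smul {Z : Type} [NormedAddCommGroup Z] [NormedSpace ℝ Z] (ν : V → ℕ) (v : V)
    (T : Finset V) (k : ℕ) (z : Z) : ‖((-1 : ℝ) ^ k * sgn ν v T) • z‖ = ‖z‖ := by
  rw [norm_smul, Real.norm_eq_abs, abs_mul, Fz_sgn, abs_pow, abs_neg, abs_one, one_pow, one_mul,
    one_mul]

omit [DecidableEq V] [Fintype V] in
private theorem Fz_smul' {Z : Type} [NormedAddCommGroup Z] [NormedSpace ℝ Z] (ν : V → ℕ) (v : V)
    (T : Finset V) (k : ℕ) (z : Z) : ‖-((-1 : ℝ) ^ k * sgn ν v T) • z‖ = ‖z‖ := by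
  rw [neg_smul, norm_neg, Fz_smul]

private theorem Fz_sq (k : ℕ) : (-1 : ℝ) ^ k * (-1) ^ k = 1 := by
  rw [← mul_pow, neg_mul_neg, one_mul, one_pow]

/-- the chain `q` -/
private def Fq {Z : Type} [AddCommGroup Z] [Module ℝ Z] (ν : V → ℕ) (v : V) (S : Finset V)
    (x y : Finset V → Finset V → Z) (σ T : Finset V) : Z :=
  if insert v S ⊆ σ then
    (if v ∈ T then -((-1 : ℝ) ^ σ.card * sgn ν v (T.erase v)) • x σ (T.erase v) else y σ T)
  else 0

/-- the chain `r⁰` -/
private def Fr {Z : Type} [AddCommGroup Z] (v : V) (r : Finset V → Finset V → Z)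
    (σ T : Finset V) : Z := if v ∈ T then 0 else r σ T

omit [Fintype V] in
private theorem Fq_isE {N X : Type} [Fintype N] [DecidableEq N] [AddCommGroup X] [Module ℝ X]
    (ν : V → ℕ) {G : SimpleGraph V} {e : V → X →ₗ[ℝ] X} {m : V → V → ℕ}
    {J : V → Matrix N N ℝ} {A S : Finset V} {i : ℕ} {v : V} (hvS : v ∉ S)
    {x y : Finset V → Finset V → N → X} (hx : IsE G e m J (insert v A) S i x)
    (hy : IsE G e m J A S (i + 1) y) : IsE G e m J A (insert v S) i (Fq ν v S x y) := by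
  refine ⟨fun σ T h => ?_, fun σ T u hu ω => ?_, fun σ T => ?_⟩
  · unfold Fq at h
    rw [Finset.card_insert_of_notMem hvS]
    by_cases h1 : insert v S ⊆ σ
    · rw [if_pos h1] at h
      by_cases h2 : v ∈ T
      · rw [if_pos h2] at h
        have h3 : x σ (T.erase v) ≠ 0 := by
          intro h3
          rw [h3, smul_zero] at h
          exact h rfl
        obtain ⟨_, h5, h6, h7⟩ := hx.supp _ _ h3
        have h8 := Finset.card_erase_add_one h2
        refine ⟨h1, ?_, h6, by omega⟩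
        intro a ha
        by_cases hav : a = v
        · rw [hav]
          exact Finset.mem_insert_self v S
        · exact Finset.mem_insert_of_mem (h5 (Finset.mem_erase.2 ⟨hav, ha⟩))
      · rw [if_neg h2] at h
        obtain ⟨_, h5, h6, h7⟩ := hy.supp _ _ h
        exact ⟨h1, h5.trans (Finset.subset_insert v S), h6, by omega⟩
    · rw [if_neg h1] at h
      exact absurd rfl h
  · unfold Fq
    split_ifs with h1 h2
    · rw [Pi.smul_apply, map_smul, hx.ker _ _ u hu, smul_zero]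
    · exact hy.ker _ _ u hu ω
    · exact map_zero _
  · unfold Fq
    split_ifs with h1 h2
    · refine Submodule.smul_mem _ _ (PP_mono ?_ (hx.mem _ _))
      intro a ha
      by_cases hav : a = v
      · rw [hav]
        exact Finset.mem_union_right _ (Finset.mem_inter.2
          ⟨h1 (Finset.mem_insert_self v S), Finset.mem_insert_self v A⟩)
      · rcases Finset.mem_union.1 ha with h | h
        · exact Finset.mem_union_left _ (Finset.mem_erase.2 ⟨hav, h⟩)
        · exact Finset.mem_union_right _ (Finset.mem_inter.2 ⟨(Finset.mem_inter.1 h).1,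
            Finset.mem_insert_of_mem (Finset.mem_inter.1 h).2⟩)
    · exact hy.mem _ _
    · exact Submodule.zero_mem _

omit [Fintype V] in
private theorem Fr_isE {N X : Type} [Fintype N] [DecidableEq N] [AddCommGroup X] [Module ℝ X]
    {G : SimpleGraph V} {e : V → X →ₗ[ℝ] X} {m : V → V → ℕ}
    {J : V → Matrix N N ℝ} {A S : Finset V} {i : ℕ} {v : V} (hvS : v ∉ S)
    {r : Finset V → Finset V → N → X}
    (hr : IsE G e m J A (insert v S) (i + 1) r) : IsE G e m J A S (i + 2) (Fr v r) := by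
  refine ⟨fun σ T h => ?_, fun σ T u hu ω => ?_, fun σ T => ?_⟩
  · unfold Fr at h
    by_cases h2 : v ∈ T
    · rw [if_pos h2] at h
      exact absurd rfl h
    · rw [if_neg h2] at h
      obtain ⟨h4, h5, h6, h7⟩ := hr.supp _ _ h
      rw [Finset.card_insert_of_notMem hvS] at h7
      refine ⟨(Finset.subset_insert v S).trans h4, ?_, h6, by omega⟩
      intro a ha
      rcases Finset.mem_insert.1 (h5 ha) with h8 | h8
      · rw [h8] at ha
        exact absurd ha h2
      · exact h8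
  · unfold Fr
    split_ifs with h2
    · exact map_zero _
    · exact hr.ker _ _ u hu ω
  · unfold Fr
    split_ifs with h2
    · exact Submodule.zero_mem _
    · exact hr.mem _ _

omit [Fintype V] in
private theorem Fz_sdiff {v : V} {S T : Finset V} (hvT : v ∉ T) :
    insert v S \ T = insert v (S \ T) := by
  rw [Finset.insert_sdiff_of_notMem _ hvT]

/-- the differential of `q`, first case -/
private theorem Fq_dE₁ {Z : Type} [AddCommGroup Z] [Module ℝ Z] (ν : V → ℕ) {S : Finset V}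
    {v : V} (hvS : v ∉ S) (x y : Finset V → Finset V → Z) {σ T : Finset V}
    (hσ : insert v S ⊆ σ) (hT : T ⊆ S) :
    dE ν (insert v S) (Fq ν v S x y) σ T = dE ν S y σ T - x σ T := by
  have hvT : v ∉ T := fun h => hvS (hT h)
  rw [Fz_eq, Fz_eq, if_pos ⟨hσ, hT.trans (Finset.subset_insert v S)⟩,
    if_pos ⟨(Finset.subset_insert v S).trans hσ, hT⟩, Fz_sdiff hvT,
    Finset.sum_insert (fun h => hvS (Finset.mem_sdiff.1 h).1)]
  have e1 : ∑ w ∈ σᶜ, sgn ν w σ • Fq ν v S x y (insert w σ) T =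
      ∑ w ∈ σᶜ, sgn ν w σ • y (insert w σ) T := by
    refine Finset.sum_congr rfl fun w _ => ?_
    unfold Fq
    rw [if_pos (hσ.trans (Finset.subset_insert w σ)), if_neg hvT]
  have e2 : ∑ u ∈ S \ T, sgn ν u T • Fq ν v S x y σ (insert u T) =
      ∑ u ∈ S \ T, sgn ν u T • y σ (insert u T) := by
    refine Finset.sum_congr rfl fun u hu => ?_
    have h1 : v ∉ insert u T := by
      intro h
      rcases Finset.mem_insert.1 h with h2 | h2
      · rw [h2] at hvS
        exact hvS (Finset.mem_sdiff.1 hu).1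
      · exact hvT h2
    unfold Fq
    rw [if_pos hσ, if_neg h1]
  have e3 : Fq ν v S x y σ (insert v T) = -((-1 : ℝ) ^ σ.card * sgn ν v T) • x σ T := by
    unfold Fq
    rw [if_pos hσ, if_pos (Finset.mem_insert_self v T), Finset.erase_insert hvT]
  rw [e1, e2, e3, smul_add, smul_smul, smul_smul]
  have e4 : (-1 : ℝ) ^ σ.card * sgn ν v T * -((-1 : ℝ) ^ σ.card * sgn ν v T) = -1 := by
    have h1 := Fz_sq σ.card
    have h2 := sgn_sq ν v T
    linear_combination (-(sgn ν v T * sgn ν v T)) * h1 - h2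
  rw [e4, neg_one_smul]
  abel

/-- the differential of `q`, second case -/
private theorem Fq_dE₂ {Z : Type} [AddCommGroup Z] [Module ℝ Z] {ν : V → ℕ}
    (hν : Function.Injective ν) {S : Finset V}
    {v : V} (hvS : v ∉ S) (x y : Finset V → Finset V → Z) {σ T : Finset V}
    (hσ : insert v S ⊆ σ) (hT : T ⊆ S) :
    dE ν (insert v S) (Fq ν v S x y) σ (insert v T) =
      ((-1 : ℝ) ^ σ.card * sgn ν v T) • dE ν S x σ T := by
  have hvT : v ∉ T := fun h => hvS (hT h)
  rw [Fz_eq, Fz_eq, if_pos ⟨hσ, Finset.insert_subset_insert v hT⟩,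
    if_pos ⟨(Finset.subset_insert v S).trans hσ, hT⟩]
  have hd : insert v S \ insert v T = S \ T := by
    rw [Finset.insert_sdiff_insert, Finset.sdiff_insert, Finset.erase_eq_of_notMem]
    intro h
    exact hvS (Finset.mem_sdiff.1 h).1
  rw [hd]
  have e1 : ∑ w ∈ σᶜ, sgn ν w σ • Fq ν v S x y (insert w σ) (insert v T) =
      ((-1 : ℝ) ^ σ.card * sgn ν v T) • ∑ w ∈ σᶜ, sgn ν w σ • x (insert w σ) T := by
    rw [Finset.smul_sum]
    refine Finset.sum_congr rfl fun w hw => ?_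
    unfold Fq
    rw [if_pos (hσ.trans (Finset.subset_insert w σ)), if_pos (Finset.mem_insert_self v T),
      Finset.erase_insert hvT, Finset.card_insert_of_notMem (Finset.mem_compl.1 hw), smul_smul,
      smul_smul]
    congr 1
    ring
  have e2 : ∑ u ∈ S \ T, sgn ν u (insert v T) • Fq ν v S x y σ (insert u (insert v T)) =
      ((-1 : ℝ) ^ σ.card * sgn ν v T) • ∑ u ∈ S \ T, sgn ν u T • x σ (insert u T) := by
    rw [Finset.smul_sum]
    refine Finset.sum_congr rfl fun u hu => ?_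
    have huv : u ≠ v := by
      intro h
      rw [h] at hu
      exact hvS (Finset.mem_sdiff.1 hu).1
    have h1 : v ∉ insert u T := by
      intro h
      rcases Finset.mem_insert.1 h with h2 | h2
      · exact huv h2.symm
      · exact hvT h2
    unfold Fq
    rw [Finset.insert_comm u v T, if_pos hσ, if_pos (Finset.mem_insert_self v _),
      Finset.erase_insert h1, smul_smul, smul_smul]
    congr 1
    have h2 := sgn_swap_mul ν hν u v huv T (Finset.mem_sdiff.1 hu).2 hvT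
    linear_combination (-((-1 : ℝ) ^ σ.card)) * h2
  rw [e1, e2, smul_add, smul_comm ((-1 : ℝ) ^ σ.card)]

/-- the differential of `r⁰` -/
private theorem Fr_dE {Z : Type} [AddCommGroup Z] [Module ℝ Z] (ν : V → ℕ) {S : Finset V}
    {v : V} (hvS : v ∉ S) (r : Finset V → Finset V → Z) {σ T : Finset V}
    (hσ : insert v S ⊆ σ) (hT : T ⊆ S) :
    dE ν (insert v S) r σ T =
      dE ν S (Fr v r) σ T + ((-1 : ℝ) ^ σ.card * sgn ν v T) • r σ (insert v T) := by
  have hvT : v ∉ T := fun h => hvS (hT h)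
  rw [Fz_eq, Fz_eq, if_pos ⟨hσ, hT.trans (Finset.subset_insert v S)⟩,
    if_pos ⟨(Finset.subset_insert v S).trans hσ, hT⟩, Fz_sdiff hvT,
    Finset.sum_insert (fun h => hvS (Finset.mem_sdiff.1 h).1)]
  have e1 : ∑ w ∈ σᶜ, sgn ν w σ • Fr v r (insert w σ) T =
      ∑ w ∈ σᶜ, sgn ν w σ • r (insert w σ) T := by
    refine Finset.sum_congr rfl fun w _ => ?_
    unfold Fr
    rw [if_neg hvT]
  have e2 : ∑ u ∈ S \ T, sgn ν u T • Fr v r σ (insert u T) =
      ∑ u ∈ S \ T, sgn ν u T • r σ (insert u T) := by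
    refine Finset.sum_congr rfl fun u hu => ?_
    have h1 : v ∉ insert u T := by
      intro h
      rcases Finset.mem_insert.1 h with h2 | h2
      · rw [h2] at hvS
        exact hvS (Finset.mem_sdiff.1 hu).1
      · exact hvT h2
    unfold Fr
    rw [if_neg h1]
  rw [e1, e2, smul_add, smul_smul]
  abel

/-- the chain `y'` -/
private def Fy {Z : Type} [AddCommGroup Z] [Module ℝ Z] (ν : V → ℕ) (v : V) (S : Finset V)
    (y r : Finset V → Finset V → Z) (σ T : Finset V) : Z :=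
  if v ∈ σ ∧ T ⊆ S then ((-1 : ℝ) ^ σ.card * sgn ν v T) • r σ (insert v T)
  else y σ T - dE ν S (Fr v r) σ T

private theorem Fy_isE {N X : Type} [Fintype N] [DecidableEq N] [AddCommGroup X] [Module ℝ X]
    (ν : V → ℕ) {G : SimpleGraph V} {e : V → X →ₗ[ℝ] X} {m : V → V → ℕ}
    {J : V → Matrix N N ℝ} {A S : Finset V} {i : ℕ} {v : V} (hvS : v ∉ S)
    {y r : Finset V → Finset V → N → X} (hy : IsE G e m J A S (i + 1) y)
    (hr : IsE G e m J A (insert v S) (i + 1) r) :
    IsE G e m J (insert v A) S (i + 1) (Fy ν v S y r) := by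
  have hd : IsE G e m J A S (i + 1) (y - dE ν S (Fr v r)) := hy.sub ((Fr_isE hvS hr).dE ν)
  refine ⟨fun σ T h => ?_, fun σ T u hu ω => ?_, fun σ T => ?_⟩
  · unfold Fy at h
    by_cases h1 : v ∈ σ ∧ T ⊆ S
    · rw [if_pos h1] at h
      have h3 : r σ (insert v T) ≠ 0 := by
        intro h3
        rw [h3, smul_zero] at h
        exact h rfl
      obtain ⟨h4, _, h6, h7⟩ := hr.supp _ _ h3
      rw [Finset.card_insert_of_notMem hvS,
        Finset.card_insert_of_notMem (fun h => hvS (h1.2 h))] at h7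
      exact ⟨(Finset.subset_insert v S).trans h4, h1.2, h6, by omega⟩
    · rw [if_neg h1] at h
      exact hd.supp σ T h
  · unfold Fy
    split_ifs with h1
    · rw [Pi.smul_apply, map_smul, hr.ker _ _ u hu, smul_zero]
    · exact hd.ker σ T u hu ω
  · unfold Fy
    split_ifs with h1
    · refine Submodule.smul_mem _ _ (PP_mono ?_ (hr.mem _ _))
      intro a ha
      rcases Finset.mem_union.1 ha with h | h
      · exact Finset.mem_union_left _ (Finset.mem_insert_of_mem h)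
      · rcases Finset.mem_insert.1 (Finset.mem_inter.1 h).2 with h2 | h2
        · rw [h2]
          exact Finset.mem_union_left _ (Finset.mem_insert_self v T)
        · exact Finset.mem_union_right _ (Finset.mem_inter.2 ⟨(Finset.mem_inter.1 h).1, h2⟩)
    · by_cases h2 : T ⊆ S
      · have h3 : v ∉ σ := fun h => h1 ⟨h, h2⟩
        rw [Finset.inter_insert_of_notMem h3]
        exact hd.mem σ T
      · have h3 : y σ T - dE ν S (Fr v r) σ T = 0 := by
          by_contra h4
          exact h2 (hd.supp σ T h4).2.1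
        rw [h3]
        exact Submodule.zero_mem _

end

variable {V X : Type} [DecidableEq V] [Fintype V] [NormedAddCommGroup X] [NormedSpace ℝ X]
  {ν : V → ℕ} {G : SimpleGraph V} {e : V → X →ₗ[ℝ] X} {m : V → V → ℕ} {κ : ℝ}

theorem qf_step (hν : Function.Injective ν) {A S : Finset V} {i : ℕ} {v : V} (hvA : v ∉ A)
    (hvS : v ∉ S) (h1 : QF ν G e m κ A S i) (h2 : QF ν G e m κ A (insert v S) i) :
    QF ν G e m κ (insert v A) S i := by
  have _ := hvA
  obtain ⟨C₁, hC₁, h1⟩ := h1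
  obtain ⟨C₂, hC₂, h2⟩ := h2
  have hV : (0 : ℝ) ≤ Fintype.card V := Nat.cast_nonneg _
  have hC1 : 0 ≤ C₁ + 1 := add_nonneg hC₁ zero_le_one
  have hCC : 0 ≤ C₂ * (C₁ + 1) := mul_nonneg hC₂ hC1
  have hV2 : (0 : ℝ) ≤ 2 * Fintype.card V := mul_nonneg zero_le_two hV
  have hC : 0 ≤ C₁ + (1 + 2 * (Fintype.card V : ℝ)) * (C₂ * (C₁ + 1)) :=
    add_nonneg hC₁ (mul_nonneg (add_nonneg zero_le_one hV2) hCC)
  refine ⟨C₁ + (1 + 2 * (Fintype.card V : ℝ)) * (C₂ * (C₁ + 1)), hC, ?_⟩
  intro N _ _ J hJ x hx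
  have hxA : IsE G e m J A S i x := ⟨hx.supp, hx.ker, fun σ T => PP_mono
    (Finset.union_subset_union (Finset.Subset.refl T)
      (Finset.inter_subset_inter (Finset.Subset.refl σ) (Finset.subset_insert v A))) (hx.mem σ T)⟩
  obtain ⟨y, hy, hy1, hy2⟩ := h1 N J hJ x hxA
  obtain ⟨r, hr, hr1, hr2⟩ := h2 N J hJ (Fq ν v S x y) (Fq_isE ν hvS hx hy)
  have hx0 := norm_nonneg x
  have hdx0 := norm_nonneg (dE ν S x)
  have hK : ∀ t : ℝ, (C₁ + (1 + 2 * (Fintype.card V : ℝ)) * (C₂ * (C₁ + 1))) * t =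
      C₁ * t + C₂ * (C₁ + 1) * t + 2 * (Fintype.card V : ℝ) * (C₂ * (C₁ + 1) * t) := by
    intro t
    ring
  have hx1 := mul_nonneg hC₁ hx0
  have hdx1 := mul_nonneg hC₁ hdx0
  -- the norm of `q`
  have hq : ‖Fq ν v S x y‖ ≤ (C₁ + 1) * ‖x‖ := by
    refine Fz_norm_le (mul_nonneg hC1 hx0) fun σ T => ?_
    unfold Fq
    split_ifs with h3 h4
    · rw [Fz_smul']
      refine (Fz_le x _ _).trans ?_
      rw [add_mul, one_mul]
      linarith
    · refine (Fz_le y _ _).trans (hy1.trans ?_)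
      rw [add_mul, one_mul]
      linarith
    · rw [norm_zero]
      exact mul_nonneg hC1 hx0
  -- the norm of its differential
  have hdq : ‖dE ν (insert v S) (Fq ν v S x y)‖ ≤ (C₁ + 1) * ‖dE ν S x‖ := by
    refine Fz_norm_le (mul_nonneg hC1 hdx0) fun σ T => ?_
    by_cases h3 : insert v S ⊆ σ ∧ T ⊆ insert v S
    · by_cases h4 : v ∈ T
      · have hT : T.erase v ⊆ S := by
          intro a ha
          rcases Finset.mem_insert.1 (h3.2 (Finset.mem_of_mem_erase ha)) with h5 | h5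
          · exact absurd h5 (Finset.ne_of_mem_erase ha)
          · exact h5
        rw [← Finset.insert_erase h4, Fq_dE₂ hν hvS x y h3.1 hT, Fz_smul]
        refine (Fz_le (dE ν S x) _ _).trans ?_
        rw [add_mul, one_mul]
        linarith
      · have hT : T ⊆ S := by
          intro a ha
          rcases Finset.mem_insert.1 (h3.2 ha) with h5 | h5
          · rw [h5] at ha
            exact absurd ha h4
          · exact h5
        rw [Fq_dE₁ ν hvS x y h3.1 hT, ← norm_neg, neg_sub]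
        refine (Fz_le (x - dE ν S y) σ T).trans (hy2.trans ?_)
        rw [add_mul, one_mul]
        linarith
    · rw [Fz_eq, if_neg h3, norm_zero]
      exact mul_nonneg hC1 hdx0
  have hr3 : ‖r‖ ≤ C₂ * (C₁ + 1) * ‖x‖ := by
    refine hr1.trans ?_
    rw [mul_assoc]
    exact mul_le_mul_of_nonneg_left hq hC₂
  have hr4 : ‖Fq ν v S x y - dE ν (insert v S) r‖ ≤ C₂ * (C₁ + 1) * ‖dE ν S x‖ := by
    refine hr2.trans ?_
    rw [mul_assoc]
    exact mul_le_mul_of_nonneg_left hdq hC₂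
  have hFr : ‖Fr v r‖ ≤ ‖r‖ := by
    refine Fz_norm_le (norm_nonneg _) fun σ T => ?_
    unfold Fr
    split_ifs
    · rw [norm_zero]
      exact norm_nonneg _
    · exact Fz_le r _ _
  -- the correction
  have hw : ‖y - dE ν S (Fr v r) - Fy ν v S y r‖ ≤ C₂ * (C₁ + 1) * ‖dE ν S x‖ := by
    refine (Fz_norm_le (norm_nonneg _) fun σ T => ?_).trans hr4
    show ‖y σ T - dE ν S (Fr v r) σ T - Fy ν v S y r σ T‖ ≤ _
    unfold Fy
    by_cases h3 : v ∈ σ ∧ T ⊆ S
    · rw [if_pos h3]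
      by_cases h4 : S ⊆ σ
      · have h5 : insert v S ⊆ σ := Finset.insert_subset h3.1 h4
        have h6 : Fq ν v S x y σ T = y σ T := by
          unfold Fq
          rw [if_pos h5, if_neg (fun h => hvS (h3.2 h))]
        have h7 : y σ T - dE ν S (Fr v r) σ T -
            ((-1 : ℝ) ^ σ.card * sgn ν v T) • r σ (insert v T) =
            (Fq ν v S x y - dE ν (insert v S) r) σ T := by
          show _ = Fq ν v S x y σ T - dE ν (insert v S) r σ T
          rw [Fr_dE ν hvS r h5 h3.2, h6, sub_sub]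
        rw [h7]
        exact Fz_le _ σ T
      · have h5 : y σ T = 0 := by
          by_contra h6
          exact h4 (hy.supp σ T h6).1
        have h6 : r σ (insert v T) = 0 := by
          by_contra h6
          exact h4 ((Finset.subset_insert v S).trans (hr.supp _ _ h6).1)
        rw [h5, h6, Fz_eq, if_neg (fun h => h4 h.1), smul_zero, sub_zero, sub_zero, norm_zero]
        exact norm_nonneg _
    · rw [if_neg h3, sub_self, norm_zero]
      exact norm_nonneg _
  refine ⟨Fy ν v S y r, Fy_isE ν hvS hy hr, ?_, ?_⟩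
  · refine Fz_norm_le (mul_nonneg hC hx0) fun σ T => ?_
    unfold Fy
    split_ifs with h3
    · rw [Fz_smul]
      refine (Fz_le r _ _).trans (hr3.trans ?_)
      have h4 : 0 ≤ C₂ * (C₁ + 1) * ‖x‖ := mul_nonneg hCC hx0
      have h5 : 0 ≤ 2 * (Fintype.card V : ℝ) * (C₂ * (C₁ + 1) * ‖x‖) := mul_nonneg hV2 h4
      rw [hK]
      linarith
    · refine (norm_sub_le _ _).trans ?_
      have h4 := (Fz_le (dE ν S (Fr v r)) σ T).trans (norm_dE_le ν S (Fr v r))
      have h5 := (Fz_le y σ T).trans hy1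
      have h6 : 2 * (Fintype.card V : ℝ) * ‖Fr v r‖ ≤
          2 * (Fintype.card V : ℝ) * (C₂ * (C₁ + 1) * ‖x‖) :=
        mul_le_mul_of_nonneg_left (hFr.trans hr3) hV2
      have h7 : 0 ≤ C₂ * (C₁ + 1) * ‖x‖ := mul_nonneg hCC hx0
      rw [hK]
      linarith
  · have h3 : x - dE ν S (Fy ν v S y r) =
        (x - dE ν S y) + dE ν S (y - dE ν S (Fr v r) - Fy ν v S y r) := by
      rw [map_sub, map_sub, dE_dE hν]
      abel
    rw [h3]
    refine (norm_add_le _ _).trans ?_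
    have h4 := norm_dE_le ν S (y - dE ν S (Fr v r) - Fy ν v S y r)
    have h5 : 2 * (Fintype.card V : ℝ) * ‖y - dE ν S (Fr v r) - Fy ν v S y r‖ ≤
        2 * (Fintype.card V : ℝ) * (C₂ * (C₁ + 1) * ‖dE ν S x‖) :=
      mul_le_mul_of_nonneg_left hw hV2
    have h7 : 0 ≤ C₂ * (C₁ + 1) * ‖dE ν S x‖ := mul_nonneg hCC hdx0
    rw [hK]
    linarith

theorem qf_all (hν : Function.Injective ν) {n : ℕ}
    (h0 : ∀ S i, n < 2 * i → QF ν G e m κ ∅ S i) (A : Finset V) :
    ∀ S, Disjoint A S → ∀ i, n < 2 * i → QF ν G e m κ A S i := by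
  induction A using Finset.induction_on with
  | empty => exact fun S _ i hi => h0 S i hi
  | insert v A hv ih =>
    intro S hS i hi
    have h1 := Finset.disjoint_insert_left.1 hS
    exact qf_step hν hv h1.1 (ih S h1.2 i hi)
      (ih (insert v S) (Finset.disjoint_insert_right.2 ⟨hv, h1.2⟩) i hi)

end Pool.Agent.H4.FD
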