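import Pool.Agent.H4.FC.HVSys

/-!
# Project FD: vanishing outside the middle degree for full spheres

As `hvr_sys`, `hvr_fold` in `Pool.Agent.H4.FC.HVSys`, with the second part of `pk_all`.
-/

set_option autoImplicit false

open Finset

namespace Pool.Agent.H4.FD

open Pool.Agent.H85.Fold Pool.Agent.H4.FC

variable {V : Type} [DecidableEq V] [Fintype V] {S : Type} [AddCommGroup S] [Module ℝ S]

theorem hvr_sys_ne [FiniteDimensional ℝ S] (ν : V → ℕ) (G : SimpleGraph V) (e : V → S →ₗ[ℝ] S)
    (ep : Finset V → S →ₗ[ℝ] S) (b : V → V → ℝ) (τ : Finset V) :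
    ∀ (n : ℕ) (U : Finset V) (M : Submodule ℝ S) (β : S →ₗ[ℝ] S →ₗ[ℝ] ℝ) (ε κ : ℝ)
      (o : Finset V → ℝ), Sys ν G e ep b n U M β ε κ o →
      ∀ i, 2 * i ≠ n + τ.card → HVr ν G e M U τ i := by
  induction τ using Finset.induction_on with
  | empty =>
    intro n U M β ε κ o hs i hi
    rw [card_empty, add_zero] at hi
    have h := (pk_all ν G e ep b n U M β ε κ o hs).2.1 i hi
    intro c hc _ hbd
    rw [bdr_empty] at hbd
    obtain ⟨y, hy, hyc⟩ := h c hc hbd
    exact ⟨y, hy, fun σ _ => empty_subset σ, by rw [bdr_empty]; exact hyc⟩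
  | insert v τ hv ih =>
    intro n U M β ε κ o hs i hi c hc hsupp hbd
    have hzero : c = 0 → ∃ y : Finset V → S, IsF G e M U (i + 1) y ∧
        (∀ σ, y σ ≠ 0 → insert v τ ⊆ σ) ∧ bdr ν (insert v τ) y = c := by
      intro hc0
      exact ⟨0, IsF.zero, fun σ h => absurd rfl h, by rw [map_zero, hc0]⟩
    by_cases hvU : v ∈ U
    · rcases Nat.eq_zero_or_pos i with hi0 | hi0
      · refine hzero ?_
        funext σ
        by_contra h
        have h1 := (hc.supp σ h).2.2
        have h2 := hsupp σ h (Finset.mem_insert_self v τ)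
        rw [hi0, Finset.card_eq_zero] at h1
        rw [h1] at h2
        exact absurd h2 (Finset.notMem_empty v)
      rw [card_insert_of_notMem hv] at hi
      obtain ⟨n', rfl⟩ : ∃ n', n = n' + 1 := by
        rcases n with _ | n'
        · exfalso
          have h1 := hs.sphere.dim {v} (Finset.singleton_subset_iff.2 hvU) (by
            intro a ha b' hb' hab
            rw [mem_singleton] at ha hb'
            exact absurd (ha.trans hb'.symm) hab)
          rw [card_singleton] at h1
          omega
        · exact ⟨n', rfl⟩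
      obtain ⟨i', rfl⟩ : ∃ i', i = i' + 1 := ⟨i - 1, by omega⟩
      obtain ⟨β', hβ'⟩ := hs.exists_lf hvU
      have hl := hs.link hvU hβ'
      have hcomp : ∀ (z : Finset V → S) (σ : Finset V),
          comp ν v z σ = if v ∈ σ then 0 else sgn ν v σ • z (insert v σ) := fun z σ => rfl
      have hwed : ∀ (z : Finset V → S) (σ : Finset V),
          wedge ν v z σ = if v ∈ σ then sgn ν v σ • z (σ.erase v) else 0 := fun z σ => rfl
      have hsubs : ∀ σ : Finset V, insert v τ ⊆ insert v σ → τ ⊆ σ := by
        intro σ h u hu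
        rcases Finset.mem_insert.1 (h (Finset.mem_insert_of_mem hu)) with h1 | h1
        · rw [h1] at hu
          exact absurd hu hv
        · exact h1
      obtain ⟨y', hy', hy's, hy'b⟩ := ih n' (nbr G v U) (Mk e M v) β' (-ε) (κ * (-1) ^ n')
        (linkO ν v o) hl i' (by omega) (comp ν v c) (isF_comp ν v hc)
        (by
          intro σ hσ
          rw [hcomp] at hσ
          by_cases h : v ∈ σ
          · rw [if_pos h] at hσ
            exact absurd rfl hσ
          · rw [if_neg h] at hσ
            have h1 : c (insert v σ) ≠ 0 := fun h0 => hσ (by rw [h0, smul_zero])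
            exact hsubs σ (hsupp _ h1))
        (by
          funext ρ
          rw [bdr_apply]
          split_ifs with h
          · have h1 : bd ν (comp ν v c) ρ = -(comp ν v (bd ν c) ρ) := by
              rw [comp_bd ν hs.inj v c, Pi.neg_apply, neg_neg]
            rw [h1, hcomp]
            by_cases h2 : v ∈ ρ
            · rw [if_pos h2, neg_zero]
              rfl
            · rw [if_neg h2]
              have h3 := congrFun hbd (insert v ρ)
              rw [bdr_apply, if_pos (Finset.insert_subset_insert v h)] at h3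
              rw [h3, Pi.zero_apply, smul_zero, neg_zero]
              rfl
          · rfl)
      refine ⟨-(wedge ν v y'), (isF_wedge ν hvU hy').neg, ?_, ?_⟩
      · intro σ hσ
        rw [Pi.neg_apply, neg_ne_zero, hwed] at hσ
        by_cases h : v ∈ σ
        · rw [if_pos h] at hσ
          have h1 : y' (σ.erase v) ≠ 0 := fun h0 => hσ (by rw [h0, smul_zero])
          have h2 := hy's _ h1
          intro u hu
          rcases Finset.mem_insert.1 hu with rfl | hu
          · exact h
          · exact Finset.mem_of_mem_erase (h2 hu)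
        · rw [if_neg h] at hσ
          exact absurd rfl hσ
      · funext ρ
        rw [bdr_apply]
        split_ifs with h
        · have hvρ : v ∈ ρ := h (Finset.mem_insert_self v τ)
          obtain ⟨ρ', hρ', rfl⟩ : ∃ ρ', v ∉ ρ' ∧ ρ = insert v ρ' :=
            ⟨ρ.erase v, Finset.notMem_erase v ρ, (Finset.insert_erase hvρ).symm⟩
          have hτρ : τ ⊆ ρ' := hsubs ρ' h
          have hcw : comp ν v (-(wedge ν v y')) = -y' := by
            rw [map_neg, comp_wedge_self ν v y' hy'.link_off]
          have h1 := congrFun (comp_bd ν hs.inj v (-(wedge ν v y'))) ρ'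
          have e2 : -(bd ν (-y')) = bd ν y' := by rw [map_neg, neg_neg]
          rw [hcw, e2, hcomp, if_neg hρ'] at h1
          have h2 := congrFun hy'b ρ'
          rw [bdr_apply, if_pos hτρ, hcomp, if_neg hρ'] at h2
          rw [h2] at h1
          have h3 := congrArg (fun z => sgn ν v ρ' • z) h1
          simpa only [smul_smul, sgn_sq, one_smul] using h3
        · by_contra hne
          exact h (hsupp ρ (Ne.symm hne))
    · refine hzero ?_
      funext σ
      by_contra h
      exact hvU ((hc.supp σ h).1 (hsupp σ h (Finset.mem_insert_self v τ)))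

/-- folded homology spheres -/
theorem hvr_fold_ne {S : Type} [AddCommGroup S] [Module ℝ S] [FiniteDimensional ℝ S]
    {ν : V → ℕ} (hν : Function.Injective ν) {G : SimpleGraph V} {n m₁ m₂ : ℕ}
    (hG : IsHomologySphere G n) {p : V → Fin m₁ → ℝ} {a : V → Fin m₂ → ℝ}
    (hf : IsFold G n p a) {dot : S →ₗ[ℝ] S →ₗ[ℝ] ℝ} {γ : Fin m₁ → S →ₗ[ℝ] S}
    {η : Fin m₂ → S →ₗ[ℝ] S} (hc : IsClMod dot γ η) (τ : Finset V) (i : ℕ)
    (hi : 2 * i ≠ n + τ.card) : HVr ν G (ev γ η p a) ⊤ univ τ i := by
  obtain ⟨o, ho⟩ := hG.isSphere ν hν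
  obtain ⟨ep, β, ε, κ, hs⟩ := exists_sys hν ho hf hc
  exact hvr_sys_ne ν G _ ep _ τ n univ ⊤ β ε κ o hs i hi

end Pool.Agent.H4.FD
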