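import Pool.Agent.H4.FD.Conj
import Pool.Agent.H4.FD.Count

set_option autoImplicit false

/-!
The involution `k_w` of the fixed point set of `w ∈ Z`.
-/

namespace ALoop

open Equiv

section count

variable {X : Type*}

/-- a fixed point free involution -/
theorem two_dvd_card [Finite X] (k : X → X) (hk : ∀ x, k (k x) = x) (hk' : ∀ x, k x ≠ x) :
    2 ∣ Nat.card X := by
  classical
  have := Fintype.ofFinite X
  have : Fact (Nat.Prime 2) := ⟨Nat.prime_two⟩
  let s : Perm X := ⟨k, k, hk, hk⟩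
  have hs : s ^ 2 ^ 1 = 1 := by
    ext x
    rw [pow_one, pow_two]
    exact hk x
  have h1 := Equiv.Perm.card_compl_support_modEq (p := 2) hs
  have h2 : s.supportᶜ = ∅ := by
    ext x
    simp only [Finset.mem_compl, Perm.mem_support, not_not, Finset.notMem_empty, iff_false]
    exact hk' x
  rw [h2, Finset.card_empty] at h1
  rw [Nat.card_eq_fintype_card]
  exact (Nat.modEq_zero_iff_dvd.1 h1.symm)

/-- two commuting fixed point free involutions that differ everywhere -/
theorem four_dvd_card [Finite X] (k k' : X → X) (hk : ∀ x, k (k x) = x) (hk' : ∀ x, k x ≠ x)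
    (hl : ∀ x, k' (k' x) = x) (hl' : ∀ x, k' x ≠ x) (hc : ∀ x, k' (k x) = k (k' x))
    (hd : ∀ x, k (k' x) ≠ x) : 4 ∣ Nat.card X := by
  let s : Perm X := ⟨k', k', hl, hl⟩
  have hs : s ^ 2 ^ 1 = 1 := by
    ext x
    rw [pow_one, pow_two]
    exact hl x
  have h1 := count_mod4 k hk hk' s hc hs
  have h2 : IsEmpty {x // s x = x ∨ s x = k x} := by
    refine ⟨?_⟩
    rintro ⟨x, hx | hx⟩
    · exact hl' x hx
    · apply hd x
      have h3 : k' x = k x := hx
      rw [h3, hk]
  rw [Nat.card_of_isEmpty (α := {x // s x = x ∨ s x = k x})] at h1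
  exact Nat.modEq_zero_iff_dvd.1 h1

/-- Lemma (3), abstract form -/
theorem no_swap [Finite X] (k : X → X) (hk : ∀ x, k (k x) = x) (hk' : ∀ x, k x ≠ x)
    (s : Perm X) (hs : ∀ x, s (k x) = k (s x)) {n : ℕ} (hn : s ^ 2 ^ n = 1)
    (hX : Nat.card X % 4 = 2) (M : X → X → X) (hinj : ∀ a, Function.Injective (M a))
    (h1 : ∀ a b, M a (k b) = k (M a b)) (h2 : ∀ a b, M (k a) b = k (M a b))
    (h3 : ∀ a b, s (M a b) = M (s a) (s b)) (a : X) : s a ≠ k a := by
  intro ha
  have hc := count_mod4 k hk hk' s hs hn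
  -- `F+` to `F-`
  let f : {x // s x = x} → {x // s x = k x} := fun x => ⟨M a x, by
    rw [h3, ha, h2, x.2]⟩
  let f' : {x // s x = k x} → {x // s x = x} := fun x => ⟨M a x, by
    rw [h3, ha, h2, x.2, h1, hk]⟩
  have hf : Function.Injective f := by
    intro x y hxy
    have := congrArg Subtype.val hxy
    exact Subtype.ext (hinj a this)
  have hf' : Function.Injective f' := by
    intro x y hxy
    have := congrArg Subtype.val hxy
    exact Subtype.ext (hinj a this)
  have e1 := Nat.card_le_card_of_injective f hf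
  have e2 := Nat.card_le_card_of_injective f' hf'
  have e3 : 2 ∣ Nat.card {x // s x = x} := by
    refine two_dvd_card (fun x => ⟨k x, by rw [hs, x.2]⟩) ?_ ?_
    · intro x; exact Subtype.ext (hk _)
    · intro x hx
      exact hk' _ (congrArg Subtype.val hx)
  have e4 : Nat.card {x // s x = x ∨ s x = k x} =
      Nat.card {x // s x = x} + Nat.card {x // s x = k x} := by
    classical
    rw [← Nat.card_sum]
    apply Nat.card_congr
    apply subtypeOrEquiv
    rw [Pi.disjoint_iff]
    intro x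
    rw [Prop.disjoint_iff]
    rintro ⟨h5, h6⟩
    exact hk' x (h6.symm.trans h5)
  rw [e4] at hc
  unfold Nat.ModEq at hc
  omega

/-- abstract form of (4) -/
theorem no_two [Finite X] (k : X → X) (hk : ∀ x, k (k x) = x) (hk' : ∀ x, k x ≠ x)
    (s : Perm X) (hs : ∀ x, s (k x) = k (s x)) {n : ℕ} (hn : s ^ 2 ^ n = 1)
    (hX : Nat.card X % 4 = 2) (hno : ∀ x, s x ≠ k x) (hB : 4 ∣ Nat.card {x // s x = x}) :
    False := by
  have hc := count_mod4 k hk hk' s hs hn
  have h1 : Nat.card {x // s x = x ∨ s x = k x} = Nat.card {x // s x = x} := by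
    apply Nat.card_congr
    apply Equiv.subtypeEquivRight
    intro x
    constructor
    · rintro (h2 | h2)
      · exact h2
      · exact absurd h2 (hno x)
    · intro h2; exact Or.inl h2
  rw [h1] at hc
  unfold Nat.ModEq at hc
  omega

end count

variable {Q : Type*} {G : Subgroup (Perm Q)} {L : Q → Perm Q} {J : Perm Q} {e : Q}

open Classical in
/-- the partner of a point under `w` -/
noncomputable def kp (L : Q → Perm Q) (J w : Perm Q) (q : Q) : Q :=
  if h : ∃ s, D L J s = D L J q * w then h.choose else q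

namespace AL

theorem kp_spec (h : AL G L J e) {w : Perm Q} (hw : w ∈ Z L J) {q : Q} (hq : w q = q) :
    D L J (kp L J w q) = D L J q * w := by
  have h1 : ∃ s, D L J s = D L J q * w := by
    obtain ⟨s, -, hs⟩ := h.Z_part hw hq
    exact ⟨s, hs⟩
  unfold kp
  rw [dif_pos h1]
  exact h1.choose_spec

theorem kp_eq (h : AL G L J e) {w : Perm Q} (hw : w ∈ Z L J) {q r : Q} (hq : w q = q)
    (hr : D L J r = D L J q * w) : kp L J w q = r := by
  apply h.D_inj
  rw [h.kp_spec hw hq, hr]

theorem kp_fix (h : AL G L J e) {w : Perm Q} (hw : w ∈ Z L J) {q : Q} (hq : w q = q) :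
    w (kp L J w q) = kp L J w q := by
  rw [← h.D_cent (h.Z_mem hw), h.kp_spec hw hq]
  have h1 := (h.D_cent (h.Z_mem hw) q).2 hq
  rw [← mul_assoc, h1]

theorem kp_kp (h : AL G L J e) {w : Perm Q} (hw : w ∈ Z L J) {q : Q} (hq : w q = q) :
    kp L J w (kp L J w q) = q := by
  apply h.kp_eq hw (h.kp_fix hw hq)
  rw [h.kp_spec hw hq, mul_assoc, h.Z_sq hw, mul_one]

theorem kp_ne (h : AL G L J e) {w : Perm Q} (hw : w ∈ Z L J) {q : Q} (hq : w q = q) :
    kp L J w q ≠ q := by
  intro h1
  have h2 := h.kp_spec hw hq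
  rw [h1] at h2
  apply h.Z_ne hw
  exact (mul_eq_left.1 h2.symm)

theorem kp_com (h : AL G L J e) {w : Perm Q} (hw : w ∈ Z L J) {q : Q} (hq : w q = q)
    {g : Perm Q} (hg : g ∈ G) (hgw : g * w = w * g) :
    w (g q) = g q ∧ kp L J w (g q) = g (kp L J w q) := by
  have h0 : w (g q) = g q := by
    rw [← Perm.mul_apply, ← hgw, Perm.mul_apply, hq]
  refine ⟨h0, h.kp_eq hw h0 ?_⟩
  rw [← h.D_conj hg, h.kp_spec hw hq, ← h.D_conj hg]
  calc g * (D L J q * w) * g⁻¹ = g * D L J q * g⁻¹ * (g * w) * g⁻¹ := by group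
    _ = g * D L J q * g⁻¹ * (w * g) * g⁻¹ := by rw [hgw]
    _ = g * D L J q * g⁻¹ * w := by group

theorem sign_D [Fintype Q] [DecidableEq Q] (q : Q) :
    Perm.sign (D L J q) = Perm.sign J := by
  unfold D
  rw [Perm.sign_mul, Perm.sign_mul, Perm.sign_inv, mul_comm, ← mul_assoc, Int.units_mul_self,
    one_mul]

theorem Z_card [Finite Q] (h : AL G L J e) {w : Perm Q} (hw : w ∈ Z L J)
    (hcard : Nat.card Q % 4 = 2) : Nat.card {x // w x = x} % 4 = 2 := by
  classical
  have := Fintype.ofFinite Q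
  have h1 : Perm.sign w = 1 := by
    obtain ⟨p, q, -, -, rfl⟩ := hw
    rw [Perm.sign_mul, sign_D, sign_D, Int.units_mul_self]
  have h2 := even_invol w (h.Z_sq hw) h1
  unfold Nat.ModEq at h2
  omega

end AL

end ALoop
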