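import Pool.Agent.H4.FD.AvgL
import Pool.Agent.H4.FD.CoxEx
import Pool.Agent.H4.FD.FockL

/-!
# Project FD: natural homotopies for finite Coxeter groups

`lc_univ`. If `Fintype.card S < b` take `h = φ = 0`; there are no subsets with `b` elements, everything is
vacuous. Let `b ≤ card S`, `j = card S - b`, `2 j ≠ card S` (as `card S ≠ 2 b`). (`b = 0` is allowed; then
`bdS ν univ z = 0` and `bdC ν z = 0` for families `z` of degree `0`, and the terms with `φ` vanish.) `exists_cox`; `exists_fk` gives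
`fk` with `IsFk`; `exists_low` (in degree `j`, `hX.low`) gives `H`, `Φ`; `Fintype M.Group`
(`Fintype.ofFinite`); words `wd` (`CoxeterSystem.wordProd_surjective`); `cw`, `ct` by choice from
`hX.cl`. For `U`, `J` with `JRel`: `exists_homrep` (with `fock_jrel`) gives `A`, `IsHR`.
Let `h₀ = hpol … Φ`, `φ₀ = hpol … H`. For `y ∈ PP T` and the family `z = Pi.single T y` (in `PP`):
`lift J (h₀ T' T) y = ∑ T₁, lift J (h₀ T' T₁) (z T₁) = Gav … T' δ ∈ PP T'` (`hpol_eq`, `Gav_mem`). `key_id` and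
`hpol_eq` give
`z T = ∑ v ∈ Tᶜ, sgn ν v (insert v T)ᶜ • ∑ T₁, lift J (h₀ (insert v T) T₁) (z T₁) +
  ∑ T₁, lift J (φ₀ T T₁) (bdC ν z T₁)` for families `z` with values in `PP` and `T.card = b`.
Signs: `t v = sgn ν v univ`, `P T = ∏ v ∈ T, t v` (values `±1`). Counting the `u` with `ν u < ν v` in `T`
and in `(insert v T)ᶜ` (`v ∉ T`): `sgn ν v (insert v T)ᶜ * sgn ν v T = t v`. So for `z' T = P T • z T`:
`bdC ν z' T = P T • bdS ν univ z T` (`univ \ T = Tᶜ`; `P (insert v T) = t v * P T`). Put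
`h T' T = (P T' * P T) • h₀ T' T`, `φ T' T = (P T' * P T) • φ₀ T' T`. Multiply the identity for `z'` by `P T`
(`P T * P T = 1`, `sgn ν v (insert v T)ᶜ * P T = sgn ν v T * P (insert v T)`). The sums over all `T₁` and
over `T₁.card = b` agree since `z T₁ = 0` otherwise; `bdS ν univ z T₁ ≠ 0` only if `T₁.card + 1 = b`,
i.e. `T₁.card = b - 1` (`b ≥ 1`).
-/

set_option autoImplicit false

open Finset

namespace Pool.Agent.H4.FD

open Pool.Agent.H85.Fold Pool.Agent.H4.FC

section Signs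

variable {S : Type} [Fintype S] [DecidableEq S] (ν : S → ℕ)

private theorem lcf_sq (v : S) (T : Finset S) : sgn ν v T * sgn ν v T = 1 := by
  unfold sgn
  rw [← pow_add, ← two_mul, pow_mul, neg_one_sq, one_pow]

private theorem lcf_sgn (v : S) (T : Finset S) :
    sgn ν v (insert v T)ᶜ * sgn ν v T = sgn ν v univ := by
  unfold sgn
  rw [← pow_add]
  congr 1
  rw [← Finset.card_union_of_disjoint]
  · congr 1
    ext u
    simp only [Finset.mem_union, Finset.mem_filter, Finset.mem_compl, Finset.mem_insert,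
      Finset.mem_univ, true_and]
    constructor
    · rintro (h | h)
      · exact h.2
      · exact h.2
    · intro h
      by_cases hu : u ∈ T
      · exact Or.inr ⟨hu, h⟩
      · refine Or.inl ⟨?_, h⟩
        rintro (h1 | h1)
        · rw [h1] at h
          exact lt_irrefl _ h
        · exact hu h1
  · rw [Finset.disjoint_left]
    intro u h1 h2
    rw [Finset.mem_filter, Finset.mem_compl] at h1
    rw [Finset.mem_filter] at h2
    exact h1.1 (Finset.mem_insert_of_mem h2.1)

private noncomputable def lcf_P (T : Finset S) : ℝ := ∏ v ∈ T, sgn ν v univ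

private theorem lcf_P_sq (T : Finset S) : lcf_P ν T * lcf_P ν T = 1 := by
  unfold lcf_P
  rw [← Finset.prod_mul_distrib]
  exact Finset.prod_eq_one fun v _ => lcf_sq ν v univ

private theorem lcf_P_insert {v : S} {T : Finset S} (hv : v ∉ T) :
    lcf_P ν (insert v T) = sgn ν v univ * lcf_P ν T := Finset.prod_insert hv

private theorem lcf_one {v : S} {T : Finset S} (hv : v ∉ T) :
    lcf_P ν T * sgn ν v (insert v T)ᶜ = sgn ν v T * lcf_P ν (insert v T) := by
  have h1 := lcf_sgn ν v T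
  have h2 := lcf_sq ν v T
  rw [lcf_P_insert ν hv, ← h1]
  linear_combination (-(lcf_P ν T * sgn ν v (insert v T)ᶜ)) * h2

private theorem lcf_two {v : S} {T : Finset S} (hv : v ∉ T) :
    sgn ν v (insert v T)ᶜ * lcf_P ν (insert v T) = lcf_P ν T * sgn ν v T := by
  have h1 := lcf_sgn ν v T
  have h2 := lcf_sq ν v (insert v T)ᶜ
  rw [lcf_P_insert ν hv, ← h1]
  linear_combination (lcf_P ν T * sgn ν v T) * h2

private theorem lcf_bdC {U : Type} [AddCommGroup U] [Module ℝ U] (z : Finset S → U)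
    (T : Finset S) :
    bdC ν (fun T => lcf_P ν T • z T) T = lcf_P ν T • bdS ν univ z T := by
  show ∑ v ∈ Tᶜ, sgn ν v (insert v T)ᶜ • lcf_P ν (insert v T) • z (insert v T) =
    lcf_P ν T • ∑ v ∈ univ \ T, sgn ν v T • z (insert v T)
  rw [Finset.smul_sum, ← Finset.compl_eq_univ_sdiff]
  refine Finset.sum_congr rfl fun v hv => ?_
  rw [smul_smul, smul_smul, lcf_two ν (Finset.mem_compl.1 hv)]

end Signs

theorem lc_univ {S : Type} [Fintype S] [DecidableEq S] (M : CoxeterMatrix S) [Finite M.Group]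
    {ν : S → ℕ} (hν : Function.Injective ν) (b : ℕ) (hb : Fintype.card S ≠ 2 * b) :
    LC (fun u v => M u v) ν univ b := by
  classical
  rcases lt_or_ge (Fintype.card S) b with hlt | hle
  · have h0 : ∀ T : Finset S, T.card ≠ b := fun T hT => by
      have := Finset.card_le_univ T
      omega
    exact ⟨0, 0, fun U _ _ J _ T _ T' _ hT => absurd hT (h0 T),
      fun U _ _ J _ T _ T' _ _ hT' => absurd hT' (h0 T'),
      fun U _ _ J _ z _ _ T _ hT => absurd hT (h0 T)⟩
  have : Fintype M.Group := Fintype.ofFinite _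
  obtain ⟨C, decC, finC, G, νC, cr, fc, F, i1, i2, E, Θ, D, δ, hX⟩ := exists_cox M hν
  obtain ⟨fk, hfk1, hfk2⟩ := exists_fk hX.fock
  have hfk : IsFk (fun u v => M u v) Θ D δ fk := ⟨hfk1, hfk2⟩
  obtain ⟨j, hj⟩ : ∃ j, b + j = Fintype.card S := ⟨Fintype.card S - b, by omega⟩
  have := hX.fin
  obtain ⟨H, Φ, hH, _, hid⟩ := exists_low νC G E j (hX.low j (by omega))
  choose wd hwd using M.toCoxeterSystem.wordProd_surjective
  have hcl : ∀ σ : Finset C, ∃ (w : M.Group) (T : Finset S), Cl G σ → σ = fc w T := by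
    intro σ
    by_cases h : Cl G σ
    · obtain ⟨w, T, hw⟩ := (hX.cl σ).1 h
      exact ⟨w, T, fun _ => hw⟩
    · exact ⟨1, ∅, fun h' => absurd h' h⟩
  choose cw ct hct using hcl
  -- the average of a family in degree `b`
  have hmem : ∀ (X : (Finset C → F) →ₗ[ℝ] (Finset C → F)) (U : Type) [AddCommGroup U]
      [Module ℝ U] (J : S → Module.End ℝ U), JRel (fun u v => M u v) J univ →
      ∀ T T' : Finset S, ∀ y ∈ PP (fun u v => M u v) J T,
        FreeAlgebra.lift ℝ J ((lcf_P ν T' * lcf_P ν T) • hpol fk Θ δ cw ct fc wd X T' T) y ∈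
          PP (fun u v => M u v) J T' := by
    intro X U _ _ J hJ T T' y hy
    obtain ⟨A, hA⟩ := exists_homrep M (fock_jrel hX.fock) hJ
    have h1 := hpol_eq (fk := fk) (δ := δ) (fc := fc) hA cw ct hwd X (Pi.single T y) T'
    rw [Finset.sum_eq_single T] at h1
    · rw [Pi.single_eq_same] at h1
      rw [map_smul, LinearMap.smul_apply, h1]
      exact Submodule.smul_mem _ _ (Gav_mem hX hA hJ cw ct X (Pi.single T y) T')
    · intro T₁ _ hT₁
      rw [Pi.single_eq_of_ne hT₁, map_zero]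
    · intro h
      exact absurd (Finset.mem_univ T) h
  refine ⟨fun T' T => (lcf_P ν T' * lcf_P ν T) • hpol fk Θ δ cw ct fc wd Φ T' T,
    fun T' T => (lcf_P ν T' * lcf_P ν T) • hpol fk Θ δ cw ct fc wd H T' T,
    fun U _ _ J hJ T _ T' _ _ _ y hy => hmem Φ U J hJ T T' y hy,
    fun U _ _ J hJ T _ T' _ _ _ y hy => hmem H U J hJ T T' y hy, ?_⟩
  intro U _ _ J hJ z hz hzP T _ hT
  obtain ⟨A, hA⟩ := exists_homrep M (fock_jrel hX.fock) hJ
  have h1 := key_id hX hfk hA hJ cw ct hct hj hH hid (fun T => lcf_P ν T • z T)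
    (fun T => Submodule.smul_mem _ _ (hzP T)) T hT
  have h2 : ∀ T', Gav fk J A cw ct fc Φ (fun T => lcf_P ν T • z T) T' δ =
      ∑ T₁, lcf_P ν T₁ • FreeAlgebra.lift ℝ J (hpol fk Θ δ cw ct fc wd Φ T' T₁) (z T₁) := by
    intro T'
    rw [← hpol_eq (fk := fk) (δ := δ) (fc := fc) hA cw ct hwd Φ (fun T => lcf_P ν T • z T) T']
    exact Finset.sum_congr rfl fun T₁ _ => map_smul _ _ _
  have h3 : Gav fk J A cw ct fc H (bdC ν fun T => lcf_P ν T • z T) T δ =
      ∑ T₁, lcf_P ν T₁ • FreeAlgebra.lift ℝ J (hpol fk Θ δ cw ct fc wd H T T₁)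
        (bdS ν univ z T₁) := by
    rw [← hpol_eq (fk := fk) (δ := δ) (fc := fc) hA cw ct hwd H (bdC ν fun T => lcf_P ν T • z T) T]
    refine Finset.sum_congr rfl fun T₁ _ => ?_
    rw [lcf_bdC, map_smul]
  have h4 : ∀ T', ap J univ b
      (fun T' T => (lcf_P ν T' * lcf_P ν T) • hpol fk Θ δ cw ct fc wd Φ T' T) z T' =
      ∑ T₁, (lcf_P ν T' * lcf_P ν T₁) •
        FreeAlgebra.lift ℝ J (hpol fk Θ δ cw ct fc wd Φ T' T₁) (z T₁) := by
    intro T'
    unfold ap
    rw [Finset.powerset_univ, Finset.sum_filter]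
    refine Finset.sum_congr rfl fun T₁ _ => ?_
    split_ifs with hc
    · rw [map_smul, LinearMap.smul_apply]
    · have h5 : z T₁ = 0 := by
        by_contra h6
        exact hc (hz T₁ h6).2
      rw [h5, map_zero, smul_zero]
  have h5 : ap J univ (b - 1)
      (fun T' T => (lcf_P ν T' * lcf_P ν T) • hpol fk Θ δ cw ct fc wd H T' T)
        (bdS ν univ z) T =
      ∑ T₁, (lcf_P ν T * lcf_P ν T₁) •
        FreeAlgebra.lift ℝ J (hpol fk Θ δ cw ct fc wd H T T₁) (bdS ν univ z T₁) := by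
    unfold ap
    rw [Finset.powerset_univ, Finset.sum_filter]
    refine Finset.sum_congr rfl fun T₁ _ => ?_
    split_ifs with hc
    · rw [map_smul, LinearMap.smul_apply]
    · have h6 : bdS ν univ z T₁ = 0 := by
        by_contra h7
        have h8 : ∑ v ∈ univ \ T₁, sgn ν v T₁ • z (insert v T₁) ≠ 0 := h7
        obtain ⟨v, hv, hv'⟩ := Finset.exists_ne_zero_of_sum_ne_zero h8
        have h9 : z (insert v T₁) ≠ 0 := fun h0 => hv' (by rw [h0, smul_zero])
        have h10 := (hz _ h9).2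
        rw [Finset.card_insert_of_notMem (Finset.mem_sdiff.1 hv).2] at h10
        exact hc (by omega)
      rw [h6, map_zero, smul_zero]
  have h6 : z T = lcf_P ν T • (lcf_P ν T • z T) := by
    rw [smul_smul, lcf_P_sq, one_smul]
  have h1' : lcf_P ν T • z T = ∑ v ∈ Tᶜ, sgn ν v (insert v T)ᶜ •
      Gav fk J A cw ct fc Φ (fun T => lcf_P ν T • z T) (insert v T) δ +
        Gav fk J A cw ct fc H (bdC ν fun T => lcf_P ν T • z T) T δ := h1
  rw [h6, h1', h3, h5, smul_add, Finset.smul_sum, Finset.smul_sum,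
    ← Finset.compl_eq_univ_sdiff]
  congr 1
  · refine Finset.sum_congr rfl fun v hv => ?_
    rw [h2, h4, smul_smul, lcf_one ν (Finset.mem_compl.1 hv), ← smul_smul]
    congr 1
    rw [Finset.smul_sum]
    exact Finset.sum_congr rfl fun T₁ _ => smul_smul _ _ _
  · exact Finset.sum_congr rfl fun T₁ _ => smul_smul _ _ _

end Pool.Agent.H4.FD
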