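import Pool.Agent.H4.FD.FreeB

/-!
# Project FD: natural homotopies for a set of vertices from those of the type

`i : S → V` the inclusion, `J' s = J s.1`, `M' = rs M S`, `M' u v = M u.1 v.1`. For `T ⊆ S` let
`T^ = S.attach.filter (·.1 ∈ T) : Finset S` (or `T.subtype`); `T ↦ T^` is a bijection of the subsets of `S` with
`Finset S` (inverse `T' ↦ T'.image (·.1)` or `map`), it preserves cardinalities, and
`(insert v T)^ = insert v^ T^`, `sgn ν v T = sgn (ν ∘ (·.1)) v^ T^`.
`PP M J T = PP M' J' T^` (the words in `T` correspond to words in `T^`: `List.map` of lists; both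
inclusions are used). `JRel` for `J`, `S` gives `JRel` for `J'`, `univ`. Define
`h T' T = FreeAlgebra.lift ℝ (fun s => ι s.1) (h' T'^ T^)`; then `lift J (h T' T) = lift J' (h' T'^ T^)`
(`lift_comp`), the same for `φ`. A family `z` on `V` gives `z' T' = z (image of T')`. The sums over
`S.powerset.filter (card = b)` and `univ.powerset.filter (card = b)` correspond.
-/

set_option autoImplicit false

open Finset

namespace Pool.Agent.H4.FD

open Pool.Agent.H85.Fold Pool.Agent.H4.FC

section Sub

variable {V : Type} [DecidableEq V]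

/-- the trace of a subset of the vertices on the type `S` -/
private def up (S T : Finset V) : Finset S := T.subtype (fun x => x ∈ S)

/-- the subset of the vertices of a finset of the type `S` -/
private def dn (S : Finset V) (T : Finset S) : Finset V :=
  T.map (Function.Embedding.subtype (fun x => x ∈ S))

private lemma mem_up (S T : Finset V) (v : S) : v ∈ up S T ↔ v.1 ∈ T := by
  unfold up
  exact Finset.mem_subtype

omit [DecidableEq V] in
private lemma mem_dn (S : Finset V) (T : Finset S) (v : V) :
    v ∈ dn S T ↔ ∃ h : v ∈ S, (⟨v, h⟩ : S) ∈ T := by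
  unfold dn
  simp

private lemma dn_up (S T : Finset V) (hT : T ⊆ S) : dn S (up S T) = T := by
  ext v
  rw [mem_dn]
  constructor
  · rintro ⟨h, h'⟩
    exact (mem_up S T _).1 h'
  · intro h
    exact ⟨hT h, (mem_up S T _).2 h⟩

private lemma up_dn (S : Finset V) (T : Finset S) : up S (dn S T) = T := by
  ext v
  rw [mem_up, mem_dn]
  exact ⟨fun ⟨_, h⟩ => h, fun h => ⟨v.2, h⟩⟩

omit [DecidableEq V] in
private lemma dn_sub (S : Finset V) (T : Finset S) : dn S T ⊆ S := by
  intro v hv
  rw [mem_dn] at hv
  exact hv.1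

omit [DecidableEq V] in
private lemma card_dn (S : Finset V) (T : Finset S) : (dn S T).card = T.card := by
  unfold dn
  exact Finset.card_map _

private lemma card_up (S T : Finset V) (hT : T ⊆ S) : (up S T).card = T.card := by
  rw [← card_dn, dn_up S T hT]

private lemma up_insert (S T : Finset V) (v : S) : up S (insert v.1 T) = insert v (up S T) := by
  ext u
  rw [mem_up, Finset.mem_insert, Finset.mem_insert, mem_up, Subtype.ext_iff]

private lemma dn_insert (S T : Finset V) (hT : T ⊆ S) (v : S) :
    dn S (insert v (up S T)) = insert v.1 T := by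
  rw [← up_insert, dn_up]
  intro u hu
  rw [Finset.mem_insert] at hu
  rcases hu with rfl | hu
  · exact v.2
  · exact hT hu

private lemma LCsub_sum {Z : Type} [AddCommMonoid Z] (S T : Finset V) (g : V → Z) :
    ∑ v ∈ S \ T, g v = ∑ v ∈ univ \ up S T, g v.1 := by
  have h : S \ T = dn S (univ \ up S T) := by
    ext v
    rw [mem_dn, Finset.mem_sdiff]
    constructor
    · rintro ⟨h1, h2⟩
      refine ⟨h1, ?_⟩
      rw [Finset.mem_sdiff, mem_up]
      exact ⟨Finset.mem_univ _, h2⟩
    · rintro ⟨h1, h2⟩
      rw [Finset.mem_sdiff, mem_up] at h2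
      exact ⟨h1, h2.2⟩
  rw [h]
  unfold dn
  rw [Finset.sum_map]
  rfl

private lemma sgn_up (ν : V → ℕ) (S T : Finset V) (hT : T ⊆ S) (v : S) :
    sgn (fun u : S => ν u.1) v (up S T) = sgn ν v.1 T := by
  unfold sgn
  congr 1
  have h : T.filter (fun u => ν u < ν v.1) =
      dn S ((up S T).filter (fun u => ν u.1 < ν v.1)) := by
    ext u
    rw [mem_dn, Finset.mem_filter]
    constructor
    · rintro ⟨h1, h2⟩
      refine ⟨hT h1, ?_⟩
      rw [Finset.mem_filter, mem_up]
      exact ⟨h1, h2⟩
    · rintro ⟨h1, h2⟩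
      rw [Finset.mem_filter, mem_up] at h2
      exact h2
  rw [h, card_dn]

variable {U : Type} [AddCommGroup U] [Module ℝ U]

omit [DecidableEq V] in
private lemma sub_rel (M : CoxeterMatrix V) (S : Finset V) (J : V → Module.End ℝ U)
    (hJ : JRel (fun u v => M u v) J S) :
    JRel (fun u v : S => rs M S u v) (fun s : S => J s.1) univ where
  sq v _ := hJ.sq v.1 v.2
  rel u _ v _ huv := hJ.rel u.1 u.2 v.1 v.2 fun h => huv (Subtype.ext h)

private lemma sub_PP (M : CoxeterMatrix V) (S : Finset V) (J : V → Module.End ℝ U)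
    (T : Finset V) (hT : T ⊆ S) (y : U) :
    y ∈ PP (fun u v => M u v) J T ↔
      y ∈ PP (fun u v : S => rs M S u v) (fun s : S => J s.1) (up S T) := by
  constructor
  · intro hy l hl u hu v hv huv
    have h1 := hy (l.map (fun s : S => s.1)) ?_ u.1 ((mem_up S T u).1 hu) v.1
      ((mem_up S T v).1 hv) fun h => huv (Subtype.ext h)
    · rw [List.map_map] at h1
      exact h1
    · intro w hw
      rw [List.mem_map] at hw
      obtain ⟨s, hs, rfl⟩ := hw
      exact (mem_up S T s).1 (hl s hs)
  · intro hy l hl u hu v hv huv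
    have hlS : ∀ w ∈ l, w ∈ S := fun w hw => hT (hl w hw)
    set l' : List S := l.pmap (fun w hw => (⟨w, hw⟩ : S)) hlS with hl'
    have hl2 : l'.map (fun s : S => J s.1) = l.map J := by
      rw [hl', List.map_pmap, List.pmap_eq_map]
    have h1 := hy l' ?_ (⟨u, hT hu⟩ : S) ((mem_up S T _).2 hu) (⟨v, hT hv⟩ : S)
      ((mem_up S T _).2 hv) fun h => huv (congrArg Subtype.val h)
    · rw [hl2] at h1
      exact h1
    · intro w hw
      rw [hl', List.mem_pmap] at hw
      obtain ⟨a, ha, rfl⟩ := hw
      exact (mem_up S T _).2 (hl a ha)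

/-- the matrix of polynomials of the set of vertices -/
private noncomputable def tr (S : Finset V) (h : Finset S → Finset S → FreeAlgebra ℝ S)
    (T' T : Finset V) : FreeAlgebra ℝ V :=
  FreeAlgebra.lift ℝ (fun s : S => FreeAlgebra.ι ℝ s.1) (h (up S T') (up S T))

private lemma lift_tr (S : Finset V) (h : Finset S → Finset S → FreeAlgebra ℝ S)
    (T' T : Finset V) (J : V → Module.End ℝ U) :
    FreeAlgebra.lift ℝ J (tr S h T' T) =
      FreeAlgebra.lift ℝ (fun s : S => J s.1) (h (up S T') (up S T)) := by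
  unfold tr
  exact lift_comp J (fun s : S => s.1) _

private lemma ap_tr (S : Finset V) (h : Finset S → Finset S → FreeAlgebra ℝ S)
    (J : V → Module.End ℝ U) (b : ℕ) (z : Finset V → U) (z' : Finset S → U)
    (hz : ∀ T ⊆ S, z T = z' (up S T)) (T' : Finset V) :
    ap J S b (tr S h) z T' = ap (fun s : S => J s.1) univ b h z' (up S T') := by
  unfold ap
  refine Finset.sum_bij' (fun T _ => up S T) (fun T _ => dn S T) ?_ ?_ ?_ ?_ ?_
  · intro T hT
    rw [Finset.mem_filter, Finset.mem_powerset] at hT
    rw [Finset.mem_filter, Finset.mem_powerset]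
    exact ⟨Finset.subset_univ _, by rw [card_up S T hT.1]; exact hT.2⟩
  · intro T hT
    rw [Finset.mem_filter] at hT
    rw [Finset.mem_filter, Finset.mem_powerset]
    exact ⟨dn_sub S T, by rw [card_dn]; exact hT.2⟩
  · intro T hT
    rw [Finset.mem_filter, Finset.mem_powerset] at hT
    exact dn_up S T hT.1
  · intro T _
    exact up_dn S T
  · intro T hT
    rw [Finset.mem_filter, Finset.mem_powerset] at hT
    rw [lift_tr, hz T hT.1]

private lemma bdS_up (ν : V → ℕ) (S : Finset V) (z : Finset V → U) (T : Finset V) (hT : T ⊆ S) :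
    bdS ν S z T = bdS (fun u : S => ν u.1) univ (fun T' => z (dn S T')) (up S T) := by
  change ∑ v ∈ S \ T, sgn ν v T • z (insert v T) =
    ∑ v ∈ univ \ up S T, sgn (fun u : S => ν u.1) v (up S T) • z (dn S (insert v (up S T)))
  rw [LCsub_sum]
  refine Finset.sum_congr rfl fun v _ => ?_
  rw [sgn_up ν S T hT v, dn_insert S T hT v]

end Sub

theorem lc_sub {V : Type} [DecidableEq V] (M : CoxeterMatrix V) (ν : V → ℕ) (S : Finset V)
    (b : ℕ) (h : LC (fun u v : S => rs M S u v) (fun v : S => ν v.1) univ b) :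
    LC (fun u v => M u v) ν S b := by
  obtain ⟨h', φ', H⟩ := h
  refine ⟨tr S h', tr S φ', ?_, ?_, ?_⟩
  · intro U _ _ J hJ T hT T' hT' hb hb' y hy
    rw [lift_tr, sub_PP M S J T' hT']
    refine H.h_mem U _ (sub_rel M S J hJ) (up S T) (Finset.subset_univ _) (up S T')
      (Finset.subset_univ _) ?_ ?_ y ((sub_PP M S J T hT y).1 hy)
    · rw [card_up S T hT]; exact hb
    · rw [card_up S T' hT']; exact hb'
  · intro U _ _ J hJ T hT T' hT' hb hb' y hy
    rw [lift_tr, sub_PP M S J T' hT']
    refine H.φ_mem U _ (sub_rel M S J hJ) (up S T) (Finset.subset_univ _) (up S T')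
      (Finset.subset_univ _) ?_ ?_ y ((sub_PP M S J T hT y).1 hy)
    · rw [card_up S T hT]; exact hb
    · rw [card_up S T' hT']; exact hb'
  · intro U _ _ J hJ z hz1 hz2 T hT hTb
    have h1 := H.id U _ (sub_rel M S J hJ) (fun T' => z (dn S T')) ?_ ?_ (up S T)
      (Finset.subset_univ _) (by rw [card_up S T hT]; exact hTb)
    · have hz : ∀ T ⊆ S, z T = (fun T' => z (dn S T')) (up S T) := by
        intro T hT
        change z T = z (dn S (up S T))
        rw [dn_up S T hT]
      refine (hz T hT).trans (h1.trans ?_)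
      rw [LCsub_sum S T (fun v => sgn ν v T • ap J S b (tr S h') z (insert v T))]
      refine congrArg₂ (· + ·) ?_ ?_
      · refine Finset.sum_congr rfl fun v _ => ?_
        rw [ap_tr S h' J b z (fun T' => z (dn S T')) hz, sgn_up ν S T hT v, up_insert]
      · rw [ap_tr S φ' J (b - 1) (bdS ν S z)
          (bdS (fun u : S => ν u.1) univ (fun T' => z (dn S T'))) (bdS_up ν S z)]
    · intro T' hT'
      refine ⟨Finset.subset_univ _, ?_⟩
      rw [← card_dn]
      exact (hz1 _ hT').2
    · intro T'
      have h2 := (sub_PP M S J (dn S T') (dn_sub S T') (z (dn S T'))).1 (hz2 _)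
      rw [up_dn] at h2
      exact h2

end Pool.Agent.H4.FD
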