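import Pool.Agent.H4.FD.LCfin
import Pool.Agent.H4.FD.LCsub
import Pool.Agent.H4.FD.FinRs

/-!
# Project FD: natural homotopies for spherical subsets
-/

set_option autoImplicit false

open Finset

namespace Pool.Agent.H4.FD

open Pool.Agent.H85.Fold Pool.Agent.H4.FC

theorem lc_of_sph {V : Type} [Fintype V] [DecidableEq V] (M : CoxeterMatrix V) {ν : V → ℕ}
    (hν : Function.Injective ν) (S : Finset V) (hS : Sph M S) (b : ℕ) (hb : S.card ≠ 2 * b) :
    LC (fun u v => M u v) ν S b := by
  have := finite_rs M S hS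
  refine lc_sub M ν S b (lc_univ (rs M S) ?_ b ?_)
  · intro u v huv
    exact Subtype.ext (hν huv)
  · rw [Fintype.card_coe]
    exact hb

end Pool.Agent.H4.FD
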