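import Pool.Agent.H4.FD.PPlem
import Pool.Agent.H4.FD.CDefs

/-!
# Project FD: normal form of words

Let `L = (univ : Finset S).toList` (no duplicates, contains all), `sl A = L.filter (· ∈ A)`.
Write `[A] y` for `((sl A).map J).prod y`. Order `S` by the position in `L` (for instance
`L.idxOf`).

`nf_insert`: for `v : S` and `A : Finset S` there are coefficients `c : Finset S → ℝ`, nonzero only at
subsets `B ⊆ insert v A`, such that `J v ([A] y) = ∑ B, c B • [B] y` for all `U`, `J`, `T ∋ v`, `A ⊆ T`,
`y ∈ PP m J T`, `J u * J u = 1` for `u ∈ T`. Strong induction on `A.card`.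
If `A = ∅` or `v` is before all elements of `A`: `sl (insert v A) = v :: sl A`.
Otherwise let `a` be the first element of `A`, `A' = A.erase a`, `sl A = a :: sl A'`.
`v = a`: `J a (J a z) = z`, `[A'] y`. `v ≠ a`, then `a` is before `v`; with `z = [A'] y ∈ PP` (`PP_list`):
`J v (J a z) = -J a (J v z) + cc m v a • z` (`PP_rel`), and by induction `J v z = ∑ B, c B • [B] y` with
`B ⊆ insert v A'`; all elements of such `B` are after `a`, so `J a ([B] y) = [insert a B] y`.

`nf`: induction on `l` with `nf_insert` (for `l = v :: l'`: `J v (∑ c A • [A] y)`).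
-/

set_option autoImplicit false

open Finset

namespace Pool.Agent.H4.FD

open Pool.Agent.H85.Fold Pool.Agent.H4.FC

variable {S : Type} [Fintype S] [DecidableEq S]

omit [Fintype S] in
private lemma NF_mem (x : S) (L : List S) (A : Finset S) (h : x ∈ A) :
    (x :: L).filter (fun u => u ∈ A) = x :: L.filter (fun u => u ∈ A) :=
  List.filter_cons_of_pos (by simpa using h)

omit [Fintype S] in
private lemma NF_not (x : S) (L : List S) (A : Finset S) (h : x ∉ A) :
    (x :: L).filter (fun u => u ∈ A) = L.filter (fun u => u ∈ A) :=
  List.filter_cons_of_neg (by simpa using h)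

omit [Fintype S] in
private lemma NF_ins (x : S) (L : List S) (A : Finset S) (h : x ∉ L) :
    L.filter (fun u => u ∈ insert x A) = L.filter (fun u => u ∈ A) := by
  refine List.filter_congr fun u hu => ?_
  have hux : u ≠ x := by
    rintro rfl
    exact h hu
  simp [Finset.mem_insert, hux]

omit [Fintype S] in
private lemma NF_ers (x : S) (L : List S) (A : Finset S) (h : x ∉ L) :
    L.filter (fun u => u ∈ A.erase x) = L.filter (fun u => u ∈ A) := by
  refine List.filter_congr fun u hu => ?_
  have hux : u ≠ x := by
    rintro rfl
    exact h hu
  simp [Finset.mem_erase, hux]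

private lemma NF_sum {U : Type} [AddCommGroup U] [Module ℝ U] (w : Finset S → U)
    (A : Finset S) (r : ℝ) : ∑ B, (Pi.single A r : Finset S → ℝ) B • w B = r • w A := by
  rw [Finset.sum_eq_single A]
  · rw [Pi.single_eq_same]
  · intro B _ hB
    rw [Pi.single_eq_of_ne hB, zero_smul]
  · intro h
    exact absurd (Finset.mem_univ A) h

private lemma NF_key (m : S → S → ℕ) : ∀ L : List S, L.Nodup → ∀ v ∈ L, ∀ A : Finset S,
    ∃ c : Finset S → ℝ, (∀ B, ¬ B ⊆ insert v A → c B = 0) ∧
      ∀ (U : Type) [AddCommGroup U] [Module ℝ U] (J : S → Module.End ℝ U) (T : Finset S) (y : U),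
        (∀ u ∈ T, J u * J u = 1) → v ∈ T → A ⊆ T → y ∈ PP m J T →
          J v (((L.filter (fun u => u ∈ A)).map J).prod y) =
            ∑ B, c B • ((L.filter (fun u => u ∈ B)).map J).prod y := by
  intro L
  induction L with
  | nil =>
    intro _ v hv
    exact absurd hv List.not_mem_nil
  | cons x L ih =>
    intro hnd v hv A
    obtain ⟨hxL, hndL⟩ := List.nodup_cons.1 hnd
    by_cases hvx : v = x
    · subst hvx
      by_cases hxA : v ∈ A
      · refine ⟨Pi.single (A.erase v) 1, ?_, ?_⟩
        · intro B hB
          refine Pi.single_eq_of_ne (fun h => hB ?_) _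
          rw [h]
          exact (Finset.erase_subset _ _).trans (Finset.subset_insert _ _)
        · intro U _ _ J T y hsq hvT hAT hy
          rw [NF_sum, one_smul, NF_mem v L A hxA, NF_not v L _ (Finset.notMem_erase v A),
            NF_ers v L A hxL, List.map_cons, List.prod_cons, Module.End.mul_apply]
          have h1 := congrArg (fun f : Module.End ℝ U =>
            f (((L.filter (fun u => u ∈ A)).map J).prod y)) (hsq v hvT)
          exact h1
      · refine ⟨Pi.single (insert v A) 1, ?_, ?_⟩
        · intro B hB
          refine Pi.single_eq_of_ne (fun h => hB ?_) _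
          rw [h]
        · intro U _ _ J T y hsq hvT hAT hy
          rw [NF_sum, one_smul, NF_not v L A hxA, NF_mem v L _ (Finset.mem_insert_self v A),
            NF_ins v L A hxL, List.map_cons, List.prod_cons, Module.End.mul_apply]
    · have hvL : v ∈ L := by
        rcases List.mem_cons.1 hv with h | h
        · exact absurd h hvx
        · exact h
      by_cases hxA : x ∈ A
      · obtain ⟨c', hc', H⟩ := ih hndL v hvL (A.erase x)
        refine ⟨fun B => -(∑ B', c' B' * (Pi.single (insert x B') 1 : Finset S → ℝ) B) +
          (Pi.single (A.erase x) (cc m v x) : Finset S → ℝ) B, ?_, ?_⟩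
        · intro B hB
          have h1 : ∀ B' : Finset S, c' B' * (Pi.single (insert x B') 1 : Finset S → ℝ) B = 0 := by
            intro B'
            by_cases h2 : B' ⊆ insert v (A.erase x)
            · rw [Pi.single_eq_of_ne, mul_zero]
              rintro rfl
              apply hB
              intro u hu
              rw [Finset.mem_insert] at hu
              rcases hu with rfl | hu
              · exact Finset.mem_insert_of_mem hxA
              · have h3 := h2 hu
                rw [Finset.mem_insert] at h3 ⊢
                rcases h3 with h3 | h3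
                · exact Or.inl h3
                · exact Or.inr (Finset.mem_of_mem_erase h3)
            · rw [hc' B' h2, zero_mul]
          have h4 : (Pi.single (A.erase x) (cc m v x) : Finset S → ℝ) B = 0 := by
            refine Pi.single_eq_of_ne (fun h => hB ?_) _
            rw [h]
            exact (Finset.erase_subset _ _).trans (Finset.subset_insert _ _)
          change -(∑ B', c' B' * (Pi.single (insert x B') 1 : Finset S → ℝ) B) +
            (Pi.single (A.erase x) (cc m v x) : Finset S → ℝ) B = 0
          rw [h4, Finset.sum_eq_zero fun B' _ => h1 B', neg_zero, add_zero]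
        · intro U _ _ J T y hsq hvT hAT hy
          have hA' : A.erase x ⊆ T := (Finset.erase_subset _ _).trans hAT
          have h1 := H U J T y hsq hvT hA' hy
          set w : Finset S → U := fun B => (((x :: L).filter (fun u => u ∈ B)).map J).prod y
            with hw
          set w' : Finset S → U := fun B => ((L.filter (fun u => u ∈ B)).map J).prod y with hw'
          have hw1 : ∀ B : Finset S, J x (w' B) = w (insert x B) := by
            intro B
            change J x (((L.filter (fun u => u ∈ B)).map J).prod y) =
              (((x :: L).filter (fun u => u ∈ insert x B)).map J).prod y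
            rw [NF_mem x L _ (Finset.mem_insert_self x B), NF_ins x L B hxL, List.map_cons,
              List.prod_cons, Module.End.mul_apply]
          have hw2 : w (A.erase x) = w' (A.erase x) := by
            change (((x :: L).filter (fun u => u ∈ A.erase x)).map J).prod y = _
            rw [NF_not x L _ (Finset.notMem_erase x A)]
          have hz : w' (A.erase x) ∈ PP m J T := by
            refine PP_list hy _ fun u hu => ?_
            rw [List.mem_filter] at hu
            exact hA' (by simpa using hu.2)
          have h2 := PP_rel hz hvT (hAT hxA) hvx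
          have h3 : J v (w' (A.erase x)) = ∑ B, c' B • w' B := h1
          have h4 : (((x :: L).filter (fun u => u ∈ A)).map J).prod y =
              J x (w' (A.erase x)) := by
            rw [hw1, Finset.insert_erase hxA]
          rw [h4]
          have h5 : J v (J x (w' (A.erase x))) =
              -(J x (J v (w' (A.erase x)))) + cc m v x • w' (A.erase x) := by
            rw [← h2]; abel
          rw [h5, h3, map_sum, ← hw2]
          have h6 : ∀ B : Finset S, (-(∑ B', c' B' * (Pi.single (insert x B') 1 :
              Finset S → ℝ) B) + (Pi.single (A.erase x) (cc m v x) : Finset S → ℝ) B) • w B =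
              -(∑ B', c' B' • ((Pi.single (insert x B') 1 : Finset S → ℝ) B • w B)) +
                (Pi.single (A.erase x) (cc m v x) : Finset S → ℝ) B • w B := by
            intro B
            rw [add_smul, neg_smul, Finset.sum_smul]
            simp only [smul_smul]
          change _ = ∑ B, (-(∑ B', c' B' * (Pi.single (insert x B') 1 :
              Finset S → ℝ) B) + (Pi.single (A.erase x) (cc m v x) : Finset S → ℝ) B) • w B
          rw [Finset.sum_congr rfl fun B _ => h6 B, Finset.sum_add_distrib, NF_sum,
            Finset.sum_neg_distrib, Finset.sum_comm]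
          congr 2
          refine Finset.sum_congr rfl fun B _ => ?_
          rw [← Finset.smul_sum, NF_sum, one_smul, map_smul, hw1]
      · obtain ⟨c', hc', H⟩ := ih hndL v hvL A
        refine ⟨c', hc', ?_⟩
        intro U _ _ J T y hsq hvT hAT hy
        rw [NF_not x L A hxA, H U J T y hsq hvT hAT hy]
        refine Finset.sum_congr rfl fun B _ => ?_
        by_cases h2 : B ⊆ insert v A
        · have hxB : x ∉ B := by
            intro h3
            have h4 := h2 h3
            rw [Finset.mem_insert] at h4
            rcases h4 with h4 | h4
            · exact hvx h4.symm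
            · exact hxA h4
          rw [NF_not x L B hxB]
        · rw [hc' B h2, zero_smul, zero_smul]

theorem nf_insert (m : S → S → ℕ) (v : S) (A : Finset S) :
    ∃ c : Finset S → ℝ, (∀ B, c B ≠ 0 → B ⊆ insert v A) ∧
      ∀ (U : Type) [AddCommGroup U] [Module ℝ U] (J : S → Module.End ℝ U) (T : Finset S) (y : U),
        (∀ u ∈ T, J u * J u = 1) → v ∈ T → A ⊆ T → y ∈ PP m J T →
          J v (((sl A).map J).prod y) = ∑ B, c B • ((sl B).map J).prod y := by
  obtain ⟨c, hc, H⟩ := NF_key m (univ : Finset S).toList (Finset.nodup_toList _) v
    (Finset.mem_toList.2 (Finset.mem_univ v)) A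
  refine ⟨c, fun B hB => ?_, H⟩
  by_contra h
  exact hB (hc B h)

theorem nf (m : S → S → ℕ) (l : List S) :
    ∃ c : Finset S → ℝ, (∀ B, c B ≠ 0 → ∀ v ∈ B, v ∈ l) ∧
      ∀ (U : Type) [AddCommGroup U] [Module ℝ U] (J : S → Module.End ℝ U) (T : Finset S) (y : U),
        (∀ u ∈ T, J u * J u = 1) → (∀ v ∈ l, v ∈ T) → y ∈ PP m J T →
          (l.map J).prod y = ∑ B, c B • ((sl B).map J).prod y := by
  induction l with
  | nil =>
    refine ⟨Pi.single ∅ 1, ?_, ?_⟩
    · intro B hB v hv
      by_cases h : B = ∅
      · rw [h] at hv
        exact absurd hv (Finset.notMem_empty v)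
      · exact absurd (Pi.single_eq_of_ne h _) hB
    · intro U _ _ J T y _ _ _
      rw [NF_sum, one_smul]
      have h1 : sl (∅ : Finset S) = [] := by
        unfold sl
        rw [List.filter_eq_nil_iff]
        intro u _
        simp
      rw [h1]
  | cons v l ih =>
    obtain ⟨c, hc, H⟩ := ih
    choose d hd H' using fun A : Finset S => nf_insert m v A
    refine ⟨fun B => ∑ A, c A * d A B, ?_, ?_⟩
    · intro B hB u hu
      obtain ⟨A, -, hA⟩ := Finset.exists_ne_zero_of_sum_ne_zero hB
      have h1 : c A ≠ 0 := left_ne_zero_of_mul hA
      have h2 : d A B ≠ 0 := right_ne_zero_of_mul hA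
      have h3 := hd A B h2 hu
      rw [Finset.mem_insert] at h3
      rcases h3 with h3 | h3
      · rw [h3]; exact List.mem_cons_self
      · exact List.mem_cons_of_mem _ (hc A h1 u h3)
    · intro U _ _ J T y hsq hl hy
      rw [List.map_cons, List.prod_cons, Module.End.mul_apply,
        H U J T y hsq (fun u hu => hl u (List.mem_cons_of_mem _ hu)) hy, map_sum]
      have h4 : ∀ A : Finset S, J v (c A • ((sl A).map J).prod y) =
          ∑ B, (c A * d A B) • ((sl B).map J).prod y := by
        intro A
        by_cases h5 : c A = 0
        · rw [h5, zero_smul, map_zero]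
          simp
        · have hAT : A ⊆ T := fun u hu => hl u (List.mem_cons_of_mem _ (hc A h5 u hu))
          rw [map_smul, H' A U J T y hsq (hl v List.mem_cons_self) hAT hy, Finset.smul_sum]
          refine Finset.sum_congr rfl fun B _ => ?_
          rw [smul_smul]
      rw [Finset.sum_congr rfl fun A _ => h4 A, Finset.sum_comm]
      refine Finset.sum_congr rfl fun B _ => ?_
      rw [Finset.sum_smul]

end Pool.Agent.H4.FD
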