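import Mathlib

set_option autoImplicit false

/-!
The group `S ∪ S u` for an element `u` that centralises `S` with `u² ∈ S`.
-/

namespace ALoop

variable {M : Type*} [Group M]

/-- `S ∪ S u` -/
def Pgrp (S : Subgroup M) (u : M) (hu : ∀ s ∈ S, s * u = u * s) (hu2 : u * u ∈ S) :
    Subgroup M where
  carrier := {p | p ∈ S ∨ p * u ∈ S}
  one_mem' := Or.inl S.one_mem
  mul_mem' := by
    rintro p q (hp | hp) (hq | hq)
    · exact Or.inl (S.mul_mem hp hq)
    · right
      rw [mul_assoc]; exact S.mul_mem hp hq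
    · right
      have h1 : p * q * u = p * u * q := by rw [mul_assoc, hu q hq, mul_assoc]
      rw [h1]; exact S.mul_mem hp hq
    · left
      have h1 : p * q = (p * u) * (q * u) * (u * u)⁻¹ := by
        have h2 := hu _ hq
        have h3 : u⁻¹ * (q * u) * u = q * u := by rw [mul_assoc, h2]; group
        calc p * q = p * u * (u⁻¹ * (q * u) * u) * (u * u)⁻¹ := by group
          _ = (p * u) * (q * u) * (u * u)⁻¹ := by rw [h3]
      rw [h1]
      exact S.mul_mem (S.mul_mem hp hq) (S.inv_mem hu2)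
  inv_mem' := by
    rintro p (hp | hp)
    · exact Or.inl (S.inv_mem hp)
    · right
      have h1 := hu _ (S.inv_mem hp)
      have h2 : p⁻¹ * u = (p * u)⁻¹ * (u * u) := by
        calc p⁻¹ * u = u * (p * u)⁻¹ * u := by group
          _ = (p * u)⁻¹ * u * u := by rw [h1]
          _ = _ := by group
      rw [h2]
      exact S.mul_mem (S.inv_mem hp) hu2

theorem mem_Pgrp {S : Subgroup M} {u : M} {hu : ∀ s ∈ S, s * u = u * s} {hu2 : u * u ∈ S}
    {p : M} : p ∈ Pgrp S u hu hu2 ↔ p ∈ S ∨ p * u ∈ S := Iff.rfl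

theorem card_Pgrp [Finite M] {S : Subgroup M} {u : M} {hu : ∀ s ∈ S, s * u = u * s}
    {hu2 : u * u ∈ S} (hne : u ∉ S) : Nat.card (Pgrp S u hu hu2) = 2 * Nat.card S := by
  rw [two_mul, ← Nat.card_sum]
  symm
  let f : S ⊕ S → Pgrp S u hu hu2 := Sum.elim (fun s => ⟨s, Or.inl s.2⟩)
    (fun s => ⟨s * u⁻¹, Or.inr (by rw [inv_mul_cancel_right]; exact s.2)⟩)
  refine Nat.card_eq_of_bijective f ⟨?_, ?_⟩
  · intro a b hab
    have hab' : ((f a : Pgrp S u hu hu2) : M) = f b := by rw [hab]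
    rcases a with a | a <;> rcases b with b | b
    · have h1 : (a : M) = b := hab'
      rw [Subtype.ext h1]
    · exfalso
      have h1 : (a : M) = b * u⁻¹ := hab'
      apply hne
      have h2 : u = (a : M)⁻¹ * b := by rw [h1]; group
      rw [h2]
      exact S.mul_mem (S.inv_mem a.2) b.2
    · exfalso
      have h1 : (a : M) * u⁻¹ = b := hab'
      apply hne
      have h2 : u = (b : M)⁻¹ * a := by rw [← h1]; group
      rw [h2]
      exact S.mul_mem (S.inv_mem b.2) a.2
    · have h1 : (a : M) * u⁻¹ = b * u⁻¹ := hab'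
      rw [Subtype.ext (mul_right_cancel h1)]
  · rintro ⟨p, hp | hp⟩
    · exact ⟨Sum.inl ⟨p, hp⟩, rfl⟩
    · refine ⟨Sum.inr ⟨p * u, hp⟩, ?_⟩
      apply Subtype.ext
      change p * u * u⁻¹ = p
      rw [mul_inv_cancel_right]

theorem isPGroup_Pgrp [Finite M] {S : Subgroup M} (hS : IsPGroup 2 S) {u : M}
    {hu : ∀ s ∈ S, s * u = u * s} {hu2 : u * u ∈ S} (hne : u ∉ S) :
    IsPGroup 2 (Pgrp S u hu hu2) := by
  have : Fact (Nat.Prime 2) := ⟨Nat.prime_two⟩
  rw [IsPGroup.iff_card] at hS ⊢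
  obtain ⟨n, hn⟩ := hS
  exact ⟨n + 1, by rw [card_Pgrp hne, hn, pow_succ, mul_comm]⟩

end ALoop
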