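import Mathlib

set_option autoImplicit false

/-!
# Syl: Sylow 2-subgroups as subgroups of a finite group
-/

namespace ALoop

variable {M : Type*} [Group M]

/-- `S` is a Sylow 2-subgroup of `K`. -/
def IsSyl (K S : Subgroup M) : Prop := S ≤ K ∧ IsPGroup 2 S ∧ ¬ 2 ∣ S.relIndex K

theorem exists_syl [Finite M] (K : Subgroup M) : ∃ S, IsSyl K S := by
  obtain ⟨P⟩ : Nonempty (Sylow 2 K) := inferInstance
  refine ⟨(P : Subgroup K).map K.subtype, Subgroup.map_subtype_le _, P.isPGroup'.map _, ?_⟩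
  have h1 : (((P : Subgroup K).map K.subtype).subgroupOf K) = (P : Subgroup K) := by
    unfold Subgroup.subgroupOf
    exact Subgroup.comap_map_eq_self_of_injective K.subtype_injective _
  unfold Subgroup.relIndex
  rw [h1]
  exact P.not_dvd_index

theorem mem_conj {T : Subgroup M} {g x : M} :
    x ∈ T.map (MulAut.conj g).toMonoidHom ↔ g⁻¹ * x * g ∈ T := by
  constructor
  · rintro ⟨t, ht, rfl⟩
    have : g⁻¹ * ((MulAut.conj g).toMonoidHom t) * g = t := by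
      simp [MulAut.conj_apply, mul_assoc]
    rw [this]
    exact ht
  · intro h
    refine ⟨g⁻¹ * x * g, h, ?_⟩
    simp [MulAut.conj_apply, mul_assoc]

theorem isPGroup_conj {T : Subgroup M} (hT : IsPGroup 2 T) (g : M) :
    IsPGroup 2 (T.map (MulAut.conj g).toMonoidHom) := hT.map _

theorem IsSyl.conj_mem [Finite M] {K S T : Subgroup M} (hS : IsSyl K S) (hT : IsPGroup 2 T) (g : M)
    (hTK : ∀ t ∈ T, g⁻¹ * t * g ∈ K) : ∃ c ∈ K, ∀ t ∈ T, c * (g⁻¹ * t * g) * c⁻¹ ∈ S := by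
  obtain ⟨hSK, hS2, hSi⟩ := hS
  have h2 : IsPGroup 2 (S.subgroupOf K) := hS2.comap_of_injective K.subtype K.subtype_injective
  let S' : Sylow 2 K := h2.toSylow hSi
  have h3 : IsPGroup 2 ((T.map (MulAut.conj g⁻¹).toMonoidHom).subgroupOf K) :=
    (isPGroup_conj hT g⁻¹).comap_of_injective K.subtype K.subtype_injective
  obtain ⟨Q, hQ⟩ := h3.exists_le_sylow
  obtain ⟨c, hc⟩ := MulAction.exists_smul_eq K Q S'
  refine ⟨c, c.2, fun t ht => ?_⟩
  have h4 : (⟨g⁻¹ * t * g, hTK t ht⟩ : K) ∈ Q := by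
    apply hQ
    rw [Subgroup.mem_subgroupOf, mem_conj]
    simpa [mul_assoc] using ht
  have h5 : c * ⟨g⁻¹ * t * g, hTK t ht⟩ * c⁻¹ ∈ (S' : Subgroup K) := by
    rw [← hc]
    exact ⟨_, h4, rfl⟩
  exact h5

theorem IsSyl.mono [Finite M] {K C P : Subgroup M} (hP : IsSyl K P) (h1 : P ≤ C) (h2 : C ≤ K) :
    IsSyl C P := by
  refine ⟨h1, hP.2.1, fun h => hP.2.2 ?_⟩
  rw [← Subgroup.relIndex_mul_relIndex P C K h1 h2]
  exact dvd_mul_of_dvd_left h _

theorem exists_odd_pow [Finite M] (x : M) : ∃ m, Odd m ∧ ∃ n, (x ^ m) ^ 2 ^ n = 1 := by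
  obtain ⟨n, m, hm, h⟩ := Nat.exists_eq_two_pow_mul_odd (orderOf_pos x).ne'
  refine ⟨m, hm, n, ?_⟩
  rw [← pow_mul, mul_comm, ← h, pow_orderOf_eq_one]

theorem zpowers_isPGroup {x : M} {n : ℕ} (h : x ^ 2 ^ n = 1) : IsPGroup 2 (Subgroup.zpowers x) := by
  rintro ⟨y, k, rfl⟩
  refine ⟨n, ?_⟩
  ext
  show (x ^ k) ^ 2 ^ n = 1
  rw [← zpow_natCast, ← zpow_mul, mul_comm, zpow_mul, zpow_natCast, h, one_zpow]

private theorem rel_card (P K : Subgroup M) (h : P ≤ K) : P.relIndex K * Nat.card P = Nat.card K := by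
  rw [← Subgroup.relIndex_bot_left, ← Subgroup.relIndex_bot_left, mul_comm]
  exact Subgroup.relIndex_mul_relIndex ⊥ P K bot_le h

theorem syl_card [Finite M] {K H S P : Subgroup M} (hS : IsSyl H S) (hHK : H ≤ K) (hPK : P ≤ K)
    (hP : IsPGroup 2 P) (hc : Nat.card P = 2 * Nat.card S) (h4 : H.relIndex K % 4 = 2) : IsSyl K P := by
  refine ⟨hPK, hP, fun hd => ?_⟩
  have e1 := rel_card P K hPK
  have e2 := rel_card H K hHK
  have e3 := rel_card S H hS.1
  have hpos : 0 < Nat.card S := Nat.card_pos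
  have e4 : P.relIndex K * 2 = H.relIndex K * S.relIndex H := by
    apply Nat.eq_of_mul_eq_mul_right hpos
    calc P.relIndex K * 2 * Nat.card S = P.relIndex K * Nat.card P := by rw [hc]; ring
      _ = Nat.card K := e1
      _ = H.relIndex K * Nat.card H := e2.symm
      _ = H.relIndex K * S.relIndex H * Nat.card S := by rw [← e3]; ring
  obtain ⟨a, ha⟩ := hd
  have h5 := hS.2.2
  obtain ⟨b, hb⟩ : ∃ b, H.relIndex K = 4 * b + 2 := ⟨H.relIndex K / 4, by omega⟩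
  obtain ⟨d, hd⟩ : ∃ d, S.relIndex H = 2 * d + 1 := ⟨S.relIndex H / 2, by omega⟩
  rw [ha, hb, hd] at e4
  have e5 : 4 * a = 4 * (2 * b * d + b + d) + 2 := by linarith
  omega

theorem fix_parity {X : Type*} [Finite X] {P : Subgroup (Equiv.Perm X)} (hP : IsPGroup 2 P)
    (h2 : 2 ∣ Nat.card X) : 2 ∣ Nat.card {x : X // ∀ s ∈ P, s x = x} := by
  have h1 := hP.card_modEq_card_fixedPoints X
  have h3 : Nat.card {x : X // ∀ s ∈ P, s x = x} = Nat.card (MulAction.fixedPoints P X) := by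
    refine Nat.card_congr (Equiv.subtypeEquivRight fun x => ?_)
    rw [MulAction.mem_fixedPoints]
    exact ⟨fun h s => h s.1 s.2, fun h s hs => h ⟨s, hs⟩⟩
  rw [h3]
  exact (Nat.ModEq.dvd_iff h1 dvd_rfl).mp h2

end ALoop
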