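import Pool.Agent.H4.FD.LemC
import Pool.Agent.H4.FD.Pgrp
import Pool.Agent.H4.FD.Syl

set_option autoImplicit false

/-!
The Sylow 2-subgroups `S` of the inner mapping group and `P` of the multiplication group.
-/

namespace ALoop

open Equiv

theorem isPGroup_elem {M : Type*} [Group M] {S : Subgroup M} (hS : IsPGroup 2 S) {s : M}
    (hs : s ∈ S) : ∃ n, s ^ 2 ^ n = 1 := by
  obtain ⟨n, hn⟩ := hS ⟨s, hs⟩
  exact ⟨n, by simpa using congrArg Subtype.val hn⟩

theorem IsSyl.mem_of_comm {M : Type*} [Group M] [Finite M] {K S : Subgroup M} (hS : IsSyl K S)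
    {u : M} (hu : u ∈ K) (hc : ∀ s ∈ S, s * u = u * s) {n : ℕ} (hn : u ^ 2 ^ n = 1) : u ∈ S := by
  have h1 : IsPGroup 2 (S ⊔ Subgroup.zpowers u : Subgroup M) := by
    apply IsPGroup.to_sup_of_normal_right' hS.2.1 (zpowers_isPGroup hn)
    intro s hs
    rw [Subgroup.mem_normalizer_iff]
    intro x
    have h2 : ∀ y ∈ Subgroup.zpowers u, s * y * s⁻¹ = y := by
      rintro _ ⟨k, rfl⟩
      have h3 : Commute s u := hc s hs
      have h4 := h3.zpow_right k
      rw [h4.eq]; group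
    constructor
    · intro hx
      rw [h2 x hx]; exact hx
    · intro hx
      have h3 : ∀ y ∈ Subgroup.zpowers u, s⁻¹ * y * s = y := by
        intro y hy
        have h5 : s⁻¹ * (s * y * s⁻¹) * s = y := by group
        rw [h2 y hy] at h5
        exact h5
      have h4 := h3 _ hx
      have h5 : s⁻¹ * (s * x * s⁻¹) * s = x := by group
      rw [h5] at h4
      rw [h4]; exact hx
  obtain ⟨c, hcK, hc'⟩ := hS.conj_mem h1 1 (by
    intro t ht
    rw [inv_one, one_mul, mul_one]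
    exact (sup_le hS.1 ((Subgroup.zpowers_le).2 hu)) ht)
  have h2 : Nat.card (S ⊔ Subgroup.zpowers u : Subgroup M) ≤ Nat.card S := by
    refine Nat.card_le_card_of_injective
      (fun t => (⟨c * (1⁻¹ * t * 1) * c⁻¹, hc' t t.2⟩ : S)) ?_
    intro a b hab
    have h3 : c * (1⁻¹ * (a : M) * 1) * c⁻¹ = c * (1⁻¹ * (b : M) * 1) * c⁻¹ :=
      congrArg Subtype.val hab
    apply Subtype.ext
    simpa using h3
  have h3 : S = S ⊔ Subgroup.zpowers u := by
    apply Subgroup.eq_of_le_of_card_ge le_sup_left h2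
  rw [h3]
  exact (le_sup_right : Subgroup.zpowers u ≤ _) (Subgroup.mem_zpowers u)

variable {Q : Type*} {G : Subgroup (Perm Q)} {L : Q → Perm Q} {J : Perm Q} {e : Q}

/-- the inner mapping group -/
def Inn (G : Subgroup (Perm Q)) (e : Q) : Subgroup (Perm Q) :=
  G ⊓ MulAction.stabilizer (Perm Q) e

theorem mem_Inn {g : Perm Q} : g ∈ Inn G e ↔ g ∈ G ∧ g e = e := Iff.rfl

/-- the data of (5) -/
structure PD (G : Subgroup (Perm Q)) (L : Q → Perm Q) (J : Perm Q) (e : Q)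
    (S P : Subgroup (Perm Q)) (z : Perm Q) (x : Q) (m : ℕ) : Prop where
  hS : IsSyl (Inn G e) S
  hP : IsSyl G P
  SP : S ≤ P
  cardP : Nat.card P = 2 * Nat.card S
  Jx : J x = x
  xe : x ≠ e
  zZ : z ∈ Z L J
  zS : z ∈ S
  zt : J * L x * J = z * L x
  modd : Odd m
  tP : L x ^ m ∈ P
  centz : ∀ p ∈ P, p * z = z * p
  centt : ∀ p ∈ P, p * L x = L x * p
  PS : ∀ p ∈ P, p ∉ S → ∃ s ∈ S, p = s * L x ^ m
  PH : ∀ p ∈ P, p e = e → p ∈ S
  mulP : ∀ p ∈ P, ∀ q ∈ P, p ∉ S → q ∉ S → p * q ∈ S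
  tk : ∀ q, z q = q → (L x ^ m) q = kp L J z q
  te : (L x ^ m) e = x

namespace AL

theorem card_index [Finite Q] (h : AL G L J e) : (Inn G e).relIndex G = Nat.card Q := by
  have h1 : (Inn G e).subgroupOf G = MulAction.stabilizer G e := by
    ext g
    rw [Subgroup.mem_subgroupOf, mem_Inn]
    exact ⟨fun hh => hh.2, fun hh => ⟨g.2, hh⟩⟩
  have h2 : MulAction.IsPretransitive G Q := ⟨by
    intro p q
    obtain ⟨c, hc, hcp⟩ := h.exists_map p q
    exact ⟨⟨c, hc⟩, hcp⟩⟩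
  unfold Subgroup.relIndex
  rw [h1, MulAction.index_stabilizer_of_transitive]

/-- a fixed point of `S` and `J` other than `e` -/
theorem exists_x [Finite Q] (h : AL G L J e) (hcard : Nat.card Q % 4 = 2)
    {S : Subgroup (Perm Q)} (hS : IsSyl (Inn G e) S) :
    ∃ x, x ≠ e ∧ J x = x ∧ ∀ s ∈ S, s x = x := by
  by_contra hcon
  push Not at hcon
  have h1 := fix_parity hS.2.1 (show 2 ∣ Nat.card Q by omega)
  let A : Set Q := {q | ∀ s ∈ S, s q = q}
  have h2 : (A \ {e}).ncard + 1 = A.ncard := by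
    exact Set.ncard_sdiff_singleton_add_one (show e ∈ A from fun s hs => (hS.1 hs).2)
      (Set.toFinite _)
  have hJ : ∀ q ∈ A \ {e}, J q ∈ A \ {e} := by
    rintro q ⟨hq, hqe⟩
    refine ⟨?_, ?_⟩
    · intro s hs
      have h3 := h.comJ s (hS.1 hs).1 (hS.1 hs).2
      rw [← Perm.mul_apply, h3, Perm.mul_apply, hq s hs]
    · intro h3
      have h4 : J q = e := h3
      apply hqe
      change q = e
      rw [← h.JJ q, h4, h.Je]
  have h3 : 2 ∣ Nat.card (A \ {e} : Set Q) := by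
    refine two_dvd_card (fun q => ⟨J q, hJ q q.2⟩) ?_ ?_
    · intro q; exact Subtype.ext (h.JJ q)
    · rintro ⟨q, hq⟩ h4
      have h5 : J q = q := congrArg Subtype.val h4
      obtain ⟨s, hs, hsq⟩ := hcon q hq.2 h5
      exact hsq (hq.1 s hs)
  have h4 : Nat.card (A \ {e} : Set Q) = (A \ {e}).ncard := rfl
  have h5 : Nat.card {x : Q // ∀ s ∈ S, s x = x} = A.ncard := rfl
  rw [h4] at h3
  rw [h5] at h1
  omega

end AL

end ALoop
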