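import Pool.Agent.H4.FD.Pset

set_option autoImplicit false

/-!
Existence of the data of (5).
-/

namespace ALoop

open Equiv

variable {Q : Type*} {G : Subgroup (Perm Q)} {L : Q → Perm Q} {J : Perm Q} {e : Q}

namespace AL

section x

variable {x : Q}

theorem Dx_J (h : AL G L J e) (hJx : J x = x) : D L J x * J = J * D L J x := by
  have := h.D_J x
  rw [hJx] at this
  calc D L J x * J = (J * J) * D L J x * J := by rw [h.JJ1, one_mul]
    _ = J * (J * D L J x * J) := by group
    _ = J * D L J x := by rw [this]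

theorem zx_mem (h : AL G L J e) (hJx : J x = x) (hxe : x ≠ e) : D L J x * J ∈ Z L J := by
  refine ⟨x, e, hxe, ?_, ?_⟩
  · rw [h.D_e]; exact h.Dx_J hJx
  · rw [h.D_e]

theorem zx_e (h : AL G L J e) (hJx : J x = x) (hxe : x ≠ e) : (D L J x * J) e = e := by
  rw [← h.D_cent (h.Z_mem (h.zx_mem hJx hxe)), h.D_e]
  calc D L J x * J * J = J * D L J x * J := by rw [h.Dx_J hJx]
    _ = J * (D L J x * J) := by group

theorem zx_x (h : AL G L J e) (hJx : J x = x) (hxe : x ≠ e) : (D L J x * J) x = x := by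
  rw [← h.D_cent (h.Z_mem (h.zx_mem hJx hxe))]
  calc D L J x * J * D L J x = D L J x * (J * D L J x) := by group
    _ = D L J x * (D L J x * J) := by rw [h.Dx_J hJx]

theorem kp_e (h : AL G L J e) (hJx : J x = x) (hxe : x ≠ e) : kp L J (D L J x * J) e = x := by
  apply h.kp_eq (h.zx_mem hJx hxe) (h.zx_e hJx hxe)
  rw [h.D_e, h.Dx_J hJx, ← mul_assoc, h.JJ1, one_mul]

theorem Lx_kp (h : AL G L J e) (hJx : J x = x) (hxe : x ≠ e) {q : Q}
    (hq : (D L J x * J) q = q) : L x q = kp L J (D L J x * J) q := by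
  have hz := h.zx_mem hJx hxe
  have hze := h.zx_e hJx hxe
  have h1 := (h.kp_com hz hze (h.memR q) (h.comR (h.Z_mem hz) hze hq).symm).2
  rw [h.R_apply, h.R_apply, h.Le1, h.kp_e hJx hxe, Perm.one_apply] at h1
  exact h1.symm

theorem Lx_z (h : AL G L J e) (hJx : J x = x) (hxe : x ≠ e) :
    (D L J x * J) * L x = L x * (D L J x * J) :=
  h.comL (h.Z_mem (h.zx_mem hJx hxe)) (h.zx_e hJx hxe) (h.zx_x hJx hxe)

theorem zt_eq (h : AL G L J e) (hJx : J x = x) : J * L x * J = (D L J x * J) * L x := by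
  have h1 : D L J x = L x * J * (L x)⁻¹ := rfl
  calc J * L x * J = J * (L x * J * (L x)⁻¹) * L x := by group
    _ = J * D L J x * L x := by rw [h1]
    _ = D L J x * J * L x := by rw [h.Dx_J hJx]

theorem LxLx (h : AL G L J e) (hJx : J x = x) : L x x = e := by
  have := h.LJ x
  rwa [hJx] at this

theorem pow_e (h : AL G L J e) (hJx : J x = x) (j : ℕ) :
    (L x ^ (2 * j)) e = e ∧ (L x ^ (2 * j + 1)) e = x := by
  induction j with
  | zero =>
    refine ⟨rfl, ?_⟩
    rw [mul_zero, zero_add, pow_one, h.Le]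
  | succ j ih =>
    have h1 : (L x ^ (2 * (j + 1))) e = e := by
      have : 2 * (j + 1) = (2 * j + 1) + 1 := by ring
      rw [this, pow_succ', Perm.mul_apply, ih.2, h.LxLx hJx]
    refine ⟨h1, ?_⟩
    rw [pow_succ', Perm.mul_apply, h1, h.Le]

theorem pow_kp (h : AL G L J e) (hJx : J x = x) (hxe : x ≠ e) (j : ℕ) {q : Q}
    (hq : (D L J x * J) q = q) : (L x ^ (2 * j)) q = q ∧
      (L x ^ (2 * j + 1)) q = kp L J (D L J x * J) q := by
  have hz := h.zx_mem hJx hxe
  have hk := h.Lx_kp hJx hxe hq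
  have hk2 := h.Lx_kp hJx hxe (h.kp_fix hz hq)
  rw [h.kp_kp hz hq] at hk2
  induction j with
  | zero =>
    refine ⟨rfl, ?_⟩
    rw [mul_zero, zero_add, pow_one, hk]
  | succ j ih =>
    have h1 : (L x ^ (2 * (j + 1))) q = q := by
      have : 2 * (j + 1) = (2 * j + 1) + 1 := by ring
      rw [this, pow_succ', Perm.mul_apply, ih.2, hk2]
    refine ⟨h1, ?_⟩
    rw [pow_succ', Perm.mul_apply, h1, hk]

end x

theorem exists_PD [Finite Q] (h : AL G L J e) (hcard : Nat.card Q % 4 = 2) :
    ∃ S P z x m, PD G L J e S P z x m := by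
  obtain ⟨S, hS⟩ := exists_syl (Inn G e)
  obtain ⟨x, hxe, hJx, hSx⟩ := h.exists_x hcard hS
  obtain ⟨m, hm, n, hn⟩ := exists_odd_pow (L x)
  have hSe : ∀ s ∈ S, s ∈ G ∧ s e = e := fun s hs => hS.1 hs
  set z := D L J x * J with hzdef
  have hz : z ∈ Z L J := h.zx_mem hJx hxe
  have hze : z e = e := h.zx_e hJx hxe
  have hzG := h.Z_mem hz
  -- `S` centralises `z` and `L x`
  have hSz : ∀ s ∈ S, s * z = z * s := by
    intro s hs
    have h1 := h.D_conj (hSe s hs).1 x
    rw [hSx s hs] at h1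
    have h2 := h.comJ s (hSe s hs).1 (hSe s hs).2
    calc s * (D L J x * J) = (s * D L J x * s⁻¹) * (s * J) := by group
      _ = D L J x * (J * s) := by rw [h1, h2]
      _ = D L J x * J * s := by group
  have hSt : ∀ s ∈ S, s * L x = L x * s := fun s hs =>
    h.comL (hSe s hs).1 (hSe s hs).2 (hSx s hs)
  have hzS : z ∈ S := hS.mem_of_comm (mem_Inn.2 ⟨hzG, hze⟩) hSz (n := 1)
    (by rw [pow_one, pow_two, h.Z_sq hz])
  set u := L x ^ m with hudef
  have hSu : ∀ s ∈ S, s * u = u * s := by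
    intro s hs
    have : Commute s (L x) := hSt s hs
    exact (this.pow_right m)
  obtain ⟨j, hj⟩ := hm
  have hue : u e = x := by rw [hudef, hj]; exact (h.pow_e hJx j).2
  have hu2e : (u * u) e = e := by
    have : u * u = L x ^ (2 * m) := by rw [hudef, ← pow_add, two_mul]
    rw [this]; exact (h.pow_e hJx m).1
  have hu2 : u * u ∈ S := by
    apply hS.mem_of_comm (n := n)
    · exact mem_Inn.2 ⟨G.mul_mem (G.pow_mem (h.memL x) m) (G.pow_mem (h.memL x) m), hu2e⟩
    · intro s hs
      rw [← mul_assoc, hSu s hs, mul_assoc, hSu s hs, mul_assoc]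
    · have : (u * u) ^ 2 ^ n = (u ^ 2 ^ n) * (u ^ 2 ^ n) := by
        rw [← pow_two, ← pow_mul, mul_comm, pow_mul, pow_two]
      rw [this, hn, one_mul]
  have huS : u ∉ S := by
    intro hu
    have := (hSe u hu).2
    rw [hue] at this
    exact hxe this
  set P := Pgrp S u hSu hu2 with hPdef
  have hSP : S ≤ P := fun s hs => mem_Pgrp.2 (Or.inl hs)
  have huP : u ∈ P := mem_Pgrp.2 (Or.inr hu2)
  have huG : u ∈ G := G.pow_mem (h.memL x) m
  have hPG : P ≤ G := by
    intro p hp
    rcases mem_Pgrp.1 hp with hp | hp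
    · exact (hSe p hp).1
    · have h1 := (hSe _ hp).1
      have h2 : p = (p * u) * u⁻¹ := by group
      rw [h2]; exact G.mul_mem h1 (G.inv_mem huG)
  have hcP := card_Pgrp (hu := hSu) (hu2 := hu2) huS
  have hP2 := isPGroup_Pgrp hS.2.1 (hu := hSu) (hu2 := hu2) huS
  have hPS : ∀ p ∈ P, p ∉ S → ∃ s ∈ S, p = s * u := by
    intro p hp hpS
    rcases mem_Pgrp.1 hp with hp | hp
    · exact absurd hp hpS
    · refine ⟨(p * u) * (u * u)⁻¹, S.mul_mem hp (S.inv_mem hu2), by group⟩
  have hcent : ∀ v : Perm Q, (∀ s ∈ S, s * v = v * s) → u * v = v * u → ∀ p ∈ P, p * v = v * p := by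
    intro v hv huv p hp
    by_cases hpS : p ∈ S
    · exact hv p hpS
    · obtain ⟨s, hs, rfl⟩ := hPS p hp hpS
      rw [mul_assoc, huv, ← mul_assoc, hv s hs, mul_assoc]
  refine ⟨S, P, z, x, m, ?_⟩
  exact
    { hS := hS
      hP := syl_card hS inf_le_left hPG hP2 hcP (by rw [h.card_index]; exact hcard)
      SP := hSP
      cardP := hcP
      Jx := hJx
      xe := hxe
      zZ := hz
      zS := hzS
      zt := h.zt_eq hJx
      modd := ⟨j, hj⟩
      tP := huP
      centz := hcent z hSz (hSu z hzS).symm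
      centt := hcent (L x) hSt (by rw [hudef, pow_mul_comm'])
      PS := hPS
      PH := by
        intro p hp hpe
        by_contra hpS
        obtain ⟨s, hs, rfl⟩ := hPS p hp hpS
        rw [Perm.mul_apply, hue, hSx s hs] at hpe
        exact hxe hpe
      mulP := by
        intro p hp q hq hpS hqS
        obtain ⟨s, hs, rfl⟩ := hPS p hp hpS
        obtain ⟨r, hr, rfl⟩ := hPS q hq hqS
        have h1 : s * u * (r * u) = s * r * (u * u) := by
          calc s * u * (r * u) = s * (u * r) * u := by group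
            _ = s * (r * u) * u := by rw [hSu r hr]
            _ = _ := by group
        rw [h1]
        exact S.mul_mem (S.mul_mem hs hr) hu2
      tk := by
        intro q hq
        rw [hj]; exact (h.pow_kp hJx hxe j hq).2
      te := hue }

end AL

end ALoop
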