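import Pool.Agent.H4.FD.CDefs

/-!
# Project FD: the canonical form of a finite Coxeter group is positive definite

Let `W = M.Group` be finite, `T w = titsHom M w`, `E = S → ℝ`, `e u = Pi.single u 1`. Let
`P (x, y) = ∑ w, ∑ i, (T w x) i * (T w y) i`: symmetric, bilinear, `P (x, x) > 0` for `x ≠ 0` (the term
`w = 1`), `P (T u x, T u y) = P (x, y)` (reindex `w ↦ w u`). For a generator `v` by `refl_mulVec`
`T_v x = x - f_v x • e v` with `f_v x = ∑ u, kR M v u * x u`, `f_v (e v) = 2`, `T_v (e v) = - e v`. Hence
`P (x, e v) = P (T_v x, T_v (e v)) = - P (x, e v) + f_v x * P (e v, e v)`, i.e.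
`2 P (x, e v) = f_v x * N v`, `N v = P (e v, e v) > 0`. For `x = e u`: `2 P (e u, e v) = kR M v u * N v`,
and by symmetry `kR M u v * N v = kR M v u * N u`, so `N u = N v` whenever `kR M u v ≠ 0`
(`kR_symm`). Let `x' u = x u / √(N u)`. Then
`2 P (x', x') = ∑ u v, x u x v / (√(N u) √(N v)) * (kR M v u * N v) = ∑ u v, kR M u v * x u * x v`
(terms with `kR = 0` vanish, otherwise `√(N u) √(N v) = N v`). So the matrix
`A = (kR M u v / 2)` is positive definite. (`pos_kR`.)

`exists_roots`: a real positive definite matrix is `A = Cᵀ C` with `C` invertible (for instance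
`Matrix.posDef_iff_eq_conjTranspose_mul_self` or the square root `CFC.sqrt`/`Matrix.PosSemidef`,
or Cholesky, or Gram–Schmidt: `LinearMap.BilinForm`/`InnerProductSpace.ofMatrix` and an
orthonormal basis); reindex the rows by `Fin n`, `n = Fintype.card S`: `α v` = column `v` of `C`. So
`2 α u ⬝ᵥ α v = kR M u v`. With `B = C⁻¹` let `ω u` = row `u` of `B`: `ω u ⬝ᵥ α v = (B C) u v`.
-/

set_option autoImplicit false

open Finset

namespace Pool.Agent.H4.FD

open Pool.Agent.H85.Fold Pool.Agent.H4.FC

variable {S : Type} [Fintype S] [DecidableEq S]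

section Inv

variable (M : CoxeterMatrix S) [Fintype M.Group]

/-- the invariant form -/
private noncomputable def RootsEx_G : Matrix S S ℝ :=
  ∑ w : M.Group, (titsHom M w).transpose * titsHom M w

private theorem RootsEx_symm : (RootsEx_G M).transpose = RootsEx_G M := by
  unfold RootsEx_G
  rw [Matrix.transpose_sum]
  exact Finset.sum_congr rfl fun w _ => by rw [Matrix.transpose_mul, Matrix.transpose_transpose]

private theorem RootsEx_inv (u : M.Group) :
    (titsHom M u).transpose * RootsEx_G M * titsHom M u = RootsEx_G M := by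
  unfold RootsEx_G
  rw [Matrix.mul_sum, Matrix.sum_mul]
  refine Fintype.sum_bijective (fun w => w * u) (Group.mulRight_bijective u) _ _ fun w => ?_
  rw [map_mul, Matrix.transpose_mul]
  simp only [Matrix.mul_assoc]

private theorem RootsEx_pos (x : S → ℝ) (hx : x ≠ 0) : 0 < x ⬝ᵥ (RootsEx_G M).mulVec x := by
  unfold RootsEx_G
  rw [Matrix.sum_mulVec, dotProduct_sum]
  have h1 : ∀ w : M.Group, x ⬝ᵥ ((titsHom M w).transpose * titsHom M w).mulVec x =
      (titsHom M w).mulVec x ⬝ᵥ (titsHom M w).mulVec x := by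
    intro w
    rw [← Matrix.mulVec_mulVec, Matrix.dotProduct_mulVec, Matrix.vecMul_transpose]
  refine Finset.sum_pos' (fun w _ => ?_) ⟨1, Finset.mem_univ _, ?_⟩
  · rw [h1]
    exact Finset.sum_nonneg fun i _ => mul_self_nonneg _
  · rw [h1, map_one, Matrix.one_mulVec]
    have h2 : 0 ≤ x ⬝ᵥ x := Finset.sum_nonneg fun i _ => mul_self_nonneg _
    rcases h2.lt_or_eq with h | h
    · exact h
    · exact absurd (dotProduct_self_eq_zero.1 h.symm) hx

private theorem RootsEx_rel (u v : S) :
    2 * RootsEx_G M u v = kR M v u * RootsEx_G M v v := by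
  set G := RootsEx_G M with hG
  have hinv := RootsEx_inv M (M.toCoxeterSystem.simple v)
  rw [titsHom_simple, ← hG] at hinv
  have hsingle : ∀ a b : S, (Pi.single a 1 : S → ℝ) ⬝ᵥ G.mulVec (Pi.single b 1) = G a b := by
    intro a b
    rw [Matrix.mulVec_single_one, single_one_dotProduct]
    rfl
  have hf : ∀ a : S, (refl (kR M) v).mulVec (Pi.single a 1) =
      Pi.single a 1 - kR M v a • (Pi.single v 1 : S → ℝ) := by
    intro a
    rw [refl_mulVec]
    congr 2
    rw [Finset.sum_eq_single a]
    · rw [Pi.single_eq_same, mul_one]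
    · intro b _ hb
      rw [Pi.single_eq_of_ne hb, mul_zero]
    · intro h
      exact absurd (mem_univ a) h
  have h1 : (refl (kR M) v).mulVec (Pi.single u 1) ⬝ᵥ
      G.mulVec ((refl (kR M) v).mulVec (Pi.single v 1)) = G u v := by
    rw [← hsingle u v]
    conv_rhs => rw [← hinv]
    rw [← Matrix.mulVec_mulVec, ← Matrix.mulVec_mulVec, Matrix.dotProduct_mulVec _
      (refl (kR M) v).transpose, Matrix.vecMul_transpose]
  rw [hf, hf, kR_self] at h1
  have h2 : (Pi.single v 1 : S → ℝ) - (2 : ℝ) • (Pi.single v 1 : S → ℝ) =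
      -(Pi.single v 1 : S → ℝ) := by
    rw [two_smul]
    abel
  rw [h2, Matrix.mulVec_neg, dotProduct_neg, sub_dotProduct, smul_dotProduct, hsingle, hsingle,
    smul_eq_mul] at h1
  linarith

end Inv

theorem pos_kR (M : CoxeterMatrix S) [Finite M.Group] (x : S → ℝ) (hx : x ≠ 0) :
    0 < ∑ u, ∑ v, kR M u v * x u * x v := by
  have : Fintype M.Group := Fintype.ofFinite _
  set G := RootsEx_G M with hG
  have hN : ∀ v, 0 < G v v := by
    intro v
    have h1 := RootsEx_pos M (Pi.single v 1) (by
      intro h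
      have := congrFun h v
      rw [Pi.single_eq_same, Pi.zero_apply] at this
      exact one_ne_zero this)
    rw [Matrix.mulVec_single_one, single_one_dotProduct] at h1
    exact h1
  have hrel : ∀ u v, 2 * G u v = kR M v u * G v v := RootsEx_rel M
  have hsymm : ∀ u v, G u v = G v u := by
    intro u v
    have h1 := congrFun (congrFun (RootsEx_symm M) v) u
    rw [Matrix.transpose_apply] at h1
    exact h1
  have hNN : ∀ u v, kR M u v ≠ 0 → G u u = G v v := by
    intro u v h
    have h1 := hrel u v
    have h2 := hrel v u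
    rw [hsymm v u, h1, kR_symm M v u] at h2
    exact (mul_left_cancel₀ h h2).symm
  let y : S → ℝ := fun u => x u / Real.sqrt (G u u)
  have hy : y ≠ 0 := by
    intro h
    apply hx
    funext u
    have h1 := congrFun h u
    have h2 : x u / Real.sqrt (G u u) = 0 := h1
    rcases div_eq_zero_iff.1 h2 with h3 | h3
    · exact h3
    · exact absurd h3 (Real.sqrt_pos.2 (hN u)).ne'
  have hpos := RootsEx_pos M y hy
  have h1 : ∑ u, ∑ v, kR M u v * x u * x v = 2 * (y ⬝ᵥ (RootsEx_G M).mulVec y) := by
    rw [← hG]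
    simp only [dotProduct, Matrix.mulVec, Finset.mul_sum]
    refine Finset.sum_congr rfl fun u _ => Finset.sum_congr rfl fun v _ => ?_
    have e1 : 2 * (y u * (G u v * y v)) = (2 * G u v) * y u * y v := by ring
    rw [e1, hrel u v, kR_symm M v u]
    by_cases h : kR M u v = 0
    · rw [h]
      ring
    · have h2 := hNN u v h
      have h3 := Real.sqrt_pos.2 (hN v)
      have h4 : Real.sqrt (G v v) * Real.sqrt (G v v) = G v v := Real.mul_self_sqrt (hN v).le
      simp only [y]
      rw [h2]
      have h5 : kR M u v * G v v * (x u / Real.sqrt (G v v)) * (x v / Real.sqrt (G v v)) =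
          kR M u v * x u * x v * (G v v / (Real.sqrt (G v v) * Real.sqrt (G v v))) := by ring
      rw [h5, h4, div_self (hN v).ne', mul_one]
  rw [h1]
  linarith

open scoped MatrixOrder in
theorem exists_roots (M : CoxeterMatrix S) [Finite M.Group] :
    ∃ (n : ℕ) (α ω : S → Fin n → ℝ), IsRoots M α ω := by
  let A : Matrix S S ℝ := Matrix.of fun u v => kR M u v / 2
  have hA : A.PosDef := by
    rw [Matrix.posDef_iff_dotProduct_mulVec]
    constructor
    · ext u v
      simp only [A, Matrix.conjTranspose_apply, Matrix.of_apply, star_trivial]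
      rw [kR_symm]
    · intro x hx
      have h1 := pos_kR M x hx
      have h2 : star x ⬝ᵥ A.mulVec x = (∑ u, ∑ v, kR M u v * x u * x v) / 2 := by
        simp only [dotProduct, Matrix.mulVec, Finset.mul_sum, Finset.sum_div, A,
          Matrix.of_apply, Pi.star_apply, star_trivial]
        exact Finset.sum_congr rfl fun u _ => Finset.sum_congr rfl fun v _ => by ring
      rw [h2]
      linarith
  obtain ⟨B, hB⟩ := CStarAlgebra.nonneg_iff_eq_star_mul_self.mp hA.posSemidef.nonneg
  have hBt : A = B.transpose * B := by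
    rw [hB]
    rfl
  have hdet : IsUnit B.det := by
    have h1 : IsUnit A.det := (Matrix.isUnit_iff_isUnit_det A).1 hA.isUnit
    rw [hBt, Matrix.det_mul] at h1
    exact isUnit_of_mul_isUnit_right h1
  let e : S ≃ Fin (Fintype.card S) := Fintype.equivFin S
  refine ⟨Fintype.card S, fun v k => B (e.symm k) v, fun u k => B⁻¹ u (e.symm k), rfl, ?_, ?_⟩
  · intro u v
    have h1 : (fun k => B (e.symm k) u) ⬝ᵥ (fun k => B (e.symm k) v) = A u v := by
      rw [hBt, Matrix.mul_apply]
      simp only [dotProduct, Matrix.transpose_apply]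
      exact Equiv.sum_comp e.symm fun s => B s u * B s v
    rw [h1]
    simp only [A, Matrix.of_apply]
    ring
  · intro u v
    have h1 : (fun k => B⁻¹ u (e.symm k)) ⬝ᵥ (fun k => B (e.symm k) v) = (B⁻¹ * B) u v := by
      rw [Matrix.mul_apply]
      simp only [dotProduct]
      exact Equiv.sum_comp e.symm fun s => B⁻¹ u s * B s v
    rw [h1, Matrix.nonsing_inv_mul B hdet, Matrix.one_apply]

end Pool.Agent.H4.FD
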