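import Pool.Agent.H4.FD.PsetB

set_option autoImplicit false

/-!
(6), (7), (8): the elements of `P` outside `S` have no fixed point.
-/

namespace ALoop

open Equiv

variable {Q : Type*} {G : Subgroup (Perm Q)} {L : Q → Perm Q} {J : Perm Q} {e : Q}
  {S P : Subgroup (Perm Q)} {z : Perm Q} {x : Q} {m : ℕ}

namespace PD

/-- `C_G(y)` -/
def Cen (G : Subgroup (Perm Q)) (y : Perm Q) : Subgroup (Perm Q) :=
  G ⊓ Subgroup.centralizer {y}

theorem mem_Cen {g y : Perm Q} : g ∈ Cen G y ↔ g ∈ G ∧ g * y = y * g := by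
  unfold Cen
  rw [Subgroup.mem_inf, Subgroup.mem_centralizer_singleton_iff]

theorem ze (d : PD G L J e S P z x m) : z e = e := (d.hS.1 d.zS).2

theorem zG (d : PD G L J e S P z x m) : z ∈ G := (d.hS.1 d.zS).1

/-- (6) -/
theorem six [Finite Q] (h : AL G L J e) (hcard : Nat.card Q % 4 = 2)
    (d : PD G L J e S P z x m) {y : Perm Q} (hy : y ∈ P) (hyS : y ∉ S) {a : Q} (ha : z a = a) :
    y a ≠ a := by
  intro hya
  obtain ⟨s, hs, rfl⟩ := d.PS y hy hyS
  rw [Perm.mul_apply, d.tk a ha] at hya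
  obtain ⟨n, hn⟩ := isPGroup_elem d.hS.2.1 hs
  refine h.kp_no_swap hcard d.zZ d.ze (d.hS.1 hs).1 (d.hS.1 hs).2 (d.centz s (d.SP hs)) hn
    (h.kp_fix d.zZ ha) ?_
  rw [hya, h.kp_kp d.zZ ha]

theorem uniqS [Finite Q] (h : AL G L J e) (hcard : Nat.card Q % 4 = 2)
    (d : PD G L J e S P z x m) {w : Perm Q} (hw : w ∈ Z L J) (hwS : w ∈ S) : w = z :=
  h.Z_unique hcard hw d.zZ (d.centz w (d.SP hwS)) (d.hS.1 hwS).2 d.ze

/-- every element of `Z` is conjugate to `z` -/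
theorem conjz [Finite Q] (h : AL G L J e) (hcard : Nat.card Q % 4 = 2)
    (d : PD G L J e S P z x m) {w : Perm Q} (hw : w ∈ Z L J) : ∃ g ∈ G, w = g * z * g⁻¹ := by
  have hwG := h.Z_mem hw
  obtain ⟨p, hp⟩ : ∃ p, w p = p := by
    have hwG' := hwG
    obtain ⟨p, q, hne, hc, rfl⟩ := hw
    refine ⟨p, ?_⟩
    rw [← h.D_cent hwG']
    calc D L J p * D L J q * D L J p = D L J p * (D L J q * D L J p) := by group
      _ = D L J p * (D L J p * D L J q) := by rw [hc]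
  obtain ⟨g, hg, hgp⟩ := h.exists_map e p
  obtain ⟨c, hc, hcS⟩ := d.hS.conj_mem (T := Subgroup.zpowers w)
    (zpowers_isPGroup (n := 1) (by rw [pow_one, pow_two, h.Z_sq hw])) g (by
      rintro _ ⟨k, rfl⟩
      have h1 : w ^ k ∈ G := G.zpow_mem hwG k
      have h2 : (w ^ k) p = p := Perm.zpow_apply_eq_self_of_apply_eq_self hp k
      refine mem_Inn.2 ⟨G.mul_mem (G.mul_mem (G.inv_mem hg) h1) hg, ?_⟩
      rw [Perm.mul_apply, Perm.mul_apply, hgp, h2, Perm.inv_eq_iff_eq, hgp])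
  have h1 := hcS w (Subgroup.mem_zpowers w)
  have hcG : c ∈ G := (mem_Inn.1 hc).1
  have h2 : c * (g⁻¹ * w * g) * c⁻¹ = (c * g⁻¹) * w * (c * g⁻¹)⁻¹ := by group
  have h3 := d.uniqS h hcard (h.Z_conj hw (G.mul_mem hcG (G.inv_mem hg))) (by rw [← h2]; exact h1)
  refine ⟨(c * g⁻¹)⁻¹, G.inv_mem (G.mul_mem hcG (G.inv_mem hg)), ?_⟩
  rw [← h3]; group

/-- (7) -/
theorem seven [Finite Q] (h : AL G L J e) (hcard : Nat.card Q % 4 = 2)
    (d : PD G L J e S P z x m) {y : Perm Q} (hy : y ∈ Z L J) (hyP : y ∈ P) : y = z := by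
  by_contra hne
  obtain ⟨g, hg, hgy⟩ := d.conjz h hcard hy
  have hPC : IsSyl (Cen G z) P := d.hP.mono
    (fun p hp => mem_Cen.2 ⟨d.hP.1 hp, d.centz p hp⟩) inf_le_left
  have hR2 : IsPGroup 2 (P ⊓ Subgroup.centralizer {y} : Subgroup (Perm Q)) :=
    d.hP.2.1.to_le inf_le_left
  have hR : ∀ r : Perm Q, r ∈ (P ⊓ Subgroup.centralizer {y} : Subgroup (Perm Q)) ↔
      r ∈ P ∧ r * y = y * r := by
    intro r
    rw [Subgroup.mem_inf, Subgroup.mem_centralizer_singleton_iff]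
  obtain ⟨c, hc, hcP⟩ := hPC.conj_mem hR2 g (by
    intro r hr
    obtain ⟨hrP, hry⟩ := (hR r).1 hr
    refine mem_Cen.2 ⟨G.mul_mem (G.mul_mem (G.inv_mem hg) (d.hP.1 hrP)) hg, ?_⟩
    rw [hgy] at hry
    calc g⁻¹ * r * g * z = g⁻¹ * (r * (g * z * g⁻¹)) * g := by group
      _ = g⁻¹ * (g * z * g⁻¹ * r) * g := by rw [hry]
      _ = z * (g⁻¹ * r * g) := by group)
  obtain ⟨hcG, hcz⟩ := mem_Cen.1 hc
  -- replace `g`
  set f := g * c⁻¹ with hf
  have hfG : f ∈ G := G.mul_mem hg (G.inv_mem hcG)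
  have hfy : y = f * z * f⁻¹ := by
    rw [hf, hgy]
    have h1 : c⁻¹ * z * c = z := by
      calc c⁻¹ * z * c = c⁻¹ * (z * c) := by group
        _ = c⁻¹ * (c * z) := by rw [hcz]
        _ = z := by group
    calc g * z * g⁻¹ = g * (c⁻¹ * z * c) * g⁻¹ := by rw [h1]
      _ = _ := by group
  have hfP : ∀ r ∈ P, r * y = y * r → f⁻¹ * r * f ∈ P := by
    intro r hr hry
    have h1 := hcP r ((hR r).2 ⟨hr, hry⟩)
    have h2 : f⁻¹ * r * f = c * (g⁻¹ * r * g) * c⁻¹ := by rw [hf]; group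
    rw [h2]; exact h1
  set q := f e with hq
  have hfix : ∀ r : Perm Q, (f⁻¹ * r * f) e = e → r q = q := by
    intro r hr
    rw [Perm.mul_apply, Perm.mul_apply, Perm.inv_eq_iff_eq] at hr
    exact hr
  have hyz := d.centz y hyP
  have hyt := d.centt y hyP
  have hu : L x ^ m * y = y * L x ^ m := by
    have : Commute y (L x) := hyt
    exact (this.pow_right m).eq.symm
  have hz1 : f⁻¹ * z * f ∈ P := hfP z (d.SP d.zS) hyz.symm
  have hz1S : f⁻¹ * z * f ∉ S := by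
    intro hS
    have h1 := h.Z_conj d.zZ (G.inv_mem hfG)
    rw [inv_inv] at h1
    have h2 := d.uniqS h hcard h1 hS
    apply hne
    rw [hfy]
    calc f * z * f⁻¹ = f * (f⁻¹ * z * f) * f⁻¹ := by rw [h2]
      _ = z := by group
  have ht1 : f⁻¹ * (L x ^ m) * f ∈ P := hfP _ d.tP hu
  -- the element `r`
  obtain ⟨r, hr, hry, hradj, hrq⟩ : ∃ r ∈ G, y * r = r * y ∧
      (∀ p, r p ≠ p ∧ D L J (r p) * D L J p = D L J p * D L J (r p)) ∧ (r ^ m) q = q := by
    by_cases hS : f⁻¹ * (L x ^ m) * f ∈ S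
    · refine ⟨L x, h.memL x, hyt, h.adjL d.Jx d.xe, ?_⟩
      exact hfix _ (d.hS.1 hS).2
    · refine ⟨z * L x, G.mul_mem d.zG (h.memL x), ?_, ?_, ?_⟩
      · rw [← mul_assoc, hyz, mul_assoc, hyt, ← mul_assoc]
      · intro p
        have := h.adjR d.Jx d.xe p
        rw [d.zt] at this
        exact this
      · have h1 : (z * L x) ^ m = z * L x ^ m := by
          have h2 : Commute z (L x) := d.centt z (d.SP d.zS)
          rw [h2.mul_pow]
          congr 1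
          obtain ⟨j, hj⟩ := d.modd
          rw [hj, pow_succ, pow_mul, pow_two, h.Z_sq d.zZ, one_pow, one_mul]
        rw [h1]
        apply hfix
        have h3 := d.mulP _ hz1 _ ht1 hz1S hS
        have h4 : f⁻¹ * (z * L x ^ m) * f = (f⁻¹ * z * f) * (f⁻¹ * (L x ^ m) * f) := by group
        rw [h4]
        exact (d.hS.1 h3).2
  have hyG : y ∈ G := h.Z_mem hy
  have hyq : y q = q := by
    apply hfix
    have h1 : f⁻¹ * y * f = z := by rw [hfy]; group
    rw [h1]; exact d.ze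
  have hyrq : y (r q) = r q := by
    rw [← Perm.mul_apply, hry, Perm.mul_apply, hyq]
  obtain ⟨hne1, hcomm⟩ := hradj q
  have hw : D L J (r q) * D L J q ∈ Z L J := ⟨r q, q, hne1, hcomm, rfl⟩
  have hwq : (D L J (r q) * D L J q) q = q := by
    rw [← h.D_cent (h.Z_mem hw)]
    calc D L J (r q) * D L J q * D L J q = D L J q * D L J (r q) * D L J q := by rw [hcomm]
      _ = D L J q * (D L J (r q) * D L J q) := by group
  have e1 := (h.D_cent hyG q).2 hyq
  have e2 := (h.D_cent hyG (r q)).2 hyrq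
  have hwy : D L J (r q) * D L J q * y = y * (D L J (r q) * D L J q) := by
    calc D L J (r q) * D L J q * y = D L J (r q) * (D L J q * y) := by group
      _ = D L J (r q) * (y * D L J q) := by rw [e1]
      _ = (D L J (r q) * y) * D L J q := by group
      _ = (y * D L J (r q)) * D L J q := by rw [e2]
      _ = _ := by group
  have hwy' := h.Z_unique hcard hw hy hwy hwq hyq
  have e3 : D L J (r q) = y * D L J q := by
    calc D L J (r q) = (D L J (r q) * D L J q) * D L J q := by rw [mul_assoc, h.D_sq, mul_one]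
      _ = y * D L J q := by rw [hwy']
  have e4 : r (r q) = q := by
    apply h.D_inj
    calc D L J (r (r q)) = r * D L J (r q) * r⁻¹ := (h.D_conj hr _).symm
      _ = r * (y * D L J q) * r⁻¹ := by rw [e3]
      _ = (r * y) * D L J q * r⁻¹ := by group
      _ = (y * r) * D L J q * r⁻¹ := by rw [hry]
      _ = y * (r * D L J q * r⁻¹) := by group
      _ = y * D L J (r q) := by rw [h.D_conj hr]
      _ = y * (y * D L J q) := by rw [e3]
      _ = (y * y) * D L J q := by group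
      _ = D L J q := by rw [h.Z_sq hy, one_mul]
  have e5 : ∀ j : ℕ, (r ^ (2 * j)) q = q ∧ (r ^ (2 * j + 1)) q = r q := by
    intro j
    induction j with
    | zero => exact ⟨rfl, by rw [mul_zero, zero_add, pow_one]⟩
    | succ j ih =>
      have h1 : (r ^ (2 * (j + 1))) q = q := by
        have : 2 * (j + 1) = (2 * j + 1) + 1 := by ring
        rw [this, pow_succ', Perm.mul_apply, ih.2, e4]
      exact ⟨h1, by rw [pow_succ', Perm.mul_apply, h1]⟩
  obtain ⟨j, hj⟩ := d.modd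
  rw [hj, (e5 j).2] at hrq
  exact hne1 hrq

/-- a 2-subgroup of `G` contains at most one element of `Z` -/
theorem seven' [Finite Q] (h : AL G L J e) (hcard : Nat.card Q % 4 = 2)
    (d : PD G L J e S P z x m) {T : Subgroup (Perm Q)} (hT : T ≤ G) (hT2 : IsPGroup 2 T)
    {w w' : Perm Q} (hw : w ∈ Z L J) (hw' : w' ∈ Z L J) (hwT : w ∈ T) (hwT' : w' ∈ T) :
    w = w' := by
  obtain ⟨c, hc, hcP⟩ := d.hP.conj_mem hT2 1 (by
    intro t ht
    rw [inv_one, one_mul, mul_one]; exact hT ht)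
  have h1 : ∀ v ∈ Z L J, v ∈ T → c * v * c⁻¹ = z := by
    intro v hv hvT
    have h2 := hcP v hvT
    rw [inv_one, one_mul, mul_one] at h2
    exact d.seven h hcard (h.Z_conj hv hc) h2
  have h2 := (h1 w hw hwT).trans (h1 w' hw' hwT').symm
  calc w = c⁻¹ * (c * w * c⁻¹) * c := by group
    _ = c⁻¹ * (c * w' * c⁻¹) * c := by rw [h2]
    _ = w' := by group

/-- (8) -/
theorem eight [Finite Q] (h : AL G L J e) (hcard : Nat.card Q % 4 = 2)
    (d : PD G L J e S P z x m) {y : Perm Q} (hy : y ∈ P) (hyS : y ∉ S) (q : Q) : y q ≠ q := by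
  intro hyq
  have hyG : y ∈ G := d.hP.1 hy
  obtain ⟨g, hg, hgq⟩ := h.exists_map e q
  obtain ⟨n, hn⟩ := isPGroup_elem d.hP.2.1 hy
  obtain ⟨c, hc, hcS⟩ := d.hS.conj_mem (zpowers_isPGroup hn) g (by
      rintro _ ⟨k, rfl⟩
      have h1 : y ^ k ∈ G := G.zpow_mem hyG k
      have h2 : (y ^ k) q = q := Perm.zpow_apply_eq_self_of_apply_eq_self hyq k
      refine mem_Inn.2 ⟨G.mul_mem (G.mul_mem (G.inv_mem hg) h1) hg, ?_⟩
      rw [Perm.mul_apply, Perm.mul_apply, hgq, h2, Perm.inv_eq_iff_eq, hgq])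
  have hs := hcS y (Subgroup.mem_zpowers y)
  obtain ⟨hcG, hce⟩ := mem_Inn.1 hc
  set f := g * c⁻¹ with hf
  have hfG : f ∈ G := G.mul_mem hg (G.inv_mem hcG)
  have hfe : f e = q := by
    have h1 : c⁻¹ e = e := by rw [Perm.inv_eq_iff_eq, hce]
    rw [hf, Perm.mul_apply, h1, hgq]
  have hfy : f⁻¹ * y * f ∈ S := by
    have h2 : f⁻¹ * y * f = c * (g⁻¹ * y * g) * c⁻¹ := by rw [hf]; group
    rw [h2]; exact hs
  set w := f * z * f⁻¹ with hw
  have hwZ : w ∈ Z L J := h.Z_conj d.zZ hfG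
  have hwy : w * y = y * w := by
    have h1 := d.centz _ (d.SP hfy)
    calc w * y = f * (z * (f⁻¹ * y * f)) * f⁻¹ := by rw [hw]; group
      _ = f * ((f⁻¹ * y * f) * z) * f⁻¹ := by rw [h1]
      _ = y * w := by rw [hw]; group
  have hwq : w q = q := by
    have h1 : f⁻¹ q = e := by rw [Perm.inv_eq_iff_eq, hfe]
    rw [hw, Perm.mul_apply, Perm.mul_apply, h1, d.ze, hfe]
  obtain ⟨T, hT⟩ := exists_syl (Cen G y)
  have hZT : ∀ v ∈ Z L J, v * y = y * v → ∃ c ∈ Cen G y, c * v * c⁻¹ ∈ T := by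
    intro v hv hvy
    obtain ⟨c, hc, hcT⟩ := hT.conj_mem (T := Subgroup.zpowers v)
      (zpowers_isPGroup (n := 1) (by rw [pow_one, pow_two, h.Z_sq hv])) 1 (by
        rintro _ ⟨k, rfl⟩
        rw [inv_one, one_mul, mul_one]
        exact (Cen G y).zpow_mem (mem_Cen.2 ⟨h.Z_mem hv, hvy⟩) k)
    refine ⟨c, hc, ?_⟩
    have h2 := hcT v (Subgroup.mem_zpowers v)
    rw [inv_one, one_mul, mul_one] at h2
    exact h2
  obtain ⟨c1, hc1, hc1T⟩ := hZT z d.zZ (d.centz y hy).symm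
  obtain ⟨c2, hc2, hc2T⟩ := hZT w hwZ hwy
  obtain ⟨hc1G, hc1y⟩ := mem_Cen.1 hc1
  obtain ⟨hc2G, hc2y⟩ := mem_Cen.1 hc2
  have hTG : T ≤ G := fun t ht => (mem_Cen.1 (hT.1 ht)).1
  have heq := d.seven' h hcard hTG hT.2.1 (h.Z_conj d.zZ hc1G) (h.Z_conj hwZ hc2G) hc1T hc2T
  obtain ⟨hbG, hby⟩ := mem_Cen.1 ((Cen G y).mul_mem ((Cen G y).inv_mem hc1) hc2)
  set b := c1⁻¹ * c2 with hb
  have hzb : z * b = b * w := by
    calc z * b = c1⁻¹ * (c1 * z * c1⁻¹) * c2 := by rw [hb]; group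
      _ = c1⁻¹ * (c2 * w * c2⁻¹) * c2 := by rw [heq]
      _ = b * w := by rw [hb]; group
  refine d.six h hcard hy hyS (a := b q) ?_ ?_
  · rw [← Perm.mul_apply, hzb, Perm.mul_apply, hwq]
  · rw [← Perm.mul_apply, ← hby, Perm.mul_apply, hyq]

end PD

end ALoop
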